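import Pool.Agent.Lib.MP_70bd98_an.Ang0

/-! # Angular test functions -/

open MeasureTheory Complex Metric Set LocalCalderon Filter
open scoped ENNReal Topology

namespace RotCalderon

noncomputable section

variable {m : ℕ}

theorem om_smul {y : X m} {x : X m} {c : ℝ} (hc : 0 < c) (h : y.1 = c • x.1) : om y = om x := by
  unfold om
  rw [h, norm_smul, Real.norm_of_nonneg hc.le, smul_smul, mul_inv]
  congr 1
  field_simp

/-- An angular cut-off function. -/
theorem ang_test {K : Set ℂ} (hK : IsCompact K) {δ : ℝ} (hδ : 0 < δ) (hKδ : ∀ w ∈ K, δ ≤ w.re) {χ : E m → ℝ}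
    (hχ : ContDiff ℝ (⊤ : ℕ∞) χ) :
    ∃ η : X m → ℝ, IsTestN univ η ∧ ∀ x : X m, prof x ∈ K → η =ᶠ[𝓝 x] fun y => χ (om y) := by
  have hO : IsOpen {w : ℂ | δ / 2 < w.re} := isOpen_lt continuous_const Complex.continuous_re
  have hKO : K ⊆ {w : ℂ | δ / 2 < w.re} := fun w hw => by
    have := hKδ w hw
    change δ / 2 < w.re
    linarith
  obtain ⟨ζ, z1, z2, z3⟩ := cut hK hO hKO
  have hD : ∀ w ∈ {w : ℂ | δ / 2 < w.re}, δ / 2 ≤ w.re := fun w hw => le_of_lt hw
  obtain ⟨l1, -⟩ := lift_test (m := m) (half_pos hδ) hD (φ := ζ) ⟨z1.1, z1.2.1, z2⟩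
  refine ⟨fun x => ζ (prof x) * χ (om x), ⟨?_, ?_, subset_univ _⟩, ?_⟩
  · rw [contDiff_iff_contDiffAt]
    intro x
    by_cases hx : x.1 = 0
    · have hU : {y : X m | ‖y.1‖ < δ / 2} ∈ 𝓝 x :=
        (isOpen_lt (continuous_norm.comp continuous_fst) continuous_const).mem_nhds (by simpa [hx] using hδ)
      have hz : (fun x : X m => ζ (prof x) * χ (om x)) =ᶠ[𝓝 x] fun _ => 0 := by
        filter_upwards [hU] with y hy
        have h0 : ζ (prof y) = 0 := by
          by_contra hcon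
          have h1 : prof y ∈ {w : ℂ | δ / 2 < w.re} := z2 (subset_tsupport _ hcon)
          have h2 : δ / 2 < (prof y).re := h1
          rw [prof_re] at h2
          have hy' : ‖y.1‖ < δ / 2 := hy
          linarith
        rw [h0, zero_mul]
      exact contDiffAt_const.congr_of_eventuallyEq hz
    · have h1 : ContDiffAt ℝ (⊤ : ℕ∞) (fun y : X m => ‖y.1‖) x := (contDiffAt_norm ℝ hx).comp x contDiffAt_fst
      have h2 : ContDiffAt ℝ (⊤ : ℕ∞) (om : X m → E m) x :=
        (h1.inv (norm_ne_zero_iff.2 hx)).smul contDiffAt_fst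
      exact l1.1.contDiffAt.mul (hχ.contDiffAt.comp x h2)
  · exact l1.2.1.mul_right
  · intro x hx
    have h1 := (continuous_prof (m := m)).continuousAt.eventually (z3 (prof x) hx)
    filter_upwards [h1] with y hy
    rw [hy, one_mul]

/-- Angular functions have no derivative along radial lifts. -/
theorem ang_deriv {χ : E m → ℝ} {η : X m → ℝ} {x : X m} (hx : x.1 ≠ 0) (hη : IsTestN univ η)
    (he : η =ᶠ[𝓝 x] fun y => χ (om y)) (F : ℂ → ℂ) : dotN (liftG F x) (gradN η x) = 0 := by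
  rw [dotN_comm, dotN_gradN]
  obtain ⟨v, hv⟩ : ∃ v : X m, v = liftG F x := ⟨_, rfl⟩
  rw [← hv]
  have hv1 : v.1 = ((F (prof x)).re / ‖x.1‖) • x.1 := by rw [hv]; rfl
  obtain ⟨s, hs⟩ : ∃ s : ℝ, s = (F (prof x)).re / ‖x.1‖ := ⟨_, rfl⟩
  rw [← hs] at hv1
  have h2 : HasDerivAt (fun τ : ℝ => x + τ • v) v 0 := by
    simpa using ((hasDerivAt_id (0 : ℝ)).smul_const v).const_add x
  have hd : HasFDerivAt η (fderiv ℝ η x) x := (hη.1.differentiable (by simp)).differentiableAt.hasFDerivAt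
  have h3 : HasFDerivAt η (fderiv ℝ η x) (x + (0 : ℝ) • v) := by simpa using hd
  have h1 : HasDerivAt (fun τ : ℝ => η (x + τ • v)) (fderiv ℝ η x v) 0 := h3.comp_hasDerivAt 0 h2
  have ht : Tendsto (fun τ : ℝ => x + τ • v) (𝓝 0) (𝓝 x) := by
    have := h2.continuousAt.tendsto
    simpa using this
  have hp : ∀ᶠ τ : ℝ in 𝓝 0, 0 < 1 + τ * s := by
    have hc : Continuous (fun τ : ℝ => 1 + τ * s) := by fun_prop
    exact hc.continuousAt.eventually (lt_mem_nhds (by simp))
  have h4 : (fun τ : ℝ => η (x + τ • v)) =ᶠ[𝓝 0] fun _ => χ (om x) := by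
    filter_upwards [ht.eventually he, hp] with τ h5 h6
    rw [h5]
    congr 1
    refine om_smul h6 ?_
    rw [Prod.fst_add, Prod.smul_fst, hv1, smul_smul, add_smul, one_smul]
  exact h1.unique ((hasDerivAt_const (0 : ℝ) (χ (om x))).congr_of_eventuallyEq h4)

end

end RotCalderon
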