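import Pool.Agent.Lib.MP_70bd98_an.Intr

/-! # The direction of a point -/

open MeasureTheory Complex Metric Set LocalCalderon Filter
open scoped ENNReal Topology

namespace RotCalderon

noncomputable section

variable {m : ℕ}

/-- The direction `y/|y|` of the point `(y, t)`. -/
def om (x : X m) : E m := ‖x.1‖⁻¹ • x.1

/-- The surface measure of the sphere, as a measure on `E m`. -/
def sE (m : ℕ) : Measure (E m) := Measure.map (Subtype.val : Sp m → E m) (sig m)

theorem om_Psi (ω : Sp m) {w : ℂ} (hw : 0 < w.re) : om (Psi (ω, w)) = (ω : E m) := by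
  have h1 : ‖(ω : E m)‖ = 1 := by simp
  simp only [om, Psi, norm_smul, h1, mul_one, Real.norm_eq_abs, abs_of_pos hw]
  rw [smul_smul, inv_mul_cancel₀ hw.ne', one_smul]

theorem om_meas : Measurable (om (m := m)) :=
  (measurable_norm.comp measurable_fst).inv.smul measurable_fst

theorem ae_D {D : Set ℂ} (hD : MeasurableSet D) : ∀ᵐ p ∂((sig m).prod (nuD m D)), p.2 ∈ D := by
  have := Measure.quasiMeasurePreserving_snd (μ := sig m) (ν := nuD m D)
  exact this.ae (ae_nuD hD)

theorem quasiO (hm : 1 ≤ m) {D : Set ℂ} (hD : MeasurableSet D) (hpos : ∀ w ∈ D, 0 < w.re) :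
    Measure.QuasiMeasurePreserving om ((volume : Measure (X m)).restrict (rev m D)) (sE m) := by
  refine ⟨om_meas, ?_⟩
  rw [restrict_rev hm hD hpos, Measure.map_map om_meas measurable_Psi]
  have h1 : (om ∘ Psi : Sp m × ℂ → E m) =ᵐ[(sig m).prod (nuD m D)] (fun p => (p.1 : E m)) := by
    filter_upwards [ae_D hD] with p hp
    exact om_Psi p.1 (hpos _ hp)
  rw [Measure.map_congr h1]
  have h3 : Measure.QuasiMeasurePreserving (Prod.fst : Sp m × ℂ → Sp m) ((sig m).prod (nuD m D)) (sig m) :=
    Measure.quasiMeasurePreserving_fst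
  have h4 : (fun p : Sp m × ℂ => (p.1 : E m)) = Subtype.val ∘ Prod.fst := rfl
  rw [h4, ← Measure.map_map measurable_subtype_coe measurable_fst]
  exact h3.absolutelyContinuous.map measurable_subtype_coe

theorem formA (hm : 1 ≤ m) {D : Set ℂ} (hDm : MeasurableSet D) (hpos : ∀ w ∈ D, 0 < w.re) {b : E m → ℝ} {g : ℂ → ℝ}
    {F H : ℂ → ℂ} (hb : AEStronglyMeasurable b (sE m)) (hg : AEStronglyMeasurable g (volume.restrict D))
    (hF : AEStronglyMeasurable F (volume.restrict D)) (hH : AEStronglyMeasurable H (volume.restrict D)) :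
    ∫ x in rev m D, b (om x) * (g (prof x) * dotN (liftG F x) (liftG H x)) =
      (∫ y, b y ∂(sE m)) * ∫ w in D, (g w * w.re ^ (m - 1)) * dot (F w) (H w) := by
  have hdot : AEStronglyMeasurable (fun w => dot (F w) (H w)) (volume.restrict D) := by
    unfold dot
    exact ((Complex.continuous_re.comp_aestronglyMeasurable hF).mul (Complex.continuous_re.comp_aestronglyMeasurable hH)).add
      ((Complex.continuous_im.comp_aestronglyMeasurable hF).mul (Complex.continuous_im.comp_aestronglyMeasurable hH))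
  have hk : AEStronglyMeasurable (fun w => g w * dot (F w) (H w)) (volume.restrict D) := hg.mul hdot
  have e1 : ∫ x in rev m D, b (om x) * (g (prof x) * dotN (liftG F x) (liftG H x)) =
      ∫ x in rev m D, b (om x) * (fun w => g w * dot (F w) (H w)) (prof x) := by
    refine setIntegral_congr_fun (measurable_prof hDm) fun x hx => ?_
    have : x.1 ≠ 0 := by
      intro h0
      have h1 := hpos _ hx
      rw [prof_re, h0, norm_zero] at h1
      exact lt_irrefl _ h1
    simp only [dot_lift this]
  have m1 : AEStronglyMeasurable (fun x : X m => b (om x)) ((volume : Measure (X m)).restrict (rev m D)) :=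
    hb.comp_quasiMeasurePreserving (quasiO hm hDm hpos)
  have m2 : AEStronglyMeasurable (fun x : X m => (fun w => g w * dot (F w) (H w)) (prof x))
      ((volume : Measure (X m)).restrict (rev m D)) :=
    hk.comp_quasiMeasurePreserving (quasi hm hDm hpos)
  have m3 : AEStronglyMeasurable (fun x : X m => b (om x) * (fun w => g w * dot (F w) (H w)) (prof x))
      ((volume : Measure (X m)).restrict (rev m D)) := m1.mul m2
  rw [e1]
  rw [restrict_rev hm hDm hpos] at m3 ⊢
  rw [integral_map measurable_Psi.aemeasurable m3]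
  have e2 : ∫ p, b (om (Psi p)) * (fun w => g w * dot (F w) (H w)) (prof (Psi p)) ∂((sig m).prod (nuD m D)) =
      ∫ p, (fun ω : Sp m => b ω) p.1 * (fun w => g w * dot (F w) (H w)) p.2 ∂((sig m).prod (nuD m D)) := by
    refine integral_congr_ae ?_
    filter_upwards [ae_D hDm] with p hp
    show b (om (Psi (p.1, p.2))) * (fun w => g w * dot (F w) (H w)) (prof (Psi (p.1, p.2))) = _
    rw [om_Psi p.1 (hpos _ hp), prof_Psi p.1 (hpos _ hp)]
  rw [e2, integral_prod_mul (fun ω : Sp m => b ω) (fun w => g w * dot (F w) (H w))]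
  congr 1
  · exact (integral_map measurable_subtype_coe.aemeasurable hb).symm
  · rw [int_nuD hDm hpos]
    refine integral_congr_ae (Eventually.of_forall fun w => ?_)
    simp only
    ring

theorem eqnA (hm : 1 ≤ m) {D : Set ℂ} (hDm : MeasurableSet D) {δ : ℝ} (hδ : 0 < δ) (hD : ∀ w ∈ D, δ ≤ w.re)
    (a : E m → ℝ) (g : ℂ → ℝ) (G : ℂ → ℂ)
    (h : ∀ ψ : ℂ → ℝ, IsTest D ψ → ∫ w in D, (g w * w.re ^ (m - 1)) * dot (G w) (grad ψ w) = 0)
    (φ : X m → ℝ) (hφ : IsTestN (rev m D) φ) :
    ∫ x in rev m D, (a (om x) * g (prof x)) * dotN (liftG G x) (gradN φ x) = 0 := by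
  have hpos : ∀ w ∈ D, 0 < w.re := fun w hw => hδ.trans_le (hD w hw)
  refine int_zero hm hDm hpos _ fun ω => ?_
  obtain ⟨ψ, hψ, hψ2⟩ := slice hδ hD hφ ω
  have key : ∫ w in D, w.re ^ (m - 1) * ((a (om (Psi (ω, w))) * g (prof (Psi (ω, w)))) *
      dotN (liftG G (Psi (ω, w))) (gradN φ (Psi (ω, w)))) =
      ∫ w in D, a ω * ((g w * w.re ^ (m - 1)) * dot (G w) (grad ψ w)) := by
    refine setIntegral_congr_fun hDm fun w hw => ?_
    have hw' := hpos w hw
    rw [om_Psi ω hw', prof_Psi ω hw', liftG_Psi G ω hw', dotN_comm, dotN_gradN, (hψ2 w hw).2]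
    have e1 : fderiv ℝ φ (Psi (ω, w)) ((G w).re • (ω : E m), (G w).im)
        = (G w).re * fderiv ℝ φ (Psi (ω, w)) ((ω : E m), 0) + (G w).im * fderiv ℝ φ (Psi (ω, w)) (0, 1) := by
      have : ((G w).re • (ω : E m), (G w).im) = (G w).re • ((ω : E m), (0 : ℝ)) + (G w).im • ((0 : E m), (1 : ℝ)) := by
        simp
      rw [this, map_add, map_smul, map_smul, smul_eq_mul, smul_eq_mul]
    rw [e1]
    simp only [dot, Complex.add_re, Complex.add_im, Complex.ofReal_re, Complex.ofReal_im, Complex.mul_re, Complex.mul_im,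
      Complex.I_re, Complex.I_im]
    ring
  rw [key, integral_const_mul, h ψ hψ, mul_zero]

theorem dotN_lin (A B C : X m) (s t : ℝ) : dotN A (s • B + t • C) = s * dotN A B + t * dotN A C := by
  unfold dotN
  simp only [Prod.fst_add, Prod.smul_fst, Prod.snd_add, Prod.smul_snd, inner_add_right, smul_eq_mul, real_inner_smul_right]
  ring

theorem trN_mul {W Γ : Set (X m)} (hW : MeasurableSet W) {u : X m → ℝ} (hu : TraceInN W Γ u) {η : X m → ℝ}
    (hη : IsTestN univ η) : TraceInN W Γ (fun x => η x * u x) := by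
  obtain ⟨K, h1, h2, h3⟩ := hu
  refine ⟨K, h1, h2, fun θ hθ hd => ?_⟩
  obtain ⟨G, hG⟩ := h3 θ hθ hd
  have := h10N_mul hW hG hη
  refine ⟨_, h10N_congr this (Eventually.of_forall fun x => ?_) (Eventually.of_forall fun x => rfl) hW⟩
  simp only
  ring

theorem h1N_mul {W : Set (X m)} {u : X m → ℝ} {G : X m → X m} (h : H1N W u G)
    {η : X m → ℝ} (hη : IsTestN univ η) : H1N W (fun x => η x * u x) (fun x => η x • G x + u x • gradN η x) := by
  obtain ⟨C, hC⟩ := hη.2.1.exists_bound_of_continuous hη.1.continuous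
  obtain ⟨C', hC'⟩ := (gN_supp hη.2.1).exists_bound_of_continuous (gN_cont hη.1)
  have hC0 : 0 ≤ C := (norm_nonneg _).trans (hC 0)
  have hC0' : 0 ≤ C' := (norm_nonneg _).trans (hC' 0)
  have hu := h.1
  have hG := h.2.1
  have mη : AEStronglyMeasurable η (volume.restrict W) := (test_mem hη W).1
  have mη' : AEStronglyMeasurable (gradN η) (volume.restrict W) := (grad_mem hη W).1
  have b1 : ∀ (f : X m → ℝ), eLpNorm (fun x => η x * f x) 2 (volume.restrict W) ≤
      ENNReal.ofReal C * eLpNorm f 2 (volume.restrict W) := fun f => by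
    refine eLpNorm_le_mul_eLpNorm_of_ae_le_mul (Eventually.of_forall fun z => ?_) 2
    rw [norm_mul]
    exact mul_le_mul_of_nonneg_right (hC z) (norm_nonneg _)
  have b2 : ∀ (F : X m → X m), eLpNorm (fun x => η x • F x) 2 (volume.restrict W) ≤
      ENNReal.ofReal C * eLpNorm F 2 (volume.restrict W) := fun F => by
    refine eLpNorm_le_mul_eLpNorm_of_ae_le_mul (Eventually.of_forall fun z => ?_) 2
    rw [norm_smul]
    exact mul_le_mul_of_nonneg_right (hC z) (norm_nonneg _)
  have b3 : ∀ (f : X m → ℝ), eLpNorm (fun x => f x • gradN η x) 2 (volume.restrict W) ≤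
      ENNReal.ofReal C' * eLpNorm f 2 (volume.restrict W) := fun f => by
    refine eLpNorm_le_mul_eLpNorm_of_ae_le_mul (Eventually.of_forall fun z => ?_) 2
    rw [norm_smul, mul_comm]
    exact mul_le_mul_of_nonneg_right (hC' z) (norm_nonneg _)
  have m1 : MemLp (fun x => η x * u x) 2 (volume.restrict W) :=
    ⟨mη.mul hu.1, (b1 u).trans_lt (ENNReal.mul_lt_top ENNReal.ofReal_lt_top hu.2)⟩
  have m2 : MemLp (fun x => η x • G x) 2 (volume.restrict W) :=
    ⟨mη.smul hG.1, (b2 G).trans_lt (ENNReal.mul_lt_top ENNReal.ofReal_lt_top hG.2)⟩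
  have m3 : MemLp (fun x => u x • gradN η x) 2 (volume.restrict W) :=
    ⟨hu.1.smul mη', (b3 u).trans_lt (ENNReal.mul_lt_top ENNReal.ofReal_lt_top hu.2)⟩
  refine ⟨m1, m2.add m3, fun φ hφ v => ?_⟩
  have ht : IsTestN W (fun x => η x * φ x) :=
    ⟨hη.1.mul hφ.1, hφ.2.1.mul_left, (tsupport_mul_subset_right (f := η) (g := φ)).trans hφ.2.2⟩
  have hw := h.2.2 _ ht v
  have i1 : Integrable (fun x => (η x * u x) * dotN (gradN φ x) v) (volume.restrict W) :=
    m1.integrable_mul (memLp_dot (grad_mem hφ W) v)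
  have i2 : Integrable (fun x => φ x * dotN (u x • gradN η x) v) (volume.restrict W) :=
    (test_mem hφ W).integrable_mul (memLp_dot m3 v)
  have i3 : Integrable (fun x => φ x * dotN (η x • G x) v) (volume.restrict W) :=
    (test_mem hφ W).integrable_mul (memLp_dot m2 v)
  have e1 : ∫ x in W, u x * dotN (gradN (fun x => η x * φ x) x) v =
      (∫ x in W, (η x * u x) * dotN (gradN φ x) v) + ∫ x in W, φ x * dotN (u x • gradN η x) v := by
    rw [← integral_add i1 i2]
    refine integral_congr_ae (Eventually.of_forall fun x => ?_)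
    simp only
    rw [gN_mul (test_diff hη x) (test_diff hφ x), dotN_comm, dotN_lin, dotN_comm (u x • gradN η x) v]
    have : dotN v (u x • gradN η x) = u x * dotN v (gradN η x) := by
      have := dotN_lin v (gradN η x) 0 (u x) 0
      simpa using this
    rw [this, dotN_comm (gradN φ x) v]
    ring
  have e2 : ∫ x in W, (η x * φ x) * dotN (G x) v = ∫ x in W, φ x * dotN (η x • G x) v := by
    refine integral_congr_ae (Eventually.of_forall fun x => ?_)
    simp only
    have : dotN (η x • G x) v = η x * dotN (G x) v := by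
      rw [dotN_comm]
      have := dotN_lin v (G x) 0 (η x) 0
      rw [dotN_comm (G x) v]
      simpa using this
    rw [this]
    ring
  have e3 : ∫ x in W, φ x * dotN (η x • G x + u x • gradN η x) v =
      (∫ x in W, φ x * dotN (η x • G x) v) + ∫ x in W, φ x * dotN (u x • gradN η x) v := by
    rw [← integral_add i3 i2]
    refine integral_congr_ae (Eventually.of_forall fun x => ?_)
    simp only
    have : dotN (η x • G x + u x • gradN η x) v = dotN (η x • G x) v + dotN (u x • gradN η x) v := by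
      unfold dotN
      simp only [Prod.fst_add, Prod.snd_add, inner_add_left]
      ring
    rw [this]
    ring
  rw [e1, e2] at hw
  rw [e3]
  linarith

end

end RotCalderon
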