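import Pool.Agent.Lib.MP_4ea4c7_an.AsmH

/-! # Degenerate planar conductivities `γ κ²`: transfer and uniqueness for a general weight `κ` -/

open MeasureTheory Complex Metric Set Filter Topology
open scoped ComplexConjugate ENNReal NNReal

namespace Cal

noncomputable section

/-- Weights: `κ` vanishes exactly on the complement of `G`, which has weighted capacity zero. -/
structure KW (G : Set ℂ) (κ : ℂ → ℝ) : Prop where
  oG : IsOpen G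
  cG : IsConnected G
  ext : ∀ z : ℂ, 1 / 2 ≤ ‖z‖ → z ∈ G
  meas : Measurable κ
  cont : ContinuousOn κ G
  pos : ∀ z ∈ G, 0 < κ z
  lo : ∀ z, 0 ≤ κ z
  hi : ∀ z, κ z ≤ 1
  off : ∀ z, z ∉ G → κ z = 0
  one : ∀ z : ℂ, 3 / 4 ≤ ‖z‖ → κ z = 1
  cut : Cut G κ

/-- Transfer of solutions of the degenerate equation. -/
def TW (Ω G : Set ℂ) (κ γ₁ γ₂ : ℂ → ℝ) : Prop :=
  ∀ (w : ℂ → ℝ) (W : ℂ → ℂ) (M : ℝ), ContinuousOn w G → WG G w W → (∀ z ∈ G, ‖z‖ < 5 / 8 → |w z| ≤ M) →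
    (∀ R : ℝ, IntegrableOn (fun z => κ z ^ 2 * ‖W z‖ ^ 2) (G ∩ closedBall 0 R) volume) →
    (∀ φ : ℂ → ℝ, RTF G φ → ∫ z in G, γ₁ z * κ z ^ 2 * ip (W z) (gr φ z) = 0) →
    ∃ (w₂ : ℂ → ℝ) (W₂ : ℂ → ℂ), WG G w₂ W₂ ∧ (∀ᵐ z ∂(volume.restrict G), z ∉ Ω → w₂ z = w z ∧ W₂ z = W z) ∧
      (∀ R : ℝ, IntegrableOn (fun z => κ z ^ 2 * ‖W₂ z‖ ^ 2) (G ∩ closedBall 0 R) volume) ∧
      ∀ φ : ℂ → ℝ, RTF G φ → ∫ z in G, γ₂ z * κ z ^ 2 * ip (W₂ z) (gr φ z) = 0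

private theorem kwx_lo {C σ : ℝ} (hC : 1 ≤ C) (h0 : 0 ≤ σ) (h1 : σ ≤ C) :
    -((C - 1) / (C + 1)) ≤ (1 - σ) / (1 + σ) := by
  rw [← neg_div, div_le_div_iff₀ (by linarith) (by linarith)]
  nlinarith

private theorem kwx_hi {σ : ℝ} (h0 : 0 ≤ σ) : (1 - σ) / (1 + σ) ≤ 1 := by
  rw [div_le_one (by linarith)]
  linarith

private theorem kwx_mono {s σ : ℝ} (hs : 0 < s) (h : s ≤ σ) :
    (1 - σ) / (1 + σ) ≤ (1 - s) / (1 + s) := by
  rw [div_le_div_iff₀ (by linarith) (by linarith)]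
  nlinarith

private theorem kwx_one {σ : ℝ} (h0 : 0 ≤ σ) : 1 - (1 - σ) / (1 + σ) = 2 * σ / (1 + σ) := by
  have : (1 : ℝ) + σ ≠ 0 := by positivity
  field_simp
  ring

theorem kw_adm {G : Set ℂ} {κ : ℂ → ℝ} (hκ : KW G κ) {c C : ℝ} {γ : ℂ → ℝ} (hc : 0 < c) (hγ : Cond c C γ)
    (hγ1 : ∀ z : ℂ, 1 / 2 ≤ ‖z‖ → γ z = 1) : Adm G ((C - 1) / (C + 1)) (muk γ κ) ∧ Wt G (muk γ κ) κ := by
  have hC : 1 ≤ C := by
    rw [← hγ1 1 (by simp; norm_num)]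
    exact hγ.hi 1
  have hκ2 : ∀ z, κ z ^ 2 ≤ 1 := fun z => by
    have h1 := hκ.lo z
    have h2 := hκ.hi z
    nlinarith
  have hσ0 : ∀ z, 0 ≤ γ z * κ z ^ 2 := fun z =>
    mul_nonneg (hc.le.trans (hγ.lo z)) (sq_nonneg _)
  have hσC : ∀ z, γ z * κ z ^ 2 ≤ C := fun z => by
    calc γ z * κ z ^ 2 ≤ C * 1 :=
          mul_le_mul (hγ.hi z) (hκ2 z) (sq_nonneg _) (by linarith)
      _ = C := mul_one C
  have hσc : ∀ z, c * κ z ^ 2 ≤ γ z * κ z ^ 2 := fun z =>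
    mul_le_mul_of_nonneg_right (hγ.lo z) (sq_nonneg _)
  refine ⟨⟨hκ.oG, hκ.cG, hκ.ext, ?_, ?_, ?_, ?_, ?_, ?_, ?_⟩,
    ⟨hκ.meas, hκ.cont, hκ.pos, hκ.lo, hκ.hi, hκ.off, hκ.one, ?_, hκ.cut⟩⟩
  · have hm : Measurable (fun z => γ z * κ z ^ 2) := hγ.meas.mul (hκ.meas.pow_const 2)
    exact (measurable_const.sub hm).div (measurable_const.add hm)
  · exact div_nonneg (by linarith) (by linarith)
  · rw [div_lt_one (by linarith)]; linarith
  · intro z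
    exact kwx_lo hC (hσ0 z) (hσC z)
  · intro z
    exact kwx_hi (hσ0 z)
  · intro K hK hKG
    rcases K.eq_empty_or_nonempty with rfl | hne
    · exact ⟨0, by norm_num, fun z hz => absurd hz (notMem_empty z)⟩
    · obtain ⟨z0, hz0, hmin⟩ := hK.exists_isMinOn hne (hκ.cont.mono hKG)
      have hκ0 : 0 < κ z0 := hκ.pos z0 (hKG hz0)
      have hs0 : 0 < c * κ z0 ^ 2 := by positivity
      refine ⟨max ((1 - c * κ z0 ^ 2) / (1 + c * κ z0 ^ 2)) ((C - 1) / (C + 1)), ?_, ?_⟩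
      · refine max_lt ?_ ?_
        · rw [div_lt_one (by linarith)]; linarith
        · rw [div_lt_one (by linarith)]; linarith
      · intro z hz
        have h1 : κ z0 ≤ κ z := hmin hz
        have h2 : c * κ z0 ^ 2 ≤ γ z * κ z ^ 2 := by
          refine le_trans ?_ (hσc z)
          have : κ z0 ^ 2 ≤ κ z ^ 2 := by nlinarith
          exact mul_le_mul_of_nonneg_left this hc.le
        have h3 := kwx_mono hs0 h2
        have h4 := kwx_lo hC (hσ0 z) (hσC z)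
        unfold muk
        rw [abs_le]
        constructor
        · have := le_max_right ((1 - c * κ z0 ^ 2) / (1 + c * κ z0 ^ 2)) ((C - 1) / (C + 1))
          linarith
        · exact h3.trans (le_max_left _ _)
  · intro z hz
    unfold muk
    rw [hγ1 z (by linarith), hκ.one z hz]
    norm_num
  · refine ⟨2 * c / (1 + C), 2 * C, by positivity, fun z _ => ?_⟩
    unfold muk
    rw [kwx_one (hσ0 z)]
    have h5 := hσ0 z
    have h6 : 0 ≤ κ z ^ 2 := sq_nonneg _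
    constructor
    · rw [div_mul_eq_mul_div, div_le_div_iff₀ (by linarith) (by linarith)]
      have h7 := hσC z
      have h8 := hσc z
      nlinarith [mul_nonneg hc.le h6, mul_nonneg h5 (by linarith : (0 : ℝ) ≤ 1 + C)]
    · rw [div_le_iff₀ (by linarith)]
      have h7 : γ z * κ z ^ 2 ≤ C * κ z ^ 2 := mul_le_mul_of_nonneg_right (hγ.hi z) h6
      nlinarith [mul_nonneg (mul_nonneg (by linarith : (0 : ℝ) ≤ C) h6) h5]

theorem kw_str {G : Set ℂ} {κ : ℂ → ℝ} (hκW : KW G κ) {c C : ℝ} {γ w : ℂ → ℝ} {W : ℂ → ℂ} (hc : 0 < c) (hCond : Cond c C γ)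
    (hγ1 : ∀ z : ℂ, 1 / 2 ≤ ‖z‖ → γ z = 1) (hWG : WG G w W)
    (hint : ∀ R : ℝ, IntegrableOn (fun z => κ z ^ 2 * ‖W z‖ ^ 2) (G ∩ closedBall 0 R) volume)
    (heq : ∀ φ : ℂ → ℝ, RTF G φ → ∫ z in G, γ z * κ z ^ 2 * ip (W z) (gr φ z) = 0) :
    ∃ F : ℂ → ℂ, ContinuousOn F G ∧ (∀ᵐ z ∂(volume.restrict G), (F z).re = w z) ∧
      WD G F (fun z => ((1 + γ z * κ z ^ 2 : ℝ) : ℂ) / 2 * conj (W z)) (fun z => ((1 - γ z * κ z ^ 2 : ℝ) : ℂ) / 2 * W z) ∧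
      (∀ z, ((1 - γ z * κ z ^ 2 : ℝ) : ℂ) / 2 * W z = (muk γ κ z : ℂ) * conj (((1 + γ z * κ z ^ 2 : ℝ) : ℂ) / 2 * conj (W z))) ∧
      ∀ R : ℝ, IntegrableOn (fun z => ‖((1 + γ z * κ z ^ 2 : ℝ) : ℂ) / 2 * conj (W z)‖ ^ 2 - ‖((1 - γ z * κ z ^ 2 : ℝ) : ℂ) / 2 * W z‖ ^ 2) (G ∩ closedBall 0 R) volume := by
  have hG := hκW.oG
  have hγ : ∀ z, 0 ≤ γ z ∧ γ z ≤ C := fun z => ⟨hc.le.trans (hCond.lo z), hCond.hi z⟩
  have hκ : ∀ z, 0 ≤ κ z ∧ κ z ≤ 1 := fun z => ⟨hκW.lo z, hκW.hi z⟩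
  obtain ⟨hXL, hXd⟩ := t_kplane G C γ κ W hG hCond.meas hγ hκW.meas hκ hκW.cut hWG.G2 hint heq
  set X : ℂ → ℂ := G.indicator (fun z => ((γ z * κ z ^ 2 : ℝ) : ℂ) * W z) with hX
  obtain ⟨s, hsm, hs⟩ := t_apl X hXL hXd
  obtain ⟨hAdm, _⟩ := kw_adm hκW hc hCond hγ1
  set A : ℂ → ℂ := fun z => ((1 + γ z * κ z ^ 2 : ℝ) : ℂ) / 2 * conj (W z) with hA
  set B : ℂ → ℂ := fun z => ((1 - γ z * κ z ^ 2 : ℝ) : ℂ) / 2 * W z with hB
  have hσ : ∀ z, 0 ≤ γ z * κ z ^ 2 := fun z => mul_nonneg (hγ z).1 (by positivity)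
  have hBA : ∀ z, B z = (muk γ κ z : ℂ) * conj (A z) := by
    intro z
    have h0 : (1 + γ z * κ z ^ 2 : ℝ) ≠ 0 := by linarith [hσ z]
    have h0' : ((1 + γ z * κ z ^ 2 : ℝ) : ℂ) ≠ 0 := ofReal_ne_zero.2 h0
    have e1 : conj (A z) = ((1 + γ z * κ z ^ 2 : ℝ) : ℂ) / 2 * W z := by
      rw [hA]
      simp only [map_mul, map_div₀, conj_ofReal, conj_conj, map_ofNat]
    rw [e1, hB, muk, ofReal_div]
    simp only
    field_simp
  have hw1 : WD G (fun z => (w z : ℂ)) (fun z => conj (W z) / 2) (fun z => W z / 2) :=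
    t_bridge.2.1 G w W hWG
  have hs1 : WD univ (fun z => (s z : ℂ)) (fun z => conj (I * X z) / 2) (fun z => I * X z / 2) :=
    t_bridge.2.1 univ s _ hs
  have hs2 := t_basic.2.1 G _ _ _ I (t_basic.2.2.2.2.1 univ G _ _ _ (subset_univ _) hs1)
  have hsum := t_basic.1 G _ _ _ _ _ _ hw1 hs2
  have hWD : WD G (fun z => (w z : ℂ) + I * (s z : ℂ)) A B := by
    refine t_basic.2.2.2.1 G _ _ _ _ _ _ hG.measurableSet hsum (ae_eq_refl _) ?_ ?_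
    · rw [EventuallyEq, ae_restrict_iff' hG.measurableSet]
      refine Eventually.of_forall fun z hz => ?_
      simp only [hX, hA, indicator_of_mem hz]
      rw [map_mul, map_mul, conj_I, conj_ofReal]
      push_cast
      linear_combination (-((γ z : ℂ) * (κ z : ℂ) ^ 2 * conj (W z)) / 2) * I_mul_I
    · rw [EventuallyEq, ae_restrict_iff' hG.measurableSet]
      refine Eventually.of_forall fun z hz => ?_
      simp only [hX, hB, indicator_of_mem hz]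
      push_cast
      linear_combination (((γ z : ℂ) * (κ z : ℂ) ^ 2 * W z) / 2) * I_mul_I
  obtain ⟨F, hFc, hFe⟩ := t_areg G (muk γ κ) _ A B hG hAdm.meas hAdm.loc
    (fun z hz => hAdm.supp z hz.le) hWD (Eventually.of_forall hBA)
  have hFWD : WD G F A B := by
    refine t_basic.2.2.2.1 G _ _ _ _ _ _ hG.measurableSet hWD ?_ (ae_eq_refl _) (ae_eq_refl _)
    filter_upwards [hFe] with z hz
    exact hz.symm
  refine ⟨F, hFc, ?_, hFWD, hBA, ?_⟩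
  · filter_upwards [hFe] with z hz
    rw [hz]
    simp
  intro R
  have e1 : (fun z => ‖A z‖ ^ 2 - ‖B z‖ ^ 2) = fun z => γ z * (κ z ^ 2 * ‖W z‖ ^ 2) := by
    funext z
    simp only [hA, hB, norm_mul, norm_div, Complex.norm_real, RCLike.norm_conj, Complex.norm_ofNat,
      mul_pow, div_pow, Real.norm_eq_abs, sq_abs]
    ring
  rw [e1]
  have hgm : AEStronglyMeasurable γ (volume.restrict (G ∩ closedBall 0 R)) := hCond.meas.aestronglyMeasurable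
  refine Integrable.bdd_mul (hint R) hgm (Eventually.of_forall fun z => ?_) (c := C)
  rw [Real.norm_eq_abs, abs_of_nonneg (hγ z).1]
  exact (hγ z).2

end

end Cal
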