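import Pool.Agent.Lib.MP_70bd98_an.AxC

/-! # Degenerate planar conductivities: the T-lemma and the conclusion -/

open MeasureTheory Complex Metric Set Filter Topology
open scoped ComplexConjugate ENNReal NNReal

namespace Cal

noncomputable section

theorem kw_tr {Ω G : Set ℂ} {κ : ℂ → ℝ} (hκW : KW G κ) (hΩ : Ω ⊆ ball 0 (1 / 2)) {c C : ℝ} {γ₁ γ₂ : ℂ → ℝ} (hc : 0 < c)
    (hγ₁ : Cond c C γ₁) (hγ₂ : Cond c C γ₂) (ho₁ : ∀ z, z ∉ Ω → γ₁ z = 1) (ho₂ : ∀ z, z ∉ Ω → γ₂ z = 1)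
    (hT : TW Ω G κ γ₁ γ₂) {F : ℂ → ℂ} {M : ℝ} (hF : Cl G (muk γ₁ κ) F) (hFM : ∀ z ∈ G, ‖z‖ < 5 / 8 → ‖F z‖ ≤ M) :
    ∃ F₂ : ℂ → ℂ, Cl G (muk γ₂ κ) F₂ ∧ ∀ z : ℂ, 1 / 2 < ‖z‖ → F₂ z = F z := by
  have hGo := hκW.oG
  have hfar : ∀ z : ℂ, 1 / 2 ≤ ‖z‖ → z ∉ Ω := by
    intro z hz hzΩ
    have := hΩ hzΩ
    rw [mem_ball_zero_iff] at this
    linarith
  have hf₁ : ∀ z : ℂ, 1 / 2 ≤ ‖z‖ → γ₁ z = 1 := fun z hz => ho₁ z (hfar z hz)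
  have hf₂ : ∀ z : ℂ, 1 / 2 ≤ ‖z‖ → γ₂ z = 1 := fun z hz => ho₂ z (hfar z hz)
  obtain ⟨hA1, hW1⟩ := kw_adm hκW hc hγ₁ hf₁
  obtain ⟨A, B, hD⟩ := ((t_kCll G _ (muk γ₁ κ) κ hA1 hW1).2.2 F).1 hF
  obtain ⟨hre, him, -, hS, -, hint, -⟩ := t_kClE G _ (muk γ₁ κ) κ F A B hA1 hW1 hD
  have hrec : ContinuousOn (fun z => (F z).re) G := Complex.continuous_re.comp_continuousOn hD.cont
  -- the equation for w
  have heq1 : ∀ φ : ℂ → ℝ, RTF G φ → ∫ z in G, γ₁ z * κ z ^ 2 * ip (conj (A z) + B z) (gr φ z) = 0 := by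
    intro φ hφ
    have hwg : WG univ φ (gr φ) := t_bridge.2.2.1 univ φ isOpen_univ
      ((hφ.1.of_le (by exact_mod_cast le_top)).contDiffOn)
    obtain ⟨-, hz, -⟩ := t_wedge G φ (fun z => (F z).im) (gr φ) (fun z => I * (conj (A z) - B z)) hGo hwg
      hφ.2.1 hφ.2.2 him
    have e1 : ∫ z in G, cr (gr φ z) (I * (conj (A z) - B z)) = ∫ z, cr (gr φ z) (I * (conj (A z) - B z)) := by
      apply setIntegral_eq_integral_of_forall_compl_eq_zero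
      intro z hz
      rw [ktr_gr0 (fun hz2 => hz (hφ.2.2 hz2))]
      simp [cr]
    rw [← hz, ← e1]
    apply integral_congr_ae
    filter_upwards [hS] with z hzS
    rw [hzS.1, ktr_sig hc hγ₁, ktr_cr]
  obtain ⟨w₂, W₂, hwg2, hoff, hint2, heq2⟩ := hT (fun z => (F z).re) (fun z => conj (A z) + B z) M hrec hre
    (fun z hz hz2 => (Complex.abs_re_le_norm (F z)).trans (hFM z hz hz2)) (fun R => (hint R).1) heq1
  obtain ⟨F', hF'c, hF're, hF'wd, hF'eq, hF'en⟩ := kw_str hκW hc hγ₂ hf₂ hwg2 hint2 heq2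
  -- the exterior
  have hEo : IsOpen {z : ℂ | 1 / 2 < ‖z‖} := isOpen_lt continuous_const continuous_norm
  have hEc : IsConnected {z : ℂ | 1 / 2 < ‖z‖} := t_kgeo.2 (1 / 2) (by norm_num)
  have hEG : {z : ℂ | 1 / 2 < ‖z‖} ⊆ G := fun z hz => hκW.ext z (le_of_lt hz)
  have hb1 := (t_bridge.1 G F' _ _ hF'wd).2
  have hwgE1 := (t_kcalc G hGo).2.2.1 _ _ _ hEG hb1
  have hwgE2 := (t_kcalc G hGo).2.2.1 _ _ _ hEG him
  have hwgE := (t_kcalc _ hEo).1 _ _ _ _ (-1) hwgE1 hwgE2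
  have hoffE : ∀ᵐ z ∂(volume.restrict {z : ℂ | 1 / 2 < ‖z‖}), w₂ z = (F z).re ∧ W₂ z = conj (A z) + B z := by
    filter_upwards [ae_restrict_mem hEo.measurableSet, ae_restrict_of_ae_restrict_of_subset hEG hoff] with z hz hz2
    exact hz2 (hfar z (le_of_lt hz))
  have hzero := t_aconst {z : ℂ | 1 / 2 < ‖z‖} _ _ hEo hEc.isPreconnected hwgE (by
    filter_upwards [ae_restrict_mem hEo.measurableSet, hoffE,
      ae_restrict_of_ae_restrict_of_subset hEG hS] with z hz hz2 hz4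
    have hz1 : 1 / 2 < ‖z‖ := hz
    rw [hz4.1, ktr_sig hc hγ₁, hz2.2, hf₁ z hz1.le, hf₂ z hz1.le]
    simp only [map_mul, map_div₀, Complex.conj_ofReal, Complex.conj_conj, map_ofNat]
    push_cast
    ring)
  have hconst := hzero.2 (by
    apply ContinuousOn.add
    · exact Complex.continuous_im.comp_continuousOn (hF'c.mono hEG)
    · exact continuousOn_const.mul (Complex.continuous_im.comp_continuousOn (hD.cont.mono hEG)))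
  have h1E : (1 : ℂ) ∈ {z : ℂ | 1 / 2 < ‖z‖} := by
    simp only [Set.mem_ofPred_eq, norm_one]
    norm_num
  have hreE : EqOn (fun z => (F' z).re) (fun z => (F z).re) {z : ℂ | 1 / 2 < ‖z‖} := by
    refine Measure.eqOn_open_of_ae_eq (μ := volume) ?_ hEo
      (continuous_re.comp_continuousOn (hF'c.mono hEG)) (hrec.mono hEG)
    filter_upwards [hoffE, ae_restrict_of_ae_restrict_of_subset hEG hF're] with z hz hz2
    rw [hz2, hz.1]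
  obtain ⟨b, hb⟩ : ∃ b : ℝ, b = (F' 1).im - (F 1).im := ⟨_, rfl⟩
  have hFE : ∀ z : ℂ, 1 / 2 < ‖z‖ → F' z + -(I * (b : ℂ)) = F z := by
    intro z hz
    have hi := hconst z hz 1 h1E
    have hr : (F' z).re = (F z).re := hreE hz
    apply Complex.ext
    · simp [hr]
    · simp only [Complex.add_im, Complex.neg_im, Complex.mul_im, Complex.I_re, Complex.I_im,
        Complex.ofReal_re, Complex.ofReal_im]
      rw [hb]
      linarith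
  refine ⟨fun z => F' z + -(I * (b : ℂ)), ⟨?_, ?_, ?_⟩, hFE⟩
  · exact hF'c.add continuousOn_const
  · refine hF.hol.congr ?_
    intro z hz
    have hz2 : (3 : ℝ) / 4 < ‖z‖ := hz
    exact hFE z (by linarith)
  · refine ⟨_, _, ?_, ae_of_all _ hF'eq, hF'en⟩
    have hcst := t_smooth.2.1 G (fun _ => -(I * (b : ℂ))) hGo (differentiableOn_const _)
    have hsum := t_basic.1 G _ _ _ _ _ _ hF'wd hcst
    simpa using hsum

private theorem Tlx_exp (d : ℂ) : ‖exp d - 1‖ ≤ ‖d‖ * Real.exp ‖d‖ := by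
  have := Complex.norm_exp_sub_sum_le_norm_mul_exp d 1
  simpa using this

private theorem Tlx_asy {G : Set ℂ} {μ : ℂ → ℝ} {X Y g : ℂ → ℂ → ℂ} (h : LS G μ X Y g) (k : ℂ) :
    ∃ C : ℝ, 0 ≤ C ∧ ∀ z : ℂ, 2 ≤ ‖z‖ → ‖exp (-(I * k * z)) * X z k - 1‖ ≤ C / ‖z‖ ∧
      ‖exp (-(I * k * z)) * Y z k - I‖ ≤ C / ‖z‖ := by
  obtain ⟨C, hC⟩ := h.asy
  refine ⟨|C| * ‖k‖ * Real.exp (|C| * ‖k‖), by positivity, ?_⟩
  have key : ∀ c : ℂ, ‖c‖ = 1 → ∀ z : ℂ, 2 ≤ ‖z‖ →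
      ‖exp (-(I * k * z)) * FF X Y c z k - c‖ ≤ |C| * ‖k‖ * Real.exp (|C| * ‖k‖) / ‖z‖ := by
    intro c hc z hz
    obtain ⟨d, hd, he⟩ := (hC z hz k).2 c hc
    have hz0 : 0 < ‖z‖ := by linarith
    have e1 : exp (-(I * k * z)) * FF X Y c z k - c = c * (exp d - 1) := by
      rw [he, exp_add]
      have : exp (-(I * k * z)) * exp (I * k * z) = 1 := by
        rw [← exp_add, neg_add_cancel, exp_zero]
      linear_combination (c * exp d) * this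
    have e2 : ‖d‖ ≤ |C| * ‖k‖ / ‖z‖ := by
      refine hd.trans ?_
      gcongr
      exact le_abs_self C
    have e3 : ‖d‖ ≤ |C| * ‖k‖ := by
      refine e2.trans (div_le_self (by positivity) (by linarith))
    rw [e1, norm_mul, hc, one_mul]
    calc ‖exp d - 1‖ ≤ ‖d‖ * Real.exp ‖d‖ := Tlx_exp d
      _ ≤ (|C| * ‖k‖ / ‖z‖) * Real.exp (|C| * ‖k‖) := by
        gcongr
      _ = |C| * ‖k‖ * Real.exp (|C| * ‖k‖) / ‖z‖ := by ring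
  intro z hz
  have k1 := key 1 (by simp) z hz
  have k2 := key I (by simp) z hz
  simp only [FF, one_re, one_im, I_re, I_im, ofReal_one, ofReal_zero, one_mul, zero_mul, add_zero,
    zero_add] at k1 k2
  exact ⟨k1, k2⟩

private theorem Tlx_bd {G : Set ℂ} {μ : ℂ → ℝ} {X Y g : ℂ → ℂ → ℂ} (h : LS G μ X Y g) (k : ℂ) :
    ∃ M : ℝ, (∀ z ∈ G, ‖z‖ < 5 / 8 → ‖X z k‖ ≤ M) ∧ ∀ z ∈ G, ‖z‖ < 5 / 8 → ‖Y z k‖ ≤ M := by
  obtain ⟨C, hC⟩ := h.bd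
  have key : ∀ c : ℂ, ‖c‖ = 1 → ∀ z ∈ G, ‖z‖ < 5 / 8 →
      ‖FF X Y c z k‖ ≤ Real.exp (|C| * (1 + ‖k‖) * 2) := by
    intro c hc z hz hz2
    refine (hC z hz k c hc).2.1.trans ?_
    rw [Real.exp_le_exp]
    have e1 : C * (1 + ‖k‖) * (1 + ‖z‖) ≤ |C| * (1 + ‖k‖) * (1 + ‖z‖) := by
      gcongr
      exact le_abs_self C
    refine e1.trans ?_
    gcongr
    linarith
  refine ⟨Real.exp (|C| * (1 + ‖k‖) * 2), ?_, ?_⟩
  · intro z hz hz2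
    have k1 := key 1 (by simp) z hz hz2
    simpa [FF] using k1
  · intro z hz hz2
    have k1 := key I (by simp) z hz hz2
    simpa [FF] using k1

/-- Uniqueness for degenerate planar conductivities `γ κ²`. -/
theorem kw_core {Ω G : Set ℂ} {κ : ℂ → ℝ} (hκW : KW G κ) (hΩ : Ω ⊆ ball 0 (1 / 2)) {c C : ℝ} {γ₁ γ₂ : ℂ → ℝ} (hc : 0 < c)
    (hγ₁ : Cond c C γ₁) (hγ₂ : Cond c C γ₂) (ho₁ : ∀ z, z ∉ Ω → γ₁ z = 1) (ho₂ : ∀ z, z ∉ Ω → γ₂ z = 1)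
    (hT : TW Ω G κ γ₁ γ₂) : ∀ᵐ z ∂(volume.restrict G), γ₁ z = γ₂ z := by
  have hfar : ∀ z : ℂ, 1 / 2 ≤ ‖z‖ → z ∉ Ω := by
    intro z hz hzΩ
    have := hΩ hzΩ
    rw [mem_ball_zero_iff] at this
    linarith
  obtain ⟨hAdm₁, -⟩ := kw_adm hκW hc hγ₁ fun z hz => ho₁ z (hfar z hz)
  obtain ⟨hAdm, hWt⟩ := kw_adm hκW hc hγ₂ fun z hz => ho₂ z (hfar z hz)
  obtain ⟨X₁, Y₁, g₁, hL₁⟩ := t_exLS G _ _ hAdm₁
  obtain ⟨X₂, Y₂, g₂, hL₂⟩ := t_exLS G _ _ hAdm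
  have hXY : ∀ z : ℂ, 1 / 2 < ‖z‖ → ∀ k : ℂ, X₁ z k = X₂ z k ∧ Y₁ z k = Y₂ z k := by
    intro z hz k
    obtain ⟨M, hM1, hM2⟩ := Tlx_bd hL₁ k
    obtain ⟨C₁, hC₁0, hA₁⟩ := Tlx_asy hL₁ k
    obtain ⟨C₂, hC₂0, hA₂⟩ := Tlx_asy hL₂ k
    have hzG : z ∈ G := hκW.ext z hz.le
    have main : ∀ (P₁ P₂ : ℂ → ℂ) (e : ℂ), Cl G (muk γ₁ κ) P₁ → Cl G (muk γ₂ κ) P₂ →
        (∀ z ∈ G, ‖z‖ < 5 / 8 → ‖P₁ z‖ ≤ M) →
        (∀ z : ℂ, 2 ≤ ‖z‖ → ‖exp (-(I * k * z)) * P₁ z - e‖ ≤ C₁ / ‖z‖) →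
        (∀ z : ℂ, 2 ≤ ‖z‖ → ‖exp (-(I * k * z)) * P₂ z - e‖ ≤ C₂ / ‖z‖) → P₁ z = P₂ z := by
      intro P₁ P₂ e hP₁ hP₂ hM a1 a2
      obtain ⟨F, hF, hFe⟩ := kw_tr hκW hΩ hc hγ₁ hγ₂ ho₁ ho₂ hT hP₁ hM
      have hH := (t_kCll G _ (muk γ₂ κ) κ hAdm hWt).1 F P₂ (-1) hF hP₂
      have hzero := t_kuni G _ (muk γ₂ κ) κ (fun z => X₂ z k) (fun z => Y₂ z k) _ k (C₁ + C₂) hAdm hWt
        (hL₂.cl k).1 (hL₂.cl k).2 hH (by
          intro z hz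
          have hz0 : 0 < ‖z‖ := by linarith
          have hle : C₂ / ‖z‖ ≤ (C₁ + C₂) / ‖z‖ := by
            gcongr
            linarith
          refine ⟨(hA₂ z hz).1.trans hle, (hA₂ z hz).2.trans hle, ?_⟩
          rw [hFe z (by linarith)]
          have e1 : exp (-(I * k * z)) * (P₁ z + ((-1 : ℝ) : ℂ) * P₂ z)
              = (exp (-(I * k * z)) * P₁ z - e) - (exp (-(I * k * z)) * P₂ z - e) := by
            push_cast
            ring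
          rw [e1]
          refine (norm_sub_le _ _).trans ?_
          rw [add_div]
          exact add_le_add (a1 z hz) (a2 z hz)) z hzG
      have e2 := hFe z hz
      simp only [e2] at hzero
      push_cast at hzero
      linear_combination hzero
    exact ⟨main _ _ 1 (hL₁.cl k).1 (hL₂.cl k).1 hM1 (fun z hz => (hA₁ z hz).1)
      (fun z hz => (hA₂ z hz).1), main _ _ I (hL₁.cl k).2 (hL₂.cl k).2 hM2
      (fun z hz => (hA₁ z hz).2) (fun z hz => (hA₂ z hz).2)⟩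
  have hmu := t_concl G _ _ _ _ X₁ Y₁ g₁ X₂ Y₂ g₂ hAdm₁ hAdm hL₁ hL₂ hXY
  filter_upwards [hmu, ae_restrict_mem hκW.oG.measurableSet] with z hz hzG
  have s1 := ktr_sig (κ := κ) hc hγ₁ z
  have s2 := ktr_sig (κ := κ) hc hγ₂ z
  rw [hz, s2] at s1
  have hpos : κ z ^ 2 ≠ 0 := pow_ne_zero _ (hκW.pos z hzG).ne'
  exact (mul_right_cancel₀ hpos s1).symm

end

end Cal
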