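import Pool.Agent.Lib.MP_70bd98_an.AxDefs

/-! # Capacity of the slit -/

open MeasureTheory Complex Metric Set LocalCalderon Filter
open scoped ENNReal Topology ContDiff

namespace RotCalderon

noncomputable section

variable {m : ℕ}

theorem ac_bd : ∃ M : ℝ, 0 ≤ M ∧ ∀ x, |deriv Real.smoothTransition x| ≤ M := by
  have hc : Continuous (deriv Real.smoothTransition) :=
    (Real.smoothTransition.contDiff (n := 1)).continuous_deriv le_rfl
  obtain ⟨M, hM⟩ := (isCompact_Icc (a := (0 : ℝ)) (b := 1)).exists_bound_of_continuousOn hc.continuousOn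
  refine ⟨max M 0, le_max_right _ _, fun x => ?_⟩
  by_cases hx : x ∈ Icc (0 : ℝ) 1
  · exact (hM x hx).trans (le_max_left _ _)
  · have : deriv Real.smoothTransition x = 0 := by
      rcases lt_or_ge x 0 with h | h
      · have h1 : Real.smoothTransition =ᶠ[𝓝 x] fun _ => (0 : ℝ) := by
          filter_upwards [Iio_mem_nhds h] with y hy
          exact Real.smoothTransition.zero_of_nonpos (le_of_lt hy)
        rw [h1.deriv_eq, deriv_const]
      · have h2 : 1 < x := by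
          by_contra h3
          exact hx ⟨h, not_lt.1 h3⟩
        have h1 : Real.smoothTransition =ᶠ[𝓝 x] fun _ => (1 : ℝ) := by
          filter_upwards [Ioi_mem_nhds h2] with y hy
          exact Real.smoothTransition.one_of_one_le (le_of_lt hy)
        rw [h1.deriv_eq, deriv_const]
    rw [this, abs_zero]
    exact le_max_right _ _

theorem ac_d0 {x : ℝ} (h2 : 1 < x) : deriv Real.smoothTransition x = 0 := by
  have h1 : Real.smoothTransition =ᶠ[𝓝 x] fun _ => (1 : ℝ) := by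
    filter_upwards [Ioi_mem_nhds h2] with y hy
    exact Real.smoothTransition.one_of_one_le (le_of_lt hy)
  rw [h1.deriv_eq, deriv_const]

theorem ac_hasDeriv (x : ℝ) : HasDerivAt Real.smoothTransition (deriv Real.smoothTransition x) x :=
  ((Real.smoothTransition.contDiff (n := 1)).differentiable (by norm_num)).differentiableAt.hasDerivAt

theorem hax_smooth : ContDiff ℝ (⊤ : ℕ∞) hax := by
  unfold hax
  have h1 : ContDiff ℝ (⊤ : ℕ∞) (fun z : ℂ => z.re) := Complex.reCLM.contDiff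
  have h2 : ContDiff ℝ (⊤ : ℕ∞) (fun z : ℂ => z.im) := Complex.imCLM.contDiff
  exact (h1.pow 2).add ((Real.smoothTransition.contDiff.comp ((contDiff_const.mul (h2.pow 2)).sub contDiff_const)).pow 2)

theorem hax_nonneg (z : ℂ) : 0 ≤ hax z := by unfold hax; positivity

theorem hax_fd (z : ℂ) : HasFDerivAt hax ((2 * z.re) • Complex.reCLM +
    (2 * Real.smoothTransition (16 * z.im ^ 2 - 1) * (deriv Real.smoothTransition (16 * z.im ^ 2 - 1) * (32 * z.im))) • Complex.imCLM) z := by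
  have h1 : HasFDerivAt (fun z : ℂ => z.re) Complex.reCLM z := Complex.reCLM.hasFDerivAt
  have h2 : HasFDerivAt (fun z : ℂ => z.im) Complex.imCLM z := Complex.imCLM.hasFDerivAt
  have d1 : HasDerivAt (fun x : ℝ => x ^ 2) (2 * z.re) z.re := by
    simpa using hasDerivAt_pow 2 z.re
  have d2 : HasDerivAt (fun y : ℝ => 16 * y ^ 2 - 1) (32 * z.im) z.im := by
    have := ((hasDerivAt_pow 2 z.im).const_mul 16).sub_const 1
    have e : (16 : ℝ) * ((2 : ℕ) * z.im ^ (2 - 1)) = 32 * z.im := by norm_num; ring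
    rw [e] at this
    exact this
  have d3 : HasDerivAt (fun y : ℝ => Real.smoothTransition (16 * y ^ 2 - 1)) (deriv Real.smoothTransition (16 * z.im ^ 2 - 1) * (32 * z.im)) z.im := by
    have := (ac_hasDeriv (16 * z.im ^ 2 - 1)).comp z.im d2
    exact this
  have d4 : HasDerivAt (fun y : ℝ => Real.smoothTransition (16 * y ^ 2 - 1) ^ 2)
      (2 * Real.smoothTransition (16 * z.im ^ 2 - 1) * (deriv Real.smoothTransition (16 * z.im ^ 2 - 1) * (32 * z.im))) z.im := by
    have := d3.fun_pow 2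
    simpa using this
  have e1 : HasFDerivAt (fun z : ℂ => z.re ^ 2) ((2 * z.re) • Complex.reCLM) z := d1.comp_hasFDerivAt z h1
  have e2 : HasFDerivAt (fun z : ℂ => Real.smoothTransition (16 * z.im ^ 2 - 1) ^ 2)
      ((2 * Real.smoothTransition (16 * z.im ^ 2 - 1) * (deriv Real.smoothTransition (16 * z.im ^ 2 - 1) * (32 * z.im))) • Complex.imCLM) z :=
    d4.comp_hasFDerivAt z h2
  exact e1.add e2

theorem gr_hax (z : ℂ) : Cal.gr hax z = ((2 * z.re : ℝ) : ℂ) + I * ((2 * Real.smoothTransition (16 * z.im ^ 2 - 1) * (deriv Real.smoothTransition (16 * z.im ^ 2 - 1) * (32 * z.im)) : ℝ) : ℂ) := by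
  unfold Cal.gr
  rw [(hax_fd z).fderiv]
  simp

theorem norm_cx (a b : ℝ) : ‖((a : ℝ) : ℂ) + I * ((b : ℝ) : ℂ)‖ ^ 2 = a ^ 2 + b ^ 2 := by
  rw [← Complex.normSq_eq_norm_sq, Complex.normSq_apply]
  simp
  ring

theorem hax_gr : ∃ C : ℝ, 0 ≤ C ∧ ∀ z, ‖Cal.gr hax z‖ ^ 2 ≤ C * hax z := by
  obtain ⟨M, hM0, hM⟩ := ac_bd
  refine ⟨4 + 4 * (M * 32) ^ 2, by positivity, fun z => ?_⟩
  rw [gr_hax, norm_cx]
  set S := Real.smoothTransition (16 * z.im ^ 2 - 1) with hS
  set d := deriv Real.smoothTransition (16 * z.im ^ 2 - 1) with hd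
  have h1 : (d * (32 * z.im)) ^ 2 ≤ (M * 32) ^ 2 := by
    rcases le_or_gt (z.im ^ 2) 1 with h | h
    · have h2 : d ^ 2 ≤ M ^ 2 := by
        rw [← sq_abs d]
        exact pow_le_pow_left₀ (abs_nonneg _) (hM _) 2
      have : (d * (32 * z.im)) ^ 2 = d ^ 2 * 32 ^ 2 * z.im ^ 2 := by ring
      rw [this, mul_pow]
      calc d ^ 2 * 32 ^ 2 * z.im ^ 2 ≤ d ^ 2 * 32 ^ 2 * 1 := by
            exact mul_le_mul_of_nonneg_left h (by positivity)
        _ ≤ M ^ 2 * 32 ^ 2 := by nlinarith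
    · have : d = 0 := ac_d0 (by nlinarith)
      rw [this, zero_mul]
      have : (0:ℝ) ^ 2 = 0 := by norm_num
      rw [this]
      positivity
  have h2 : hax z = z.re ^ 2 + S ^ 2 := rfl
  rw [h2]
  have e : (2 * S * (d * (32 * z.im))) ^ 2 = 4 * S ^ 2 * (d * (32 * z.im)) ^ 2 := by ring
  rw [e]
  have h3 : 4 * S ^ 2 * (d * (32 * z.im)) ^ 2 ≤ 4 * S ^ 2 * (M * 32) ^ 2 :=
    mul_le_mul_of_nonneg_left h1 (by positivity)
  have h4 : 0 ≤ (4 * (M * 32) ^ 2) * z.re ^ 2 := by positivity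
  nlinarith [sq_nonneg S, sq_nonneg z.re]

/-- the cutoffs -/
def tax (n : ℕ) (z : ℂ) : ℝ := Real.smoothTransition (2 + Real.log (hax z + Real.exp (-(3 * (n : ℝ)))) / n)

theorem hpos (n : ℕ) (z : ℂ) : 0 < hax z + Real.exp (-(3 * (n : ℝ))) := by
  have := hax_nonneg z
  positivity

theorem tax_smooth (n : ℕ) : ContDiff ℝ (⊤ : ℕ∞) (tax n) := by
  unfold tax
  refine Real.smoothTransition.contDiff.comp (contDiff_const.add (ContDiff.div_const ?_ _))
  exact (hax_smooth.add contDiff_const).log fun z => (hpos n z).ne'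

theorem gr_tax (n : ℕ) (z : ℂ) : Cal.gr (tax n) z =
    ((deriv Real.smoothTransition (2 + Real.log (hax z + Real.exp (-(3 * (n : ℝ)))) / n) * ((hax z + Real.exp (-(3 * (n : ℝ))))⁻¹ / n) : ℝ) : ℂ) * Cal.gr hax z := by
  have hd : DifferentiableAt ℝ hax z := (hax_smooth.differentiable (by simp)).differentiableAt
  have d1 : HasDerivAt (fun t : ℝ => 2 + Real.log (t + Real.exp (-(3 * (n : ℝ)))) / n) ((hax z + Real.exp (-(3 * (n : ℝ))))⁻¹ / n) (hax z) := by
    have := ((((hasDerivAt_id (hax z)).add_const (Real.exp (-(3 * (n : ℝ))))).log (hpos n z).ne').div_const (n : ℝ)).const_add 2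
    simpa using this
  have d2 := (ac_hasDeriv (2 + Real.log (hax z + Real.exp (-(3 * (n : ℝ)))) / n)).comp (hax z) d1
  have d3 := d2.comp_hasFDerivAt z hd.hasFDerivAt
  have d4 : HasFDerivAt (tax n) ((deriv Real.smoothTransition (2 + Real.log (hax z + Real.exp (-(3 * (n : ℝ)))) / n) * ((hax z + Real.exp (-(3 * (n : ℝ))))⁻¹ / n)) • fderiv ℝ hax z) z := d3
  unfold Cal.gr
  rw [d4.fderiv]
  simp
  ring


theorem kap_nonneg (z : ℂ) : 0 ≤ kap m z := by unfold kap; positivity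

theorem kap_sq (hm : 2 ≤ m) (z : ℂ) : kap m z ^ 2 ≤ 4 * Real.sqrt (hax z) := by
  unfold kap
  set s := 4 * Real.sqrt (hax z) with hsd
  have hs : 0 ≤ s := by positivity
  have h0 : 0 ≤ min 1 (Real.sqrt s ^ (m - 1)) := by positivity
  rcases le_or_gt s 1 with h | h
  · calc (min 1 (Real.sqrt s ^ (m - 1))) ^ 2 ≤ (Real.sqrt s ^ (m - 1)) ^ 2 := pow_le_pow_left₀ h0 (min_le_right _ _) 2
      _ = s ^ (m - 1) := by rw [← pow_mul, mul_comm, pow_mul, Real.sq_sqrt hs]
      _ ≤ s ^ 1 := pow_le_pow_of_le_one hs h (by omega)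
      _ = s := pow_one _
  · calc (min 1 (Real.sqrt s ^ (m - 1))) ^ 2 ≤ 1 ^ 2 := pow_le_pow_left₀ h0 (min_le_left _ _) 2
      _ ≤ s := by linarith

theorem ac_pt (hm : 2 ≤ m) : ∃ C : ℝ, 0 ≤ C ∧ ∀ (n : ℕ) (z : ℂ), 1 ≤ n →
    ‖(kap m z : ℂ) * Cal.gr (tax n) z‖ ^ 2 ≤ C / n ^ 2 * (Real.sqrt (z.re ^ 2 + Real.exp (-(3 * (n : ℝ)))))⁻¹ := by
  obtain ⟨M, hM0, hM⟩ := ac_bd
  obtain ⟨C, hC0, hC⟩ := hax_gr
  refine ⟨4 * M ^ 2 * C, by positivity, fun n z hn => ?_⟩
  have hn' : (0 : ℝ) < n := by exact_mod_cast hn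
  rw [gr_tax, norm_mul, norm_mul, Complex.norm_real, Complex.norm_real, mul_pow, mul_pow, Real.norm_eq_abs, Real.norm_eq_abs,
    sq_abs, sq_abs]
  set e := Real.exp (-(3 * (n : ℝ))) with he
  set h := hax z with hh
  have hp := hpos n z
  rw [← he, ← hh] at hp
  have h0 : 0 ≤ h := hax_nonneg z
  have he0 : 0 < e := Real.exp_pos _
  set d := deriv Real.smoothTransition (2 + Real.log (h + e) / n) with hd
  have hd2 : d ^ 2 ≤ M ^ 2 := by
    rw [← sq_abs d]
    exact pow_le_pow_left₀ (abs_nonneg _) (hM _) 2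
  have k1 : kap m z ^ 2 ≤ 4 * Real.sqrt (h + e) :=
    (kap_sq hm z).trans (mul_le_mul_of_nonneg_left (Real.sqrt_le_sqrt (by linarith)) (by norm_num))
  have k2 : ‖Cal.gr hax z‖ ^ 2 ≤ C * (h + e) := (hC z).trans (mul_le_mul_of_nonneg_left (by linarith) hC0)
  have k3 : (d * ((h + e)⁻¹ / n)) ^ 2 ≤ M ^ 2 * ((h + e)⁻¹ / n) ^ 2 := by
    rw [mul_pow]
    exact mul_le_mul_of_nonneg_right hd2 (by positivity)
  have k4 : kap m z ^ 2 * ((d * ((h + e)⁻¹ / n)) ^ 2 * ‖Cal.gr hax z‖ ^ 2) ≤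
      4 * Real.sqrt (h + e) * ((M ^ 2 * ((h + e)⁻¹ / n) ^ 2) * (C * (h + e))) := by
    gcongr
  refine k4.trans ?_
  have k5 : 4 * Real.sqrt (h + e) * ((M ^ 2 * ((h + e)⁻¹ / n) ^ 2) * (C * (h + e))) =
      4 * M ^ 2 * C / n ^ 2 * (Real.sqrt (h + e))⁻¹ := by
    have hs : 0 < Real.sqrt (h + e) := Real.sqrt_pos.2 hp
    have hs2 : Real.sqrt (h + e) ^ 2 = h + e := Real.sq_sqrt hp.le
    have : h + e ≠ 0 := hp.ne'
    field_simp
    rw [hs2]
  rw [k5]
  have k6 : z.re ^ 2 ≤ h := by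
    rw [hh]
    unfold hax
    nlinarith [sq_nonneg (Real.smoothTransition (16 * z.im ^ 2 - 1))]
  gcongr

theorem ac_box (n : ℕ) (hn : 1 ≤ n) (z : ℂ) (hz : ¬ (z.re ∈ Icc (-1 : ℝ) 1 ∧ z.im ∈ Icc (-1 : ℝ) 1)) : Cal.gr (tax n) z = 0 := by
  have hn' : (0 : ℝ) < n := by exact_mod_cast hn
  have h1 : 1 ≤ hax z := by
    by_contra h
    rw [not_le] at h
    unfold hax at h
    apply hz
    have a1 : z.re ^ 2 ≤ 1 := by nlinarith [sq_nonneg (Real.smoothTransition (16 * z.im ^ 2 - 1))]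
    have a2 : z.im ^ 2 ≤ 1 := by
      by_contra h2
      rw [not_le] at h2
      rw [Real.smoothTransition.one_of_one_le (by linarith)] at h
      nlinarith [sq_nonneg z.re]
    exact ⟨abs_le.1 ((sq_le_one_iff_abs_le_one _).1 a1), abs_le.1 ((sq_le_one_iff_abs_le_one _).1 a2)⟩
  rw [gr_tax, ac_d0]
  · simp
  · have : 0 < Real.log (hax z + Real.exp (-(3 * (n : ℝ)))) := Real.log_pos (by
      have := Real.exp_pos (-(3 * (n : ℝ)))
      linarith)
    have := div_pos this hn'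
    linarith

theorem ac_int (n : ℕ) (hn : 1 ≤ n) : ∫ x in (-1 : ℝ)..1, (Real.sqrt (x ^ 2 + Real.exp (-(3 * (n : ℝ)))))⁻¹ ≤ 7 * n := by
  have hn' : (1 : ℝ) ≤ n := by exact_mod_cast hn
  set ε := Real.exp (-(3 * (n : ℝ) / 2)) with hε
  have hε0 : 0 < ε := Real.exp_pos _
  have hε2 : Real.exp (-(3 * (n : ℝ))) = ε ^ 2 := by
    rw [hε, ← Real.exp_nat_mul]
    congr 1
    push_cast
    ring
  rw [hε2]
  have hd : ∀ x ∈ uIcc (-1 : ℝ) 1, HasDerivAt (fun x => Real.arsinh (x / ε)) ((Real.sqrt (x ^ 2 + ε ^ 2))⁻¹) x := by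
    intro x _
    have h1 := (Real.hasDerivAt_arsinh (x / ε)).comp x ((hasDerivAt_id x).div_const ε)
    have e : (Real.sqrt (1 + (x / ε) ^ 2))⁻¹ * (1 / ε) = (Real.sqrt (x ^ 2 + ε ^ 2))⁻¹ := by
      have : x ^ 2 + ε ^ 2 = ε ^ 2 * (1 + (x / ε) ^ 2) := by
        field_simp
        ring
      rw [this, Real.sqrt_mul (sq_nonneg _), Real.sqrt_sq hε0.le, mul_inv]
      ring
    rw [e] at h1
    exact h1
  have hc : Continuous fun x : ℝ => (Real.sqrt (x ^ 2 + ε ^ 2))⁻¹ := by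
    refine Continuous.inv₀ (by fun_prop) fun x => ?_
    have : 0 < x ^ 2 + ε ^ 2 := by positivity
    exact (Real.sqrt_pos.2 this).ne'
  rw [intervalIntegral.integral_eq_sub_of_hasDerivAt hd (hc.intervalIntegrable _ _)]
  have e1 : (-1 : ℝ) / ε = -(1 / ε) := by ring
  rw [e1, Real.arsinh_neg]
  have h3 : Real.arsinh (1 / ε) ≤ Real.log 3 + 3 * n / 2 := by
    unfold Real.arsinh
    have hε1 : ε ≤ 1 := Real.exp_le_one_iff.2 (by
      have : 0 ≤ 3 * (n : ℝ) / 2 := by positivity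
      linarith)
    have h4 : 1 ≤ 1 / ε := by
      rw [le_div_iff₀ hε0]
      linarith
    have h5 : Real.sqrt (1 + (1 / ε) ^ 2) ≤ 2 * (1 / ε) := by
      rw [Real.sqrt_le_left (by positivity)]
      nlinarith
    have h6 : Real.log (1 / ε + Real.sqrt (1 + (1 / ε) ^ 2)) ≤ Real.log (3 * (1 / ε)) :=
      Real.log_le_log (by positivity) (by linarith)
    refine h6.trans ?_
    rw [Real.log_mul (by norm_num) (by positivity), one_div, Real.log_inv, hε, Real.log_exp]
    linarith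
  have h7 : Real.log 3 ≤ 2 := by
    have := Real.log_le_sub_one_of_pos (show (0 : ℝ) < 3 by norm_num)
    linarith
  have h8 : Real.arsinh (1 / ε) - -Real.arsinh (1 / ε) ≤ 2 * (2 + 3 * n / 2) := by linarith
  linarith

theorem ac_lint (n : ℕ) (hn : 1 ≤ n) (C : ℝ) (hC : 0 ≤ C) :
    ∫⁻ z : ℂ, (Icc (-1 : ℝ) 1).indicator (fun x => ENNReal.ofReal (C / n ^ 2 * (Real.sqrt (x ^ 2 + Real.exp (-(3 * (n : ℝ)))))⁻¹)) z.re *
      (Icc (-1 : ℝ) 1).indicator (fun _ => (1 : ℝ≥0∞)) z.im ≤ ENNReal.ofReal (14 * C / n) := by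
  have hn' : (0 : ℝ) < n := by exact_mod_cast hn
  set f : ℝ → ℝ≥0∞ := (Icc (-1 : ℝ) 1).indicator (fun x => ENNReal.ofReal (C / n ^ 2 * (Real.sqrt (x ^ 2 + Real.exp (-(3 * (n : ℝ)))))⁻¹)) with hf
  set g : ℝ → ℝ≥0∞ := (Icc (-1 : ℝ) 1).indicator (fun _ => (1 : ℝ≥0∞)) with hg
  have hc : Continuous fun x : ℝ => C / n ^ 2 * (Real.sqrt (x ^ 2 + Real.exp (-(3 * (n : ℝ)))))⁻¹ := by
    refine continuous_const.mul (Continuous.inv₀ (by fun_prop) fun x => ?_)
    have : 0 < x ^ 2 + Real.exp (-(3 * (n : ℝ))) := by positivity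
    exact (Real.sqrt_pos.2 this).ne'
  have mf : Measurable f := (hc.measurable.ennreal_ofReal).indicator measurableSet_Icc
  have mg : Measurable g := measurable_const.indicator measurableSet_Icc
  have e1 : ∫⁻ z : ℂ, f z.re * g z.im = ∫⁻ p : ℝ × ℝ, f p.1 * g p.2 := by
    have := Complex.volume_preserving_equiv_real_prod.lintegral_comp (f := fun p : ℝ × ℝ => f p.1 * g p.2)
      ((mf.comp measurable_fst).mul (mg.comp measurable_snd))
    exact this
  rw [e1, Measure.volume_eq_prod, lintegral_prod_mul mf.aemeasurable mg.aemeasurable]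
  have e2 : ∫⁻ x, g x = 2 := by
    rw [hg, lintegral_indicator measurableSet_Icc, lintegral_const, Measure.restrict_apply MeasurableSet.univ, univ_inter, Real.volume_Icc]
    norm_num
  have e3 : ∫⁻ x, f x = ENNReal.ofReal (C / n ^ 2 * ∫ x in (-1 : ℝ)..1, (Real.sqrt (x ^ 2 + Real.exp (-(3 * (n : ℝ)))))⁻¹) := by
    rw [hf, lintegral_indicator measurableSet_Icc, ← ofReal_integral_eq_lintegral_ofReal]
    · rw [intervalIntegral.integral_of_le (by norm_num), integral_Icc_eq_integral_Ioc, integral_const_mul]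
    · exact hc.continuousOn.integrableOn_Icc
    · exact Eventually.of_forall fun x => by positivity
  rw [e2, e3]
  have e4 : (2 : ℝ≥0∞) = ENNReal.ofReal 2 := by norm_num
  rw [e4, ← ENNReal.ofReal_mul' (by norm_num)]
  refine ENNReal.ofReal_le_ofReal ?_
  have h5 := ac_int n hn
  calc C / n ^ 2 * (∫ x in (-1 : ℝ)..1, (Real.sqrt (x ^ 2 + Real.exp (-(3 * (n : ℝ)))))⁻¹) * 2 ≤ C / n ^ 2 * (7 * n) * 2 := by gcongr
    _ = 14 * C / n := by
      field_simp
      ring


theorem tax_one {n : ℕ} (hn : 1 ≤ n) {z : ℂ} (h : Real.exp (-(n : ℝ)) ≤ hax z) : tax n z = 1 := by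
  have hn' : (0 : ℝ) < n := by exact_mod_cast hn
  refine Real.smoothTransition.one_of_one_le ?_
  have h1 : -(n : ℝ) ≤ Real.log (hax z + Real.exp (-(3 * (n : ℝ)))) := by
    rw [Real.le_log_iff_exp_le (hpos n z)]
    have := Real.exp_pos (-(3 * (n : ℝ)))
    linarith
  have h2 : -1 ≤ Real.log (hax z + Real.exp (-(3 * (n : ℝ)))) / n := by
    rw [le_div_iff₀ hn']
    linarith
  linarith

theorem gr_cont {φ : ℂ → ℝ} (h : ContDiff ℝ (⊤ : ℕ∞) φ) : Continuous (Cal.gr φ) := by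
  have h1 := h.continuous_fderiv (by simp)
  unfold Cal.gr
  exact (Complex.continuous_ofReal.comp (h1.clm_apply continuous_const)).add
    (continuous_const.mul (Complex.continuous_ofReal.comp (h1.clm_apply continuous_const)))

theorem ac_norm (hm : 2 ≤ m) : ∃ C : ℝ, 0 ≤ C ∧ ∀ n : ℕ, 1 ≤ n →
    eLpNorm (fun z => (kap m z : ℂ) * Cal.gr (tax n) z) 2 volume ≤ (ENNReal.ofReal (14 * C / n)) ^ ((2 : ℝ)⁻¹) := by
  obtain ⟨C, hC0, hC⟩ := ac_pt hm
  refine ⟨C, hC0, fun n hn => ?_⟩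
  rw [eLpNorm_eq_lintegral_rpow_enorm_toReal (by norm_num) (by norm_num)]
  have e2 : (2 : ℝ≥0∞).toReal = 2 := by norm_num
  rw [e2, one_div]
  refine ENNReal.rpow_le_rpow ?_ (by norm_num)
  refine le_trans (lintegral_mono fun z => ?_) (ac_lint n hn C hC0)
  by_cases hz : z.re ∈ Icc (-1 : ℝ) 1 ∧ z.im ∈ Icc (-1 : ℝ) 1
  · rw [indicator_of_mem hz.1, indicator_of_mem hz.2, mul_one]
    have := hC n z hn
    rw [← ofReal_norm, ENNReal.ofReal_rpow_of_nonneg (norm_nonneg _) (by norm_num)]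
    refine ENNReal.ofReal_le_ofReal ?_
    rw [Real.rpow_two]
    exact this
  · rw [ac_box n hn z hz, mul_zero, enorm_zero, ENNReal.zero_rpow_of_pos (by norm_num)]
    exact zero_le

/-- Proof. `Φ = Real.smoothTransition`, `n ≥ 1`, `τ_n z = Φ (2 + log (hax z + exp (-3 n)) / n)`: smooth, values in `[0,1]`, `= 1` if `hax z ≥ exp (-n)` (in particular for `‖z‖ ≥ 3/4`: there `|re z| ≥ 1/4` or
`|im z| ≥ 0.7`, then the transition is `1`; take `n ≥ 3` so that `exp (-n) ≤ 1/16`), `= 0` near `Lax` (where `hax` is small). `|∇ hax|² ≤ C hax` and `hax ≤ 1` on the support of `∇τ_n`, which lies in `{hax ≤ exp (-n)}`, a bounded set;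
`kap m z ^ 2 ≤ (4 √hax)^(m-1) ≤ 4^(m-1) √hax` there (`m ≥ 2`). So `‖kap gr τ_n‖² ≤ C √hax · hax / (n² (hax + exp(-3n))²) ≤ C / (n² √(re² + exp(-3n)))` on `[-1,1] × [-1,1]`, and `∫_{-1}^{1} dr / √(r² + e²) ≤ 2 + 2 log (1/e)` `= O(n)`:
the square of the norm is `O(1/n)`. -/
theorem ax_cut (hm : 2 ≤ m) : Cal.Cut Gax (kap m) := by
  obtain ⟨C, hC0, hC⟩ := ac_norm hm
  have hk : Continuous (kap m) := by
    unfold kap
    have := hax_smooth.continuous
    fun_prop
  refine ⟨fun n => tax (n + 3), fun n => tax_smooth _, fun n z => ⟨Real.smoothTransition.nonneg _, Real.smoothTransition.le_one _⟩, fun n => ?_,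
    fun n z hz => ?_, ?_, fun n => ⟨?_, ?_⟩, ?_⟩
  · set N := n + 3 with hN
    have hN' : (0 : ℝ) < (N : ℝ) := by rw [hN]; positivity
    have h1 : tsupport (tax N) ⊆ {z | Real.exp (-(2 * (N : ℝ))) - Real.exp (-(3 * (N : ℝ))) ≤ hax z} := by
      refine closure_minimal (fun z hz => ?_) (isClosed_le continuous_const hax_smooth.continuous)
      show Real.exp (-(2 * (N : ℝ))) - Real.exp (-(3 * (N : ℝ))) ≤ hax z
      by_contra h
      rw [not_le] at h
      apply hz
      refine Real.smoothTransition.zero_of_nonpos ?_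
      have h2 : Real.log (hax z + Real.exp (-(3 * (N : ℝ)))) ≤ -(2 * N) := by
        rw [Real.log_le_iff_le_exp (hpos N z)]
        linarith
      have h3 : Real.log (hax z + Real.exp (-(3 * (N : ℝ)))) / N ≤ -2 := by
        rw [div_le_iff₀ hN']
        linarith
      linarith
    rw [Set.disjoint_left]
    intro z hz hz2
    have h4 := h1 hz
    rw [Gax, compl_compl] at hz2
    have h5 : hax z = 0 := by
      unfold hax
      rw [hz2.1, Real.smoothTransition.zero_of_nonpos]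
      · norm_num
      · have := abs_le.1 hz2.2
        nlinarith
    have h6 : Real.exp (-(3 * (N : ℝ))) < Real.exp (-(2 * (N : ℝ))) := Real.exp_lt_exp.2 (by linarith)
    have h7 : Real.exp (-(2 * (N : ℝ))) - Real.exp (-(3 * (N : ℝ))) ≤ hax z := h4
    linarith
  · refine tax_one (by omega) ?_
    have h1 : (1 / 16 : ℝ) ≤ hax z := by
      unfold hax
      have hn : 9 / 16 ≤ z.re ^ 2 + z.im ^ 2 := by
        have : z.re ^ 2 + z.im ^ 2 = ‖z‖ ^ 2 := by
          rw [← Complex.normSq_eq_norm_sq, Complex.normSq_apply]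
          ring
        rw [this]
        nlinarith
      rcases le_or_gt (1 / 16) (z.re ^ 2) with h | h
      · nlinarith [sq_nonneg (Real.smoothTransition (16 * z.im ^ 2 - 1))]
      · rw [Real.smoothTransition.one_of_one_le (by linarith)]
        nlinarith [sq_nonneg z.re]
    refine le_trans ?_ h1
    rw [← Real.le_log_iff_exp_le (by norm_num), one_div, Real.log_inv]
    have h2 : Real.log 16 ≤ 3 := by
      have : Real.log 16 = 4 * Real.log 2 := by
        rw [show (16 : ℝ) = 2 ^ 4 by norm_num, Real.log_pow]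
        norm_num
      rw [this]
      have := Real.log_two_lt_d9
      linarith
    push_cast
    have : (0 : ℝ) ≤ n := Nat.cast_nonneg n
    linarith
  · have hG : MeasurableSet Gax := by
      unfold Gax Lax
      refine MeasurableSet.compl ?_
      exact (isClosed_eq Complex.continuous_re continuous_const).measurableSet.inter
        (isClosed_le (Complex.continuous_im.abs) continuous_const).measurableSet
    filter_upwards [ae_restrict_mem hG] with z hz
    have h1 : 0 < hax z := by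
      refine lt_of_le_of_ne (hax_nonneg z) fun h => hz ?_
      unfold hax at h
      have a1 : z.re ^ 2 = 0 := by nlinarith [sq_nonneg z.re, sq_nonneg (Real.smoothTransition (16 * z.im ^ 2 - 1))]
      have a2 : Real.smoothTransition (16 * z.im ^ 2 - 1) ^ 2 = 0 := by
        nlinarith [sq_nonneg z.re, sq_nonneg (Real.smoothTransition (16 * z.im ^ 2 - 1))]
      refine ⟨by simpa using a1, ?_⟩
      have a3 : Real.smoothTransition (16 * z.im ^ 2 - 1) = 0 := by simpa using a2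
      by_contra h4
      rw [not_le] at h4
      have a4 : 0 < 16 * z.im ^ 2 - 1 := by
        have : (1 / 4) ^ 2 < |z.im| ^ 2 := pow_lt_pow_left₀ h4 (by norm_num) (by norm_num)
        rw [sq_abs] at this
        linarith
      exact (Real.smoothTransition.pos_of_pos a4).ne' a3
    obtain ⟨N, hN⟩ := exists_nat_gt (-Real.log (hax z))
    refine tendsto_const_nhds.congr' ?_
    filter_upwards [eventually_ge_atTop N] with n hn
    refine (tax_one (by omega) ?_).symm
    rw [← Real.le_log_iff_exp_le h1]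
    push_cast
    have : (N : ℝ) ≤ n := by exact_mod_cast hn
    linarith
  · exact ((Complex.continuous_ofReal.comp hk).mul (gr_cont (tax_smooth _))).aestronglyMeasurable
  · refine (hC _ (by omega)).trans_lt ?_
    exact ENNReal.rpow_lt_top_of_nonneg (by norm_num) ENNReal.ofReal_ne_top
  · have h1 : Tendsto (fun n : ℕ => (ENNReal.ofReal (14 * C / ((n + 3 : ℕ) : ℝ))) ^ ((2 : ℝ)⁻¹)) atTop (𝓝 0) := by
      have h2 : Tendsto (fun n : ℕ => 14 * C / ((n + 3 : ℕ) : ℝ)) atTop (𝓝 0) := by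
        have := tendsto_const_div_atTop_nhds_zero_nat (14 * C)
        exact (tendsto_add_atTop_iff_nat (f := fun n : ℕ => 14 * C / (n : ℝ)) 3).2 this
      have h3 := (ENNReal.tendsto_ofReal h2)
      rw [ENNReal.ofReal_zero] at h3
      have h4 := ((ENNReal.continuous_rpow_const (y := (2 : ℝ)⁻¹)).tendsto 0).comp h3
      rw [ENNReal.zero_rpow_of_pos (by norm_num)] at h4
      exact h4
    exact tendsto_of_tendsto_of_tendsto_of_le_of_le tendsto_const_nhds h1 (fun _ => zero_le) fun n => hC _ (by omega)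

end

end RotCalderon
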