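import Pool.Agent.Lib.MP_70bd98_an.Ang0
import Pool.Agent.Lib.MP_4ea4c7_an.DefsH

/-! # Weighted spaces and the slit plane -/

open MeasureTheory Complex Metric Set LocalCalderon Filter
open scoped ENNReal Topology ContDiff

namespace RotCalderon

noncomputable section

/-- a segment of the axis `re = 0` -/
def Lax : Set ℂ := {z | z.re = 0 ∧ |z.im| ≤ 1 / 4}
/-- the slit plane -/
def Gax : Set ℂ := Laxᶜ
/-- a smooth function `≥ 0` with zero set `Lax`, equal to `re²` for `|im| ≤ 1/4` -/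
def hax (z : ℂ) : ℝ := z.re ^ 2 + Real.smoothTransition (16 * z.im ^ 2 - 1) ^ 2
/-- the weight: `kap m z ^ 2 = (4 re) ^ (m-1)` for `0 < re < 1/4`, `|im| ≤ 1/4` -/
def kap (m : ℕ) (z : ℂ) : ℝ := min 1 (Real.sqrt (4 * Real.sqrt (hax z)) ^ (m - 1))

/-- `z`, with gradient `Z`, is in the closure of the test functions of `D` in the weighted Sobolev space (measure `nuD m D` = `re^(m-1) dw` on `D`). -/
structure ZW (m : ℕ) (D : Set ℂ) (z : ℂ → ℝ) (Z : ℂ → ℂ) : Prop where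
  mz : MemLp z 2 (nuD m D)
  mZ : MemLp Z 2 (nuD m D)
  app : ∀ ε : ℝ, 0 < ε → ∃ φ : ℂ → ℝ, IsTest D φ ∧ eLpNorm (fun w => z w - φ w) 2 (nuD m D) ≤ ENNReal.ofReal ε ∧
    eLpNorm (fun w => Z w - grad φ w) 2 (nuD m D) ≤ ENNReal.ofReal ε

variable {m : ℕ}


end

end RotCalderon
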