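import Pool.Agent.Lib.MP_70bd98_an.AxDefs

/-! # The equation across the axis, with an angular factor -/

open MeasureTheory Complex Metric Set LocalCalderon Filter
open scoped ENNReal Topology ContDiff

namespace RotCalderon

noncomputable section

variable {m : ℕ}

private theorem qa_restrict (hm : 2 ≤ m) {W : Set (X m)} {D : Set ℂ}
    (hWD : ∀ x : X m, x.1 ≠ 0 → (x ∈ W ↔ prof x ∈ D)) :
    (volume : Measure (X m)).restrict W = (volume : Measure (X m)).restrict (rev m D) := by
  have hne : Nonempty (Fin m) := ⟨⟨0, by omega⟩⟩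
  refine Measure.restrict_congr_set ?_
  have h1 : ∀ᵐ y : E m, y ≠ 0 := by
    rw [ae_iff]
    simp
  have h2 : ∀ᵐ x : X m, x.1 ≠ 0 := by
    have h3 : Measure.QuasiMeasurePreserving (Prod.fst : E m × ℝ → E m)
      ((volume : Measure (E m)).prod (volume : Measure ℝ)) (volume : Measure (E m)) :=
      Measure.quasiMeasurePreserving_fst
    exact h3.ae h1
  filter_upwards [h2] with x hx
  have h4 : (x ∈ W) = (x ∈ rev m D) := propext (hWD x hx)
  exact h4

/-- the cut-off in the half plane -/
private def zc (n : ℝ) (w : ℂ) : ℝ := Real.smoothTransition (n * w.re - 1)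

/-- the cut-off near the axis -/
private def tc (n : ℝ) (x : X m) : ℝ := zc n (prof x)

private theorem zc_smooth (n : ℝ) : ContDiff ℝ (⊤ : ℕ∞) (zc n) := by
  have h1 : ContDiff ℝ (⊤ : ℕ∞) fun w : ℂ => n * w.re - 1 :=
    (contDiff_const.mul Complex.reCLM.contDiff).sub contDiff_const
  exact Real.smoothTransition.contDiff.comp h1

private theorem zc_deriv (n : ℝ) (w v : ℂ) :
    fderiv ℝ (zc n) w v = deriv Real.smoothTransition (n * w.re - 1) * (n * v.re) := by
  have h0 : HasFDerivAt (fun w : ℂ => n * w.re - 1) (n • Complex.reCLM) w :=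
    (Complex.reCLM.hasFDerivAt.const_mul n).sub_const 1
  have h1 : DifferentiableAt ℝ Real.smoothTransition (n * w.re - 1) :=
    (Real.smoothTransition.contDiff (n := 1)).differentiable (by simp) _
  have h2 : HasFDerivAt (zc n) (deriv Real.smoothTransition (n * w.re - 1) • (n • Complex.reCLM)) w :=
    h1.hasDerivAt.comp_hasFDerivAt w h0
  rw [h2.fderiv]
  simp

private theorem tc_eq (n : ℝ) (x : X m) : tc n x = Real.smoothTransition (n * ‖x.1‖ - 1) := by
  unfold tc zc
  rw [prof_re]

private theorem tc_zero {n : ℝ} (hn : 0 < n) {x : X m} (hx : ‖x.1‖ ≤ 1 / n) : tc n x = 0 := by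
  rw [tc_eq]
  apply Real.smoothTransition.zero_of_nonpos
  have := mul_le_mul_of_nonneg_left hx hn.le
  rw [mul_one_div_cancel hn.ne'] at this
  linarith

private theorem tc_smooth {n : ℝ} (hn : 0 < n) : ContDiff ℝ (⊤ : ℕ∞) (tc n : X m → ℝ) := by
  rw [contDiff_iff_contDiffAt]
  intro x
  by_cases hx : x.1 = 0
  · refine (contDiffAt_const (c := (0 : ℝ))).congr_of_eventuallyEq ?_
    have hU : {y : X m | ‖y.1‖ < 1 / n} ∈ 𝓝 x :=
      (isOpen_lt (continuous_norm.comp continuous_fst) continuous_const).mem_nhds (by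
        show ‖x.1‖ < 1 / n
        rw [hx, norm_zero]
        positivity)
    filter_upwards [hU] with y hy
    exact tc_zero hn (le_of_lt hy)
  · have h1 : ContDiffAt ℝ (⊤ : ℕ∞) (fun y : X m => ‖y.1‖) x := (contDiffAt_norm ℝ hx).comp x contDiffAt_fst
    have h2 : ContDiffAt ℝ (⊤ : ℕ∞) (prof : X m → ℂ) x :=
      (Complex.ofRealCLM.contDiff.contDiffAt.comp x h1).add
        (contDiffAt_const.mul (Complex.ofRealCLM.contDiff.contDiffAt.comp x contDiffAt_snd))
    exact (zc_smooth n).contDiffAt.comp x h2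

private theorem tc_dot (n : ℝ) {x : X m} (hx : x.1 ≠ 0) (U : ℂ → ℂ) :
    dotN (liftG U x) (gradN (tc n) x) = deriv Real.smoothTransition (n * ‖x.1‖ - 1) * (n * (U (prof x)).re) := by
  rw [dotN_comm, dotN_gradN]
  obtain ⟨L, hL, hLv⟩ := prof_deriv hx
  have hz : HasFDerivAt (zc n) (fderiv ℝ (zc n) (prof x)) (prof x) :=
    (((zc_smooth n).differentiable (by simp)).differentiableAt).hasFDerivAt
  have h2 : fderiv ℝ (tc n : X m → ℝ) x = (fderiv ℝ (zc n) (prof x)).comp L := (hz.comp x hL).fderiv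
  rw [h2, ContinuousLinearMap.comp_apply, zc_deriv, prof_re, hLv]
  congr 2
  have hn : ‖x.1‖ ≠ 0 := norm_ne_zero_iff.2 hx
  simp only [liftG, Complex.add_re, Complex.ofReal_re, Complex.mul_re, Complex.I_re, Complex.I_im, Complex.ofReal_im,
    real_inner_smul_right, real_inner_self_eq_norm_sq]
  field_simp
  ring

private theorem st_bound : ∃ L : ℝ, 0 ≤ L ∧ ∀ t : ℝ, |deriv Real.smoothTransition t| ≤ L ∧
    (1 < t → deriv Real.smoothTransition t = 0) := by
  have hc : Continuous (deriv Real.smoothTransition) :=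
    (Real.smoothTransition.contDiff (n := 1)).continuous_deriv le_rfl
  obtain ⟨L, hL⟩ := (isCompact_Icc (a := (0 : ℝ)) (b := 1)).exists_bound_of_continuousOn hc.continuousOn
  have h1 : ∀ t : ℝ, 1 < t → deriv Real.smoothTransition t = 0 := by
    intro t ht
    have h2 : Real.smoothTransition =ᶠ[𝓝 t] fun _ => 1 := by
      filter_upwards [lt_mem_nhds ht] with s hs
      exact Real.smoothTransition.one_of_one_le (le_of_lt hs)
    rw [h2.deriv_eq]
    simp
  have h0 : ∀ t : ℝ, t < 0 → deriv Real.smoothTransition t = 0 := by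
    intro t ht
    have h2 : Real.smoothTransition =ᶠ[𝓝 t] fun _ => 0 := by
      filter_upwards [gt_mem_nhds ht] with s hs
      exact Real.smoothTransition.zero_of_nonpos (le_of_lt hs)
    rw [h2.deriv_eq]
    simp
  refine ⟨max L 0, le_max_right _ _, fun t => ⟨?_, h1 t⟩⟩
  by_cases ht0 : t < 0
  · rw [h0 t ht0, abs_zero]
    exact le_max_right _ _
  · by_cases ht1 : 1 < t
    · rw [h1 t ht1, abs_zero]
      exact le_max_right _ _
    · have := hL t ⟨not_lt.1 ht0, not_lt.1 ht1⟩
      rw [Real.norm_eq_abs] at this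
      exact this.trans (le_max_left _ _)

/-- the measure of the neighbourhood of the axis -/
private theorem ax_small (hm : 2 ≤ m) {D : Set ℂ} (hDb : Bornology.IsBounded D) :
    ∃ K : ℝ, 0 ≤ K ∧ ∀ n : ℝ, 1 ≤ n →
      n ^ 2 * ((volume : Measure (X m)).restrict (rev m D)).real {x : X m | ‖x.1‖ ≤ 2 / n} ≤ K := by
  obtain ⟨R, hR⟩ := hDb.exists_norm_le
  set R' : ℝ := max R 0 with hR'
  have hR0 : 0 ≤ R' := le_max_right _ _
  set V : ℝ := ((volume : Measure (E m)) (ball 0 1)).toReal with hV
  have hV0 : 0 ≤ V := ENNReal.toReal_nonneg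
  refine ⟨2 ^ m * V * (2 * R'), by positivity, fun n hn => ?_⟩
  have hn0 : 0 < n := by linarith
  have hsm : MeasurableSet {x : X m | ‖x.1‖ ≤ 2 / n} :=
    (isClosed_le (continuous_norm.comp continuous_fst) continuous_const).measurableSet
  have hsub : {x : X m | ‖x.1‖ ≤ 2 / n} ∩ rev m D ⊆ (closedBall (0 : E m) (2 / n)) ×ˢ (Icc (-R') R') := by
    rintro x ⟨h1, h2⟩
    have h3 : ‖prof x‖ ≤ R := hR _ h2
    have h4 : |x.2| ≤ R' := by
      rw [← prof_im x]
      exact (Complex.abs_im_le_norm _).trans (h3.trans (le_max_left _ _))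
    refine ⟨?_, abs_le.1 h4⟩
    rw [mem_closedBall_zero_iff]
    exact h1
  have h1 : (volume : Measure (X m)) ({x : X m | ‖x.1‖ ≤ 2 / n} ∩ rev m D) ≤
      ENNReal.ofReal ((2 / n) ^ m) * (volume : Measure (E m)) (ball 0 1) * ENNReal.ofReal (2 * R') := by
    refine (measure_mono hsub).trans (le_of_eq ?_)
    rw [show (volume : Measure (X m)) = (volume : Measure (E m)).prod (volume : Measure ℝ) from rfl,
      Measure.prod_prod, Measure.addHaar_closedBall _ _ (by positivity), finrank_euclideanSpace_fin, Real.volume_Icc]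
    congr 2
    ring
  have hfin : (volume : Measure (E m)) (ball 0 1) ≠ ⊤ := measure_ball_lt_top.ne
  have h2 : ((volume : Measure (X m)).restrict (rev m D)).real {x : X m | ‖x.1‖ ≤ 2 / n} ≤
      (2 / n) ^ m * V * (2 * R') := by
    rw [Measure.real, Measure.restrict_apply hsm]
    have h3 := ENNReal.toReal_mono (by
      exact ENNReal.mul_ne_top (ENNReal.mul_ne_top ENNReal.ofReal_ne_top hfin) ENNReal.ofReal_ne_top) h1
    rw [ENNReal.toReal_mul, ENNReal.toReal_mul, ENNReal.toReal_ofReal (by positivity),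
      ENNReal.toReal_ofReal (by positivity)] at h3
    exact h3
  have h3 : n ^ 2 * ((2 / n) ^ m) ≤ 2 ^ m := by
    rw [div_pow, mul_div_assoc', div_le_iff₀ (by positivity), mul_comm]
    exact mul_le_mul_of_nonneg_left (pow_le_pow_right₀ hn hm) (by positivity)
  calc n ^ 2 * ((volume : Measure (X m)).restrict (rev m D)).real {x : X m | ‖x.1‖ ≤ 2 / n}
      ≤ n ^ 2 * ((2 / n) ^ m * V * (2 * R')) := mul_le_mul_of_nonneg_left h2 (by positivity)
    _ = (n ^ 2 * (2 / n) ^ m) * (V * (2 * R')) := by ring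
    _ ≤ 2 ^ m * (V * (2 * R')) := mul_le_mul_of_nonneg_right h3 (by positivity)
    _ = 2 ^ m * V * (2 * R') := by ring

/-- the equation away from the axis -/
private theorem eq_away (hm : 2 ≤ m) {W : Set (X m)} (hWo : IsOpen W) {D : Set ℂ} (hDo : IsOpen D)
    (hWD : ∀ x : X m, x.1 ≠ 0 → (x ∈ W ↔ prof x ∈ D)) (a : E m → ℝ) (g : ℂ → ℝ) (U : ℂ → ℂ)
    (h : ∀ ψ : ℂ → ℝ, IsTest D ψ → ∫ w in D, (g w * w.re ^ (m - 1)) * dot (U w) (grad ψ w) = 0)
    {φ : X m → ℝ} (hφ : IsTestN W φ) {n : ℝ} (hn : 0 < n) :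
    ∫ x in W, (a (om x) * g (prof x)) * dotN (liftG U x) (gradN (fun y => tc n y * φ y) x) = 0 := by
  set δ : ℝ := 1 / (2 * n) with hδdef
  have hδ : 0 < δ := by positivity
  have hδn : δ < 1 / n := by
    rw [hδdef]
    exact one_div_lt_one_div_of_lt hn (by linarith)
  set D' : Set ℂ := {w | w ∈ D ∧ δ < w.re} with hD'
  have hD'o : IsOpen D' := hDo.inter (isOpen_lt continuous_const Complex.continuous_re)
  have hts : tsupport (fun y : X m => tc n y * φ y) ⊆ rev m D' := by
    have h1 : tsupport (fun y : X m => tc n y * φ y) ⊆ tsupport φ :=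
      tsupport_mul_subset_right (f := tc n) (g := φ)
    have h2 : tsupport (fun y : X m => tc n y * φ y) ⊆ {x : X m | 1 / n ≤ ‖x.1‖} := by
      refine closure_minimal ?_ (isClosed_le continuous_const (continuous_norm.comp continuous_fst))
      intro x hx
      by_contra hc
      have hc' : ‖x.1‖ < 1 / n := not_le.1 hc
      apply hx
      simp only [tc_zero hn hc'.le, zero_mul]
    intro x hx
    have h3 : 1 / n ≤ ‖x.1‖ := h2 hx
    have hx0 : x.1 ≠ 0 := by
      intro h0
      rw [h0, norm_zero] at h3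
      have : 0 < 1 / n := by positivity
      linarith
    show prof x ∈ D'
    refine ⟨(hWD x hx0).1 (hφ.2.2 (h1 hx)), ?_⟩
    rw [prof_re]
    linarith
  have hsm : ContDiff ℝ (⊤ : ℕ∞) (fun y : X m => tc n y * φ y) := (tc_smooth hn).mul hφ.1
  have htest : IsTestN (rev m D') (fun y : X m => tc n y * φ y) := ⟨hsm, hφ.2.1.mul_left, hts⟩
  have key := eqnA (by omega) hD'o.measurableSet hδ (fun w hw => le_of_lt hw.2) a g U (by
    intro ψ hψ
    have h1 : IsTest D ψ := ⟨hψ.1, hψ.2.1, hψ.2.2.trans fun w hw => hw.1⟩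
    rw [← h ψ h1]
    symm
    refine setIntegral_eq_of_subset_of_forall_sdiff_eq_zero hDo.measurableSet (fun w hw => hw.1) ?_
    intro w hw
    have h2 : w ∉ tsupport ψ := fun hc => hw.2 (hψ.2.2 hc)
    have h3 : grad ψ w = 0 := by
      unfold grad
      rw [fderiv_of_notMem_tsupport (𝕜 := ℝ) h2]
      simp
    rw [h3]
    simp [dot]) _ htest
  rw [← key]
  refine setIntegral_eq_of_subset_of_forall_sdiff_eq_zero hWo.measurableSet ?_ ?_
  · intro x hx
    have hx' : prof x ∈ D' := hx
    have hx0 : x.1 ≠ 0 := by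
      intro h0
      have := hx'.2
      rw [prof_re, h0, norm_zero] at this
      linarith
    exact (hWD x hx0).2 hx'.1
  · intro x hx
    have h2 : x ∉ tsupport (fun y : X m => tc n y * φ y) := fun hc => hx.2 (hts hc)
    rw [gN_zero h2]
    simp [dotN]

/-- The equation across the axis, with an angular factor. -/
theorem ax_eqnA (hm : 2 ≤ m) {W : Set (X m)} (hWo : IsOpen W) (hWb : Bornology.IsBounded W) {D : Set ℂ} (hDo : IsOpen D) (hpos : ∀ w ∈ D, 0 < w.re)
    (hDb : Bornology.IsBounded D) (hWD : ∀ x : X m, x.1 ≠ 0 → (x ∈ W ↔ prof x ∈ D)) {a : E m → ℝ} (ha : AEStronglyMeasurable a (sE m))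
    (hab : ∃ C : ℝ, ∀ᵐ y ∂(sE m), |a y| ≤ C) {g : ℂ → ℝ} (hg : IsConductivity D g) {U : ℂ → ℂ} (hU : MemLp U 2 (nuD m D))
    (h : ∀ ψ : ℂ → ℝ, IsTest D ψ → ∫ w in D, (g w * w.re ^ (m - 1)) * dot (U w) (grad ψ w) = 0) :
    ∀ φ : X m → ℝ, IsTestN W φ → ∫ x in W, (a (om x) * g (prof x)) * dotN (liftG U x) (gradN φ x) = 0 := by
  intro φ hφ
  have hm1 : 1 ≤ m := by omega
  have hDm := hDo.measurableSet
  have hres := qa_restrict hm hWD
  have haway := fun (n : ℝ) (hn : 0 < n) => eq_away hm hWo hDo hWD a g U h hφ hn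
  rw [hres] at haway ⊢
  set μ : Measure (X m) := (volume : Measure (X m)).restrict (rev m D) with hμ
  obtain ⟨Ca, hCa⟩ := hab
  obtain ⟨hgm, c0, Cg, hc0, hcg⟩ := hg
  have q1 := quasiO (m := m) hm1 hDm hpos
  have q2 := quasi (m := m) hm1 hDm hpos
  have b1 : ∀ᵐ x ∂μ, |a (om x)| ≤ Ca := q1.ae hCa
  have b2 : ∀ᵐ x ∂μ, c0 ≤ g (prof x) ∧ g (prof x) ≤ Cg := q2.ae hcg
  have m1 : AEStronglyMeasurable (fun x => a (om x)) μ := ha.comp_quasiMeasurePreserving q1
  have m2 : AEStronglyMeasurable (fun x => g (prof x)) μ := hgm.comp_quasiMeasurePreserving q2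
  set M : ℝ := |Ca| * |Cg| with hM
  have hM0 : 0 ≤ M := by positivity
  have bc : ∀ᵐ x ∂μ, |a (om x) * g (prof x)| ≤ M := by
    filter_upwards [b1, b2] with x h1 h2
    rw [abs_mul]
    have h3 : |g (prof x)| ≤ |Cg| := by
      rw [abs_of_pos (hc0.trans_le h2.1)]
      exact h2.2.trans (le_abs_self _)
    exact mul_le_mul (h1.trans (le_abs_self _)) h3 (abs_nonneg _) (abs_nonneg _)
  have mu : MemLp (fun x : X m => U (prof x)) 2 μ := by
    have h1 := map_prof (m := m) hm1 hDm hpos
    have h2 : MemLp U 2 (Measure.map prof μ) := by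
      rw [hμ, h1]
      exact hU.smul_measure (measure_ne_top _ _)
    exact (memLp_map_measure_iff h2.1 measurable_prof.aemeasurable).1 h2
  have mv : AEStronglyMeasurable (liftG U) μ := by
    have h2 : AEStronglyMeasurable (fun x : X m => (U (prof x)).re) μ :=
      Complex.continuous_re.comp_aestronglyMeasurable mu.1
    have h3 : AEStronglyMeasurable (fun x : X m => (U (prof x)).im) μ :=
      Complex.continuous_im.comp_aestronglyMeasurable mu.1
    have h4 : AEStronglyMeasurable (fun x : X m => ‖x.1‖⁻¹) μ :=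
      (measurable_norm.comp measurable_fst).inv.aestronglyMeasurable
    have h5 : AEStronglyMeasurable (fun x : X m => x.1) μ := continuous_fst.aestronglyMeasurable
    exact AEStronglyMeasurable.prodMk ((h2.mul h4).smul h5) h3
  have hne0 : ∀ᵐ x ∂μ, x.1 ≠ 0 := by
    filter_upwards [ae_restrict_mem (measurable_prof hDm)] with x hx h0
    have h1 := hpos _ hx
    rw [prof_re, h0, norm_zero] at h1
    exact lt_irrefl _ h1
  have intF : ∀ ψ : X m → ℝ, IsTestN univ ψ →
      Integrable (fun x => (a (om x) * g (prof x)) * dotN (liftG U x) (gradN ψ x)) μ := by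
    intro ψ hψ
    have hgr : MemLp (gradN ψ) 2 μ := grad_mem hψ _
    have hdom : Integrable (fun x => M * (2 * (‖U (prof x)‖ * ‖gradN ψ x‖))) μ :=
      ((mu.norm.integrable_mul hgr.norm).const_mul 2).const_mul M
    refine hdom.mono' ?_ ?_
    · refine (m1.mul m2).mul ?_
      unfold dotN
      exact ((continuous_fst.comp_aestronglyMeasurable mv).inner (continuous_fst.comp_aestronglyMeasurable hgr.1)).add
        ((continuous_snd.comp_aestronglyMeasurable mv).mul (continuous_snd.comp_aestronglyMeasurable hgr.1))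
    · filter_upwards [bc] with x hx
      rw [Real.norm_eq_abs, abs_mul]
      refine mul_le_mul hx ?_ (abs_nonneg _) hM0
      refine (dotN_le _ _).trans ?_
      rw [mul_assoc]
      exact mul_le_mul_of_nonneg_left (mul_le_mul_of_nonneg_right (liftG_norm U x) (norm_nonneg _)) (by norm_num)
  obtain ⟨Bφ, hBφ⟩ := hφ.2.1.exists_bound_of_continuous hφ.1.continuous
  have hB0 : 0 ≤ Bφ := (norm_nonneg _).trans (hBφ 0)
  obtain ⟨L, hL0, hL⟩ := st_bound
  obtain ⟨K, hK0, hK⟩ := ax_small (m := m) hm hDb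
  set F : X m → ℝ := fun x => (a (om x) * g (prof x)) * dotN (liftG U x) (gradN φ x) with hF
  have iF : Integrable F μ := intF φ (univ_test hφ)
  set s : ℕ → Set (X m) := fun N => {x : X m | ‖x.1‖ ≤ 2 / ((N : ℝ) + 1)} with hs
  have hsm : ∀ N, MeasurableSet (s N) := fun N =>
    (isClosed_le (continuous_norm.comp continuous_fst) continuous_const).measurableSet
  have iu : Integrable (fun x : X m => ‖U (prof x)‖ ^ 2) μ := mu.integrable_norm_pow (by norm_num)
  have hfinμ : IsFiniteMeasure μ := by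
    refine ⟨?_⟩
    rw [← hres, Measure.restrict_apply_univ]
    exact hWb.measure_lt_top
  -- the integrals near the axis
  set J : ℕ → ℝ := fun N => ∫ x, (s N).indicator (fun x => ‖U (prof x)‖ ^ 2) x ∂μ with hJ
  have hlim : Tendsto (fun N : ℕ => 2 / ((N : ℝ) + 1)) atTop (𝓝 0) := by
    have := tendsto_one_div_add_atTop_nhds_zero_nat (𝕜 := ℝ)
    have h2 := this.const_mul 2
    simpa [div_eq_mul_inv] using h2
  have hout : ∀ x : X m, x.1 ≠ 0 → ∀ᶠ N : ℕ in atTop, x ∉ s N := by
    intro x hx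
    have h1 : 0 < ‖x.1‖ := norm_pos_iff.2 hx
    filter_upwards [hlim.eventually (gt_mem_nhds h1)] with N hN hc
    exact absurd hN (not_lt.2 hc)
  have hJlim : Tendsto J atTop (𝓝 0) := by
    have h1 : Tendsto J atTop (𝓝 (∫ x, (0 : ℝ) ∂μ)) := by
      refine tendsto_integral_of_dominated_convergence (fun x => ‖U (prof x)‖ ^ 2) ?_ iu ?_ ?_
      · intro N
        exact (iu.indicator (hsm N)).1
      · intro N
        refine Eventually.of_forall fun x => ?_
        rw [Real.norm_eq_abs]
        by_cases hx : x ∈ s N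
        · rw [indicator_of_mem hx, abs_of_nonneg (by positivity)]
        · rw [indicator_of_notMem hx, abs_zero]
          positivity
      · filter_upwards [hne0] with x hx
        refine tendsto_const_nhds.congr' ?_
        filter_upwards [hout x hx] with N hN
        rw [indicator_of_notMem hN]
    simpa using h1
  -- the cut-off integrals
  have hFlim : Tendsto (fun N : ℕ => ∫ x, tc ((N : ℝ) + 1) x * F x ∂μ) atTop (𝓝 (∫ x, F x ∂μ)) := by
    refine tendsto_integral_of_dominated_convergence (fun x => ‖F x‖) ?_ iF.norm ?_ ?_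
    · intro N
      exact ((tc_smooth (m := m) (n := (N : ℝ) + 1) (by positivity)).continuous.aestronglyMeasurable).mul iF.1
    · intro N
      refine Eventually.of_forall fun x => ?_
      rw [norm_mul, tc_eq, Real.norm_eq_abs, abs_of_nonneg (Real.smoothTransition.nonneg _)]
      exact mul_le_of_le_one_left (norm_nonneg _) (Real.smoothTransition.le_one _)
    · filter_upwards [hne0] with x hx
      refine tendsto_const_nhds.congr' ?_
      filter_upwards [hout x hx] with N hN
      have h1 : 2 / ((N : ℝ) + 1) < ‖x.1‖ := not_le.1 hN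
      have hN0 : (0 : ℝ) < (N : ℝ) + 1 := by positivity
      rw [div_lt_iff₀ hN0] at h1
      rw [tc_eq, Real.smoothTransition.one_of_one_le (by linarith), one_mul]
  have hbd : ∀ ε : ℝ, 0 < ε → ∀ N : ℕ, ‖∫ x, tc ((N : ℝ) + 1) x * F x ∂μ‖ ≤
      (M * Bφ * L) * (ε / 2 * K + 1 / (2 * ε) * J N) := by
    intro ε hε N
    set n : ℝ := (N : ℝ) + 1 with hn
    have hn1 : 1 ≤ n := by rw [hn]; have := Nat.cast_nonneg (α := ℝ) N; linarith
    have hn0 : 0 < n := by linarith
    have htest : IsTestN univ (fun y : X m => tc n y * φ y) :=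
      ⟨(tc_smooth hn0).mul hφ.1, hφ.2.1.mul_left, subset_univ _⟩
    have iT := intF _ htest
    have iFn : Integrable (fun x => tc n x * F x) μ := by
      refine iF.norm.mono' (((tc_smooth (m := m) hn0).continuous.aestronglyMeasurable).mul iF.1) ?_
      refine Eventually.of_forall fun x => ?_
      rw [norm_mul, tc_eq, Real.norm_eq_abs, abs_of_nonneg (Real.smoothTransition.nonneg _)]
      exact mul_le_of_le_one_left (norm_nonneg _) (Real.smoothTransition.le_one _)
    have e1 : ∫ x, tc n x * F x ∂μ = ∫ x, (tc n x * F x -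
        (a (om x) * g (prof x)) * dotN (liftG U x) (gradN (fun y => tc n y * φ y) x)) ∂μ := by
      rw [integral_sub iFn iT, haway n hn0, sub_zero]
    rw [e1]
    have ibound : Integrable (fun x => (M * Bφ * L) * (ε / 2 * (s N).indicator (fun _ => n ^ 2) x +
        1 / (2 * ε) * (s N).indicator (fun x => ‖U (prof x)‖ ^ 2) x)) μ := by
      have i1 : Integrable (fun x => (s N).indicator (fun _ => n ^ 2) x) μ :=
        (integrable_const (n ^ 2)).indicator (hsm N)
      have i2 : Integrable (fun x => (s N).indicator (fun x => ‖U (prof x)‖ ^ 2) x) μ := iu.indicator (hsm N)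
      exact ((i1.const_mul (ε / 2)).add (i2.const_mul (1 / (2 * ε)))).const_mul _
    have hle : ∀ᵐ x ∂μ, ‖tc n x * F x -
        (a (om x) * g (prof x)) * dotN (liftG U x) (gradN (fun y => tc n y * φ y) x)‖ ≤
        (M * Bφ * L) * (ε / 2 * (s N).indicator (fun _ => n ^ 2) x +
        1 / (2 * ε) * (s N).indicator (fun x => ‖U (prof x)‖ ^ 2) x) := by
      filter_upwards [bc, hne0] with x hx hx0
      have e2 : tc n x * F x -
          (a (om x) * g (prof x)) * dotN (liftG U x) (gradN (fun y => tc n y * φ y) x) =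
          -((a (om x) * g (prof x)) * (φ x * dotN (liftG U x) (gradN (tc n) x))) := by
        rw [gN_mul ((tc_smooth hn0).differentiable (by simp) x) (test_diff hφ x), dotN_lin]
        simp only [hF]
        ring
      rw [e2, norm_neg, tc_dot n hx0, Real.norm_eq_abs, abs_mul (a (om x) * g (prof x)), abs_mul (φ x),
        abs_mul (deriv Real.smoothTransition _), abs_mul n]
      have hBx : |φ x| ≤ Bφ := by
        have := hBφ x
        rwa [Real.norm_eq_abs] at this
      have hUx : |(U (prof x)).re| ≤ ‖U (prof x)‖ := Complex.abs_re_le_norm _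
      by_cases hxs : x ∈ s N
      · rw [indicator_of_mem hxs, indicator_of_mem hxs]
        have hd := (hL (n * ‖x.1‖ - 1)).1
        have h3 : |n| * |(U (prof x)).re| ≤ ε / 2 * n ^ 2 + 1 / (2 * ε) * ‖U (prof x)‖ ^ 2 := by
          rw [abs_of_pos hn0]
          refine (mul_le_mul_of_nonneg_left hUx hn0.le).trans ?_
          have h4 : 0 ≤ (ε * n - ‖U (prof x)‖) ^ 2 / (2 * ε) := by positivity
          have h5 : (ε * n - ‖U (prof x)‖) ^ 2 / (2 * ε) =
              ε / 2 * n ^ 2 + 1 / (2 * ε) * ‖U (prof x)‖ ^ 2 - n * ‖U (prof x)‖ := by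
            field_simp
            ring
          linarith
        calc |a (om x) * g (prof x)| * (|φ x| * (|deriv Real.smoothTransition (n * ‖x.1‖ - 1)| *
              (|n| * |(U (prof x)).re|)))
            ≤ M * (Bφ * (L * (ε / 2 * n ^ 2 + 1 / (2 * ε) * ‖U (prof x)‖ ^ 2))) := by
              refine mul_le_mul hx ?_ (by positivity) hM0
              refine mul_le_mul hBx ?_ (by positivity) hB0
              exact mul_le_mul hd h3 (by positivity) hL0
          _ = _ := by ring
      · have h1 : 2 / n < ‖x.1‖ := not_le.1 hxs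
        rw [div_lt_iff₀ hn0] at h1
        rw [(hL (n * ‖x.1‖ - 1)).2 (by linarith), indicator_of_notMem hxs, indicator_of_notMem hxs]
        simp
    refine (norm_integral_le_of_norm_le ibound hle).trans ?_
    rw [integral_const_mul, integral_add, integral_const_mul, integral_const_mul]
    · refine mul_le_mul_of_nonneg_left ?_ (by positivity)
      refine add_le_add ?_ le_rfl
      refine mul_le_mul_of_nonneg_left ?_ (by positivity)
      have e3 : ∫ x, (s N).indicator (fun _ => n ^ 2) x ∂μ = n ^ 2 * μ.real (s N) := by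
        rw [integral_indicator (hsm N), setIntegral_const, smul_eq_mul, mul_comm]
      rw [e3]
      exact hK n hn1
    · exact ((integrable_const (n ^ 2)).indicator (hsm N)).const_mul _
    · exact (iu.indicator (hsm N)).const_mul _
  have hfinal : ∀ ε : ℝ, 0 < ε → ‖∫ x, F x ∂μ‖ ≤ (M * Bφ * L) * (ε / 2 * K) := by
    intro ε hε
    have h1 : Tendsto (fun N : ℕ => (M * Bφ * L) * (ε / 2 * K + 1 / (2 * ε) * J N)) atTop
        (𝓝 ((M * Bφ * L) * (ε / 2 * K + 1 / (2 * ε) * 0))) :=
      ((hJlim.const_mul _).const_add _).const_mul _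
    have h2 := le_of_tendsto_of_tendsto' hFlim.norm h1 (hbd ε hε)
    simpa using h2
  have hzero : ‖∫ x, F x ∂μ‖ ≤ 0 := by
    refine le_of_forall_pos_le_add fun ε hε => ?_
    have hQ : 0 ≤ M * Bφ * L * K := by positivity
    have h1 := hfinal (2 * ε / (M * Bφ * L * K + 1)) (by positivity)
    refine h1.trans ?_
    have h2 : (M * Bφ * L) * (2 * ε / (M * Bφ * L * K + 1) / 2 * K) =
        ε * ((M * Bφ * L * K) / (M * Bφ * L * K + 1)) := by
      field_simp
    rw [h2, zero_add]
    refine mul_le_of_le_one_right hε.le ?_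
    rw [div_le_one (by positivity)]
    linarith
  exact norm_le_zero_iff.1 hzero

/-- The plain equation (`a = 1`). -/
theorem ax_eqn_one (hm : 2 ≤ m) {W : Set (X m)} (hWo : IsOpen W) (hWb : Bornology.IsBounded W) {D : Set ℂ} (hDo : IsOpen D) (hpos : ∀ w ∈ D, 0 < w.re)
    (hDb : Bornology.IsBounded D) (hWD : ∀ x : X m, x.1 ≠ 0 → (x ∈ W ↔ prof x ∈ D)) {g : ℂ → ℝ} (hg : IsConductivity D g) {U : ℂ → ℂ} (hU : MemLp U 2 (nuD m D))
    (h : ∀ ψ : ℂ → ℝ, IsTest D ψ → ∫ w in D, (g w * w.re ^ (m - 1)) * dot (U w) (grad ψ w) = 0) :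
    ∀ φ : X m → ℝ, IsTestN W φ → ∫ x in W, g (prof x) * dotN (liftG U x) (gradN φ x) = 0 := by
  intro φ hφ
  have := ax_eqnA hm hWo hWb hDo hpos hDb hWD (a := fun _ => 1) aestronglyMeasurable_const
    ⟨1, Eventually.of_forall fun _ => by simp⟩ hg hU h φ hφ
  simpa using this

end

end RotCalderon
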