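import Pool.Agent.Lib.MP_70bd98_an.AxDefs

/-! # Extension by zero -/

open MeasureTheory Complex Metric Set LocalCalderon Filter
open scoped ENNReal Topology ContDiff

namespace RotCalderon

noncomputable section

variable {m : ℕ}

private theorem axe_delta {D : Set ℂ} (hD4 : D ⊆ ball 0 (1 / 4)) (hpos : ∀ w ∈ D, 0 < w.re) {K : Set ℂ}
    (hK : IsCompact K) (hKG : K ⊆ Gax) : ∃ δ : ℝ, 0 < δ ∧ ∀ w ∈ K ∩ D, δ ≤ w.re := by
  have hc : IsCompact (K ∩ closure D) := hK.inter_right isClosed_closure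
  have hp : ∀ w ∈ K ∩ closure D, 0 < w.re := by
    intro w hw
    have h1 : 0 ≤ w.re := by
      have hcl : IsClosed {w : ℂ | 0 ≤ w.re} := isClosed_le continuous_const continuous_re
      exact closure_minimal (fun v hv => (hpos v hv).le) hcl hw.2
    have h2 : ‖w‖ ≤ 1 / 4 := by
      have : w ∈ closedBall (0 : ℂ) (1 / 4) :=
        closure_minimal (hD4.trans ball_subset_closedBall) isClosed_closedBall hw.2
      simpa using this
    rcases h1.lt_or_eq with h | h
    · exact h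
    · exact absurd (⟨h.symm, (abs_im_le_norm w).trans h2⟩ : w ∈ Lax) (hKG hw.1)
  rcases (K ∩ closure D).eq_empty_or_nonempty with he | hne
  · refine ⟨1, one_pos, fun w hw => ?_⟩
    have : w ∈ K ∩ closure D := ⟨hw.1, subset_closure hw.2⟩
    rw [he] at this
    exact absurd this (notMem_empty w)
  · obtain ⟨w0, hw0, hmin⟩ := hc.exists_isMinOn hne continuous_re.continuousOn
    exact ⟨w0.re, hp w0 hw0, fun w hw => hmin ⟨hw.1, subset_closure hw.2⟩⟩

private theorem axe_le {D : Set ℂ} (hDo : IsOpen D) (hD4 : D ⊆ ball 0 (1 / 4)) (hpos : ∀ w ∈ D, 0 < w.re)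
    {K : Set ℂ} (hK : IsCompact K) (hKG : K ⊆ Gax) :
    ∃ M : ℝ≥0∞, M ≠ ⊤ ∧ (volume : Measure ℂ).restrict (K ∩ D) ≤ M • nuD m D := by
  obtain ⟨δ, hδ, hδD⟩ := axe_delta hD4 hpos hK hKG
  have hKm : MeasurableSet K := hK.measurableSet
  have hc0 : ENNReal.ofReal (δ ^ (m - 1)) ≠ 0 := (ENNReal.ofReal_pos.2 (pow_pos hδ _)).ne'
  have hct : ENNReal.ofReal (δ ^ (m - 1)) ≠ ⊤ := ENNReal.ofReal_ne_top
  have h1 : ENNReal.ofReal (δ ^ (m - 1)) • (volume : Measure ℂ).restrict (K ∩ D) ≤ nuD m D := by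
    calc ENNReal.ofReal (δ ^ (m - 1)) • (volume : Measure ℂ).restrict (K ∩ D)
        = ((volume : Measure ℂ).restrict (K ∩ D)).withDensity
            (fun _ => ENNReal.ofReal (δ ^ (m - 1))) := (withDensity_const _).symm
      _ ≤ ((volume : Measure ℂ).restrict (K ∩ D)).withDensity
            (fun w => ENNReal.ofReal (w.re ^ (m - 1))) := by
          refine withDensity_mono ?_
          filter_upwards [ae_restrict_mem (hKm.inter hDo.measurableSet)] with w hw
          exact ENNReal.ofReal_le_ofReal (pow_le_pow_left₀ hδ.le (hδD w hw) _)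
      _ = (nuD m D).restrict K := by
          rw [nuD, restrict_withDensity hKm, Measure.restrict_restrict hKm]
      _ ≤ nuD m D := Measure.restrict_le_self
  refine ⟨(ENNReal.ofReal (δ ^ (m - 1)))⁻¹, ENNReal.inv_ne_top.2 hc0, ?_⟩
  intro s
  have h2 := h1 s
  rw [Measure.smul_apply, smul_eq_mul] at h2 ⊢
  calc ((volume : Measure ℂ).restrict (K ∩ D)) s
      = (ENNReal.ofReal (δ ^ (m - 1)))⁻¹ * (ENNReal.ofReal (δ ^ (m - 1)) *
          ((volume : Measure ℂ).restrict (K ∩ D)) s) := by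
        rw [← mul_assoc, ENNReal.inv_mul_cancel hc0 hct, one_mul]
    _ ≤ (ENNReal.ofReal (δ ^ (m - 1)))⁻¹ * (nuD m D) s := by gcongr

private theorem axe_cs (μ : Measure ℂ) (f g : ℂ → ℂ) (hf : MemLp f 2 μ) (hg : MemLp g 2 μ) :
    ‖∫ w, f w * g w ∂μ‖ₑ ≤ eLpNorm f 2 μ * eLpNorm g 2 μ := by
  calc ‖∫ w, f w * g w ∂μ‖ₑ ≤ ∫⁻ w, ‖f w * g w‖ₑ ∂μ := enorm_integral_le_lintegral_enorm _
    _ = eLpNorm (f • g) 1 μ := by
        rw [eLpNorm_one_eq_lintegral_enorm]
        rfl
    _ ≤ eLpNorm f 2 μ * eLpNorm g 2 μ := eLpNorm_smul_le_mul_eLpNorm hg.1 hf.1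

private theorem axe_gr {η : ℂ → ℝ} (h1 : ContDiff ℝ (⊤ : ℕ∞) η) (h2 : HasCompactSupport η) :
    Continuous (grad η) ∧ HasCompactSupport (grad η) ∧ (∀ w, w ∉ tsupport η → grad η w = 0) := by
  have hfd : Continuous (fderiv ℝ η) := h1.continuous_fderiv (by simp)
  have hcf : HasCompactSupport (fderiv ℝ η) := h2.fderiv (𝕜 := ℝ)
  have hx : Continuous fun z => fderiv ℝ η z 1 := hfd.clm_apply continuous_const
  have hy : Continuous fun z => fderiv ℝ η z I := hfd.clm_apply continuous_const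
  have hgz : ∀ z, fderiv ℝ η z = 0 → grad η z = 0 := by
    intro z h0
    show ((fderiv ℝ η z 1 : ℝ) : ℂ) + I * ((fderiv ℝ η z I : ℝ) : ℂ) = 0
    rw [h0]
    simp
  refine ⟨?_, ?_, ?_⟩
  · show Continuous fun z => ((fderiv ℝ η z 1 : ℝ) : ℂ) + I * ((fderiv ℝ η z I : ℝ) : ℂ)
    exact (continuous_ofReal.comp hx).add (continuous_const.mul (continuous_ofReal.comp hy))
  · refine hcf.mono ?_
    intro z hz
    simp only [Function.mem_support, ne_eq] at hz ⊢
    intro h0
    exact hz (hgz z h0)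
  · intro w hw
    have : w ∉ tsupport (fderiv ℝ η) := fun h => hw (tsupport_fderiv_subset ℝ h)
    exact hgz w (image_eq_zero_of_notMem_tsupport this)

private theorem axe_ibp1 {η φ : ℂ → ℝ} (h1 : ContDiff ℝ (⊤ : ℕ∞) η) (h2 : HasCompactSupport η)
    (h3 : ContDiff ℝ (⊤ : ℕ∞) φ) (v : ℂ) :
    (∫ w, φ w * fderiv ℝ η w v) = - ∫ w, fderiv ℝ φ w v * η w := by
  have d1 : Differentiable ℝ η := h1.differentiable (by simp)
  have d3 : Differentiable ℝ φ := h3.differentiable (by simp)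
  have c1 : Continuous fun z => fderiv ℝ η z v := (h1.continuous_fderiv (by simp)).clm_apply continuous_const
  have c3 : Continuous fun z => fderiv ℝ φ z v := (h3.continuous_fderiv (by simp)).clm_apply continuous_const
  have s1 : HasCompactSupport fun z => fderiv ℝ η z v := by
    refine (h2.fderiv (𝕜 := ℝ)).mono ?_
    intro z hz
    simp only [Function.mem_support, ne_eq] at hz ⊢
    intro h0
    exact hz (by rw [h0]; simp)
  exact integral_mul_fderiv_eq_neg_fderiv_mul_of_integrable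
    ((c3.mul h1.continuous).integrable_of_hasCompactSupport h2.mul_left)
    ((h3.continuous.mul c1).integrable_of_hasCompactSupport s1.mul_left)
    ((h3.continuous.mul h1.continuous).integrable_of_hasCompactSupport h2.mul_left)
    (fun z _ => d3 z) (fun z _ => d1 z)

private theorem axe_ibp {η φ : ℂ → ℝ} (h1 : ContDiff ℝ (⊤ : ℕ∞) η) (h2 : HasCompactSupport η)
    (h3 : ContDiff ℝ (⊤ : ℕ∞) φ) :
    (∫ w, (φ w : ℂ) * grad η w) = - ∫ w, grad φ w * (η w : ℂ) := by
  have c1 : ∀ v : ℂ, Continuous fun z => fderiv ℝ η z v := fun v =>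
    (h1.continuous_fderiv (by simp)).clm_apply continuous_const
  have c3 : ∀ v : ℂ, Continuous fun z => fderiv ℝ φ z v := fun v =>
    (h3.continuous_fderiv (by simp)).clm_apply continuous_const
  have s1 : ∀ v : ℂ, HasCompactSupport fun z => fderiv ℝ η z v := by
    intro v
    refine (h2.fderiv (𝕜 := ℝ)).mono ?_
    intro z hz
    simp only [Function.mem_support, ne_eq] at hz ⊢
    intro h0
    exact hz (by rw [h0]; simp)
  have i1 : ∀ v : ℂ, Integrable fun w => ((φ w * fderiv ℝ η w v : ℝ) : ℂ) := fun v =>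
    ((h3.continuous.mul (c1 v)).integrable_of_hasCompactSupport (s1 v).mul_left).ofReal
  have i3 : ∀ v : ℂ, Integrable fun w => ((fderiv ℝ φ w v * η w : ℝ) : ℂ) := fun v =>
    (((c3 v).mul h1.continuous).integrable_of_hasCompactSupport h2.mul_left).ofReal
  have e1 : (∫ w, (φ w : ℂ) * grad η w) =
      ((∫ w, φ w * fderiv ℝ η w 1 : ℝ) : ℂ) + I * ((∫ w, φ w * fderiv ℝ η w I : ℝ) : ℂ) := by
    rw [← integral_complex_ofReal, ← integral_complex_ofReal, ← integral_const_mul, ← integral_add (i1 1) ((i1 I).const_mul I)]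
    refine integral_congr_ae (Eventually.of_forall fun w => ?_)
    show (φ w : ℂ) * (((fderiv ℝ η w 1 : ℝ) : ℂ) + I * ((fderiv ℝ η w I : ℝ) : ℂ)) = _
    push_cast
    ring
  have e2 : (∫ w, grad φ w * (η w : ℂ)) =
      ((∫ w, fderiv ℝ φ w 1 * η w : ℝ) : ℂ) + I * ((∫ w, fderiv ℝ φ w I * η w : ℝ) : ℂ) := by
    rw [← integral_complex_ofReal, ← integral_complex_ofReal, ← integral_const_mul, ← integral_add (i3 1) ((i3 I).const_mul I)]
    refine integral_congr_ae (Eventually.of_forall fun w => ?_)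
    show (((fderiv ℝ φ w 1 : ℝ) : ℂ) + I * ((fderiv ℝ φ w I : ℝ) : ℂ)) * (η w : ℂ) = _
    push_cast
    ring
  rw [e1, e2, axe_ibp1 h1 h2 h3 1, axe_ibp1 h1 h2 h3 I]
  push_cast
  ring

/-- Extension by zero. -/
theorem ax_ext {D : Set ℂ} (hDo : IsOpen D) (hD4 : D ⊆ ball 0 (1 / 4)) (hpos : ∀ w ∈ D, 0 < w.re) {z : ℂ → ℝ} {Z : ℂ → ℂ}
    (h : ZW m D z Z) : Cal.WG Gax (D.indicator z) (D.indicator Z) := by
  have hDm : MeasurableSet D := hDo.measurableSet
  have hmem : ∀ {F : Type} [NormedAddCommGroup F] (f : ℂ → F) (K : Set ℂ), IsCompact K → K ⊆ Gax →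
      MemLp f 2 (nuD m D) → MemLp f 2 ((volume : Measure ℂ).restrict (K ∩ D)) := by
    intro F _ f K hK hKG hf
    obtain ⟨M, hM, hle⟩ := axe_le (m := m) hDo hD4 hpos hK hKG
    exact (hf.smul_measure hM).mono_measure hle
  have hind : ∀ {F : Type} [NormedAddCommGroup F] (f : ℂ → F) (K : Set ℂ), IsCompact K → K ⊆ Gax →
      MemLp f 2 (nuD m D) → MemLp (D.indicator f) 2 ((volume : Measure ℂ).restrict K) := by
    intro F _ f K hK hKG hf
    rw [memLp_indicator_iff_restrict hDm, Measure.restrict_restrict hDm, inter_comm]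
    exact hmem f K hK hKG hf
  refine ⟨fun K hK hKG => (hind z K hK hKG h.mz).ofReal, fun K hK hKG => hind Z K hK hKG h.mZ, ?_⟩
  intro η hη
  obtain ⟨η1, η2, η3⟩ := hη
  have hK : IsCompact (tsupport η) := η2
  have hKm : MeasurableSet (tsupport η) := hK.measurableSet
  obtain ⟨g1, g2, g3⟩ := axe_gr η1 η2
  obtain ⟨M, hM, hle⟩ := axe_le (m := m) hDo hD4 hpos hK η3
  have hη0 : ∀ w, w ∉ tsupport η → η w = 0 := fun w hw => image_eq_zero_of_notMem_tsupport hw
  have mη : MemLp (fun w => (η w : ℂ)) 2 ((volume : Measure ℂ).restrict (tsupport η ∩ D)) :=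
    ((η1.continuous.memLp_of_hasCompactSupport (p := 2) (μ := volume) η2).ofReal (K := ℂ)).restrict _
  have mg : MemLp (grad η) 2 ((volume : Measure ℂ).restrict (tsupport η ∩ D)) :=
    (g1.memLp_of_hasCompactSupport (p := 2) (μ := volume) g2).restrict _
  have mz : MemLp (fun w => (z w : ℂ)) 2 ((volume : Measure ℂ).restrict (tsupport η ∩ D)) :=
    (hmem z _ hK η3 h.mz).ofReal
  have mZ : MemLp Z 2 ((volume : Measure ℂ).restrict (tsupport η ∩ D)) := hmem Z _ hK η3 h.mZ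
  -- both sides as integrals over the support
  have eL : (∫ w, ((D.indicator z w : ℝ) : ℂ) * Cal.gr η w) =
      ∫ w in tsupport η ∩ D, (z w : ℂ) * grad η w := by
    rw [← integral_indicator (hKm.inter hDm)]
    refine integral_congr_ae (Eventually.of_forall fun w => ?_)
    show ((D.indicator z w : ℝ) : ℂ) * grad η w = (tsupport η ∩ D).indicator (fun w => (z w : ℂ) * grad η w) w
    by_cases h1 : w ∈ D
    · by_cases h2 : w ∈ tsupport η
      · rw [indicator_of_mem h1, indicator_of_mem (show w ∈ tsupport η ∩ D from ⟨h2, h1⟩)]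
      · rw [g3 w h2, mul_zero, indicator_of_notMem (show w ∉ tsupport η ∩ D from fun h => h2 h.1)]
    · rw [indicator_of_notMem h1, indicator_of_notMem (show w ∉ tsupport η ∩ D from fun h => h1 h.2)]
      simp
  have eR : (∫ w, D.indicator Z w * (η w : ℂ)) = ∫ w in tsupport η ∩ D, Z w * (η w : ℂ) := by
    rw [← integral_indicator (hKm.inter hDm)]
    refine integral_congr_ae (Eventually.of_forall fun w => ?_)
    show D.indicator Z w * (η w : ℂ) = (tsupport η ∩ D).indicator (fun w => Z w * (η w : ℂ)) w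
    by_cases h1 : w ∈ D
    · by_cases h2 : w ∈ tsupport η
      · rw [indicator_of_mem h1, indicator_of_mem (show w ∈ tsupport η ∩ D from ⟨h2, h1⟩)]
      · rw [hη0 w h2, indicator_of_notMem (show w ∉ tsupport η ∩ D from fun h => h2 h.1)]
        simp
    · rw [indicator_of_notMem h1, indicator_of_notMem (show w ∉ tsupport η ∩ D from fun h => h1 h.2)]
      simp
  rw [eL, eR]
  set μ : Measure ℂ := (volume : Measure ℂ).restrict (tsupport η ∩ D) with hμ
  have iz : Integrable (fun w => (z w : ℂ) * grad η w) μ := mz.integrable_mul mg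
  have iZ : Integrable (fun w => Z w * (η w : ℂ)) μ := mZ.integrable_mul mη
  set C : ℝ≥0∞ := M ^ (1 / (2 : ℝ≥0∞)).toReal * (eLpNorm (grad η) 2 μ + eLpNorm (fun w => (η w : ℂ)) 2 μ) with hC
  have hCt : C ≠ ⊤ := by
    rw [hC]
    refine ENNReal.mul_ne_top ?_ (ENNReal.add_ne_top.2 ⟨mg.2.ne, mη.2.ne⟩)
    exact ENNReal.rpow_ne_top_of_nonneg (by positivity) hM
  have key : ∀ ε : ℝ, 0 < ε →
      ‖(∫ w, (z w : ℂ) * grad η w ∂μ) + ∫ w, Z w * (η w : ℂ) ∂μ‖ₑ ≤ ENNReal.ofReal ε * C := by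
    intro ε hε
    obtain ⟨φ, ⟨φ1, φ2, φ3⟩, a1, a2⟩ := h.app ε hε
    obtain ⟨p1, p2, p3⟩ := axe_gr φ1 φ2
    have mφ : MemLp (fun w => (φ w : ℂ)) 2 μ :=
      ((φ1.continuous.memLp_of_hasCompactSupport (p := 2) (μ := volume) φ2).ofReal (K := ℂ)).restrict _
    have mp : MemLp (grad φ) 2 μ := (p1.memLp_of_hasCompactSupport (p := 2) (μ := volume) p2).restrict _
    have iφ : Integrable (fun w => (φ w : ℂ) * grad η w) μ := mφ.integrable_mul mg
    have ip : Integrable (fun w => grad φ w * (η w : ℂ)) μ := mp.integrable_mul mη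
    have hib : (∫ w, (φ w : ℂ) * grad η w ∂μ) + ∫ w, grad φ w * (η w : ℂ) ∂μ = 0 := by
      have q1 : (∫ w, (φ w : ℂ) * grad η w ∂μ) = ∫ w, (φ w : ℂ) * grad η w := by
        refine setIntegral_eq_integral_of_forall_compl_eq_zero fun w hw => ?_
        by_cases h2 : w ∈ tsupport η
        · have : φ w = 0 := image_eq_zero_of_notMem_tsupport fun h3 => hw ⟨h2, φ3 h3⟩
          rw [this]
          simp
        · rw [g3 w h2, mul_zero]
      have q2 : (∫ w, grad φ w * (η w : ℂ) ∂μ) = ∫ w, grad φ w * (η w : ℂ) := by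
        refine setIntegral_eq_integral_of_forall_compl_eq_zero fun w hw => ?_
        by_cases h2 : w ∈ tsupport η
        · rw [p3 w fun h3 => hw ⟨h2, φ3 h3⟩, zero_mul]
        · rw [hη0 w h2]
          simp
      rw [q1, q2, axe_ibp η1 η2 φ1, neg_add_cancel]
    have hsplit : (∫ w, (z w : ℂ) * grad η w ∂μ) + ∫ w, Z w * (η w : ℂ) ∂μ =
        (∫ w, ((z w - φ w : ℝ) : ℂ) * grad η w ∂μ) + ∫ w, (Z w - grad φ w) * (η w : ℂ) ∂μ := by
      have q1 : (∫ w, ((z w - φ w : ℝ) : ℂ) * grad η w ∂μ) =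
          (∫ w, (z w : ℂ) * grad η w ∂μ) - ∫ w, (φ w : ℂ) * grad η w ∂μ := by
        rw [← integral_sub iz iφ]
        refine integral_congr_ae (Eventually.of_forall fun w => ?_)
        show ((z w - φ w : ℝ) : ℂ) * grad η w = (z w : ℂ) * grad η w - (φ w : ℂ) * grad η w
        push_cast
        ring
      have q2 : (∫ w, (Z w - grad φ w) * (η w : ℂ) ∂μ) =
          (∫ w, Z w * (η w : ℂ) ∂μ) - ∫ w, grad φ w * (η w : ℂ) ∂μ := by
        rw [← integral_sub iZ ip]
        refine integral_congr_ae (Eventually.of_forall fun w => ?_)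
        show (Z w - grad φ w) * (η w : ℂ) = Z w * (η w : ℂ) - grad φ w * (η w : ℂ)
        ring
      rw [q1, q2]
      linear_combination hib
    have hnorm : ∀ {F : Type} [NormedAddCommGroup F] (f : ℂ → F), eLpNorm f 2 (nuD m D) ≤ ENNReal.ofReal ε →
        eLpNorm f 2 μ ≤ M ^ (1 / (2 : ℝ≥0∞)).toReal * ENNReal.ofReal ε := by
      intro F _ f hf
      refine (eLpNorm_mono_measure f hle).trans ?_
      rw [eLpNorm_smul_measure_of_ne_top (by simp), smul_eq_mul]
      gcongr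
    have b1 : eLpNorm (fun w => ((z w - φ w : ℝ) : ℂ)) 2 μ ≤ M ^ (1 / (2 : ℝ≥0∞)).toReal * ENNReal.ofReal ε := by
      have e0 : eLpNorm (fun w => ((z w - φ w : ℝ) : ℂ)) 2 μ = eLpNorm (fun w => z w - φ w) 2 μ :=
        eLpNorm_congr_norm_ae (Eventually.of_forall fun w => Complex.norm_real _)
      rw [e0]
      exact hnorm _ a1
    have b2 := hnorm _ a2
    have md : MemLp (fun w => ((z w - φ w : ℝ) : ℂ)) 2 μ := by
      refine (mz.sub mφ).ae_eq (Eventually.of_forall fun w => ?_)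
      show (z w : ℂ) - (φ w : ℂ) = ((z w - φ w : ℝ) : ℂ)
      push_cast
      ring
    have mD : MemLp (fun w => Z w - grad φ w) 2 μ := mZ.sub mp
    rw [hsplit]
    calc ‖(∫ w, ((z w - φ w : ℝ) : ℂ) * grad η w ∂μ) + ∫ w, (Z w - grad φ w) * (η w : ℂ) ∂μ‖ₑ
        ≤ ‖∫ w, ((z w - φ w : ℝ) : ℂ) * grad η w ∂μ‖ₑ + ‖∫ w, (Z w - grad φ w) * (η w : ℂ) ∂μ‖ₑ :=
          enorm_add_le _ _
      _ ≤ eLpNorm (fun w => ((z w - φ w : ℝ) : ℂ)) 2 μ * eLpNorm (grad η) 2 μ +
          eLpNorm (fun w => Z w - grad φ w) 2 μ * eLpNorm (fun w => (η w : ℂ)) 2 μ :=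
          add_le_add (axe_cs μ _ _ md mg) (axe_cs μ _ _ mD mη)
      _ ≤ (M ^ (1 / (2 : ℝ≥0∞)).toReal * ENNReal.ofReal ε) * eLpNorm (grad η) 2 μ +
          (M ^ (1 / (2 : ℝ≥0∞)).toReal * ENNReal.ofReal ε) * eLpNorm (fun w => (η w : ℂ)) 2 μ := by
          gcongr
      _ = ENNReal.ofReal ε * C := by
          rw [hC]
          ring
  -- conclusion
  set L : ℂ := (∫ w, (z w : ℂ) * grad η w ∂μ) + ∫ w, Z w * (η w : ℂ) ∂μ with hL
  have hL0 : L = 0 := by
    by_contra hne
    have hpos' : 0 < ‖L‖ := norm_pos_iff.2 hne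
    have hc : 0 ≤ C.toReal := ENNReal.toReal_nonneg
    have h1 := key (‖L‖ / (2 * (C.toReal + 1))) (by positivity)
    have h2 : ‖L‖ ≤ ‖L‖ / (2 * (C.toReal + 1)) * C.toReal := by
      have h3 := ENNReal.toReal_mono (ENNReal.mul_ne_top ENNReal.ofReal_ne_top hCt) h1
      rw [ENNReal.toReal_mul, ENNReal.toReal_ofReal (by positivity), toReal_enorm] at h3
      exact h3
    have h3 : ‖L‖ / (2 * (C.toReal + 1)) * C.toReal < ‖L‖ := by
      rw [div_mul_eq_mul_div, div_lt_iff₀ (by positivity)]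
      nlinarith
    linarith
  exact eq_neg_of_add_eq_zero_left hL0

end

end RotCalderon
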