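import Pool.Agent.Lib.MP_70bd98_an.AxDefs

/-! # Weak gradients across the axis -/

open MeasureTheory Complex Metric Set LocalCalderon Filter
open scoped ENNReal Topology ContDiff

namespace RotCalderon

noncomputable section

variable {m : ℕ}


private theorem axk_restrict (hm : 2 ≤ m) {W : Set (X m)} {D : Set ℂ}
    (hWD : ∀ x : X m, x.1 ≠ 0 → (x ∈ W ↔ prof x ∈ D)) :
    (volume : Measure (X m)).restrict W = (volume : Measure (X m)).restrict (rev m D) := by
  have hne : Nonempty (Fin m) := ⟨⟨0, by omega⟩⟩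
  refine Measure.restrict_congr_set ?_
  have h1 : ∀ᵐ y : E m, y ≠ 0 := by
    rw [ae_iff]
    simp
  have h2 : ∀ᵐ x : X m, x.1 ≠ 0 := by
    have h3 : Measure.QuasiMeasurePreserving (Prod.fst : E m × ℝ → E m)
      ((volume : Measure (E m)).prod (volume : Measure ℝ)) (volume : Measure (E m)) :=
      Measure.quasiMeasurePreserving_fst
    exact h3.ae h1
  filter_upwards [h2] with x hx
  have h4 : (x ∈ W) = (x ∈ rev m D) := propext (hWD x hx)
  exact h4

private theorem axk_ne (hm : 2 ≤ m) (W : Set (X m)) : ∀ᵐ x : X m ∂(volume.restrict W), x.1 ≠ 0 := by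
  have hne : Nonempty (Fin m) := ⟨⟨0, by omega⟩⟩
  have h1 : ∀ᵐ y : E m, y ≠ 0 := by
    rw [ae_iff]
    simp
  have h3 : Measure.QuasiMeasurePreserving (Prod.fst : E m × ℝ → E m)
    ((volume : Measure (E m)).prod (volume : Measure ℝ)) (volume : Measure (E m)) :=
    Measure.quasiMeasurePreserving_fst
  exact ae_restrict_of_ae (h3.ae h1)

private theorem axk_norm {F : Type*} [NormedAddCommGroup F] (hm : 2 ≤ m) {W : Set (X m)} {D : Set ℂ} (hDo : IsOpen D) (hpos : ∀ w ∈ D, 0 < w.re)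
    (hWD : ∀ x : X m, x.1 ≠ 0 → (x ∈ W ↔ prof x ∈ D)) {f : ℂ → F} (hf : MemLp f 2 (nuD m D)) :
    MemLp (fun x : X m => f (prof x)) 2 ((volume : Measure (X m)).restrict W) := by
  have hm1 : 1 ≤ m := by omega
  rw [axk_restrict hm hWD]
  have h1 := map_prof hm1 hDo.measurableSet hpos
  have h2 : MemLp f 2 (Measure.map prof ((volume : Measure (X m)).restrict (rev m D))) := by
    rw [h1]
    exact hf.smul_measure (measure_ne_top _ _)
  exact h2.comp_of_map (measurable_prof (m := m)).aemeasurable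

private theorem axk_liftG (hm : 2 ≤ m) {W : Set (X m)} {D : Set ℂ} (hDo : IsOpen D) (hpos : ∀ w ∈ D, 0 < w.re)
    (hWD : ∀ x : X m, x.1 ≠ 0 → (x ∈ W ↔ prof x ∈ D)) {F : ℂ → ℂ} (hF : MemLp F 2 (nuD m D)) :
    MemLp (liftG F) 2 ((volume : Measure (X m)).restrict W) := by
  have h0 := axk_norm hm hDo hpos hWD hF
  have h1 := h0.1
  have h2 : AEStronglyMeasurable (fun x : X m => (F (prof x)).re) ((volume : Measure (X m)).restrict W) :=
    Complex.continuous_re.comp_aestronglyMeasurable h1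
  have h3 : AEStronglyMeasurable (fun x : X m => (F (prof x)).im) ((volume : Measure (X m)).restrict W) :=
    Complex.continuous_im.comp_aestronglyMeasurable h1
  have h4 : AEStronglyMeasurable (fun x : X m => ‖x.1‖⁻¹) ((volume : Measure (X m)).restrict W) :=
    (measurable_norm.comp measurable_fst).inv.aestronglyMeasurable
  have h5 : AEStronglyMeasurable (fun x : X m => x.1) ((volume : Measure (X m)).restrict W) :=
    continuous_fst.aestronglyMeasurable
  have h6 : AEStronglyMeasurable (liftG F) ((volume : Measure (X m)).restrict W) := AEStronglyMeasurable.prodMk ((h2.mul h4).smul h5) h3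
  exact h0.mono h6 (Eventually.of_forall fun x => liftG_norm F x)

/-- the identity for test functions whose support does not meet the axis -/
private theorem axk_core (hm : 1 ≤ m) {D : Set ℂ} (hDo : IsOpen D) (hpos : ∀ w ∈ D, 0 < w.re) {u : ℂ → ℝ} {U : ℂ → ℂ}
    (hw : Cal.WG D u U) {ψ : X m → ℝ} (hψ : IsTestN (rev m D) ψ) (v : X m) :
    ∫ x in rev m D, u (prof x) * dotN (gradN ψ x) v = - ∫ x in rev m D, ψ x * dotN (liftG U x) v := by
  have hL : IsCompact (prof '' tsupport ψ) := hψ.2.1.isCompact.image continuous_prof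
  have hLD : prof '' tsupport ψ ⊆ D := by
    rintro _ ⟨x, hx, rfl⟩
    exact hψ.2.2 hx
  obtain ⟨D', hD'o, hLD', hD'D, hD'c⟩ := exists_open_between_and_isCompact_closure hL hDo hLD
  have hsub : D' ⊆ D := subset_closure.trans hD'D
  obtain ⟨δ, hδ, hle⟩ : ∃ δ : ℝ, 0 < δ ∧ ∀ w ∈ D', δ ≤ w.re := by
    rcases (closure D').eq_empty_or_nonempty with he | hne
    · exact ⟨1, one_pos, fun w hw => absurd (subset_closure hw) (by rw [he]; exact notMem_empty w)⟩
    · obtain ⟨w0, hw0, hmin⟩ := hD'c.exists_isMinOn hne Complex.continuous_re.continuousOn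
      exact ⟨w0.re, hpos _ (hD'D hw0), fun w hw => hmin (subset_closure hw)⟩
  have hb : Bornology.IsBounded D' := hD'c.isBounded.subset subset_closure
  have hpos' : ∀ w ∈ D', 0 < w.re := fun w hw => hδ.trans_le (hle w hw)
  have mu : MemLp u 2 (volume.restrict D') := by
    have h1 := (hw.u2 _ hD'c hD'D).mono_measure (Measure.restrict_mono subset_closure le_rfl)
    exact h1.re
  have mU : MemLp U 2 (volume.restrict D') :=
    (hw.G2 _ hD'c hD'D).mono_measure (Measure.restrict_mono subset_closure le_rfl)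
  have hwg : Cal.WG D' u U := ⟨fun K hK hKD => hw.u2 K hK (hKD.trans hsub), fun K hK hKD => hw.G2 K hK (hKD.trans hsub),
    fun φ hφ => hw.h φ ⟨hφ.1, hφ.2.1, hφ.2.2.trans hsub⟩⟩
  have hwk : WeakGrad D' u U := (Cal.t_h1.2.2.2.2.2.2.2.1 D' u U hD'o mu mU).1 hwg
  obtain ⟨hH, hae⟩ := Cal.t_h1.2.1 D' u U hD'o mu mU hwk
  have hl := lift_H1 (m := m) hm hD'o hb hδ hle hH
  have hψ' : IsTestN (rev m D') ψ := ⟨hψ.1, hψ.2.1, fun x hx => hLD' ⟨x, hx, rfl⟩⟩
  have h1 := hl.2.2 ψ hψ' v
  have hrs : rev m D' ⊆ rev m D := fun x hx => hsub hx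
  have hmeas' : MeasurableSet (rev m D') := measurable_prof hD'o.measurableSet
  have hmeas : MeasurableSet (rev m D) := measurable_prof hDo.measurableSet
  have e1 : ∫ x in rev m D, u (prof x) * dotN (gradN ψ x) v = ∫ x in rev m D', u (prof x) * dotN (gradN ψ x) v := by
    refine setIntegral_eq_of_subset_of_forall_sdiff_eq_zero hmeas hrs fun x hx => ?_
    rw [gN_zero (fun h => hx.2 (hψ'.2.2 h))]
    simp [dotN]
  have e2 : ∫ x in rev m D, ψ x * dotN (liftG U x) v = ∫ x in rev m D', ψ x * dotN (liftG U x) v := by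
    refine setIntegral_eq_of_subset_of_forall_sdiff_eq_zero hmeas hrs fun x hx => ?_
    rw [image_eq_zero_of_notMem_tsupport (fun h => hx.2 (hψ'.2.2 h)), zero_mul]
  have e3 : ∫ x in rev m D', ψ x * dotN (liftG U x) v = ∫ x in rev m D', ψ x * dotN (liftG (wgrad D' u) x) v := by
    refine integral_congr_ae ?_
    have := (quasi (m := m) hm hD'o.measurableSet hpos').ae hae
    filter_upwards [this] with x hx
    have : liftG (wgrad D' u) x = liftG U x := by
      unfold liftG
      rw [hx]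
    rw [this]
  rw [e1, e2, e3]
  exact h1

/-- cutoff near the axis -/
private def axk_th (m : ℕ) (n : ℕ) (x : X m) : ℝ := Real.smoothTransition ((n : ℝ) ^ 2 * ‖x.1‖ ^ 2 - 1)

private theorem axk_th_smooth (n : ℕ) : ContDiff ℝ (⊤ : ℕ∞) (axk_th m n) := by
  unfold axk_th
  refine Real.smoothTransition.contDiff.comp ((contDiff_const.mul ?_).sub contDiff_const)
  exact (contDiff_norm_sq ℝ).comp contDiff_fst

private theorem axk_bd : ∃ M : ℝ, 0 ≤ M ∧ (∀ x, |deriv Real.smoothTransition x| ≤ M) ∧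
    ∀ x, 1 < x → deriv Real.smoothTransition x = 0 := by
  have hc : Continuous (deriv Real.smoothTransition) :=
    (Real.smoothTransition.contDiff (n := 1)).continuous_deriv le_rfl
  have h1 : ∀ x : ℝ, 1 < x → deriv Real.smoothTransition x = 0 := fun x h2 => by
    have h1 : Real.smoothTransition =ᶠ[𝓝 x] fun _ => (1 : ℝ) := by
      filter_upwards [Ioi_mem_nhds h2] with y hy
      exact Real.smoothTransition.one_of_one_le (le_of_lt hy)
    rw [h1.deriv_eq, deriv_const]
  have h0 : ∀ x : ℝ, x < 0 → deriv Real.smoothTransition x = 0 := fun x h => by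
    have h1 : Real.smoothTransition =ᶠ[𝓝 x] fun _ => (0 : ℝ) := by
      filter_upwards [Iio_mem_nhds h] with y hy
      exact Real.smoothTransition.zero_of_nonpos (le_of_lt hy)
    rw [h1.deriv_eq, deriv_const]
  obtain ⟨M, hM⟩ := (isCompact_Icc (a := (0 : ℝ)) (b := 1)).exists_bound_of_continuousOn hc.continuousOn
  refine ⟨max M 0, le_max_right _ _, fun x => ?_, h1⟩
  by_cases hx : x ∈ Icc (0 : ℝ) 1
  · exact (hM x hx).trans (le_max_left _ _)
  · have : deriv Real.smoothTransition x = 0 := by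
      rcases lt_or_ge x 0 with h | h
      · exact h0 x h
      · exact h1 x (by
          by_contra h3
          exact hx ⟨h, not_lt.1 h3⟩)
    rw [this, abs_zero]
    exact le_max_right _ _

private theorem axk_fd (n : ℕ) (x v : X m) : fderiv ℝ (axk_th m n) x v =
    deriv Real.smoothTransition ((n : ℝ) ^ 2 * ‖x.1‖ ^ 2 - 1) * ((n : ℝ) ^ 2 * (2 * inner ℝ x.1 v.1)) := by
  have h1 : HasFDerivAt (fun y : E m => ‖y‖ ^ 2) (2 • (innerSL ℝ x.1)) x.1 := (hasStrictFDerivAt_norm_sq x.1).hasFDerivAt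
  have h2 : HasFDerivAt (fun y : X m => ‖y.1‖ ^ 2) ((2 • (innerSL ℝ x.1)).comp (ContinuousLinearMap.fst ℝ (E m) ℝ)) x :=
    HasFDerivAt.comp x h1 (hasFDerivAt_fst)
  have h3 := (h2.const_mul ((n : ℝ) ^ 2)).sub_const 1
  have h4 : HasDerivAt Real.smoothTransition (deriv Real.smoothTransition ((n : ℝ) ^ 2 * ‖x.1‖ ^ 2 - 1)) ((n : ℝ) ^ 2 * ‖x.1‖ ^ 2 - 1) :=
    ((Real.smoothTransition.contDiff (n := 1)).differentiable (by norm_num)).differentiableAt.hasDerivAt
  have h5 := h4.comp_hasFDerivAt x h3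
  have h6 : fderiv ℝ (axk_th m n) x = _ := HasFDerivAt.fderiv h5
  rw [h6]
  simp only [smul_apply, ContinuousLinearMap.comp_apply, ContinuousLinearMap.coe_fst', innerSL_apply_apply,
    smul_eq_mul, nsmul_eq_mul, Nat.cast_ofNat]


private theorem axk_fd_le {M : ℝ} (hM0 : 0 ≤ M) (hM : ∀ x, |deriv Real.smoothTransition x| ≤ M)
    (hd : ∀ x, 1 < x → deriv Real.smoothTransition x = 0) (n : ℕ) (x v : X m) : |fderiv ℝ (axk_th m n) x v| ≤ 4 * M * n * ‖v‖ := by
  rw [axk_fd]
  have hv : ‖v.1‖ ≤ ‖v‖ := norm_fst_le v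
  have hn : (0 : ℝ) ≤ n := Nat.cast_nonneg n
  rcases le_or_gt ((n : ℝ) * ‖x.1‖) 2 with h | h
  · have h1 : |inner ℝ x.1 v.1| ≤ ‖x.1‖ * ‖v.1‖ := abs_real_inner_le_norm _ _
    rw [abs_mul, abs_mul, abs_mul, abs_of_nonneg (by positivity : (0 : ℝ) ≤ (n : ℝ) ^ 2), abs_of_nonneg (by norm_num : (0 : ℝ) ≤ 2)]
    calc |deriv Real.smoothTransition ((n : ℝ) ^ 2 * ‖x.1‖ ^ 2 - 1)| * ((n : ℝ) ^ 2 * (2 * |inner ℝ x.1 v.1|))
        ≤ M * ((n : ℝ) ^ 2 * (2 * (‖x.1‖ * ‖v.1‖))) := by gcongr; exact hM _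
      _ = 2 * M * n * ((n * ‖x.1‖) * ‖v.1‖) := by ring
      _ ≤ 2 * M * n * (2 * ‖v‖) := by gcongr
      _ = 4 * M * n * ‖v‖ := by ring
  · rw [hd _ (by nlinarith), zero_mul, abs_zero]
    positivity

private theorem axk_fd_zero (hd : ∀ x, 1 < x → deriv Real.smoothTransition x = 0) (n : ℕ) (x v : X m)
    (h : x.1 = 0 ∨ 2 < (n : ℝ) * ‖x.1‖) : fderiv ℝ (axk_th m n) x v = 0 := by
  rw [axk_fd]
  rcases h with h | h
  · rw [h, inner_zero_left, mul_zero, mul_zero, mul_zero]
  · rw [hd _ (by nlinarith), zero_mul]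

private theorem axk_test {W : Set (X m)} {D : Set ℂ} (hWD : ∀ x : X m, x.1 ≠ 0 → (x ∈ W ↔ prof x ∈ D)) {φ : X m → ℝ}
    (hφ : IsTestN W φ) (n : ℕ) : IsTestN (rev m D) (fun x => axk_th m n x * φ x) := by
  refine ⟨(axk_th_smooth n).mul hφ.1, hφ.2.1.mul_left, fun x hx => ?_⟩
  have hx1 : x ∈ W := hφ.2.2 (tsupport_mul_subset_right hx)
  have hx2 : x ∈ tsupport (axk_th m n) := tsupport_mul_subset_left hx
  have hcl : IsClosed {x : X m | 1 ≤ (n : ℝ) ^ 2 * ‖x.1‖ ^ 2} :=
    isClosed_le continuous_const (continuous_const.mul ((continuous_norm.comp continuous_fst).pow 2))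
  have hs : tsupport (axk_th m n) ⊆ {x : X m | 1 ≤ (n : ℝ) ^ 2 * ‖x.1‖ ^ 2} := by
    refine closure_minimal (fun y hy => ?_) hcl
    by_contra h
    apply hy
    have h' : (n : ℝ) ^ 2 * ‖y.1‖ ^ 2 < 1 := not_le.1 h
    exact Real.smoothTransition.zero_of_nonpos (by linarith)
  have h3 : 1 ≤ (n : ℝ) ^ 2 * ‖x.1‖ ^ 2 := hs hx2
  have h4 : x.1 ≠ 0 := by
    intro h0
    rw [h0, norm_zero] at h3
    norm_num at h3
  exact (hWD x h4).1 hx1

private theorem axk_vol (hm : 2 ≤ m) {W : Set (X m)} (hWb : Bornology.IsBounded W) :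
    ∃ C : ℝ, 0 ≤ C ∧ ∀ n : ℕ, 2 ≤ n → volume (W ∩ {x : X m | (n : ℝ) * ‖x.1‖ ≤ 2}) ≤ ENNReal.ofReal (C / (n : ℝ) ^ 2) := by
  obtain ⟨R, hR⟩ := hWb.exists_norm_le
  set c := (volume (ball (0 : E m) 1)).toReal with hc
  have hcf : volume (ball (0 : E m) 1) ≠ ⊤ := measure_ball_lt_top.ne
  refine ⟨4 * c * (2 * |R|), by positivity, fun n hn => ?_⟩
  have hn' : (2 : ℝ) ≤ n := by exact_mod_cast hn
  have hsub : W ∩ {x : X m | (n : ℝ) * ‖x.1‖ ≤ 2} ⊆ closedBall (0 : E m) (2 / n) ×ˢ Icc (-|R|) |R| := by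
    rintro x ⟨hx, hx2⟩
    have h1 : (n : ℝ) * ‖x.1‖ ≤ 2 := hx2
    refine ⟨?_, ?_⟩
    · rw [mem_closedBall_zero_iff, le_div_iff₀ (by linarith)]
      linarith
    · have h3 : ‖x.2‖ ≤ ‖x‖ := norm_snd_le x
      exact abs_le.1 ((h3.trans (hR x hx)).trans (le_abs_self R))
  refine (measure_mono hsub).trans ?_
  rw [Measure.volume_eq_prod, Measure.prod_prod, Measure.addHaar_closedBall _ _ (by positivity), Real.volume_Icc,
    finrank_euclideanSpace, Fintype.card_fin, ← ENNReal.ofReal_toReal hcf, ← hc, ← ENNReal.ofReal_mul (by positivity),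
    ← ENNReal.ofReal_mul (by positivity)]
  refine ENNReal.ofReal_le_ofReal ?_
  have h5 : (2 / (n : ℝ)) ^ m ≤ (2 / (n : ℝ)) ^ 2 :=
    pow_le_pow_of_le_one (by positivity) (by rw [div_le_one (by linarith)]; exact hn') hm
  calc (2 / (n : ℝ)) ^ m * c * (|R| - -|R|) ≤ (2 / (n : ℝ)) ^ 2 * c * (|R| - -|R|) := by
        have : 0 ≤ |R| - -|R| := by
          have := abs_nonneg R
          linarith
        gcongr
    _ = 4 * c * (2 * |R|) / (n : ℝ) ^ 2 := by ring

/-- The weak gradient across the axis, for bounded functions. Proof. `MemLp`: `W` and `rev m D` differ by a null set (`x.1 = 0`), `map_prof` / `restrict_rev` (Prof.lean): the norm over `rev m D` is `(sig m univ)^{1/2}` times the `nuD` norm; `liftG_meas`, `liftG_norm` (Lift.lean).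
Weak gradient: `φ` a test function of `W`, `θ_n = ζ_n ∘ prof`, `ζ_n w = Φ (n * re w - 1)`, `θ_n φ` is a test function of `rev m D'`, `D' = {w ∈ D | 1/(2n) < re w}`. On `D'` (bounded, `re ≥ 1/(2n)`): let `χ` be a test function of `D'`, `= 1` near `prof '' tsupport (θ_n φ)` (`cut` in Lift.lean); `χ u ∈ H10 D'` with gradient
`χ U + u grad χ` (`Cal.t_h1`, `Cal.t_h10` parts for `u` replaced by `χ' u`, or `Cal.S_moll`) so `lift_H10` (Lift.lean) gives the weak gradient identity for `θ_n φ` (compare the proof of `lift_H1` in FinA.lean): `∫ u(prof) dotN (gradN (θ_n φ)) v = - ∫ θ_n φ dotN (liftG U) v`.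
`n → ∞`: the extra term `∫ u(prof) φ dotN (gradN θ_n) v` is at most `C M n · volume {x ∈ W : |y| ≤ 2/n} ≤ C n^{1-m} → 0`. -/
theorem ax_H1 (hm : 2 ≤ m) {W : Set (X m)} (hWo : IsOpen W) (hWb : Bornology.IsBounded W) {D : Set ℂ} (hDo : IsOpen D) (hpos : ∀ w ∈ D, 0 < w.re)
    (hDb : Bornology.IsBounded D) (hWD : ∀ x : X m, x.1 ≠ 0 → (x ∈ W ↔ prof x ∈ D)) {u : ℂ → ℝ} {U : ℂ → ℂ} (hu : MemLp u 2 (nuD m D)) (hM : ∃ M : ℝ, ∀ w ∈ D, |u w| ≤ M)
    (hU : MemLp U 2 (nuD m D)) (hw : Cal.WG D u U) : H1N W (fun x => u (prof x)) (liftG U) := by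
  have hm1 : 1 ≤ m := by omega
  have mu := axk_norm (m := m) hm hDo hpos hWD hu
  have mG := axk_liftG (m := m) hm hDo hpos hWD hU
  refine ⟨mu, mG, fun φ hφ v => ?_⟩
  obtain ⟨M, hM⟩ := hM
  obtain ⟨B, hB0, hB, hB1⟩ := axk_bd
  obtain ⟨Cφ, hCφ⟩ := hφ.2.1.exists_bound_of_continuous hφ.1.continuous
  have hCφ0 : 0 ≤ Cφ := (norm_nonneg _).trans (hCφ 0)
  obtain ⟨Cv, hCv0, hCv⟩ := axk_vol hm hWb
  have hWm : MeasurableSet W := hWo.measurableSet
  have hres := axk_restrict (m := m) hm hWD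
  -- the identity for the cut off test function
  have key : ∀ n : ℕ, 1 ≤ n →
      (∫ x in W, axk_th m n x * (u (prof x) * dotN (gradN φ x) v)) + (∫ x in W, u (prof x) * (φ x * fderiv ℝ (axk_th m n) x v)) =
        - ∫ x in W, axk_th m n x * (φ x * dotN (liftG U x) v) := by
    intro n _
    have h1 := axk_core (m := m) hm1 hDo hpos hw (axk_test hWD hφ n) v
    rw [← hres] at h1
    have cth : Continuous fun x => fderiv ℝ (axk_th m n) x v := ((axk_th_smooth n).continuous_fderiv (by simp)).clm_apply continuous_const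
    have i1 : Integrable (fun x => axk_th m n x * (u (prof x) * dotN (gradN φ x) v)) (volume.restrict W) := by
      have m1 : MemLp (fun x => axk_th m n x * dotN (gradN φ x) v) 2 (volume.restrict W) := by
        have hc : Continuous fun x => axk_th m n x * dotN (gradN φ x) v := by
          have : Continuous fun x => dotN (gradN φ x) v := by
            simp only [dotN_gradN]
            exact (hφ.1.continuous_fderiv (by simp)).clm_apply continuous_const
          exact (axk_th_smooth n).continuous.mul this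
        refine (hc.memLp_of_hasCompactSupport (HasCompactSupport.intro hφ.2.1 fun x hx => ?_)).restrict W
        rw [gN_zero hx]
        simp [dotN]
      have := mu.integrable_mul m1
      refine this.congr (Eventually.of_forall fun x => ?_)
      simp only [Pi.mul_apply]
      ring
    have i2 : Integrable (fun x => u (prof x) * (φ x * fderiv ℝ (axk_th m n) x v)) (volume.restrict W) := by
      have m1 : MemLp (fun x => φ x * fderiv ℝ (axk_th m n) x v) 2 (volume.restrict W) :=
        ((hφ.1.continuous.mul cth).memLp_of_hasCompactSupport hφ.2.1.mul_right).restrict W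
      exact mu.integrable_mul m1
    have e1 : ∫ x in W, u (prof x) * dotN (gradN (fun x => axk_th m n x * φ x) x) v =
        (∫ x in W, axk_th m n x * (u (prof x) * dotN (gradN φ x) v)) + (∫ x in W, u (prof x) * (φ x * fderiv ℝ (axk_th m n) x v)) := by
      rw [← integral_add i1 i2]
      refine integral_congr_ae (Eventually.of_forall fun x => ?_)
      simp only
      have d1 : DifferentiableAt ℝ (axk_th m n) x := ((axk_th_smooth n).differentiable (by simp)).differentiableAt
      rw [dotN_gradN, dotN_gradN, fderiv_fun_mul d1 (test_diff hφ x)]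
      simp only [add_apply, smul_apply, smul_eq_mul]
      ring
    rw [← e1, h1]
    congr 1
    refine integral_congr_ae (Eventually.of_forall fun x => ?_)
    simp only
    ring
  -- limits
  have hth : ∀ᵐ x : X m ∂(volume.restrict W), Tendsto (fun n : ℕ => axk_th m n x) atTop (𝓝 1) := by
    filter_upwards [axk_ne hm W] with x hx
    have hxn : 0 < ‖x.1‖ := norm_pos_iff.2 hx
    obtain ⟨N, hN⟩ := exists_nat_gt (2 / ‖x.1‖)
    refine tendsto_const_nhds.congr' ?_
    filter_upwards [eventually_ge_atTop N] with n hn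
    have h1 : (N : ℝ) ≤ n := by exact_mod_cast hn
    have h2 : 2 < (n : ℝ) * ‖x.1‖ := by
      rw [div_lt_iff₀ hxn] at hN
      nlinarith
    exact (Real.smoothTransition.one_of_one_le (by nlinarith)).symm
  have hth1 : ∀ (n : ℕ) (x : X m), ‖axk_th m n x‖ ≤ 1 := fun n x => by
    have h0 : 0 ≤ axk_th m n x := Real.smoothTransition.nonneg _
    rw [Real.norm_eq_abs, abs_of_nonneg h0]
    exact Real.smoothTransition.le_one _
  have lim : ∀ f : X m → ℝ, Integrable f (volume.restrict W) →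
      Tendsto (fun n : ℕ => ∫ x in W, axk_th m n x * f x) atTop (𝓝 (∫ x in W, f x)) := by
    intro f hf
    refine tendsto_integral_of_dominated_convergence (fun x => ‖f x‖) (fun n => ?_) hf.norm (fun n => ?_) ?_
    · exact (axk_th_smooth n).continuous.aestronglyMeasurable.mul hf.1
    · refine Eventually.of_forall fun x => ?_
      rw [norm_mul]
      exact mul_le_of_le_one_left (norm_nonneg _) (hth1 n x)
    · filter_upwards [hth] with x hx
      simpa using hx.mul_const (f x)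
  have l1 := lim (fun x => u (prof x) * dotN (gradN φ x) v) (mu.integrable_mul (memLp_dot (grad_mem hφ W) v))
  have l3 := lim (fun x => φ x * dotN (liftG U x) v) ((test_mem hφ W).integrable_mul (memLp_dot mG v))
  have l2 : Tendsto (fun n : ℕ => ∫ x in W, u (prof x) * (φ x * fderiv ℝ (axk_th m n) x v)) atTop (𝓝 0) := by
    have hbd : ∀ n : ℕ, 2 ≤ n → ‖∫ x in W, u (prof x) * (φ x * fderiv ℝ (axk_th m n) x v)‖ ≤ (|M| * (Cφ * (4 * B * ‖v‖)) * Cv) / n := by
      intro n hn
      have hn' : (2 : ℝ) ≤ n := by exact_mod_cast hn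
      have hSm : MeasurableSet {x : X m | (n : ℝ) * ‖x.1‖ ≤ 2} :=
        (isClosed_le (continuous_const.mul (continuous_norm.comp continuous_fst)) continuous_const).measurableSet
      have e1 : ∫ x in W, u (prof x) * (φ x * fderiv ℝ (axk_th m n) x v) =
          ∫ x in W ∩ {x : X m | (n : ℝ) * ‖x.1‖ ≤ 2}, u (prof x) * (φ x * fderiv ℝ (axk_th m n) x v) := by
        refine setIntegral_eq_of_subset_of_forall_sdiff_eq_zero hWm inter_subset_left fun x hx => ?_
        have h2 : 2 < (n : ℝ) * ‖x.1‖ := by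
          by_contra h3
          exact hx.2 ⟨hx.1, not_lt.1 h3⟩
        rw [axk_fd_zero hB1 n x v (Or.inr h2), mul_zero, mul_zero]
      rw [e1]
      have hv1 := hCv n hn
      have hfin : volume (W ∩ {x : X m | (n : ℝ) * ‖x.1‖ ≤ 2}) < ⊤ := hv1.trans_lt ENNReal.ofReal_lt_top
      have h4 := norm_setIntegral_le_of_norm_le_const (C := |M| * (Cφ * (4 * B * n * ‖v‖))) hfin
        (f := fun x => u (prof x) * (φ x * fderiv ℝ (axk_th m n) x v)) (fun x hx => by
          rw [norm_mul, norm_mul]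
          by_cases h0 : x.1 = 0
          · rw [axk_fd_zero hB1 n x v (Or.inl h0), norm_zero, mul_zero, mul_zero]
            positivity
          · have h5 : ‖u (prof x)‖ ≤ |M| := (hM _ ((hWD x h0).1 hx.1)).trans (le_abs_self M)
            have h6 := axk_fd_le hB0 hB hB1 n x v
            have h7 := hCφ x
            exact mul_le_mul h5 (mul_le_mul h7 h6 (norm_nonneg _) hCφ0) (by positivity) (abs_nonneg _))
      refine h4.trans ?_
      have h8 : (volume : Measure (X m)).real (W ∩ {x : X m | (n : ℝ) * ‖x.1‖ ≤ 2}) ≤ Cv / (n : ℝ) ^ 2 := by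
        rw [Measure.real]
        exact ENNReal.toReal_le_of_le_ofReal (by positivity) hv1
      calc |M| * (Cφ * (4 * B * n * ‖v‖)) * (volume : Measure (X m)).real (W ∩ {x : X m | (n : ℝ) * ‖x.1‖ ≤ 2})
          ≤ |M| * (Cφ * (4 * B * n * ‖v‖)) * (Cv / (n : ℝ) ^ 2) := by gcongr
        _ = (|M| * (Cφ * (4 * B * ‖v‖)) * Cv) / n := by
          have : (n : ℝ) ≠ 0 := by linarith
          field_simp
    refine squeeze_zero_norm' ?_ (tendsto_const_div_atTop_nhds_zero_nat (|M| * (Cφ * (4 * B * ‖v‖)) * Cv))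
    filter_upwards [eventually_ge_atTop 2] with n hn
    exact hbd n hn
  have l4 := l1.add l2
  rw [add_zero] at l4
  refine tendsto_nhds_unique l4 (l3.neg.congr' ?_)
  filter_upwards [eventually_ge_atTop 1] with n hn
  exact (key n hn).symm

end

end RotCalderon
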