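import Pool.Agent.Lib.MP_70bd98_an.AxDefs

/-! # Lifts of the weighted spaces -/

open MeasureTheory Complex Metric Set LocalCalderon Filter
open scoped ENNReal Topology ContDiff

namespace RotCalderon

noncomputable section

variable {m : ℕ}

/-- `W` and `rev m D` differ by a null set. -/
theorem ax_restrict (hm : 2 ≤ m) {W : Set (X m)} {D : Set ℂ}
    (hWD : ∀ x : X m, x.1 ≠ 0 → (x ∈ W ↔ prof x ∈ D)) :
    (volume : Measure (X m)).restrict W = (volume : Measure (X m)).restrict (rev m D) := by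
  have hne : Nonempty (Fin m) := ⟨⟨0, by omega⟩⟩
  refine Measure.restrict_congr_set ?_
  have h1 : ∀ᵐ y : E m, y ≠ 0 := by
    rw [ae_iff]
    simp
  have h2 : ∀ᵐ x : X m, x.1 ≠ 0 := by
    have h3 : Measure.QuasiMeasurePreserving (Prod.fst : E m × ℝ → E m)
      ((volume : Measure (E m)).prod (volume : Measure ℝ)) (volume : Measure (E m)) :=
      Measure.quasiMeasurePreserving_fst
    exact h3.ae h1
  filter_upwards [h2] with x hx
  have h4 : (x ∈ W) = (x ∈ rev m D) := propext (hWD x hx)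
  exact h4

/-- The measures: `W` and `rev m D` differ by the null set `{x | x.1 = 0}`, `map_prof` (Prof.lean) gives the norm. -/
theorem ax_norm {F : Type*} [NormedAddCommGroup F] (hm : 2 ≤ m) {W : Set (X m)} {D : Set ℂ} (hDo : IsOpen D) (hpos : ∀ w ∈ D, 0 < w.re)
    (hWD : ∀ x : X m, x.1 ≠ 0 → (x ∈ W ↔ prof x ∈ D)) {f : ℂ → F} (hf : AEStronglyMeasurable f (nuD m D)) :
    AEStronglyMeasurable (fun x : X m => f (prof x)) ((volume : Measure (X m)).restrict W) ∧
    eLpNorm (fun x => f (prof x)) 2 ((volume : Measure (X m)).restrict W) ≤ (sig m univ) ^ (1 / (2 : ℝ≥0∞)).toReal * eLpNorm f 2 (nuD m D) := by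
  have hm1 : 1 ≤ m := by omega
  rw [ax_restrict hm hWD]
  have h1 := map_prof hm1 hDo.measurableSet hpos
  have h2 : AEStronglyMeasurable f (Measure.map prof ((volume : Measure (X m)).restrict (rev m D))) := by
    rw [h1]
    exact hf.smul_measure _
  refine ⟨h2.comp_measurable measurable_prof, ?_⟩
  have h3 := eLpNorm_map_measure (p := 2) h2 (measurable_prof (m := m)).aemeasurable
  rw [h1, eLpNorm_smul_measure_of_ne_top (by norm_num)] at h3
  rw [smul_eq_mul] at h3
  exact le_of_eq h3.symm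

theorem ax_liftG_meas (hm : 2 ≤ m) {W : Set (X m)} {D : Set ℂ} (hDo : IsOpen D) (hpos : ∀ w ∈ D, 0 < w.re)
    (hWD : ∀ x : X m, x.1 ≠ 0 → (x ∈ W ↔ prof x ∈ D)) {F : ℂ → ℂ} (hF : AEStronglyMeasurable F (nuD m D)) :
    AEStronglyMeasurable (liftG F) ((volume : Measure (X m)).restrict W) := by
  have h1 := (ax_norm hm hDo hpos hWD hF).1
  have h2 : AEStronglyMeasurable (fun x : X m => (F (prof x)).re) ((volume : Measure (X m)).restrict W) :=
    Complex.continuous_re.comp_aestronglyMeasurable h1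
  have h3 : AEStronglyMeasurable (fun x : X m => (F (prof x)).im) ((volume : Measure (X m)).restrict W) :=
    Complex.continuous_im.comp_aestronglyMeasurable h1
  have h4 : AEStronglyMeasurable (fun x : X m => ‖x.1‖⁻¹) ((volume : Measure (X m)).restrict W) :=
    (measurable_norm.comp measurable_fst).inv.aestronglyMeasurable
  have h5 : AEStronglyMeasurable (fun x : X m => x.1) ((volume : Measure (X m)).restrict W) :=
    continuous_fst.aestronglyMeasurable
  exact AEStronglyMeasurable.prodMk ((h2.mul h4).smul h5) h3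

theorem ax_grad_cont {φ : ℂ → ℝ} (h : ContDiff ℝ (⊤ : ℕ∞) φ) : Continuous (grad φ) := by
  have h1 : Continuous (fderiv ℝ φ) := h.continuous_fderiv (by simp)
  unfold grad
  exact (Complex.continuous_ofReal.comp (h1.clm_apply continuous_const)).add
    (continuous_const.mul (Complex.continuous_ofReal.comp (h1.clm_apply continuous_const)))

/-- the lift of a test function of `D`. -/
theorem ax_test {W : Set (X m)} {D : Set ℂ} (hpos : ∀ w ∈ D, 0 < w.re)
    (hWD : ∀ x : X m, x.1 ≠ 0 → (x ∈ W ↔ prof x ∈ D)) {φ : ℂ → ℝ} (hφ : IsTest D φ) :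
    IsTestN W (fun x => φ (prof x)) ∧ ∀ x, gradN (fun x : X m => φ (prof x)) x = liftG (grad φ) x := by
  obtain ⟨δ, hδ, hle⟩ : ∃ δ : ℝ, 0 < δ ∧ ∀ w ∈ tsupport φ, δ ≤ w.re := by
    rcases (tsupport φ).eq_empty_or_nonempty with he | hne
    · exact ⟨1, one_pos, fun w hw => by rw [he] at hw; exact absurd hw (notMem_empty w)⟩
    · obtain ⟨w0, hw0, hmin⟩ := hφ.2.1.isCompact.exists_isMinOn hne Complex.continuous_re.continuousOn
      exact ⟨w0.re, hpos _ (hφ.2.2 hw0), fun w hw => hmin hw⟩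
  have ht : IsTest (tsupport φ) φ := ⟨hφ.1, hφ.2.1, Subset.rfl⟩
  obtain ⟨h1, h2⟩ := lift_test (m := m) hδ hle ht
  refine ⟨⟨h1.1, h1.2.1, fun x hx => ?_⟩, h2⟩
  have h3 : prof x ∈ tsupport φ := h1.2.2 hx
  have h4 := hφ.2.2 h3
  have h5 := hpos _ h4
  rw [prof_re] at h5
  exact (hWD x (norm_pos_iff.1 h5)).2 h4

/-- Proof. `IsTest D φ` implies `IsTestN W (φ ∘ prof)` with gradient `liftG (grad φ)` (`lift_test` in Lift.lean with `D' = {w ∈ D | δ < re w}`, `δ` small: the support of `φ` is compact in `D`; if `φ = 0` trivial). `ax_norm` for `z - φ` and `Z - grad φ`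
(`liftG_sub`, `liftG_norm`, `liftG_meas`), then `apN_H10` (Gen.lean). -/
theorem ax_H10 (hm : 2 ≤ m) {W : Set (X m)} (hWo : IsOpen W) {D : Set ℂ} (hDo : IsOpen D) (hpos : ∀ w ∈ D, 0 < w.re)
    (hWD : ∀ x : X m, x.1 ≠ 0 → (x ∈ W ↔ prof x ∈ D)) {z : ℂ → ℝ} {Z : ℂ → ℂ} (h : ZW m D z Z) :
    H10N W (fun x => z (prof x)) (liftG Z) := by
  set K := (sig m univ) ^ (1 / (2 : ℝ≥0∞)).toReal with hKdef
  have hK : K ≠ ⊤ := (ENNReal.rpow_lt_top_of_nonneg (by simp) (measure_ne_top _ _)).ne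
  have mz : MemLp (fun x => z (prof x)) 2 ((volume : Measure (X m)).restrict W) := by
    obtain ⟨a1, a2⟩ := ax_norm hm hDo hpos hWD h.mz.1
    exact ⟨a1, a2.trans_lt (ENNReal.mul_lt_top hK.lt_top h.mz.2)⟩
  have mZ0 : MemLp (fun x => Z (prof x)) 2 ((volume : Measure (X m)).restrict W) := by
    obtain ⟨a1, a2⟩ := ax_norm hm hDo hpos hWD h.mZ.1
    exact ⟨a1, a2.trans_lt (ENNReal.mul_lt_top hK.lt_top h.mZ.2)⟩
  have mZ : MemLp (liftG Z) 2 ((volume : Measure (X m)).restrict W) :=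
    mZ0.mono (ax_liftG_meas hm hDo hpos hWD h.mZ.1) (Eventually.of_forall fun x => liftG_norm Z x)
  refine apN_H10 hWo.measurableSet mz mZ fun ε hε => ?_
  have hKr : K = ENNReal.ofReal K.toReal := (ENNReal.ofReal_toReal hK).symm
  obtain ⟨φ, t1, t2, t3⟩ := h.app (ε / (K.toReal + 1)) (by positivity)
  have hbd : K * ENNReal.ofReal (ε / (K.toReal + 1)) ≤ ENNReal.ofReal ε := by
    rw [hKr, ← ENNReal.ofReal_mul ENNReal.toReal_nonneg]
    refine ENNReal.ofReal_le_ofReal ?_
    rw [ENNReal.toReal_ofReal ENNReal.toReal_nonneg, mul_div_assoc', div_le_iff₀ (by positivity)]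
    nlinarith [ENNReal.toReal_nonneg (a := K)]
  obtain ⟨l1, l2⟩ := ax_test (m := m) hpos hWD t1
  have mφ : AEStronglyMeasurable φ (nuD m D) := t1.1.continuous.aestronglyMeasurable
  have mg : AEStronglyMeasurable (grad φ) (nuD m D) := (ax_grad_cont t1.1).aestronglyMeasurable
  refine ⟨_, l1, ?_, ?_⟩
  · refine (ax_norm hm hDo hpos hWD (f := fun w => z w - φ w) (h.mz.1.sub mφ)).2.trans ?_
    exact (mul_le_mul' le_rfl t2).trans hbd
  · have e1 : (fun x : X m => liftG Z x - gradN (fun x => φ (prof x)) x) =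
        liftG fun w => Z w - grad φ w := by
      funext x
      rw [l2 x, liftG_sub]
    rw [e1]
    have e2 : eLpNorm (liftG (m := m) fun w => Z w - grad φ w) 2 ((volume : Measure (X m)).restrict W) ≤
        eLpNorm (fun x : X m => Z (prof x) - grad φ (prof x)) 2 ((volume : Measure (X m)).restrict W) :=
      eLpNorm_mono fun x => liftG_norm _ x
    refine e2.trans ((ax_norm hm hDo hpos hWD (f := fun w => Z w - grad φ w) (h.mZ.1.sub mg)).2.trans ?_)
    exact (mul_le_mul' le_rfl t3).trans hbd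

end

end RotCalderon
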