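import Pool.Agent.Lib.MP_70bd98_an.AxDefs

/-! # The slit plane and its weight -/

open MeasureTheory Complex Metric Set LocalCalderon Filter
open scoped ENNReal Topology ContDiff

namespace RotCalderon

noncomputable section

variable {m : ℕ}

/-- Elementary facts on the slit plane and the weight. Proofs: `Gax` is the union of the convex sets `{re > 0}`, `{re < 0}`, `{im > 1/4}`, `{im < -1/4}` (chain of nonempty intersections: connected). `z ∈ Lax` gives `‖z‖ = |im z| ≤ 1/4`. `hax z = 0` iff `re = 0` and `16 im² ≤ 1`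
(`Real.smoothTransition` is `0` on `(-∞, 0]`, positive on `(0, ∞)`, `1` on `[1, ∞)`, continuous, nonnegative). If `‖z‖ ≥ 3/4` then `|re| ≥ 1/4` or `16 im² - 1 ≥ 1`: `hax z ≥ 1/16`, so `4 √hax ≥ 1`. For `0 < re ≤ 1/4`, `|im| ≤ 1/4`: `hax = re²`, `√(4 re)^(m-1) ≤ 1`, its square is `(4 re)^(m-1)`. -/
theorem ax_kw0 (hm : 2 ≤ m) : IsOpen Gax ∧ IsConnected Gax ∧ (∀ z : ℂ, 1 / 2 ≤ ‖z‖ → z ∈ Gax) ∧ Continuous (kap m) ∧
    (∀ z ∈ Gax, 0 < kap m z) ∧ (∀ z, 0 ≤ kap m z) ∧ (∀ z, kap m z ≤ 1) ∧ (∀ z, z ∉ Gax → kap m z = 0) ∧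
    (∀ z : ℂ, 3 / 4 ≤ ‖z‖ → kap m z = 1) ∧
    (∀ z : ℂ, 0 < z.re → z.re ≤ 1 / 4 → |z.im| ≤ 1 / 4 → kap m z ^ 2 = (4 * z.re) ^ (m - 1)) := by
  have hhax : Continuous hax := by
    have h1 : Continuous fun z : ℂ => Real.smoothTransition (16 * z.im ^ 2 - 1) :=
      Real.smoothTransition.continuous.comp (by fun_prop)
    exact (Complex.continuous_re.pow 2).add (h1.pow 2)
  have hpos : ∀ z ∈ Gax, 0 < hax z := by
    intro z hz
    by_cases hre : z.re = 0
    · have him : 1 / 4 < |z.im| := by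
        by_contra hc
        exact hz ⟨hre, not_lt.1 hc⟩
      have h2 : 0 < 16 * z.im ^ 2 - 1 := by
        have := sq_abs z.im
        nlinarith
      have h3 := Real.smoothTransition.pos_of_pos h2
      have h4 : 0 < Real.smoothTransition (16 * z.im ^ 2 - 1) ^ 2 := pow_pos h3 2
      have h5 : 0 ≤ z.re ^ 2 := sq_nonneg _
      show 0 < z.re ^ 2 + Real.smoothTransition (16 * z.im ^ 2 - 1) ^ 2
      linarith
    · have h4 : 0 ≤ Real.smoothTransition (16 * z.im ^ 2 - 1) ^ 2 := sq_nonneg _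
      have h5 : 0 < z.re ^ 2 := by positivity
      show 0 < z.re ^ 2 + Real.smoothTransition (16 * z.im ^ 2 - 1) ^ 2
      linarith
  refine ⟨?_, ?_, ?_, ?_, ?_, ?_, ?_, ?_, ?_, ?_⟩
  · have h1 : IsClosed Lax := by
      have h2 : IsClosed {z : ℂ | z.re = 0} := isClosed_eq Complex.continuous_re continuous_const
      have h3 : IsClosed {z : ℂ | |z.im| ≤ 1 / 4} := isClosed_le (by fun_prop) continuous_const
      exact h2.inter h3
    exact h1.isOpen_compl
  · have p1 : IsPreconnected {z : ℂ | 0 < z.re} := (convex_halfSpace_re_gt 0).isPreconnected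
    have p2 : IsPreconnected {z : ℂ | 1 / 4 < z.im} := (convex_halfSpace_im_gt (1 / 4)).isPreconnected
    have p3 : IsPreconnected {z : ℂ | z.re < 0} := (convex_halfSpace_re_lt 0).isPreconnected
    have p4 : IsPreconnected {z : ℂ | z.im < -(1 / 4)} := (convex_halfSpace_im_lt (-(1 / 4))).isPreconnected
    have q1 : IsPreconnected ({z : ℂ | 0 < z.re} ∪ {z : ℂ | 1 / 4 < z.im}) :=
      p1.union (⟨1, 1⟩ : ℂ) (by simp) (by show (1 / 4 : ℝ) < 1; norm_num) p2
    have q2 : IsPreconnected (({z : ℂ | 0 < z.re} ∪ {z : ℂ | 1 / 4 < z.im}) ∪ {z : ℂ | z.re < 0}) :=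
      q1.union (⟨-1, 1⟩ : ℂ) (Or.inr (by show (1 / 4 : ℝ) < 1; norm_num)) (by show (-1 : ℝ) < 0; norm_num) p3
    have q3 : IsPreconnected ((({z : ℂ | 0 < z.re} ∪ {z : ℂ | 1 / 4 < z.im}) ∪ {z : ℂ | z.re < 0}) ∪
        {z : ℂ | z.im < -(1 / 4)}) :=
      q2.union (⟨1, -1⟩ : ℂ) (Or.inl (Or.inl (by show (0 : ℝ) < 1; norm_num)))
        (by show (-1 : ℝ) < -(1 / 4); norm_num) p4
    have he : (({z : ℂ | 0 < z.re} ∪ {z : ℂ | 1 / 4 < z.im}) ∪ {z : ℂ | z.re < 0}) ∪
        {z : ℂ | z.im < -(1 / 4)} = Gax := by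
      ext z
      constructor
      · rintro (((h | h) | h) | h) hc
        · exact (ne_of_gt h) hc.1
        · have h' : 1 / 4 < z.im := h
          have := (le_abs_self z.im).trans hc.2
          linarith
        · exact (ne_of_lt h) hc.1
        · have h' : z.im < -(1 / 4) := h
          have := (neg_abs_le z.im)
          have h2 := hc.2
          linarith
      · intro hz
        by_cases hre : z.re = 0
        · have him : 1 / 4 < |z.im| := by
            by_contra hc
            exact hz ⟨hre, not_lt.1 hc⟩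
          rcases lt_abs.1 him with h | h
          · exact Or.inl (Or.inl (Or.inr h))
          · refine Or.inr ?_
            show z.im < -(1 / 4)
            linarith
        · rcases lt_or_gt_of_ne hre with h | h
          · exact Or.inl (Or.inr h)
          · exact Or.inl (Or.inl (Or.inl h))
    rw [← he]
    exact ⟨⟨(⟨1, 1⟩ : ℂ), Or.inl (Or.inl (Or.inl (by show (0 : ℝ) < 1; norm_num)))⟩, q3⟩
  · intro z hz hc
    have h1 := Complex.norm_le_abs_re_add_abs_im z
    rw [hc.1, abs_zero, zero_add] at h1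
    have h2 := hc.2
    linarith
  · have h1 : Continuous fun z => Real.sqrt (4 * Real.sqrt (hax z)) ^ (m - 1) :=
      ((continuous_const.mul hhax.sqrt).sqrt).pow _
    exact continuous_const.min h1
  · intro z hz
    refine lt_min one_pos (pow_pos (Real.sqrt_pos.2 ?_) _)
    have := Real.sqrt_pos.2 (hpos z hz)
    positivity
  · intro z
    exact le_min zero_le_one (pow_nonneg (Real.sqrt_nonneg _) _)
  · intro z
    exact min_le_left _ _
  · intro z hz
    have hz' : z ∈ Lax := not_not.1 hz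
    have h2 : 16 * z.im ^ 2 - 1 ≤ 0 := by
      have h3 := hz'.2
      have h4 := abs_nonneg z.im
      have := sq_abs z.im
      nlinarith
    have h3 : hax z = 0 := by
      show z.re ^ 2 + Real.smoothTransition (16 * z.im ^ 2 - 1) ^ 2 = 0
      rw [hz'.1, Real.smoothTransition.zero_of_nonpos h2]
      norm_num
    show min 1 (Real.sqrt (4 * Real.sqrt (hax z)) ^ (m - 1)) = 0
    rw [h3, Real.sqrt_zero, mul_zero, Real.sqrt_zero, zero_pow (by omega)]
    norm_num
  · intro z hz
    have h1 : 1 / 16 ≤ hax z := by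
      show 1 / 16 ≤ z.re ^ 2 + Real.smoothTransition (16 * z.im ^ 2 - 1) ^ 2
      by_cases hre : 1 / 4 ≤ |z.re|
      · have h4 : 0 ≤ Real.smoothTransition (16 * z.im ^ 2 - 1) ^ 2 := sq_nonneg _
        have := sq_abs z.re
        nlinarith
      · have h2 := Complex.norm_le_abs_re_add_abs_im z
        have h3 : 1 / 2 ≤ |z.im| := by
          have := not_le.1 hre
          linarith
        have h4 : 1 ≤ 16 * z.im ^ 2 - 1 := by
          have := sq_abs z.im
          nlinarith
        rw [Real.smoothTransition.one_of_one_le h4]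
        nlinarith [sq_nonneg z.re]
    have h2 : 1 / 4 ≤ Real.sqrt (hax z) := Real.le_sqrt_of_sq_le (by norm_num; linarith)
    have h3 : 1 ≤ Real.sqrt (4 * Real.sqrt (hax z)) := Real.le_sqrt_of_sq_le (by linarith)
    exact min_eq_left (one_le_pow₀ h3)
  · intro z h1 h2 h3
    have h4 : 16 * z.im ^ 2 - 1 ≤ 0 := by
      have h4 := abs_nonneg z.im
      have := sq_abs z.im
      nlinarith
    have h5 : hax z = z.re ^ 2 := by
      show z.re ^ 2 + Real.smoothTransition (16 * z.im ^ 2 - 1) ^ 2 = z.re ^ 2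
      rw [Real.smoothTransition.zero_of_nonpos h4]
      ring
    have h6 : Real.sqrt (4 * z.re) ≤ 1 := Real.sqrt_le_one.2 (by linarith)
    show min 1 (Real.sqrt (4 * Real.sqrt (hax z)) ^ (m - 1)) ^ 2 = _
    rw [h5, Real.sqrt_sq h1.le, min_eq_right (pow_le_one₀ (Real.sqrt_nonneg _) h6), ← pow_mul, mul_comm (m - 1) 2,
      pow_mul, Real.sq_sqrt (by linarith)]

end

end RotCalderon
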