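import Pool.Agent.Lib.MP_70bd98_an.AxDefs

/-! # The weighted minimiser -/

open MeasureTheory Complex Metric Set LocalCalderon Filter
open scoped ENNReal Topology ContDiff

namespace RotCalderon

noncomputable section

variable {m : ℕ}

open scoped InnerProductSpace

private theorem mn_lax {H : Type*} [NormedAddCommGroup H] [InnerProductSpace ℝ H]
    [CompleteSpace H] (T : H →L[ℝ] H) {c : ℝ} (hc : 0 < c)
    (hT : ∀ a : H, c * ‖a‖ * ‖a‖ ≤ ⟪T a, a⟫_ℝ) (V : Submodule ℝ H) (hV : IsClosed (V : Set H))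
    (g : H) : ∃ z ∈ V, ∀ h ∈ V, ⟪T (g + z), h⟫_ℝ = 0 := by
  have : CompleteSpace V := hV.completeSpace_coe
  let B0 : V →ₗ[ℝ] V →ₗ[ℝ] ℝ := LinearMap.mk₂ ℝ (fun z h : V => ⟪T (z : H), (h : H)⟫_ℝ)
    (fun a b h => by simp [inner_add_left])
    (fun t a h => by simp [inner_smul_left])
    (fun a h k => by simp [inner_add_right])
    (fun t a h => by simp [inner_smul_right])
  let B : V →L[ℝ] V →L[ℝ] ℝ := LinearMap.mkContinuous₂ B0 ‖T‖ (by
    intro x y
    show ‖⟪T (x : H), (y : H)⟫_ℝ‖ ≤ ‖T‖ * ‖x‖ * ‖y‖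
    exact (norm_inner_le_norm _ _).trans
      (mul_le_mul_of_nonneg_right (T.le_opNorm _) (norm_nonneg _)))
  have hB : IsCoercive B := ⟨c, hc, fun u => hT u⟩
  let r : V := V.orthogonalProjectionOnto (-(T g))
  refine ⟨(hB.continuousLinearEquivOfBilin.symm r : V), Submodule.coe_mem _, fun h hh => ?_⟩
  have h1 := hB.continuousLinearEquivOfBilin_apply (hB.continuousLinearEquivOfBilin.symm r) ⟨h, hh⟩
  rw [ContinuousLinearEquiv.apply_symm_apply] at h1
  have h2 : ⟪(V.orthogonalProjectionOnto (-(T g)) : V), (⟨h, hh⟩ : V)⟫_ℝ = ⟪-(T g), h⟫_ℝ :=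
    Submodule.inner_orthogonalProjectionOnto_eq_of_mem_right (⟨h, hh⟩ : V) (-(T g))
  have h3 : B (hB.continuousLinearEquivOfBilin.symm r) ⟨h, hh⟩ =
      ⟪T ((hB.continuousLinearEquivOfBilin.symm r : V) : H), h⟫_ℝ := rfl
  rw [h2, h3, inner_neg_left] at h1
  rw [map_add, inner_add_left]
  linarith

private theorem mn_dot (a b : ℂ) : dot a b = ⟪a, b⟫_ℝ := by
  rw [Complex.inner]
  unfold dot
  simp only [Complex.mul_re, Complex.conj_re, Complex.conj_im]
  ring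

private theorem mn_add {φ ψ : ℂ → ℝ} (hφ : Differentiable ℝ φ) (hψ : Differentiable ℝ ψ) (z : ℂ) :
    grad (fun w => φ w + ψ w) z = grad φ z + grad ψ z := by
  unfold grad
  rw [fderiv_fun_add hφ.differentiableAt hψ.differentiableAt]
  simp only [ContinuousLinearMap.add_apply]
  push_cast
  ring

private theorem mn_smul {φ : ℂ → ℝ} (hφ : Differentiable ℝ φ) (t : ℝ) (z : ℂ) :
    grad (fun w => t * φ w) z = t * grad φ z := by
  unfold grad
  rw [fderiv_const_mul hφ.differentiableAt]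
  simp only [ContinuousLinearMap.smul_apply, smul_eq_mul]
  push_cast
  ring

private theorem mn_zero (z : ℂ) : grad (fun _ => 0) z = 0 := by
  unfold grad
  simp

private theorem mn_diff {Ω : Set ℂ} {φ : ℂ → ℝ} (h : IsTest Ω φ) : Differentiable ℝ φ :=
  h.1.differentiable (by simp)

private theorem mn_tadd {Ω : Set ℂ} {φ ψ : ℂ → ℝ} (hφ : IsTest Ω φ) (hψ : IsTest Ω ψ) :
    IsTest Ω (fun w => φ w + ψ w) :=
  ⟨hφ.1.add hψ.1, hφ.2.1.add hψ.2.1, (tsupport_add φ ψ).trans (union_subset hφ.2.2 hψ.2.2)⟩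

private theorem mn_tsmul {Ω : Set ℂ} {φ : ℂ → ℝ} (hφ : IsTest Ω φ) (t : ℝ) :
    IsTest Ω (fun w => t * φ w) :=
  ⟨contDiff_const.mul hφ.1, hφ.2.1.mul_left,
    (tsupport_mul_subset_right (f := fun _ => t) (g := φ)).trans hφ.2.2⟩

private theorem mn_memLp {Ω : Set ℂ} {φ : ℂ → ℝ} (h : IsTest Ω φ) (μ : Measure ℂ)
    [IsFiniteMeasureOnCompacts μ] : MemLp (grad φ) 2 μ := by
  have h1 : Continuous (fderiv ℝ φ) := h.1.continuous_fderiv (by simp)
  have h2 : Continuous (grad φ) := by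
    unfold grad
    fun_prop
  refine h2.memLp_of_hasCompactSupport ?_
  have h3 : HasCompactSupport (fderiv ℝ φ) := h.2.1.fderiv (𝕜 := ℝ)
  refine h3.mono ?_
  intro z hz
  rw [Function.mem_support] at hz ⊢
  intro h4
  apply hz
  unfold grad
  rw [h4]
  simp

/-- the subspace of the gradients of test functions -/
private def mnS (Ω : Set ℂ) (μ : Measure ℂ) : Submodule ℝ (Lp ℂ 2 μ) where
  carrier := {a | ∃ φ, IsTest Ω φ ∧ (a : ℂ → ℂ) =ᵐ[μ] grad φ}
  add_mem' := by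
    rintro a b ⟨φ, hφ, ha⟩ ⟨ψ, hψ, hb⟩
    refine ⟨fun w => φ w + ψ w, mn_tadd hφ hψ, ?_⟩
    filter_upwards [Lp.coeFn_add a b, ha, hb] with z h1 h2 h3
    rw [h1, Pi.add_apply, h2, h3, mn_add (mn_diff hφ) (mn_diff hψ)]
  zero_mem' := by
    refine ⟨fun _ => 0, ⟨contDiff_const, HasCompactSupport.zero, ?_⟩, ?_⟩
    · have : tsupport (fun _ : ℂ => (0 : ℝ)) = ∅ := by
        rw [tsupport_eq_empty_iff]
        rfl
      rw [this]
      exact empty_subset _
    · filter_upwards [Lp.coeFn_zero ℂ 2 μ] with z h1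
      rw [h1, mn_zero]
      rfl
  smul_mem' := by
    rintro t a ⟨φ, hφ, ha⟩
    refine ⟨fun w => t * φ w, mn_tsmul hφ t, ?_⟩
    filter_upwards [Lp.coeFn_smul t a, ha] with z h1 h2
    rw [h1, Pi.smul_apply, h2, mn_smul (mn_diff hφ)]
    rfl

private theorem mn_app {Ω : Set ℂ} {μ : Measure ℂ} [IsFiniteMeasureOnCompacts μ] {G : Lp ℂ 2 μ}
    (h : G ∈ (mnS Ω μ).topologicalClosure) {ε : ℝ} (hε : 0 < ε) :
    ∃ φ, IsTest Ω φ ∧ eLpNorm (fun w => G w - grad φ w) 2 μ ≤ ENNReal.ofReal ε := by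
  rw [← SetLike.mem_coe, Submodule.topologicalClosure_coe, Metric.mem_closure_iff] at h
  obtain ⟨b, ⟨φ, hφ, hb⟩, h1⟩ := h ε hε
  refine ⟨φ, hφ, ?_⟩
  rw [← edist_lt_ofReal, Lp.edist_def] at h1
  refine le_trans (le_of_eq (eLpNorm_congr_ae ?_)) h1.le
  filter_upwards [hb] with w hw
  rw [Pi.sub_apply, hw]

private theorem mul_mem {c C : ℝ} (hc : 0 < c) {γ : ℂ → ℝ} (hm : Measurable γ) (lo : ∀ z, c ≤ γ z)
    (hi : ∀ z, γ z ≤ C) {μ : Measure ℂ} {G : ℂ → ℂ} (hG : MemLp G 2 μ) :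
    MemLp (fun z => (γ z : ℂ) * G z) 2 μ := by
  refine MemLp.of_le_mul (c := C) hG ?_ ?_
  · exact (Complex.continuous_ofReal.measurable.comp hm).aestronglyMeasurable.mul
      hG.aestronglyMeasurable
  · refine Filter.Eventually.of_forall fun z => ?_
    rw [norm_mul, Complex.norm_real, Real.norm_eq_abs, abs_of_nonneg (hc.le.trans (lo z))]
    exact mul_le_mul_of_nonneg_right (hi z) (norm_nonneg _)

/-- multiplication by the coefficient -/
private def mnT {c C : ℝ} (hc : 0 < c) {γ : ℂ → ℝ} (hm : Measurable γ) (lo : ∀ z, c ≤ γ z)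
    (hi : ∀ z, γ z ≤ C) (μ : Measure ℂ) :
    Lp ℂ 2 μ →L[ℝ] Lp ℂ 2 μ :=
  LinearMap.mkContinuous
    { toFun := fun a => (mul_mem hc hm lo hi (Lp.memLp a)).toLp _
      map_add' := by
        intro a b
        apply Lp.ext
        filter_upwards [(mul_mem hc hm lo hi (Lp.memLp (a + b))).coeFn_toLp,
          (mul_mem hc hm lo hi (Lp.memLp a)).coeFn_toLp, (mul_mem hc hm lo hi (Lp.memLp b)).coeFn_toLp,
          Lp.coeFn_add a b,
          Lp.coeFn_add ((mul_mem hc hm lo hi (Lp.memLp a)).toLp _)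
            ((mul_mem hc hm lo hi (Lp.memLp b)).toLp _)] with z h1 h2 h3 h4 h5
        rw [h1, h5, Pi.add_apply, h2, h3, h4, Pi.add_apply]
        ring
      map_smul' := by
        intro t a
        apply Lp.ext
        filter_upwards [(mul_mem hc hm lo hi (Lp.memLp (t • a))).coeFn_toLp,
          (mul_mem hc hm lo hi (Lp.memLp a)).coeFn_toLp,
          Lp.coeFn_smul t a,
          Lp.coeFn_smul t ((mul_mem hc hm lo hi (Lp.memLp a)).toLp _)] with z h1 h2 h4 h5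
        rw [h1, RingHom.id_apply, h5, Pi.smul_apply, h2, h4, Pi.smul_apply, mul_smul_comm] }
    C (by
      intro a
      apply Lp.norm_le_mul_norm_of_ae_le_mul
      filter_upwards [(mul_mem hc hm lo hi (Lp.memLp a)).coeFn_toLp] with z h1
      show ‖((mul_mem hc hm lo hi (Lp.memLp a)).toLp _ : ℂ → ℂ) z‖ ≤ _
      rw [h1, norm_mul, Complex.norm_real, Real.norm_eq_abs,
        abs_of_nonneg (hc.le.trans (lo z))]
      exact mul_le_mul_of_nonneg_right (hi z) (norm_nonneg _))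

private theorem mnT_inner {c C : ℝ} (hc : 0 < c) {γ : ℂ → ℝ} (hm : Measurable γ) (lo : ∀ z, c ≤ γ z)
    (hi : ∀ z, γ z ≤ C) (μ : Measure ℂ) (a b : Lp ℂ 2 μ) :
    ⟪mnT hc hm lo hi μ a, b⟫_ℝ = ∫ z, γ z * dot (a z) (b z) ∂μ := by
  rw [L2.inner_def]
  refine integral_congr_ae ?_
  filter_upwards [(mul_mem hc hm lo hi (Lp.memLp a)).coeFn_toLp] with z h1
  have h2 : (mnT hc hm lo hi μ a : ℂ → ℂ) z = (γ z : ℂ) * a z := h1
  rw [h2, mn_dot]
  have h3 : (γ z : ℂ) * a z = (γ z) • (a z : ℂ) := by simp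
  rw [h3, real_inner_smul_left]

private theorem mnT_coer {c C : ℝ} (hc : 0 < c) {γ : ℂ → ℝ} (hm : Measurable γ) (lo : ∀ z, c ≤ γ z)
    (hi : ∀ z, γ z ≤ C) (μ : Measure ℂ)
    (a : Lp ℂ 2 μ) : c * ‖a‖ * ‖a‖ ≤ ⟪mnT hc hm lo hi μ a, a⟫_ℝ := by
  have h1 : c * ‖a‖ * ‖a‖ = ∫ z, c * dot (a z) (a z) ∂μ := by
    rw [integral_const_mul]
    have h2 : ∫ z, dot (a z) (a z) ∂μ = ⟪a, a⟫_ℝ := by
      rw [L2.inner_def]
      refine integral_congr_ae (Filter.Eventually.of_forall fun z => ?_)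
      exact mn_dot _ _
    rw [h2, real_inner_self_eq_norm_mul_norm, mul_assoc]
  rw [h1, mnT_inner]
  have hint : Integrable (fun z => dot (a z) (a z)) μ := by
    have := L2.integrable_inner (𝕜 := ℝ) a a
    refine this.congr (Filter.Eventually.of_forall fun z => ?_)
    exact (mn_dot _ _).symm
  have hint2 : Integrable (fun z => γ z * dot (a z) (a z)) μ := by
    have := L2.integrable_inner (𝕜 := ℝ) (mnT hc hm lo hi μ a) a
    refine this.congr ?_
    filter_upwards [(mul_mem hc hm lo hi (Lp.memLp a)).coeFn_toLp] with z h1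
    have h2 : (mnT hc hm lo hi μ a : ℂ → ℂ) z = (γ z : ℂ) * a z := h1
    rw [h2, mn_dot]
    have h3 : (γ z : ℂ) * a z = (γ z) • (a z : ℂ) := by simp
    rw [h3, real_inner_smul_left]
  refine integral_mono (hint.const_mul c) hint2 fun z => ?_
  have h5 : 0 ≤ dot (a z) (a z) := by
    rw [mn_dot]
    exact real_inner_self_nonneg
  exact mul_le_mul_of_nonneg_right (lo z) h5

private theorem mn_fin (m : ℕ) (D : Set ℂ) : IsLocallyFiniteMeasure (nuD m D) := by
  unfold nuD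
  exact IsLocallyFiniteMeasure.withDensity_ofReal (by fun_prop)

/-- Completion: the function belonging to a limit of gradients. -/
private theorem mn_comp {Ω : Set ℂ} {μ : Measure ℂ} [IsLocallyFiniteMeasure μ] {P : ℝ}
    (hpoin : ∀ φ : ℂ → ℝ, IsTest Ω φ → eLpNorm φ 2 μ ≤ ENNReal.ofReal P * eLpNorm (grad φ) 2 μ)
    {G : Lp ℂ 2 μ} (h : G ∈ (mnS Ω μ).topologicalClosure) :
    ∃ z : Lp ℝ 2 μ, ∀ ε : ℝ, 0 < ε → ∃ φ, IsTest Ω φ ∧
      eLpNorm (fun w => z w - φ w) 2 μ ≤ ENNReal.ofReal ε ∧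
      eLpNorm (fun w => G w - grad φ w) 2 μ ≤ ENNReal.ofReal ε := by
  have key : ∀ n : ℕ, ∃ φ, IsTest Ω φ ∧
      eLpNorm (fun w => G w - grad φ w) 2 μ ≤ ENNReal.ofReal ((1 / 2 : ℝ) ^ n) := fun n =>
    mn_app h (by positivity)
  choose φ hφ hφ2 using key
  have hLp : ∀ n, MemLp (φ n) 2 μ := fun n =>
    (hφ n).1.continuous.memLp_of_hasCompactSupport (hφ n).2.1
  have hd : ∀ n k : ℕ, n ≤ k → eLpNorm (fun w => φ n w - φ k w) 2 μ ≤
      ENNReal.ofReal P * ENNReal.ofReal (2 * (1 / 2 : ℝ) ^ n) := by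
    intro n k hnk
    have ht : IsTest Ω (fun w => φ n w + (-1) * φ k w) := mn_tadd (hφ n) (mn_tsmul (hφ k) (-1))
    have h1 := hpoin _ ht
    have e1 : (fun w => φ n w + (-1) * φ k w) = fun w => φ n w - φ k w := by
      funext w; ring
    have e2 : grad (fun w => φ n w + (-1) * φ k w) = fun w => (grad (φ n) w - G w) + (G w - grad (φ k) w) := by
      funext w
      rw [mn_add (mn_diff (hφ n)) (mn_diff (mn_tsmul (hφ k) (-1))), mn_smul (mn_diff (hφ k))]
      push_cast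
      ring
    rw [e2, e1] at h1
    refine h1.trans (mul_le_mul' le_rfl ?_)
    have mG := Lp.memLp G
    have m1 := mn_memLp (hφ n) μ
    have m2 := mn_memLp (hφ k) μ
    refine (eLpNorm_add_le (m1.1.sub mG.1) (mG.1.sub m2.1) (by norm_num)).trans ?_
    have h3 : eLpNorm (fun w => grad (φ n) w - G w) 2 μ = eLpNorm (fun w => G w - grad (φ n) w) 2 μ := by
      exact eLpNorm_sub_comm _ _ _ _
    have h4 : (1 / 2 : ℝ) ^ k ≤ (1 / 2 : ℝ) ^ n := pow_le_pow_of_le_one (by norm_num) (by norm_num) hnk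
    have h5 : ENNReal.ofReal (2 * (1 / 2 : ℝ) ^ n) =
        ENNReal.ofReal ((1 / 2 : ℝ) ^ n) + ENNReal.ofReal ((1 / 2 : ℝ) ^ n) := by
      rw [← ENNReal.ofReal_add (by positivity) (by positivity)]
      congr 1
      ring
    rw [h5]
    refine add_le_add ?_ ?_
    · show eLpNorm (fun w => grad (φ n) w - G w) 2 μ ≤ _
      rw [h3]
      exact hφ2 n
    · exact (hφ2 k).trans (ENNReal.ofReal_le_ofReal h4)
  set P' : ℝ := max P 0 with hP'
  have hPP : ENNReal.ofReal P = ENNReal.ofReal P' := by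
    rw [hP']
    rcases le_total P 0 with h0 | h0
    · rw [max_eq_right h0, ENNReal.ofReal_of_nonpos h0, ENNReal.ofReal_zero]
    · rw [max_eq_left h0]
  have hP0 : 0 ≤ P' := le_max_right _ _
  have hdist : ∀ n k : ℕ, n ≤ k → dist ((hLp n).toLp (φ n)) ((hLp k).toLp (φ k)) ≤ (2 * P') * (1 / 2 : ℝ) ^ n := by
    intro n k hnk
    have h0 : (0 : ℝ) ≤ (2 * P') * (1 / 2 : ℝ) ^ n := by positivity
    rw [← edist_le_ofReal h0, Lp.edist_toLp_toLp]
    refine (hd n k hnk).trans (le_of_eq ?_)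
    rw [hPP, ← ENNReal.ofReal_mul hP0]
    congr 1
    ring
  have hcau : CauchySeq fun n => (hLp n).toLp (φ n) := by
    refine cauchySeq_of_le_tendsto_0 (fun n => (2 * P') * (1 / 2 : ℝ) ^ n + (2 * P') * (1 / 2 : ℝ) ^ n) ?_ ?_
    · intro a b N ha hb
      have e1 := hdist N a ha
      have e2 := hdist N b hb
      rw [dist_comm] at e1
      exact (dist_triangle _ _ _).trans (add_le_add e1 e2)
    · have h1 : Tendsto (fun n : ℕ => (1 / 2 : ℝ) ^ n) atTop (𝓝 0) :=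
        tendsto_pow_atTop_nhds_zero_of_lt_one (by norm_num) (by norm_num)
      have h2 := ((h1.const_mul (2 * P')).add (h1.const_mul (2 * P')))
      simpa using h2
  obtain ⟨z, hz⟩ := cauchySeq_tendsto_of_complete hcau
  refine ⟨z, fun ε hε => ?_⟩
  have h1 : ∀ᶠ n in atTop, dist ((hLp n).toLp (φ n)) z < ε := (Metric.tendsto_nhds.1 hz) ε hε
  have h2 : ∀ᶠ n : ℕ in atTop, (1 / 2 : ℝ) ^ n < ε := by
    have : Tendsto (fun n : ℕ => (1 / 2 : ℝ) ^ n) atTop (𝓝 0) :=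
      tendsto_pow_atTop_nhds_zero_of_lt_one (by norm_num) (by norm_num)
    exact this.eventually (gt_mem_nhds hε)
  obtain ⟨n, hn1, hn2⟩ := (h1.and h2).exists
  refine ⟨φ n, hφ n, ?_, (hφ2 n).trans (ENNReal.ofReal_le_ofReal hn2.le)⟩
  rw [dist_comm, ← edist_lt_ofReal, Lp.edist_def] at hn1
  refine le_trans (le_of_eq (eLpNorm_congr_ae ?_)) hn1.le
  filter_upwards [(hLp n).coeFn_toLp] with w hw
  rw [Pi.sub_apply, hw]

/-- Existence of the weighted solution. -/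
theorem ax_min {D : Set ℂ} (hDo : IsOpen D) (hpos : ∀ w ∈ D, 0 < w.re) {g : ℂ → ℝ} (hg : IsConductivity D g) {U : ℂ → ℂ} (hU : MemLp U 2 (nuD m D))
    {P : ℝ} (hpoin : ∀ φ : ℂ → ℝ, IsTest D φ → eLpNorm φ 2 (nuD m D) ≤ ENNReal.ofReal P * eLpNorm (grad φ) 2 (nuD m D)) :
    ∃ (z : ℂ → ℝ) (Z : ℂ → ℂ), ZW m D z Z ∧
      ∀ ψ : ℂ → ℝ, IsTest D ψ → ∫ w in D, (g w * w.re ^ (m - 1)) * dot (U w + Z w) (grad ψ w) = 0 := by
  have hfin := mn_fin m D
  obtain ⟨hgm, c, C, hc, hcC⟩ := hg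
  have hac : nuD m D ≪ volume.restrict D := withDensity_absolutelyContinuous _ _
  -- a good version of the coefficient
  set C' : ℝ := max c C with hC'
  set γ : ℂ → ℝ := fun w => max c (min C' (hgm.mk g w)) with hγ
  have gm : Measurable γ := by
    have := hgm.stronglyMeasurable_mk.measurable
    exact measurable_const.max (measurable_const.min this)
  have lo : ∀ w, c ≤ γ w := fun w => le_max_left _ _
  have hi : ∀ w, γ w ≤ C' := fun w => max_le (le_max_left _ _) (min_le_left _ _)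
  have hγg : ∀ᵐ w ∂(nuD m D), γ w = g w := by
    have h1 : ∀ᵐ w ∂(volume.restrict D), γ w = g w := by
      filter_upwards [hgm.ae_eq_mk, hcC] with w h1 h2
      simp only [hγ]
      rw [← h1, min_eq_right (h2.2.trans (le_max_right _ _)), max_eq_right h2.1]
    exact hac.ae_le h1
  obtain ⟨Z, hZ, hZ2⟩ := mn_lax (mnT hc gm lo hi (nuD m D)) hc (mnT_coer hc gm lo hi _)
    (mnS D (nuD m D)).topologicalClosure (Submodule.isClosed_topologicalClosure _) (hU.toLp U)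
  obtain ⟨z, hz⟩ := mn_comp hpoin hZ
  refine ⟨z, Z, ⟨Lp.memLp z, Lp.memLp Z, hz⟩, fun ψ hψ => ?_⟩
  have mψ := mn_memLp hψ (nuD m D)
  have h1 : ⟪mnT hc gm lo hi (nuD m D) (hU.toLp U + Z), mψ.toLp (grad ψ)⟫_ℝ = 0 := by
    apply hZ2
    apply Submodule.le_topologicalClosure
    exact ⟨ψ, hψ, MemLp.coeFn_toLp _⟩
  rw [mnT_inner] at h1
  have h2 : ∫ w in D, (g w * w.re ^ (m - 1)) * dot (U w + Z w) (grad ψ w) =
      ∫ w, g w * dot (U w + Z w) (grad ψ w) ∂(nuD m D) := by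
    rw [int_nuD hDo.measurableSet hpos]
    refine integral_congr_ae (Eventually.of_forall fun w => ?_)
    simp only
    ring
  rw [h2, ← h1]
  refine integral_congr_ae ?_
  filter_upwards [hγg, Lp.coeFn_add (hU.toLp U) Z, hU.coeFn_toLp, mψ.coeFn_toLp] with w e1 e2 e3 e4
  rw [e1, e2, Pi.add_apply, e3, e4]

end

end RotCalderon
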