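import Pool.Agent.Lib.MP_70bd98_an.AxDefs

/-! # The forms with an angular factor -/

open MeasureTheory Complex Metric Set LocalCalderon Filter
open scoped ENNReal Topology ContDiff

namespace RotCalderon

noncomputable section

variable {m : ℕ}

/-- `W` and `rev m D` differ by a null set. -/
private theorem axp_restrict (hm : 2 ≤ m) {W : Set (X m)} {D : Set ℂ}
    (hWD : ∀ x : X m, x.1 ≠ 0 → (x ∈ W ↔ prof x ∈ D)) :
    (volume : Measure (X m)).restrict W = (volume : Measure (X m)).restrict (rev m D) ∧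
      ∀ᵐ x : X m, x.1 ≠ 0 := by
  have hne : Nonempty (Fin m) := ⟨⟨0, by omega⟩⟩
  have h1 : ∀ᵐ y : E m, y ≠ 0 := by
    rw [ae_iff]
    simp
  have h2 : ∀ᵐ x : X m, x.1 ≠ 0 := by
    have h3 : Measure.QuasiMeasurePreserving (Prod.fst : E m × ℝ → E m)
      ((volume : Measure (E m)).prod (volume : Measure ℝ)) (volume : Measure (E m)) :=
      Measure.quasiMeasurePreserving_fst
    exact h3.ae h1
  refine ⟨Measure.restrict_congr_set ?_, h2⟩
  filter_upwards [h2] with x hx
  have h4 : (x ∈ W) = (x ∈ rev m D) := propext (hWD x hx)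
  exact h4

private theorem axp_grad_cont {φ : ℂ → ℝ} (h : ContDiff ℝ (⊤ : ℕ∞) φ) : Continuous (grad φ) := by
  have h1 : Continuous (fderiv ℝ φ) := h.continuous_fderiv (by simp)
  unfold grad
  exact (Complex.continuous_ofReal.comp (h1.clm_apply continuous_const)).add
    (continuous_const.mul (Complex.continuous_ofReal.comp (h1.clm_apply continuous_const)))

/-- The form identity on `W`, with an angular factor. Proof: `ax_restrict` (rot_axh10_done.lean: `volume.restrict W = volume.restrict (rev m D)`) and `formA` (Ang0.lean). -/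
theorem ax_formA (hm : 2 ≤ m) {W : Set (X m)} {D : Set ℂ} (hDo : IsOpen D) (hpos : ∀ w ∈ D, 0 < w.re)
    (hWD : ∀ x : X m, x.1 ≠ 0 → (x ∈ W ↔ prof x ∈ D)) {b : E m → ℝ} (hb : AEStronglyMeasurable b (sE m)) {g : ℂ → ℝ} (hg : AEStronglyMeasurable g (volume.restrict D))
    {F H : ℂ → ℂ} (hF : AEStronglyMeasurable F (volume.restrict D)) (hH : AEStronglyMeasurable H (volume.restrict D)) :
    ∫ x in W, b (om x) * (g (prof x) * dotN (liftG F x) (liftG H x)) =
      (∫ y, b y ∂(sE m)) * ∫ w in D, (g w * w.re ^ (m - 1)) * dot (F w) (H w) := by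
  rw [(axp_restrict hm hWD).1]
  exact formA (by omega) hDo.measurableSet hpos hb hg hF hH

/-- The same with an angular test function in the test field: `v = η (ψ ∘ prof)`, `ψ` supported in `K ⊆ {re > 0}` compact, `η = χ ∘ om` near the points with `prof x ∈ K`. Proof: on `W` (a.e. `x.1 ≠ 0`): if `prof x ∈ K`: `dotN_lin`, `ang_deriv` (rot_ang_done.lean / Ang.lean), `η x = χ (om x)`; if not,
`ψ (prof x) = 0` and `gradN (fun x => ψ (prof x)) x = liftG (grad ψ) x = 0`. Then `ax_formA` with `b = a χ`. -/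
theorem ax_formχ (hm : 2 ≤ m) {W : Set (X m)} {D : Set ℂ} (hDo : IsOpen D) (hpos : ∀ w ∈ D, 0 < w.re)
    (hWD : ∀ x : X m, x.1 ≠ 0 → (x ∈ W ↔ prof x ∈ D)) {a χ : E m → ℝ} (ha : AEStronglyMeasurable a (sE m)) (hχ : Continuous χ) {g : ℂ → ℝ}
    (hg : AEStronglyMeasurable g (volume.restrict D)) {F : ℂ → ℂ} (hF : AEStronglyMeasurable F (volume.restrict D)) {ψ : ℂ → ℝ} {K : Set ℂ}
    (hψ : ContDiff ℝ (⊤ : ℕ∞) ψ) (hψK : tsupport ψ ⊆ K) {η : X m → ℝ} (hη : IsTestN univ η) (hηK : ∀ x : X m, prof x ∈ K → η =ᶠ[𝓝 x] fun y => χ (om y))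
    (hder : ∀ (x : X m), x.1 ≠ 0 → prof x ∈ K → ∀ F : ℂ → ℂ, dotN (liftG F x) (gradN η x) = 0) :
    ∫ x in W, (a (om x) * g (prof x)) * dotN (liftG F x) (η x • liftG (grad ψ) x + ψ (prof x) • gradN η x) =
      (∫ y, a y * χ y ∂(sE m)) * ∫ w in D, (g w * w.re ^ (m - 1)) * dot (F w) (grad ψ w) := by
  have hb : AEStronglyMeasurable (fun y => a y * χ y) (sE m) := ha.mul hχ.aestronglyMeasurable
  rw [← ax_formA hm hDo hpos hWD hb hg hF (axp_grad_cont hψ).aestronglyMeasurable]
  refine integral_congr_ae ?_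
  filter_upwards [ae_restrict_of_ae (axp_restrict hm hWD).2] with x hx
  rw [dotN_lin]
  by_cases hK : prof x ∈ K
  · rw [hder x hx hK F, (hηK x hK).eq_of_nhds]
    ring
  · have h1 : prof x ∉ tsupport ψ := fun h => hK (hψK h)
    have h2 : ψ (prof x) = 0 := image_eq_zero_of_notMem_tsupport h1
    have h3 : grad ψ (prof x) = 0 := by
      unfold grad
      rw [fderiv_of_notMem_tsupport (𝕜 := ℝ) h1]
      simp
    have h4 : liftG (grad ψ) x = 0 := by
      unfold liftG
      rw [h3]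
      simp
    have h5 : dotN (liftG F x) (0 : X m) = 0 := by
      simp [dotN]
    rw [h2, h4, h5]
    ring

end

end RotCalderon
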