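import Pool.Agent.Lib.MP_70bd98_an.AxDefs

/-! # Dilations -/

open MeasureTheory Complex Metric Set LocalCalderon Filter
open scoped ENNReal Topology ContDiff

namespace RotCalderon

noncomputable section

variable {m : ℕ}

/-- the factor of the measure under the dilation by `s` -/
def axsK (m : ℕ) (s : ℝ) : ℝ≥0∞ := ENNReal.ofReal |(s ^ (Module.finrank ℝ (X m)))⁻¹|

theorem axK_ne_top (s : ℝ) : axsK m s ≠ ⊤ := ENNReal.ofReal_ne_top

theorem axK_ne_zero {s : ℝ} (hs : s ≠ 0) : axsK m s ≠ 0 := by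
  unfold axsK
  rw [ne_eq, ENNReal.ofReal_eq_zero, not_le]
  positivity

theorem axs_emb {s : ℝ} (hs : s ≠ 0) : MeasurableEmbedding (fun x : X m => s • x) :=
  (Homeomorph.smulOfNeZero s hs).measurableEmbedding

theorem axs_map {s : ℝ} (hs : s ≠ 0) {A B : Set (X m)} (h : ∀ x, s • x ∈ B ↔ x ∈ A) :
    Measure.map (fun x => s • x) (volume.restrict A) = axsK m s • (volume : Measure (X m)).restrict B := by
  have h1 : (fun x : X m => s • x) ⁻¹' B = A := by
    ext x
    exact h x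
  have h2 := (axs_emb (m := m) hs).restrict_map volume B
  rw [h1] at h2
  rw [← h2, Measure.map_addHaar_smul (volume : Measure (X m)) hs, Measure.restrict_smul]
  rfl

theorem axs_int {s : ℝ} (hs : s ≠ 0) {A B : Set (X m)} (h : ∀ x, s • x ∈ B ↔ x ∈ A) (g : X m → ℝ) :
    ∫ x in A, g (s • x) = (axsK m s).toReal * ∫ x in B, g x := by
  rw [← (axs_emb (m := m) hs).integral_map, axs_map hs h, integral_smul_measure, smul_eq_mul]

theorem axs_memLp {s : ℝ} (hs : s ≠ 0) {A B : Set (X m)} (h : ∀ x, s • x ∈ B ↔ x ∈ A) {F : Type*}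
    [NormedAddCommGroup F] {g : X m → F} (hg : MemLp g 2 (volume.restrict B)) :
    MemLp (fun x => g (s • x)) 2 (volume.restrict A) := by
  have h1 : MemLp g 2 (Measure.map (fun x => s • x) (volume.restrict A)) := by
    rw [axs_map hs h]
    exact hg.smul_measure (axK_ne_top s)
  exact (axs_emb (m := m) hs).memLp_map_measure_iff.1 h1

theorem axs_eLp {s : ℝ} (hs : s ≠ 0) {A B : Set (X m)} (h : ∀ x, s • x ∈ B ↔ x ∈ A) {F : Type*}
    [NormedAddCommGroup F] (g : X m → F) :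
    eLpNorm (fun x => g (s • x)) 2 (volume.restrict A) =
      axsK m s ^ (1 / 2 : ℝ≥0∞).toReal * eLpNorm g 2 (volume.restrict B) := by
  have h1 := (axs_emb (m := m) hs).eLpNorm_map_measure (g := g) (p := 2) (μ := volume.restrict A)
  rw [axs_map hs h, eLpNorm_smul_measure_of_ne_top (by norm_num)] at h1
  exact h1.symm

theorem axs_grad {s : ℝ} (ψ : X m → ℝ) (x : X m) :
    gradN (fun x => ψ (s • x)) x = s • gradN ψ (s • x) := by
  unfold gradN
  rw [fderiv_comp_smul]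
  refine Prod.ext ?_ ?_
  · simp only [ContinuousLinearMap.smul_comp, Prod.smul_fst]
    rw [map_smulₛₗ]
    simp
  · simp

theorem axs_test {s : ℝ} (hs : s ≠ 0) {A B : Set (X m)} (h : ∀ x, s • x ∈ B ↔ x ∈ A) {ψ : X m → ℝ}
    (hψ : IsTestN B ψ) : IsTestN A (fun x => ψ (s • x)) := by
  refine ⟨hψ.1.comp (contDiff_const_smul s), hψ.2.1.comp_smul hs, ?_⟩
  intro x hx
  rw [← h]
  apply hψ.2.2
  have h1 : tsupport (fun x : X m => ψ (s • x)) ⊆ (fun x : X m => s • x) ⁻¹' tsupport ψ := by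
    apply closure_minimal
    · intro y hy
      exact subset_tsupport ψ hy
    · exact (isClosed_tsupport ψ).preimage (continuous_const_smul s)
  exact h1 hx

theorem axs_dot_smul (a b : ℝ) (v w : X m) : dotN (a • v) (b • w) = a * b * dotN v w := by
  unfold dotN
  simp only [Prod.smul_fst, Prod.smul_snd, smul_eq_mul]
  rw [real_inner_smul_left, real_inner_smul_right]
  ring

theorem axs_h1 {s : ℝ} (hs : s ≠ 0) {A B : Set (X m)} (h : ∀ x, s • x ∈ B ↔ x ∈ A)
    {u : X m → ℝ} {G : X m → X m} (hu : H1N B u G) :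
    H1N A (fun x => u (s • x)) (fun x => s • G (s • x)) := by
  obtain ⟨h1, h2, h3⟩ := hu
  have h' : ∀ x, s⁻¹ • x ∈ A ↔ x ∈ B := by
    intro x
    rw [← h, smul_inv_smul₀ hs]
  refine ⟨axs_memLp hs h h1, (axs_memLp hs h h2).const_smul s, ?_⟩
  intro φ hφ v
  have hψ : IsTestN B (fun x => φ (s⁻¹ • x)) := axs_test (inv_ne_zero hs) h' hφ
  have h4 := h3 _ hψ v
  have e1 : ∀ x : X m, u (s • x) * dotN (gradN φ x) v =
      (fun y => s * (u y * dotN (gradN (fun x => φ (s⁻¹ • x)) y) v)) (s • x) := by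
    intro x
    simp only
    rw [axs_grad, inv_smul_smul₀ hs]
    have h5 : dotN (s⁻¹ • gradN φ x) v = s⁻¹ * dotN (gradN φ x) v := by
      have := axs_dot_smul s⁻¹ 1 (gradN φ x) v
      rw [one_smul, mul_one] at this
      exact this
    rw [h5]
    field_simp
  have e2 : ∀ x : X m, φ x * dotN (s • G (s • x)) v =
      (fun y => s * (φ (s⁻¹ • y) * dotN (G y) v)) (s • x) := by
    intro x
    simp only
    rw [inv_smul_smul₀ hs]
    have h5 : dotN (s • G (s • x)) v = s * dotN (G (s • x)) v := by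
      have := axs_dot_smul s 1 (G (s • x)) v
      rw [one_smul, mul_one] at this
      exact this
    rw [h5]
    ring
  simp only [e1, e2]
  rw [axs_int hs h (fun y => s * (u y * dotN (gradN (fun x => φ (s⁻¹ • x)) y) v)),
    axs_int hs h (fun y => s * (φ (s⁻¹ • y) * dotN (G y) v)), integral_const_mul,
    integral_const_mul, h4]
  ring

theorem axs_h10 {s : ℝ} (hs : s ≠ 0) {A B : Set (X m)} (h : ∀ x, s • x ∈ B ↔ x ∈ A)
    {u : X m → ℝ} {G : X m → X m} (hu : H10N B u G) :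
    H10N A (fun x => u (s • x)) (fun x => s • G (s • x)) := by
  refine ⟨axs_h1 hs h hu.1, ?_⟩
  intro ε hε
  set K : ℝ := (axsK m s ^ (1 / 2 : ℝ≥0∞).toReal).toReal with hK
  have hKt : axsK m s ^ (1 / 2 : ℝ≥0∞).toReal ≠ ⊤ :=
    ENNReal.rpow_ne_top_of_nonneg ENNReal.toReal_nonneg (axK_ne_top s)
  have hK' : axsK m s ^ (1 / 2 : ℝ≥0∞).toReal = ENNReal.ofReal K :=
    (ENNReal.ofReal_toReal hKt).symm
  have hK0 : 0 ≤ K := ENNReal.toReal_nonneg
  obtain ⟨φ, h1, h2, h3⟩ := hu.2 (ε / ((K + 1) * (|s| + 1))) (by positivity)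
  refine ⟨fun x => φ (s • x), axs_test hs h h1, ?_, ?_⟩
  · have e1 := axs_eLp hs h (fun x => u x - φ x)
    rw [e1, hK']
    calc ENNReal.ofReal K * eLpNorm (fun x => u x - φ x) 2 (volume.restrict B)
        ≤ ENNReal.ofReal K * ENNReal.ofReal (ε / ((K + 1) * (|s| + 1))) := by gcongr
      _ = ENNReal.ofReal (K * (ε / ((K + 1) * (|s| + 1)))) := (ENNReal.ofReal_mul hK0).symm
      _ ≤ ENNReal.ofReal ε := by
          apply ENNReal.ofReal_le_ofReal
          rw [mul_div_assoc', div_le_iff₀ (by positivity)]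
          have : 0 ≤ |s| := abs_nonneg s
          nlinarith [mul_nonneg hε.le hK0, mul_nonneg (mul_nonneg hε.le hK0) this,
            mul_nonneg hε.le this]
  · have e1 := axs_eLp hs h (fun x => s • (G x - gradN φ x))
    have e2 : (fun x => s • G (s • x) - gradN (fun x => φ (s • x)) x) =
        fun x => s • (G (s • x) - gradN φ (s • x)) := by
      funext x
      rw [axs_grad, smul_sub]
    have e3 : eLpNorm (fun x => s • (G x - gradN φ x)) 2 (volume.restrict B) =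
        ENNReal.ofReal |s| * eLpNorm (fun x => G x - gradN φ x) 2 (volume.restrict B) := by
      have := eLpNorm_const_smul s (fun x => G x - gradN φ x) 2 (volume.restrict B)
      rw [← Real.enorm_eq_ofReal_abs]
      exact this
    rw [e2, e1, e3, hK']
    calc ENNReal.ofReal K * (ENNReal.ofReal |s| *
          eLpNorm (fun x => G x - gradN φ x) 2 (volume.restrict B))
        ≤ ENNReal.ofReal K * (ENNReal.ofReal |s| *
            ENNReal.ofReal (ε / ((K + 1) * (|s| + 1)))) := by gcongr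
      _ = ENNReal.ofReal (K * (|s| * (ε / ((K + 1) * (|s| + 1))))) := by
          rw [ENNReal.ofReal_mul hK0, ENNReal.ofReal_mul (abs_nonneg s)]
      _ ≤ ENNReal.ofReal ε := by
          apply ENNReal.ofReal_le_ofReal
          rw [mul_div_assoc', mul_div_assoc', div_le_iff₀ (by positivity)]
          have : 0 ≤ |s| := abs_nonneg s
          nlinarith [mul_nonneg hε.le hK0, mul_nonneg (mul_nonneg hε.le hK0) this,
            mul_nonneg hε.le this]

theorem axs_sol {s : ℝ} (hs : s ≠ 0) {A B : Set (X m)} (h : ∀ x, s • x ∈ B ↔ x ∈ A)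
    {γ : X m → ℝ} {u : X m → ℝ} {G : X m → X m} (hu : IsSolN B (fun x => γ (s⁻¹ • x)) u G) :
    IsSolN A γ (fun x => u (s • x)) (fun x => s • G (s • x)) := by
  have h' : ∀ x, s⁻¹ • x ∈ A ↔ x ∈ B := by
    intro x
    rw [← h, smul_inv_smul₀ hs]
  refine ⟨axs_h1 hs h hu.1, ?_⟩
  intro φ hφ
  have hψ : IsTestN B (fun x => φ (s⁻¹ • x)) := axs_test (inv_ne_zero hs) h' hφ
  have h4 := hu.2 _ hψ
  have e1 : ∀ x : X m, γ x * dotN (s • G (s • x)) (gradN φ x) =
      (fun y => s * s * (γ (s⁻¹ • y) * dotN (G y) (gradN (fun x => φ (s⁻¹ • x)) y))) (s • x) := by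
    intro x
    simp only
    rw [axs_grad, inv_smul_smul₀ hs]
    have h5 := axs_dot_smul s 1 (G (s • x)) (gradN φ x)
    have h6 := axs_dot_smul 1 s⁻¹ (G (s • x)) (gradN φ x)
    rw [one_smul] at h5 h6
    rw [h5, h6]
    field_simp
  simp only [e1]
  rw [axs_int hs h (fun y => s * s * (γ (s⁻¹ • y) * dotN (G y) (gradN (fun x => φ (s⁻¹ • x)) y))),
    integral_const_mul, h4, mul_zero, mul_zero]

theorem axs_rot {s : ℝ} {A B : Set (X m)} (h : ∀ x, s • x ∈ B ↔ x ∈ A) {u : X m → ℝ}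
    (hu : RotFun B u) : RotFun A (fun x => u (s • x)) := by
  intro x hx x' hx' h1 h2
  refine hu _ ((h x).2 hx) _ ((h x').2 hx') ?_ ?_
  · rw [Prod.smul_fst, Prod.smul_fst, norm_smul, norm_smul, h1]
  · rw [Prod.smul_snd, Prod.smul_snd, h2]

theorem ax_scale_cond {s : ℝ} (hs : 0 < s) {W : Set (X m)} (hWo : IsOpen W) {γ : X m → ℝ} (h : IsCondN W γ) :
    IsCondN {x | s⁻¹ • x ∈ W} (fun x => γ (s⁻¹ • x)) := by
  have hs0 : s⁻¹ ≠ 0 := inv_ne_zero hs.ne'
  have hAB : ∀ x : X m, s⁻¹ • x ∈ W ↔ x ∈ {x | s⁻¹ • x ∈ W} := fun x => Iff.rfl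
  obtain ⟨h1, c, C, hc, h2⟩ := h
  have hmap := axs_map hs0 hAB
  refine ⟨?_, c, C, hc, ?_⟩
  · have h3 : AEStronglyMeasurable γ (Measure.map (fun x => s⁻¹ • x) (volume.restrict {x : X m | s⁻¹ • x ∈ W})) := by
      rw [hmap]
      exact h1.smul_measure _
    exact h3.comp_measurable (axs_emb (m := m) hs0).measurable
  · have h3 : ∀ᵐ x ∂(Measure.map (fun x => s⁻¹ • x) (volume.restrict {x : X m | s⁻¹ • x ∈ W})),
        c ≤ γ x ∧ γ x ≤ C := by
      rw [hmap]
      exact Measure.ae_smul_measure h2 _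
    exact (axs_emb (m := m) hs0).ae_map_iff.1 h3

theorem ax_scale_ae {s : ℝ} (hs : 0 < s) {W : Set (X m)} (hWo : IsOpen W) {γ₁ γ₂ : X m → ℝ}
    (h : (fun x => γ₁ (s⁻¹ • x)) =ᵐ[volume.restrict {x | s⁻¹ • x ∈ W}] fun x => γ₂ (s⁻¹ • x)) :
    γ₁ =ᵐ[volume.restrict W] γ₂ := by
  have hs0 : s⁻¹ ≠ 0 := inv_ne_zero hs.ne'
  have hAB : ∀ x : X m, s⁻¹ • x ∈ W ↔ x ∈ {x | s⁻¹ • x ∈ W} := fun x => Iff.rfl
  have hmap := axs_map hs0 hAB
  have h3 : ∀ᵐ x ∂(Measure.map (fun x => s⁻¹ • x) (volume.restrict {x : X m | s⁻¹ • x ∈ W})),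
      γ₁ x = γ₂ x := (axs_emb (m := m) hs0).ae_map_iff.2 h
  rw [hmap] at h3
  exact (Measure.ae_ennreal_smul_measure_iff (axK_ne_zero hs0)).1 h3

end

end RotCalderon
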