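import Pool.Agent.Lib.MP_70bd98_an.AxDefs

/-! # A weighted Poincare inequality -/

open MeasureTheory Complex Metric Set LocalCalderon Filter
open scoped ENNReal Topology ContDiff

namespace RotCalderon

noncomputable section

variable {m : ℕ}

private theorem axp_fd (k : ℕ) (z : ℂ) : fderiv ℝ (fun z : ℂ => z.re ^ k * z.im) z I = z.re ^ k := by
  have h1 : HasFDerivAt (fun z : ℂ => z.re ^ k * z.im) _ z :=
    ((reCLM.hasFDerivAt (x := z)).pow k).mul (imCLM.hasFDerivAt (x := z))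
  rw [h1.fderiv]
  simp

private theorem axp_real {D : Set ℂ} (hpos : ∀ w ∈ D, 0 < w.re) {R : ℝ} (hR : 0 < R)
    (hDR : ∀ w ∈ D, ‖w‖ ≤ R) {φ : ℂ → ℝ} (h : IsTest D φ) :
    (∫ z : ℂ, z.re ^ (m - 1) * ‖φ z‖ ^ (2 : ℝ)) ≤
      (2 * R) ^ 2 * ∫ z : ℂ, z.re ^ (m - 1) * ‖grad φ z‖ ^ (2 : ℝ) := by
  obtain ⟨hs, hc, hsub⟩ := h
  have hdiff : Differentiable ℝ φ := hs.differentiable (by simp)
  have hcont : Continuous φ := hs.continuous
  have hfd : Continuous (fderiv ℝ φ) := hs.continuous_fderiv (by simp)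
  have hcf : HasCompactSupport (fderiv ℝ φ) := hc.fderiv (𝕜 := ℝ)
  have hx : Continuous fun z => fderiv ℝ φ z 1 := hfd.clm_apply continuous_const
  have hy : Continuous fun z => fderiv ℝ φ z I := hfd.clm_apply continuous_const
  have hcx : HasCompactSupport fun z => fderiv ℝ φ z 1 := by
    refine hcf.mono ?_
    intro z hz
    simp only [Function.mem_support, ne_eq] at hz ⊢
    intro h0
    exact hz (by rw [h0]; simp)
  have hcy : HasCompactSupport fun z => fderiv ℝ φ z I := by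
    refine hcf.mono ?_
    intro z hz
    simp only [Function.mem_support, ne_eq] at hz ⊢
    intro h0
    exact hz (by rw [h0]; simp)
  have hρ : Continuous fun z : ℂ => z.re ^ (m - 1) := continuous_re.pow _
  have i1 : Integrable fun z : ℂ => z.re ^ (m - 1) * (φ z * φ z) :=
    (hρ.mul (hcont.mul hcont)).integrable_of_hasCompactSupport
      (HasCompactSupport.mul_left hc.mul_right)
  have i2 : Integrable fun z : ℂ => z.re ^ (m - 1) * (fderiv ℝ φ z 1 * fderiv ℝ φ z 1) :=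
    (hρ.mul (hx.mul hx)).integrable_of_hasCompactSupport
      (HasCompactSupport.mul_left hcx.mul_right)
  have i3 : Integrable fun z : ℂ => z.re ^ (m - 1) * (fderiv ℝ φ z I * fderiv ℝ φ z I) :=
    (hρ.mul (hy.mul hy)).integrable_of_hasCompactSupport
      (HasCompactSupport.mul_left hcy.mul_right)
  have i4 : Integrable fun z : ℂ => (z.re ^ (m - 1) * z.im) * (2 * (φ z * fderiv ℝ φ z I)) := by
    refine Continuous.integrable_of_hasCompactSupport ?_ ?_
    · exact (hρ.mul continuous_im).mul (continuous_const.mul (hcont.mul hy))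
    · exact HasCompactSupport.mul_left (HasCompactSupport.mul_left hc.mul_right)
  have i5 : Integrable fun z : ℂ => (z.re ^ (m - 1) * z.im) * (φ z * φ z) :=
    ((hρ.mul continuous_im).mul (hcont.mul hcont)).integrable_of_hasCompactSupport
      (HasCompactSupport.mul_left hc.mul_right)
  have hsq : ∀ z : ℂ, fderiv ℝ (fun z => φ z * φ z) z I = 2 * (φ z * fderiv ℝ φ z I) := by
    intro z
    rw [fderiv_fun_mul (hdiff z) (hdiff z)]
    simp
    ring
  have hdf : Differentiable ℝ (fun z : ℂ => z.re ^ (m - 1) * z.im) := by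
    intro z
    exact ((reCLM.differentiableAt (x := z)).pow (m - 1)).mul (imCLM.differentiableAt (x := z))
  have hparts := integral_mul_fderiv_eq_neg_fderiv_mul_of_integrable (μ := (volume : Measure ℂ)) (v := (I : ℂ))
    (f := fun z : ℂ => z.re ^ (m - 1) * z.im) (g := fun z => φ z * φ z)
    (by simpa only [axp_fd] using i1) (by simpa only [hsq] using i4) i5
    (fun z _ => hdf z) (fun z _ => (hdiff.mul hdiff) z)
  simp only [axp_fd, hsq] at hparts
  have hout : ∀ z : ℂ, z ∉ D → φ z = 0 ∧ fderiv ℝ φ z = 0 := by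
    intro z hz
    have hz' : z ∉ tsupport φ := fun h => hz (hsub h)
    refine ⟨image_eq_zero_of_notMem_tsupport hz', ?_⟩
    have h2 : z ∉ tsupport (fderiv ℝ φ) := fun h => hz' (tsupport_fderiv_subset ℝ h)
    exact image_eq_zero_of_notMem_tsupport h2
  have hb : ∀ z : ℂ, -((z.re ^ (m - 1) * z.im) * (2 * (φ z * fderiv ℝ φ z I))) ≤
      1 / 2 * (z.re ^ (m - 1) * (φ z * φ z)) +
        2 * R ^ 2 * (z.re ^ (m - 1) * (fderiv ℝ φ z I * fderiv ℝ φ z I)) := by
    intro z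
    by_cases hz : z ∈ D
    · have hρ0 : 0 ≤ z.re ^ (m - 1) := pow_nonneg (hpos z hz).le _
      have h1 : |z.im| ≤ R := (abs_im_le_norm z).trans (hDR z hz)
      have h2 : z.im ^ 2 ≤ R ^ 2 := sq_le_sq' (abs_le.1 h1).1 (abs_le.1 h1).2
      have h3 := mul_le_mul_of_nonneg_right h2 (sq_nonneg (fderiv ℝ φ z I))
      have h4 : 0 ≤ 1 / 2 * (φ z * φ z) + 2 * R ^ 2 * (fderiv ℝ φ z I * fderiv ℝ φ z I) +
          z.im * (2 * (φ z * fderiv ℝ φ z I)) := by
        nlinarith [sq_nonneg (φ z + 2 * (z.im * fderiv ℝ φ z I))]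
      have h5 := mul_nonneg hρ0 h4
      nlinarith [h5]
    · obtain ⟨h0, h1⟩ := hout z hz
      rw [h0, h1]
      simp
  have hint := integral_mono i4.neg ((i1.const_mul (1 / 2)).add (i3.const_mul (2 * R ^ 2))) hb
  have e1 : ∫ z : ℂ, (1 / 2 * (z.re ^ (m - 1) * (φ z * φ z)) +
        2 * R ^ 2 * (z.re ^ (m - 1) * (fderiv ℝ φ z I * fderiv ℝ φ z I))) =
      1 / 2 * (∫ z : ℂ, z.re ^ (m - 1) * (φ z * φ z)) +
        2 * R ^ 2 * ∫ z : ℂ, z.re ^ (m - 1) * (fderiv ℝ φ z I * fderiv ℝ φ z I) := by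
    rw [integral_add (i1.const_mul _) (i3.const_mul _), integral_const_mul, integral_const_mul]
  have hint' : (∫ z : ℂ, z.re ^ (m - 1) * (φ z * φ z)) ≤
      1 / 2 * (∫ z : ℂ, z.re ^ (m - 1) * (φ z * φ z)) +
        2 * R ^ 2 * ∫ z : ℂ, z.re ^ (m - 1) * (fderiv ℝ φ z I * fderiv ℝ φ z I) := by
    rw [← e1]
    refine le_trans (le_of_eq ?_) hint
    simp only [Pi.neg_apply]
    rw [integral_neg, hparts, neg_neg]
  have hn : ∀ z, ‖grad φ z‖ ^ (2 : ℝ) =
      fderiv ℝ φ z 1 * fderiv ℝ φ z 1 + fderiv ℝ φ z I * fderiv ℝ φ z I := by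
    intro z
    have : grad φ z = ((fderiv ℝ φ z 1 : ℝ) : ℂ) + I * ((fderiv ℝ φ z I : ℝ) : ℂ) := rfl
    rw [Real.rpow_two, Complex.sq_norm, this, Complex.normSq_apply]
    simp
  have hle : (∫ z : ℂ, z.re ^ (m - 1) * (fderiv ℝ φ z I * fderiv ℝ φ z I)) ≤
      ∫ z : ℂ, z.re ^ (m - 1) * ‖grad φ z‖ ^ (2 : ℝ) := by
    simp only [hn]
    have i6 : Integrable fun z : ℂ => z.re ^ (m - 1) *
        (fderiv ℝ φ z 1 * fderiv ℝ φ z 1 + fderiv ℝ φ z I * fderiv ℝ φ z I) := by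
      refine (i2.add i3).congr (Eventually.of_forall fun z => ?_)
      exact (mul_add _ _ _).symm
    refine integral_mono i3 i6 fun z => ?_
    show z.re ^ (m - 1) * (fderiv ℝ φ z I * fderiv ℝ φ z I) ≤ z.re ^ (m - 1) *
        (fderiv ℝ φ z 1 * fderiv ℝ φ z 1 + fderiv ℝ φ z I * fderiv ℝ φ z I)
    by_cases hz : z ∈ D
    · have hρ0 : 0 ≤ z.re ^ (m - 1) := pow_nonneg (hpos z hz).le _
      have := mul_nonneg hρ0 (mul_self_nonneg (fderiv ℝ φ z 1))
      rw [mul_add]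
      linarith
    · obtain ⟨-, h1⟩ := hout z hz
      rw [h1]
      simp
  have hl : (∫ z : ℂ, z.re ^ (m - 1) * ‖φ z‖ ^ (2 : ℝ)) =
      ∫ z : ℂ, z.re ^ (m - 1) * (φ z * φ z) := by
    refine integral_congr_ae (Eventually.of_forall fun z => ?_)
    show z.re ^ (m - 1) * ‖φ z‖ ^ (2 : ℝ) = z.re ^ (m - 1) * (φ z * φ z)
    rw [Real.rpow_two, Real.norm_eq_abs, sq_abs, sq]
  rw [hl]
  have hRR : 0 ≤ 2 * R ^ 2 := by positivity
  have := mul_le_mul_of_nonneg_left hle hRR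
  nlinarith

private theorem axp_mem {F : Type*} [NormedAddCommGroup F] {D : Set ℂ} (hDo : IsOpen D)
    (hpos : ∀ w ∈ D, 0 < w.re) {R : ℝ} (hDR : ∀ w ∈ D, ‖w‖ ≤ R) {f : ℂ → F}
    (hf : MemLp f 2 volume) : MemLp f 2 (nuD m D) := by
  have h1 : nuD m D ≤ ENNReal.ofReal (R ^ (m - 1)) • (volume.restrict D) := by
    rw [← withDensity_const]
    refine withDensity_mono ?_
    filter_upwards [ae_restrict_mem hDo.measurableSet] with w hw
    refine ENNReal.ofReal_le_ofReal (pow_le_pow_left₀ (hpos w hw).le ?_ _)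
    exact (le_abs_self _).trans ((Complex.abs_re_le_norm w).trans (hDR w hw))
  exact ((hf.restrict D).smul_measure ENNReal.ofReal_ne_top).mono_measure h1

/-- Weighted Poincare inequality. -/
theorem ax_poin {D : Set ℂ} (hDo : IsOpen D) (hpos : ∀ w ∈ D, 0 < w.re) {R : ℝ} (hR : 0 < R) (hDR : ∀ w ∈ D, ‖w‖ ≤ R) {φ : ℂ → ℝ} (hφ : IsTest D φ) :
    eLpNorm φ 2 (nuD m D) ≤ ENNReal.ofReal (2 * R) * eLpNorm (grad φ) 2 (nuD m D) := by
  have hs := hφ.1
  have hc := hφ.2.1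
  have hsub := hφ.2.2
  have hcont : Continuous φ := hs.continuous
  have hfd : Continuous (fderiv ℝ φ) := hs.continuous_fderiv (by simp)
  have hcf : HasCompactSupport (fderiv ℝ φ) := hc.fderiv (𝕜 := ℝ)
  have hx : Continuous fun z => fderiv ℝ φ z 1 := hfd.clm_apply continuous_const
  have hy : Continuous fun z => fderiv ℝ φ z I := hfd.clm_apply continuous_const
  have hgc : Continuous (grad φ) := by
    show Continuous fun z => ((fderiv ℝ φ z 1 : ℝ) : ℂ) + I * ((fderiv ℝ φ z I : ℝ) : ℂ)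
    exact (continuous_ofReal.comp hx).add (continuous_const.mul (continuous_ofReal.comp hy))
  have hgz : ∀ z, fderiv ℝ φ z = 0 → grad φ z = 0 := by
    intro z h0
    show ((fderiv ℝ φ z 1 : ℝ) : ℂ) + I * ((fderiv ℝ φ z I : ℝ) : ℂ) = 0
    rw [h0]
    simp
  have hgs : HasCompactSupport (grad φ) := by
    refine hcf.mono ?_
    intro z hz
    simp only [Function.mem_support, ne_eq] at hz ⊢
    intro h0
    exact hz (hgz z h0)
  have m1 : MemLp φ 2 (nuD m D) := axp_mem hDo hpos hDR (hcont.memLp_of_hasCompactSupport hc)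
  have m2 : MemLp (grad φ) 2 (nuD m D) :=
    axp_mem hDo hpos hDR (hgc.memLp_of_hasCompactSupport hgs)
  have key := axp_real (m := m) hpos hR hDR hφ
  rw [m1.eLpNorm_eq_integral_rpow_norm two_ne_zero (by norm_num),
    m2.eLpNorm_eq_integral_rpow_norm two_ne_zero (by norm_num), ← ENNReal.ofReal_mul (by positivity)]
  refine ENNReal.ofReal_le_ofReal ?_
  have ht : (2 : ℝ≥0∞).toReal = 2 := by norm_num
  rw [ht, int_nuD hDo.measurableSet hpos, int_nuD hDo.measurableSet hpos]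
  have e1 : ∫ w in D, w.re ^ (m - 1) * ‖φ w‖ ^ (2 : ℝ) = ∫ w : ℂ, w.re ^ (m - 1) * ‖φ w‖ ^ (2 : ℝ) := by
    refine setIntegral_eq_integral_of_forall_compl_eq_zero fun z hz => ?_
    have hz' : z ∉ tsupport φ := fun h => hz (hsub h)
    rw [image_eq_zero_of_notMem_tsupport hz']
    simp
  have e2 : ∫ w in D, w.re ^ (m - 1) * ‖grad φ w‖ ^ (2 : ℝ) =
      ∫ w : ℂ, w.re ^ (m - 1) * ‖grad φ w‖ ^ (2 : ℝ) := by
    refine setIntegral_eq_integral_of_forall_compl_eq_zero fun z hz => ?_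
    have hz' : z ∉ tsupport φ := fun h => hz (hsub h)
    have h2 : z ∉ tsupport (fderiv ℝ φ) := fun h => hz' (tsupport_fderiv_subset ℝ h)
    rw [hgz z (image_eq_zero_of_notMem_tsupport h2)]
    simp
  rw [e1, e2]
  have e : (2 : ℝ)⁻¹ = 1 / 2 := by norm_num
  rw [e, ← Real.sqrt_eq_rpow, ← Real.sqrt_eq_rpow]
  calc √(∫ z : ℂ, z.re ^ (m - 1) * ‖φ z‖ ^ (2 : ℝ)) ≤
        √((2 * R) ^ 2 * ∫ z : ℂ, z.re ^ (m - 1) * ‖grad φ z‖ ^ (2 : ℝ)) := Real.sqrt_le_sqrt key
    _ = 2 * R * √(∫ z : ℂ, z.re ^ (m - 1) * ‖grad φ z‖ ^ (2 : ℝ)) := by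
        rw [Real.sqrt_mul (by positivity), Real.sqrt_sq (by positivity)]

end

end RotCalderon
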