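import Pool.Agent.Lib.MP_70bd98_an.AxC2
import Pool.Agent.Lib.MP_70bd98_an.AxCut
import Pool.Agent.Lib.MP_70bd98_an.AxH10
import Pool.Agent.Lib.MP_70bd98_an.AxMin
import Pool.Agent.Lib.MP_70bd98_an.AxPoin
import Pool.Agent.Lib.MP_70bd98_an.AxExt
import Pool.Agent.Lib.MP_70bd98_an.AxH1
import Pool.Agent.Lib.MP_70bd98_an.AxKap

/-! # Transfer of the degenerate planar solutions by the Dirichlet-to-Neumann map in space -/

open MeasureTheory Complex Metric Set LocalCalderon Filter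
open scoped ENNReal Topology ContDiff ComplexConjugate

namespace RotCalderon

noncomputable section

variable {m : ℕ}

theorem ax_KW (hm : 2 ≤ m) : Cal.KW Gax (kap m) := by
  obtain ⟨a, b, c, d, e, f, g, h, i, -⟩ := ax_kw0 (m := m) hm
  exact ⟨a, b, c, d.measurable, d.continuousOn, e, f, g, h, i, ax_cut hm⟩

open Classical in
/-- The conductivity `γ` with `γ κ² = g re^(m-1)` on `D`. -/
def gax (m : ℕ) (D : Set ℂ) (g : ℂ → ℝ) (z : ℂ) : ℝ := if z ∈ D then g z / 4 ^ (m - 1) else 1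

theorem gax_in {D : Set ℂ} {g : ℂ → ℝ} {z : ℂ} (hz : z ∈ D) : gax m D g z = g z / 4 ^ (m - 1) := by
  unfold gax
  rw [if_pos hz]

theorem gax_out {D : Set ℂ} {g : ℂ → ℝ} {z : ℂ} (hz : z ∉ D) : gax m D g z = 1 := by
  unfold gax
  rw [if_neg hz]

theorem gax_cond {D : Set ℂ} (hDm : MeasurableSet D) {c C : ℝ} {g : ℂ → ℝ} (hg : Cal.Cond c C g) :
    Cal.Cond (min (c / 4 ^ (m - 1)) 1) (max (C / 4 ^ (m - 1)) 1) (gax m D g) := by
  classical
  refine ⟨?_, fun z => ?_, fun z => ?_⟩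
  · unfold gax
    exact Measurable.ite hDm (hg.meas.div_const _) measurable_const
  · by_cases hz : z ∈ D
    · rw [gax_in hz]
      exact (min_le_left _ _).trans (by gcongr; exact hg.lo z)
    · rw [gax_out hz]
      exact min_le_right _ _
  · by_cases hz : z ∈ D
    · rw [gax_in hz]
      exact le_trans (by gcongr; exact hg.hi z) (le_max_left _ _)
    · rw [gax_out hz]
      exact le_max_right _ _

theorem ac1 {D : Set ℂ} (hDm : MeasurableSet D) (hpos : ∀ w ∈ D, 0 < w.re) : volume.restrict D ≪ nuD m D := by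
  refine withDensity_absolutelyContinuous' (by fun_prop) ?_
  filter_upwards [ae_restrict_mem hDm] with w hw
  have : 0 < w.re ^ (m - 1) := pow_pos (hpos w hw) _
  simp [this]

theorem ac2 {D : Set ℂ} : nuD m D ≪ volume.restrict D := withDensity_absolutelyContinuous _ _

theorem mem_nuD_iff {F : Type*} [NormedAddCommGroup F] {D : Set ℂ} (hDm : MeasurableSet D) (hpos : ∀ w ∈ D, 0 < w.re)
    {U : ℂ → F} (hU : AEStronglyMeasurable U (volume.restrict D)) :
    MemLp U 2 (nuD m D) ↔ IntegrableOn (fun w => w.re ^ (m - 1) * ‖U w‖ ^ 2) D volume := by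
  rw [memLp_two_iff_integrable_sq_norm (hU.mono_ac ac2), nuD, integrable_withDensity_iff (by fun_prop) (by simp)]
  refine integrable_congr ?_
  filter_upwards [ae_restrict_mem hDm] with w hw
  rw [ENNReal.toReal_ofReal (pow_nonneg (hpos w hw).le _), mul_comm]

theorem H1N_add {W : Set (X m)} {u v : X m → ℝ} {G V : X m → X m} (h : H1N W u G) (h' : H1N W v V) :
    H1N W (fun x => u x + v x) (fun x => G x + V x) := by
  refine ⟨h.1.add h'.1, h.2.1.add h'.2.1, fun φ hφ y => ?_⟩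
  have m1 := memLp_dot (grad_mem hφ W) y
  have m2 := test_mem hφ W
  have i1 : Integrable (fun x => u x * dotN (gradN φ x) y) (volume.restrict W) := h.1.integrable_mul m1
  have i2 : Integrable (fun x => v x * dotN (gradN φ x) y) (volume.restrict W) := h'.1.integrable_mul m1
  have i3 : Integrable (fun x => φ x * dotN (G x) y) (volume.restrict W) := m2.integrable_mul (memLp_dot h.2.1 y)
  have i4 : Integrable (fun x => φ x * dotN (V x) y) (volume.restrict W) := m2.integrable_mul (memLp_dot h'.2.1 y)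
  have e1 : ∫ x in W, (u x + v x) * dotN (gradN φ x) y =
      (∫ x in W, u x * dotN (gradN φ x) y) + ∫ x in W, v x * dotN (gradN φ x) y := by
    rw [← integral_add i1 i2]
    refine integral_congr_ae (Eventually.of_forall fun x => ?_)
    simp only
    ring
  have e2 : ∫ x in W, φ x * dotN (G x + V x) y =
      (∫ x in W, φ x * dotN (G x) y) + ∫ x in W, φ x * dotN (V x) y := by
    rw [← integral_add i3 i4]
    refine integral_congr_ae (Eventually.of_forall fun x => ?_)
    simp only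
    have : dotN (G x + V x) y = dotN (G x) y + dotN (V x) y := by
      unfold dotN
      simp only [Prod.fst_add, Prod.snd_add, inner_add_left]
      ring
    rw [this]
    ring
  rw [e1, e2, h.2.2 φ hφ y, h'.2.2 φ hφ y]
  ring

theorem grad_zero {φ : ℂ → ℝ} {z : ℂ} (hz : z ∉ tsupport φ) : grad φ z = 0 := by
  have h : fderiv ℝ φ z = 0 := by
    by_contra hne
    exact hz (support_fderiv_subset ℝ hne)
  simp [grad, h]

theorem grad_congr {φ ψ : ℂ → ℝ} {z : ℂ} (h : φ =ᶠ[𝓝 z] ψ) : grad φ z = grad ψ z := by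
  unfold grad
  rw [h.fderiv_eq]

theorem ZW_neg {D : Set ℂ} {z : ℂ → ℝ} {Z : ℂ → ℂ} (h : ZW m D z Z) : ZW m D (fun w => - z w) (fun w => - Z w) := by
  refine ⟨h.mz.neg, h.mZ.neg, fun ε hε => ?_⟩
  obtain ⟨φ, t, b1, b2⟩ := h.app ε hε
  refine ⟨fun w => - φ w, ⟨t.1.neg, t.2.1.neg, ?_⟩, ?_, ?_⟩
  · have : tsupport (fun w => - φ w) = tsupport φ := by
      unfold tsupport
      congr 1
      ext w
      simp
    rw [this]
    exact t.2.2
  · have e : (fun w => - z w - - φ w) = - fun w => z w - φ w := by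
      funext w
      simp only [Pi.neg_apply]
      ring
    rw [e, eLpNorm_neg]
    exact b1
  · have e : (fun w => - Z w - grad (fun w => - φ w) w) = - fun w => Z w - grad φ w := by
      funext w
      simp only [Pi.neg_apply, grad]
      rw [fderiv_fun_neg]
      simp
      ring
    rw [e, eLpNorm_neg]
    exact b2

/-- A test function of the slit plane, seen in space. -/
theorem ax_test_fn {D : Set ℂ} (hD4 : D ⊆ ball 0 (1 / 4)) (hpos : ∀ w ∈ D, 0 < w.re)
    {φ : ℂ → ℝ} (hφ : Cal.RTF Gax φ) :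
    ∃ ψ : ℂ → ℝ, IsTestN univ (fun x : X m => ψ (prof x)) ∧ (∀ x : X m, gradN (fun x : X m => ψ (prof x)) x = liftG (grad ψ) x) ∧
      ∀ w ∈ D, grad ψ w = grad φ w := by
  have hK : IsCompact (tsupport φ ∩ closedBall 0 (1 / 4) ∩ {w : ℂ | 0 ≤ w.re}) := by
    have h1 : IsClosed {w : ℂ | 0 ≤ w.re} := isClosed_le continuous_const Complex.continuous_re
    exact (hφ.2.1.isCompact.inter_right isClosed_closedBall).inter_right h1
  have hK0 : ∀ w ∈ tsupport φ ∩ closedBall 0 (1 / 4) ∩ {w : ℂ | 0 ≤ w.re}, 0 < w.re := by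
    rintro w ⟨⟨h1, h2⟩, h3⟩
    have h3' : 0 ≤ w.re := h3
    rcases h3'.lt_or_eq with h | h
    · exact h
    · exfalso
      refine hφ.2.2 h1 ⟨h.symm, ?_⟩
      rw [mem_closedBall_zero_iff] at h2
      exact (Complex.abs_im_le_norm w).trans h2
  obtain ⟨δ, hδ, hδK⟩ : ∃ δ : ℝ, 0 < δ ∧ ∀ w ∈ tsupport φ ∩ closedBall 0 (1 / 4) ∩ {w : ℂ | 0 ≤ w.re}, δ < w.re := by
    rcases (tsupport φ ∩ closedBall 0 (1 / 4) ∩ {w : ℂ | 0 ≤ w.re}).eq_empty_or_nonempty with h0 | hne
    · refine ⟨1, one_pos, fun w hw => ?_⟩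
      rw [h0] at hw
      exact absurd hw (notMem_empty w)
    · obtain ⟨w0, hw0, hmin⟩ := hK.exists_isMinOn hne Complex.continuous_re.continuousOn
      have h1 := hK0 w0 hw0
      refine ⟨w0.re / 2, half_pos h1, fun w hw => ?_⟩
      have h2 : w0.re ≤ w.re := hmin hw
      linarith
  have hO : IsOpen {w : ℂ | δ < w.re} := isOpen_lt continuous_const Complex.continuous_re
  obtain ⟨ζ, z1, z2, z3⟩ := cut hK hO hδK
  have ht : IsTest {w : ℂ | δ < w.re} (fun w => ζ w * φ w) :=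
    ⟨z1.1.mul hφ.1, z1.2.1.mul_right, (tsupport_mul_subset_left (f := ζ) (g := φ)).trans z2⟩
  obtain ⟨l1, l2⟩ := lift_test (m := m) hδ (D := {w : ℂ | δ < w.re}) (fun w hw => le_of_lt hw) ht
  refine ⟨fun w => ζ w * φ w, univ_test l1, l2, fun w hw => grad_congr ?_⟩
  by_cases hwt : w ∈ tsupport φ
  · have hwK : w ∈ tsupport φ ∩ closedBall 0 (1 / 4) ∩ {w : ℂ | 0 ≤ w.re} :=
      ⟨⟨hwt, ball_subset_closedBall (hD4 hw)⟩, (hpos w hw).le⟩
    filter_upwards [z3 w hwK] with y hy
    rw [hy, one_mul]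
  · have : ∀ᶠ y in 𝓝 w, y ∉ tsupport φ := (isClosed_tsupport φ).isOpen_compl.mem_nhds hwt
    filter_upwards [this] with y hy
    rw [image_eq_zero_of_notMem_tsupport hy, mul_zero]

/-- Integrability of the forms. -/
theorem ax_formint {κ γ : ℂ → ℝ} {G : Set ℂ} (hG : IsOpen G) {W' : ℂ → ℂ} {C : ℝ} (hγm : Measurable γ) (hγ : ∀ z, |γ z| ≤ C)
    (hκm : Measurable κ) (hκ : ∀ z, 0 ≤ κ z ∧ κ z ≤ 1) (hW : AEStronglyMeasurable W' (volume.restrict G))
    (hint : ∀ R : ℝ, IntegrableOn (fun z => κ z ^ 2 * ‖W' z‖ ^ 2) (G ∩ closedBall 0 R) volume) {φ : ℂ → ℝ} (hφ : Cal.RTF G φ) :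
    IntegrableOn (fun z => γ z * κ z ^ 2 * Cal.ip (W' z) (Cal.gr φ z)) G volume := by
  have hC0 : 0 ≤ C := (abs_nonneg _).trans (hγ 0)
  obtain ⟨R, hR⟩ := hφ.2.1.isCompact.isBounded.subset_closedBall 0
  have hgc : Continuous (Cal.gr φ) := ax_grad_cont hφ.1
  have hgs : HasCompactSupport (Cal.gr φ) := by
    refine HasCompactSupport.of_support_subset_isCompact hφ.2.1.isCompact ?_
    intro z hz
    by_contra hcon
    exact hz (grad_zero hcon)
  obtain ⟨B, hB⟩ := hgs.exists_bound_of_continuous hgc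
  have hB0 : 0 ≤ B := (norm_nonneg _).trans (hB 0)
  have hmeas : AEStronglyMeasurable (fun z => γ z * κ z ^ 2 * Cal.ip (W' z) (Cal.gr φ z)) (volume.restrict G) := by
    refine (hγm.aestronglyMeasurable.mul (hκm.pow_const 2).aestronglyMeasurable).mul ?_
    unfold Cal.ip
    exact Complex.continuous_re.comp_aestronglyMeasurable (hW.mul (Complex.continuous_conj.comp_aestronglyMeasurable hgc.aestronglyMeasurable))
  have h1 : IntegrableOn (fun z => γ z * κ z ^ 2 * Cal.ip (W' z) (Cal.gr φ z)) (G ∩ closedBall 0 R) volume := by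
    have hfin : IntegrableOn (fun z => κ z ^ 2 * ‖W' z‖ ^ 2 + 1) (G ∩ closedBall 0 R) volume := by
      refine (hint R).add (integrableOn_const ?_)
      exact ((measure_mono inter_subset_right).trans_lt (isCompact_closedBall (0 : ℂ) R).measure_lt_top).ne
    refine Integrable.mono' (hfin.const_mul (C * B)) (hmeas.mono_set inter_subset_left) (Eventually.of_forall fun z => ?_)
    have e1 : |Cal.ip (W' z) (Cal.gr φ z)| ≤ ‖W' z‖ * B := by
      unfold Cal.ip
      refine (Complex.abs_re_le_norm _).trans ?_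
      rw [norm_mul, RCLike.norm_conj]
      exact mul_le_mul_of_nonneg_left (hB z) (norm_nonneg _)
    rw [Real.norm_eq_abs, abs_mul, abs_mul, abs_of_nonneg (sq_nonneg (κ z))]
    have e2 := hγ z
    have e3 := (hκ z).1
    have e4 := (hκ z).2
    have e5 : κ z ^ 2 ≤ 1 := by nlinarith
    have e6 : κ z ^ 2 * ‖W' z‖ ≤ κ z ^ 2 * ‖W' z‖ ^ 2 + 1 := by
      nlinarith [sq_nonneg (‖W' z‖ - 1), sq_nonneg (κ z), norm_nonneg (W' z), mul_nonneg (sq_nonneg (κ z)) (sq_nonneg (‖W' z‖ - 1))]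
    calc |γ z| * κ z ^ 2 * |Cal.ip (W' z) (Cal.gr φ z)| ≤ C * κ z ^ 2 * (‖W' z‖ * B) := by gcongr
      _ = (C * B) * (κ z ^ 2 * ‖W' z‖) := by ring
      _ ≤ (C * B) * (κ z ^ 2 * ‖W' z‖ ^ 2 + 1) := by gcongr
  have h2 : IntegrableOn (fun z => γ z * κ z ^ 2 * Cal.ip (W' z) (Cal.gr φ z)) (G \ closedBall 0 R) volume := by
    refine (integrableOn_zero (s := G \ closedBall 0 R)).congr_fun (fun z hz => ?_) (hG.measurableSet.diff measurableSet_closedBall)
    have : z ∉ tsupport φ := fun h => hz.2 (hR h)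
    have h3 : Cal.gr φ z = 0 := grad_zero this
    simp only [h3, Cal.ip]
    simp
  have := h1.union h2
  rwa [inter_union_diff] at this

end

end RotCalderon
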