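import Pool.Agent.Lib.MP_70bd98_an.Ang0

/-! # Normalisation of the product form -/

open MeasureTheory Complex Metric Set LocalCalderon Filter
open scoped ENNReal Topology

namespace RotCalderon

noncomputable section

variable {m : ℕ}

/-- Normalisation: if `γ = a(y/|y|) g(|y|, t)` is a conductivity on a domain of revolution, then `g` may be taken to be a conductivity on the
profile, and `a` measurable and bounded above and below on the sphere. -/
theorem sep_norm (hm : 1 ≤ m) {D : Set ℂ} (hDo : IsOpen D) (hDn : D.Nonempty) (hpos : ∀ w ∈ D, 0 < w.re) {γ : X m → ℝ}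
    (h : IsCondN (rev m D) γ) {a : E m → ℝ} {g : ℂ → ℝ} (hγ : ∀ x ∈ rev m D, γ x = a (om x) * g (prof x)) :
    ∃ (a' : E m → ℝ) (g' : ℂ → ℝ), IsConductivity D g' ∧ AEStronglyMeasurable a' (sE m) ∧
      (∃ c C : ℝ, 0 < c ∧ ∀ᵐ ω ∂(sE m), c ≤ a' ω ∧ a' ω ≤ C) ∧ ∀ x ∈ rev m D, γ x = a' (om x) * g' (prof x) := by
  have hDm := hDo.measurableSet
  obtain ⟨h1, c, C, hc, h2⟩ := h
  rw [restrict_rev hm hDm hpos] at h1 h2
  have m1 := h1.comp_measurable measurable_Psi
  have b1 := ae_of_ae_map measurable_Psi.aemeasurable h2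
  have key : ∀ (ω : Sp m) (w : ℂ), w ∈ D → γ (Psi (ω, w)) = a ω * g w := by
    intro ω w hw
    have hw0 := hpos w hw
    have hmem : Psi (ω, w) ∈ rev m D := by
      show prof (Psi (ω, w)) ∈ D
      rw [prof_Psi ω hw0]
      exact hw
    rw [hγ _ hmem, om_Psi ω hw0, prof_Psi ω hw0]
  have hne : NeBot (ae (sig m)) := by
    rw [ae_neBot]
    intro h0
    exact sig_pos (m := m) hm (by rw [h0]; simp)
  obtain ⟨ω₀, p1, p2⟩ := (m1.prodMk_left.and (Measure.ae_ae_of_ae_prod b1)).exists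
  have hac : volume.restrict D ≪ nuD m D := by
    refine withDensity_absolutelyContinuous' (by fun_prop) ?_
    filter_upwards [ae_restrict_mem hDm] with w hw
    have : 0 < w.re ^ (m - 1) := pow_pos (hpos w hw) _
    simp [this]
  have hneD : NeBot (ae (nuD m D)) := by
    rw [ae_neBot]
    intro h0
    rw [h0] at hac
    have h3 : (volume.restrict D : Measure ℂ) = 0 := Measure.absolutelyContinuous_zero_iff.1 hac
    rw [Measure.restrict_eq_zero] at h3
    exact (hDo.measure_pos volume hDn).ne' h3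
  have m2 := m1.prod_swap
  have b2 : ∀ᵐ p ∂((nuD m D).prod (sig m)), c ≤ γ (Psi (p.2, p.1)) ∧ γ (Psi (p.2, p.1)) ≤ C := by
    rw [← Measure.prod_swap] at b1
    exact ae_of_ae_map measurable_swap.aemeasurable b1
  obtain ⟨w₀, hw₀, q1, q2, q3⟩ :=
    ((ae_nuD hDm).and (m2.prodMk_left.and ((Measure.ae_ae_of_ae_prod b2).and p2))).exists
  have hk : γ (Psi (ω₀, w₀)) = a ω₀ * g w₀ := key ω₀ w₀ hw₀
  have hkpos : 0 < γ (Psi (ω₀, w₀)) := hc.trans_le q3.1
  have ha0 : a ω₀ ≠ 0 := by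
    intro h0
    rw [hk, h0, zero_mul] at hkpos
    exact lt_irrefl _ hkpos
  have hg0 : g w₀ ≠ 0 := by
    intro h0
    rw [hk, h0, mul_zero] at hkpos
    exact lt_irrefl _ hkpos
  have hC : 0 < C := hkpos.trans_le q3.2
  have hemb : MeasurableEmbedding (Subtype.val : Sp m → E m) :=
    MeasurableEmbedding.subtype_coe isClosed_sphere.measurableSet
  have ha' : ∀ ω : Sp m, a ω / a ω₀ = γ (Psi (ω, w₀)) / γ (Psi (ω₀, w₀)) := by
    intro ω
    rw [hk, key ω w₀ hw₀, mul_div_mul_right _ _ hg0]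
  refine ⟨fun y => a y / a ω₀, fun w => γ (Psi (ω₀, w)), ⟨p1.mono_ac hac, c, C, hc, hac.ae_le p2⟩, ?_,
    ⟨c / C, C / c, div_pos hc hC, ?_⟩, ?_⟩
  · rw [sE, hemb.aestronglyMeasurable_map_iff]
    refine AEStronglyMeasurable.congr (f := fun ω : Sp m => γ (Psi (ω, w₀)) / γ (Psi (ω₀, w₀))) ?_ ?_
    · simp only [div_eq_mul_inv]
      exact q1.mul_const _
    · exact Eventually.of_forall fun ω => (ha' ω).symm
  · rw [sE, hemb.ae_map_iff]
    filter_upwards [q2] with ω hω
    rw [ha' ω]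
    exact ⟨div_le_div₀ (hc.le.trans hω.1) hω.1 hkpos q3.2, div_le_div₀ hC.le hω.2 hc q3.1⟩
  · intro x hx
    have hx' : prof x ∈ D := hx
    show γ x = a (om x) / a ω₀ * γ (Psi (ω₀, prof x))
    rw [key ω₀ _ hx', hγ x hx]
    field_simp

end

end RotCalderon
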