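import Pool.Agent.Lib.MP_70bd98_an.Defs3
import Pool.Agent.Lib.MP_70bd98_an.AxT
import Pool.Agent.Lib.MP_70bd98_an.Ang
import Pool.Agent.Lib.MP_70bd98_an.SepN
import Pool.Agent.Lib.MP_70bd98_an.AxScale
import Pool.Agent.Lib.MP_70bd98_an.AxEqnA
import Pool.Agent.Lib.MP_70bd98_an.AxProd

/-! # Product conductivities on domains meeting the axis: transfer of the planar solutions -/

open MeasureTheory Complex Metric Set LocalCalderon Filter
open scoped ENNReal Topology ContDiff ComplexConjugate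

namespace RotCalderon

noncomputable section

variable {m : ℕ}

theorem ax_DG {D : Set ℂ} (hpos : ∀ w ∈ D, 0 < w.re) : D ⊆ Gax := by
  rintro z hz ⟨h0, -⟩
  have := hpos z hz
  rw [h0] at this
  exact lt_irrefl _ this

theorem ax_kD (hm : 2 ≤ m) {D : Set ℂ} (hpos : ∀ w ∈ D, 0 < w.re) (hD4 : D ⊆ ball 0 (1 / 4)) :
    ∀ z ∈ D, kap m z ^ 2 = (4 * z.re) ^ (m - 1) := by
  obtain ⟨-, -, -, -, -, -, -, -, -, kD⟩ := ax_kw0 (m := m) hm
  intro z hz
  have h1 : ‖z‖ < 1 / 4 := by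
    have := hD4 hz
    rwa [mem_ball_zero_iff] at this
  exact kD z (hpos z hz) ((le_abs_self _).trans ((Complex.abs_re_le_norm z).trans h1.le))
    ((Complex.abs_im_le_norm z).trans h1.le)

theorem ax_gk (hm : 2 ≤ m) {D : Set ℂ} (hpos : ∀ w ∈ D, 0 < w.re) (hD4 : D ⊆ ball 0 (1 / 4)) (g : ℂ → ℝ) :
    ∀ z ∈ D, gax m D g z * kap m z ^ 2 = g z * z.re ^ (m - 1) := by
  intro z hz
  have h4 : (0 : ℝ) < 4 ^ (m - 1) := by positivity
  rw [gax_in hz, ax_kD hm hpos hD4 z hz, mul_pow]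
  field_simp

/-- The hypotheses on the planar solution. -/
structure PS (m : ℕ) (D : Set ℂ) (g : ℂ → ℝ) (w : ℂ → ℝ) (W' : ℂ → ℂ) (M : ℝ) : Prop where
  c : ContinuousOn w Gax
  wg : Cal.WG Gax w W'
  b : ∀ z ∈ Gax, ‖z‖ < 5 / 8 → |w z| ≤ M
  i : ∀ R : ℝ, IntegrableOn (fun z => kap m z ^ 2 * ‖W' z‖ ^ 2) (Gax ∩ closedBall 0 R) volume
  e : ∀ φ : ℂ → ℝ, Cal.RTF Gax φ → ∫ z in Gax, gax m D g z * kap m z ^ 2 * Cal.ip (W' z) (Cal.gr φ z) = 0

/-- Its restriction to `D`. -/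
theorem ax_facts (hm : 2 ≤ m) {D : Set ℂ} (hDo : IsOpen D)
    (hpos : ∀ w ∈ D, 0 < w.re) (hD4 : D ⊆ ball 0 (1 / 4)) {g : ℂ → ℝ} {w : ℂ → ℝ} {W' : ℂ → ℂ} {M : ℝ} (h : PS m D g w W' M) :
    MemLp w 2 (nuD m D) ∧ MemLp W' 2 (nuD m D) ∧ AEStronglyMeasurable W' (volume.restrict D) ∧ (∀ z ∈ D, |w z| ≤ M) ∧
      Cal.WG D w W' ∧ ∀ ψ : ℂ → ℝ, IsTest D ψ → ∫ z in D, (g z * z.re ^ (m - 1)) * dot (W' z) (grad ψ z) = 0 := by
  obtain ⟨hwc, hWG, hM, hint, heq⟩ := h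
  have hm1 : 1 ≤ m := by omega
  have hDm := hDo.measurableSet
  have hDb : Bornology.IsBounded D := isBounded_ball.subset hD4
  obtain ⟨kO, kC, kE, kcont, kpos, k0, k1, koff, kone, -⟩ := ax_kw0 (m := m) hm
  have hD1 : ∀ z ∈ D, ‖z‖ < 1 / 4 := fun z hz => by
    have := hD4 hz
    rwa [mem_ball_zero_iff] at this
  have hDG : D ⊆ Gax := ax_DG hpos
  have hkD := ax_kD hm hpos hD4
  have h4 : (0 : ℝ) < 4 ^ (m - 1) := by positivity
  have hgk := ax_gk hm hpos hD4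
  have aW : AEStronglyMeasurable W' (volume.restrict Gax) := Cal.kNAT_aesm kO hWG.G2
  have aWD : AEStronglyMeasurable W' (volume.restrict D) := aW.mono_set hDG
  have hU : MemLp W' 2 (nuD m D) := by
    rw [mem_nuD_iff hDm hpos aWD]
    have e1 : IntegrableOn (fun z => kap m z ^ 2 * ‖W' z‖ ^ 2) D volume :=
      (hint 1).mono_set fun z hz => ⟨hDG hz, by rw [mem_closedBall_zero_iff]; linarith [hD1 z hz]⟩
    refine (e1.const_mul (1 / 4 ^ (m - 1))).congr ?_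
    filter_upwards [ae_restrict_mem hDm] with z hz
    rw [hkD z hz, mul_pow]
    field_simp
  have awD : AEStronglyMeasurable w (volume.restrict D) := (hwc.mono hDG).aestronglyMeasurable hDm
  have hM' : ∀ z ∈ D, |w z| ≤ M := fun z hz => hM z (hDG hz) (by linarith [hD1 z hz])
  have hu : MemLp w 2 (nuD m D) := by
    rw [mem_nuD_iff hDm hpos awD]
    have : IsFiniteMeasure (volume.restrict D) := ⟨by simpa using hDb.measure_lt_top⟩
    refine Integrable.of_bound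
      ((Complex.continuous_re.pow (m - 1)).aestronglyMeasurable.mul (awD.norm.pow 2)) (|M| ^ 2) ?_
    filter_upwards [ae_restrict_mem hDm] with z hz
    have e1 : 0 ≤ z.re ^ (m - 1) := pow_nonneg (hpos z hz).le _
    have e2 : z.re ^ (m - 1) ≤ 1 := by
      refine pow_le_one₀ (hpos z hz).le ?_
      have := (le_abs_self _).trans (Complex.abs_re_le_norm z)
      linarith [hD1 z hz]
    have e3 : ‖w z‖ ^ 2 ≤ |M| ^ 2 := by
      refine pow_le_pow_left₀ (norm_nonneg _) ?_ 2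
      rw [Real.norm_eq_abs]
      exact (hM' z hz).trans (le_abs_self M)
    rw [Real.norm_eq_abs, abs_mul, abs_of_nonneg e1, abs_of_nonneg (sq_nonneg _)]
    calc z.re ^ (m - 1) * ‖w z‖ ^ 2 ≤ 1 * |M| ^ 2 := by gcongr
      _ = |M| ^ 2 := one_mul _
  have hwgD : Cal.WG D w W' := (Cal.t_kcalc Gax kO).2.2.1 D w W' hDG hWG
  refine ⟨hu, hU, aWD, hM', hwgD, fun ψ hψ => ?_⟩
  have := heq ψ ⟨hψ.1, hψ.2.1, hψ.2.2.trans hDG⟩
  rw [← this]
  have e1 : ∫ z in Gax, gax m D g z * kap m z ^ 2 * Cal.ip (W' z) (Cal.gr ψ z) =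
      ∫ z in D, gax m D g z * kap m z ^ 2 * Cal.ip (W' z) (Cal.gr ψ z) := by
    refine setIntegral_eq_of_subset_of_forall_diff_eq_zero kO.measurableSet hDG fun z hz => ?_
    have h0 : Cal.gr ψ z = 0 := grad_zero fun h => hz.2 (hψ.2.2 h)
    simp only [h0, Cal.ip]
    simp
  rw [e1]
  refine setIntegral_congr_fun hDm fun z hz => ?_
  rw [hgk g z hz, Cal.t_h1.2.2.2.2.2.2.2.2]
  rfl

/-- The key identity: the Dirichlet-to-Neumann maps in terms of the planar forms. -/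
theorem ax_key (hm : 2 ≤ m) {W : Set (X m)} (hWo : IsOpen W) (hWb : Bornology.IsBounded W) {D : Set ℂ} (hDo : IsOpen D)
    (hpos : ∀ w ∈ D, 0 < w.re) (hD4 : D ⊆ ball 0 (1 / 4)) (hWD : ∀ x : X m, x.1 ≠ 0 → (x ∈ W ↔ prof x ∈ D))
    {g₁ g₂ : ℂ → ℝ} (h1 : IsConductivity D g₁) (h2 : IsConductivity D g₂) {a₁ a₂ : E m → ℝ}
    (ha₁ : AEStronglyMeasurable a₁ (sE m)) (ha₂ : AEStronglyMeasurable a₂ (sE m))
    (ca₁ : ∃ C : ℝ, ∀ᵐ y ∂(sE m), |a₁ y| ≤ C) (ca₂ : ∃ C : ℝ, ∀ᵐ y ∂(sE m), |a₂ y| ≤ C)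
    (hDN : SameFullSymDN W (fun x => a₁ (om x) * g₁ (prof x)) (fun x => a₂ (om x) * g₂ (prof x)))
    {w : ℂ → ℝ} {W' : ℂ → ℂ} {M : ℝ} (h : PS m D g₁ w W' M) {z : ℂ → ℝ} {Z : ℂ → ℂ} (hzZ : ZW m D z Z)
    (eqZ : ∀ ψ : ℂ → ℝ, IsTest D ψ → ∫ y in D, (g₂ y * y.re ^ (m - 1)) * dot (W' y + Z y) (grad ψ y) = 0)
    {ψ : ℂ → ℝ} {δ : ℝ} (hδ : 0 < δ) (hψ : IsTest {w : ℂ | δ < w.re} ψ) {χ : E m → ℝ} (hχ : ContDiff ℝ (⊤ : ℕ∞) χ) :
    (∫ y, a₁ y * χ y ∂(sE m)) * ∫ y in D, (g₁ y * y.re ^ (m - 1)) * dot (W' y) (grad ψ y) =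
      (∫ y, a₂ y * χ y ∂(sE m)) * ∫ y in D, (g₂ y * y.re ^ (m - 1)) * dot (W' y + Z y) (grad ψ y) := by
  have hDm := hDo.measurableSet
  have hWm := hWo.measurableSet
  have hDb : Bornology.IsBounded D := isBounded_ball.subset hD4
  obtain ⟨hu, hU, aWD, hM', hwgD, eqD⟩ := ax_facts hm hDo hpos hD4 h
  have H1u := ax_H1 hm hWo hWb hDo hpos hDb hWD hu ⟨M, hM'⟩ hU hwgD
  have E1 := ax_eqnA hm hWo hWb hDo hpos hDb hWD ha₁ ca₁ h1 hU eqD
  have hUZ : MemLp (fun y => W' y + Z y) 2 (nuD m D) := hU.add hzZ.mZ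
  have H10z := ax_H10 hm hWo hDo hpos hWD hzZ
  have H10n := ax_H10 hm hWo hDo hpos hWD (ZW_neg hzZ)
  have E2 := ax_eqnA hm hWo hWb hDo hpos hDb hWD ha₂ ca₂ h2 hUZ eqZ
  have H2u : H1N W (fun x => w (prof x) + z (prof x)) (liftG fun y => W' y + Z y) := by
    have := H1N_add H1u H10z.1
    have e : (fun x : X m => liftG W' x + liftG Z x) = liftG fun y => W' y + Z y := by
      funext x
      unfold liftG
      refine Prod.ext ?_ ?_
      · simp only [Prod.fst_add, Complex.add_re]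
        rw [← add_smul, ← add_div]
      · simp
    rwa [e] at this
  have hdiff : H10N W (fun x => w (prof x) - (w (prof x) + z (prof x)))
      (fun x => liftG W' x - liftG (fun y => W' y + Z y) x) := by
    refine h10N_congr H10n (Eventually.of_forall fun x => ?_) (Eventually.of_forall fun x => ?_) hWm
    · simp only
      ring
    · simp only
      rw [liftG_sub]
      congr 1
      funext y
      ring
  obtain ⟨l1, l2⟩ := lift_test (m := m) hδ (D := {w : ℂ | δ < w.re}) (fun w hw => le_of_lt hw) hψ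
  have hv : H1N W (fun x : X m => ψ (prof x)) (liftG (grad ψ)) := by
    have e : (gradN fun x : X m => ψ (prof x)) = liftG (grad ψ) := funext l2
    rw [← e]
    refine ⟨test_mem (univ_test l1) W, grad_mem (univ_test l1) W, fun φ₀ hφ₀ y => ?_⟩
    have := ibpN hWm hφ₀ (univ_test l1) y
    rw [this, neg_neg]
  obtain ⟨η, hη, hη2⟩ := ang_test (m := m) (hψ.2.1.isCompact : IsCompact (tsupport ψ)) hδ
    (fun w hw => le_of_lt (hψ.2.2 hw)) hχ
  have key := hDN _ _ _ _ ⟨H1u, E1⟩ ⟨H2u, E2⟩ (rotFun_prof W w) (rotFun_prof W (fun y => w y + z y)) hdiff _ _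
    (h1N_mul hv hη)
  have hder : ∀ (x : X m), x.1 ≠ 0 → prof x ∈ tsupport ψ → ∀ F : ℂ → ℂ, dotN (liftG F x) (gradN η x) = 0 :=
    fun x hx hxK F => ang_deriv hx hη (hη2 x hxK) F
  have aZ : AEStronglyMeasurable Z (volume.restrict D) := hzZ.mZ.1.mono_ac (ac1 hDm hpos)
  have aUZ : AEStronglyMeasurable (fun y => W' y + Z y) (volume.restrict D) := aWD.add aZ
  rw [ax_formχ hm hDo hpos hWD ha₁ hχ.continuous h1.1 aWD hψ.1 subset_rfl hη hη2 hder,
    ax_formχ hm hDo hpos hWD ha₂ hχ.continuous h2.1 aUZ hψ.1 subset_rfl hη hη2 hder] at key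
  exact key

/-- A test function of the slit plane, cut off near the axis. -/
theorem ax_test_fn2 {D : Set ℂ} (hD4 : D ⊆ ball 0 (1 / 4)) (hpos : ∀ w ∈ D, 0 < w.re)
    {φ : ℂ → ℝ} (hφ : Cal.RTF Gax φ) :
    ∃ (ψ : ℂ → ℝ) (δ : ℝ), 0 < δ ∧ IsTest {w : ℂ | δ < w.re} ψ ∧ ∀ w ∈ D, grad ψ w = grad φ w := by
  have hK : IsCompact (tsupport φ ∩ closedBall 0 (1 / 4) ∩ {w : ℂ | 0 ≤ w.re}) := by
    have h1 : IsClosed {w : ℂ | 0 ≤ w.re} := isClosed_le continuous_const Complex.continuous_re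
    exact (hφ.2.1.isCompact.inter_right isClosed_closedBall).inter_right h1
  have hK0 : ∀ w ∈ tsupport φ ∩ closedBall 0 (1 / 4) ∩ {w : ℂ | 0 ≤ w.re}, 0 < w.re := by
    rintro w ⟨⟨h1, h2⟩, h3⟩
    have h3' : 0 ≤ w.re := h3
    rcases h3'.lt_or_eq with h | h
    · exact h
    · exfalso
      refine hφ.2.2 h1 ⟨h.symm, ?_⟩
      rw [mem_closedBall_zero_iff] at h2
      exact (Complex.abs_im_le_norm w).trans h2
  obtain ⟨δ, hδ, hδK⟩ : ∃ δ : ℝ, 0 < δ ∧ ∀ w ∈ tsupport φ ∩ closedBall 0 (1 / 4) ∩ {w : ℂ | 0 ≤ w.re}, δ < w.re := by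
    rcases (tsupport φ ∩ closedBall 0 (1 / 4) ∩ {w : ℂ | 0 ≤ w.re}).eq_empty_or_nonempty with h0 | hne
    · refine ⟨1, one_pos, fun w hw => ?_⟩
      rw [h0] at hw
      exact absurd hw (notMem_empty w)
    · obtain ⟨w0, hw0, hmin⟩ := hK.exists_isMinOn hne Complex.continuous_re.continuousOn
      have h1 := hK0 w0 hw0
      refine ⟨w0.re / 2, half_pos h1, fun w hw => ?_⟩
      have h2 : w0.re ≤ w.re := hmin hw
      linarith
  have hO : IsOpen {w : ℂ | δ < w.re} := isOpen_lt continuous_const Complex.continuous_re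
  obtain ⟨ζ, z1, z2, z3⟩ := cut hK hO hδK
  have ht : IsTest {w : ℂ | δ < w.re} (fun w => ζ w * φ w) :=
    ⟨z1.1.mul hφ.1, z1.2.1.mul_right, (tsupport_mul_subset_left (f := ζ) (g := φ)).trans z2⟩
  refine ⟨fun w => ζ w * φ w, δ, hδ, ht, fun w hw => grad_congr ?_⟩
  by_cases hwt : w ∈ tsupport φ
  · have hwK : w ∈ tsupport φ ∩ closedBall 0 (1 / 4) ∩ {w : ℂ | 0 ≤ w.re} :=
      ⟨⟨hwt, ball_subset_closedBall (hD4 hw)⟩, (hpos w hw).le⟩
    filter_upwards [z3 w hwK] with y hy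
    rw [hy, one_mul]
  · have : ∀ᶠ y in 𝓝 w, y ∉ tsupport φ := (isClosed_tsupport φ).isOpen_compl.mem_nhds hwt
    filter_upwards [this] with y hy
    rw [image_eq_zero_of_notMem_tsupport hy, mul_zero]

/-- The transfer, from the planar identity. -/
theorem ax_TWof (hm : 2 ≤ m) {D : Set ℂ} (hDo : IsOpen D)
    (hpos : ∀ w ∈ D, 0 < w.re) (hD4 : D ⊆ ball 0 (1 / 4))
    {c C : ℝ} (hc : 0 < c) {g₁ g₂ : ℂ → ℝ} (h1 : Cal.Cond c C g₁) (h2 : Cal.Cond c C g₂)
    (hP : ∀ (w : ℂ → ℝ) (W' : ℂ → ℂ) (M : ℝ), PS m D g₁ w W' M → ∃ (z : ℂ → ℝ) (Z : ℂ → ℂ), ZW m D z Z ∧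
      ∀ φ : ℂ → ℝ, Cal.RTF Gax φ → ∫ y in D, (g₁ y * y.re ^ (m - 1)) * dot (W' y) (grad φ y) =
        ∫ y in D, (g₂ y * y.re ^ (m - 1)) * dot (W' y + Z y) (grad φ y)) :
    Cal.TW D Gax (kap m) (gax m D g₁) (gax m D g₂) := by
  intro w W' M hwc hWG hM hint heq
  have hPS : PS m D g₁ w W' M := ⟨hwc, hWG, hM, hint, heq⟩
  have hDm := hDo.measurableSet
  obtain ⟨kO, kC, kE, kcont, kpos, k0, k1, koff, kone, -⟩ := ax_kw0 (m := m) hm
  have hDG : D ⊆ Gax := ax_DG hpos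
  have hkD := ax_kD hm hpos hD4
  have hgk := ax_gk hm hpos hD4
  obtain ⟨hu, hU, aWD, hM', hwgD, eqD⟩ := ax_facts hm hDo hpos hD4 hPS
  have aW : AEStronglyMeasurable W' (volume.restrict Gax) := Cal.kNAT_aesm kO hWG.G2
  obtain ⟨z, Z, hzZ, hPZ⟩ := hP w W' M hPS
  have aZ : AEStronglyMeasurable Z (volume.restrict D) := hzZ.mZ.1.mono_ac (ac1 hDm hpos)
  have hint2 : ∀ R : ℝ, IntegrableOn (fun y => kap m y ^ 2 * ‖W' y + D.indicator Z y‖ ^ 2) (Gax ∩ closedBall 0 R) volume := by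
    intro R
    have i1 := hint R
    have i2 : IntegrableOn (fun y => y.re ^ (m - 1) * ‖Z y‖ ^ 2) D volume := (mem_nuD_iff hDm hpos aZ).1 hzZ.mZ
    have i3 : IntegrableOn (fun y => kap m y ^ 2 * ‖Z y‖ ^ 2) D volume := by
      refine (i2.const_mul (4 ^ (m - 1))).congr ?_
      filter_upwards [ae_restrict_mem hDm] with y hy
      rw [hkD y hy, mul_pow]
      ring
    have i4 : Integrable (D.indicator fun y => kap m y ^ 2 * ‖Z y‖ ^ 2) volume := (integrable_indicator_iff hDm).2 i3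
    have i5 : IntegrableOn (fun y => 2 * (kap m y ^ 2 * ‖W' y‖ ^ 2) + 2 * (D.indicator (fun y => kap m y ^ 2 * ‖Z y‖ ^ 2) y))
        (Gax ∩ closedBall 0 R) volume := (i1.const_mul 2).add (i4.integrableOn.const_mul 2)
    refine Integrable.mono' i5 ?_ (Eventually.of_forall fun y => ?_)
    · have aZ' : AEStronglyMeasurable (D.indicator Z) volume := (aestronglyMeasurable_indicator_iff hDm).2 aZ
      exact (kcont.pow 2).aestronglyMeasurable.mul
        (((aW.mono_set inter_subset_left).add aZ'.restrict).norm.pow 2)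
    · have e0 : 0 ≤ kap m y ^ 2 := sq_nonneg _
      rw [Real.norm_eq_abs, abs_of_nonneg (mul_nonneg e0 (sq_nonneg _))]
      by_cases hy : y ∈ D
      · simp only [indicator_of_mem hy]
        have e1 : ‖W' y + Z y‖ ^ 2 ≤ 2 * ‖W' y‖ ^ 2 + 2 * ‖Z y‖ ^ 2 := by
          have := norm_add_le (W' y) (Z y)
          nlinarith [sq_nonneg (‖W' y‖ - ‖Z y‖), norm_nonneg (W' y + Z y), norm_nonneg (W' y), norm_nonneg (Z y)]
        nlinarith
      · simp only [indicator_of_notMem hy, add_zero, mul_zero]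
        have : 0 ≤ kap m y ^ 2 * ‖W' y‖ ^ 2 := mul_nonneg e0 (sq_nonneg _)
        linarith
  refine ⟨fun y => w y + D.indicator z y, fun y => W' y + D.indicator Z y, ?_, ?_, hint2, ?_⟩
  · have := (Cal.t_kcalc Gax kO).1 w (D.indicator z) W' (D.indicator Z) 1 hWG (ax_ext hDo hD4 hpos hzZ)
    simpa using this
  · refine Eventually.of_forall fun y hy => ?_
    simp only [indicator_of_notMem hy, add_zero, and_self]
  · intro φ hφ
    have key2 := hPZ φ hφ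
    have hb1 : ∀ y, |gax m D g₁ y| ≤ max (C / 4 ^ (m - 1)) 1 := by
      intro y
      have hcd := gax_cond (m := m) hDm h1
      have : 0 ≤ gax m D g₁ y := (le_min (by positivity) zero_le_one).trans (hcd.lo y)
      rw [abs_of_nonneg this]
      exact hcd.hi y
    have hb2 : ∀ y, |gax m D g₂ y| ≤ max (C / 4 ^ (m - 1)) 1 := by
      intro y
      have hcd := gax_cond (m := m) hDm h2
      have : 0 ≤ gax m D g₂ y := (le_min (by positivity) zero_le_one).trans (hcd.lo y)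
      rw [abs_of_nonneg this]
      exact hcd.hi y
    have aZ' : AEStronglyMeasurable (D.indicator Z) volume := (aestronglyMeasurable_indicator_iff hDm).2 aZ
    have F1 := ax_formint kO (gax_cond (m := m) hDm h1).meas hb1 kcont.measurable (fun y => ⟨k0 y, k1 y⟩) aW hint hφ
    have F2 : IntegrableOn (fun y => gax m D g₂ y * kap m y ^ 2 * Cal.ip (W' y + D.indicator Z y) (Cal.gr φ y)) Gax volume :=
      ax_formint (W' := fun y => W' y + D.indicator Z y) kO (gax_cond (m := m) hDm h2).meas hb2 kcont.measurable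
        (fun y => ⟨k0 y, k1 y⟩) (aW.add aZ'.restrict) hint2 hφ
    have d1 : ∫ y in D, gax m D g₁ y * kap m y ^ 2 * Cal.ip (W' y) (Cal.gr φ y) =
        ∫ y in D, (g₁ y * y.re ^ (m - 1)) * dot (W' y) (grad φ y) := by
      refine setIntegral_congr_fun hDm fun y hy => ?_
      rw [hgk g₁ y hy, Cal.t_h1.2.2.2.2.2.2.2.2]
      rfl
    have d2 : ∫ y in D, gax m D g₂ y * kap m y ^ 2 * Cal.ip (W' y + D.indicator Z y) (Cal.gr φ y) =
        ∫ y in D, (g₂ y * y.re ^ (m - 1)) * dot (W' y + Z y) (grad φ y) := by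
      refine setIntegral_congr_fun hDm fun y hy => ?_
      rw [hgk g₂ y hy, Cal.t_h1.2.2.2.2.2.2.2.2, indicator_of_mem hy]
      rfl
    have e1 : (∫ y in Gax, gax m D g₂ y * kap m y ^ 2 * Cal.ip (W' y + D.indicator Z y) (Cal.gr φ y)) -
        ∫ y in Gax, gax m D g₁ y * kap m y ^ 2 * Cal.ip (W' y) (Cal.gr φ y) =
        (∫ y in D, gax m D g₂ y * kap m y ^ 2 * Cal.ip (W' y + D.indicator Z y) (Cal.gr φ y)) -
        ∫ y in D, gax m D g₁ y * kap m y ^ 2 * Cal.ip (W' y) (Cal.gr φ y) := by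
      rw [← integral_sub F2 F1, ← integral_sub (F2.mono_set hDG) (F1.mono_set hDG)]
      refine setIntegral_eq_of_subset_of_forall_diff_eq_zero kO.measurableSet hDG fun y hy => ?_
      rw [gax_out hy.2, gax_out hy.2, indicator_of_notMem hy.2, add_zero, sub_self]
    rw [d1, d2, key2, sub_self, heq φ hφ, sub_zero] at e1
    exact e1

/-- Uniqueness in the plane. -/
theorem ax_uni (hm : 2 ≤ m) {D : Set ℂ} (hDo : IsOpen D)
    (hpos : ∀ w ∈ D, 0 < w.re) (hD4 : D ⊆ ball 0 (1 / 4))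
    {c C : ℝ} (hc : 0 < c) {g₁ g₂ : ℂ → ℝ} (h1 : Cal.Cond c C g₁) (h2 : Cal.Cond c C g₂)
    (hT : Cal.TW D Gax (kap m) (gax m D g₁) (gax m D g₂)) : g₁ =ᵐ[volume.restrict D] g₂ := by
  have hDm := hDo.measurableSet
  have hcm : 0 < min (c / 4 ^ (m - 1)) 1 := lt_min (div_pos hc (by positivity)) one_pos
  have core := Cal.kw_core (ax_KW (m := m) hm) (hD4.trans (ball_subset_ball (by norm_num))) hcm
    (gax_cond (m := m) hDm h1) (gax_cond (m := m) hDm h2) (fun z hz => gax_out hz) (fun z hz => gax_out hz) hT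
  filter_upwards [ae_restrict_of_ae_restrict_of_subset (ax_DG hpos) core, ae_restrict_mem hDm] with z hz hzD
  rw [gax_in hzD, gax_in hzD] at hz
  have h4 : (4 : ℝ) ^ (m - 1) ≠ 0 := by positivity
  field_simp at hz
  exact hz

/-- The planar forms are not zero. -/
theorem ax_nondeg (hm : 2 ≤ m) {D : Set ℂ} (hDo : IsOpen D) (hDn : D.Nonempty)
    (hpos : ∀ w ∈ D, 0 < w.re) (hD4 : D ⊆ ball 0 (1 / 4)) {c C : ℝ} (hc : 0 < c) {g : ℂ → ℝ} (h1 : Cal.Cond c C g) :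
    ∃ (w : ℂ → ℝ) (W' : ℂ → ℂ) (M : ℝ) (φ : ℂ → ℝ), PS m D g w W' M ∧ Cal.RTF Gax φ ∧
      ∫ y in D, (g y * y.re ^ (m - 1)) * dot (W' y) (grad φ y) ≠ 0 := by
  by_contra hcon
  push Not at hcon
  have hDm := hDo.measurableSet
  have q1 : Cal.Cond c (2 * C) g := by
    refine ⟨h1.meas, h1.lo, fun z => (h1.hi z).trans ?_⟩
    have : 0 < C := hc.trans_le ((h1.lo 0).trans (h1.hi 0))
    linarith
  have q2 : Cal.Cond c (2 * C) (fun z => 2 * g z) := by
    refine ⟨h1.meas.const_mul 2, fun z => ?_, fun z => ?_⟩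
    · have := h1.lo z
      linarith
    · have := h1.hi z
      linarith
  have hT : Cal.TW D Gax (kap m) (gax m D g) (gax m D fun z => 2 * g z) := by
    refine ax_TWof hm hDo hpos hD4 hc q1 q2 fun w W' M hPS => ⟨fun _ => 0, fun _ => 0, ?_, fun φ hφ => ?_⟩
    · refine ⟨MemLp.zero, MemLp.zero, fun ε hε => ⟨fun _ => 0, ?_, ?_, ?_⟩⟩
      · exact ⟨contDiff_const, HasCompactSupport.zero, by simp [tsupport]⟩
      · simp
      · have : (fun w : ℂ => (0 : ℂ) - grad (fun _ : ℂ => (0 : ℝ)) w) = fun _ => 0 := by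
          funext w
          simp [grad]
        rw [this]
        simp
    · rw [hcon w W' M φ hPS hφ]
      have e : ∫ y in D, (2 * g y * y.re ^ (m - 1)) * dot (W' y + 0) (grad φ y) =
          2 * ∫ y in D, (g y * y.re ^ (m - 1)) * dot (W' y) (grad φ y) := by
        rw [← integral_const_mul]
        refine integral_congr_ae (Eventually.of_forall fun y => ?_)
        simp only [add_zero]
        ring
      rw [e, hcon w W' M φ hPS hφ, mul_zero]
  have h2 := ax_uni hm hDo hpos hD4 hc q1 q2 hT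
  have h4 : ∀ᵐ w ∂(volume.restrict D), False := by
    filter_upwards [h2] with w hw
    have h5 := h1.lo w
    have h6 : g w = 2 * g w := hw
    linarith
  have h5 : volume.restrict D = 0 := by
    rw [← ae_eq_bot]
    exact Filter.eventually_false_iff_eq_bot.1 h4
  have h6 : volume D = 0 := by
    rw [← Measure.restrict_apply_univ, h5]
    simp
  exact (hDo.measure_pos volume hDn).ne' h6

end

end RotCalderon
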