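import Pool.Agent.Lib.MP_70bd98_an.AxP

/-! # Product conductivities on arbitrary bounded rotationally symmetric open sets -/

open MeasureTheory Complex Metric Set LocalCalderon Filter
open scoped ENNReal Topology ContDiff ComplexConjugate

namespace RotCalderon

noncomputable section

variable {m : ℕ}

instance axp_fin : IsFiniteMeasure (sE m) := by
  unfold sE
  infer_instance

theorem axp_univ (hm : 1 ≤ m) : (sE m univ).toReal ≠ 0 := by
  have : sE m univ = sig m univ := by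
    unfold sE
    rw [Measure.map_apply measurable_subtype_coe MeasurableSet.univ, preimage_univ]
  rw [this]
  exact sig_pos hm

theorem axp_int_pos (hm : 1 ≤ m) {a : E m → ℝ} (ha : AEStronglyMeasurable a (sE m))
    (hb : ∃ c C : ℝ, 0 < c ∧ ∀ᵐ y ∂(sE m), c ≤ a y ∧ a y ≤ C) : Integrable a (sE m) ∧ 0 < ∫ y, a y ∂(sE m) := by
  obtain ⟨c, C, hc, h⟩ := hb
  have hi : Integrable a (sE m) := by
    refine Integrable.of_bound ha C ?_
    filter_upwards [h] with y hy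
    rw [Real.norm_eq_abs, abs_of_pos (hc.trans_le hy.1)]
    exact hy.2
  refine ⟨hi, ?_⟩
  have h1 : ∫ _y, c ∂(sE m) ≤ ∫ y, a y ∂(sE m) := by
    refine integral_mono_ae (integrable_const c) hi ?_
    filter_upwards [h] with y hy
    exact hy.1
  have h2 : 0 < ∫ _y, c ∂(sE m) := by
    rw [integral_const, smul_eq_mul]
    refine mul_pos ?_ hc
    exact lt_of_le_of_ne ENNReal.toReal_nonneg (axp_univ hm).symm
  exact h2.trans_le h1

theorem full_congrS {W : Set (X m)} {γ₁ γ₁' γ₂ γ₂' : X m → ℝ} (h1 : γ₁ =ᵐ[volume.restrict W] γ₁')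
    (h2 : γ₂ =ᵐ[volume.restrict W] γ₂') (h : SameFullSymDN W γ₁ γ₂) : SameFullSymDN W γ₁' γ₂' := by
  have sc : ∀ {γ γ' u : X m → ℝ} {G : X m → X m}, γ =ᵐ[volume.restrict W] γ' → IsSolN W γ' u G → IsSolN W γ u G := by
    intro γ γ' u G hγ hu
    refine ⟨hu.1, fun φ hφ => ?_⟩
    rw [← hu.2 φ hφ]
    refine integral_congr_ae ?_
    filter_upwards [hγ] with x hx
    rw [hx]
  intro u₁ u₂ G₁ G₂ s1 s2 q1 q2 hd v V hv
  have := h u₁ u₂ G₁ G₂ (sc h1 s1) (sc h2 s2) q1 q2 hd v V hv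
  have e1 : ∫ x in W, γ₁ x * dotN (G₁ x) (V x) = ∫ x in W, γ₁' x * dotN (G₁ x) (V x) := by
    refine integral_congr_ae ?_
    filter_upwards [h1] with x hx
    rw [hx]
  have e2 : ∫ x in W, γ₂ x * dotN (G₂ x) (V x) = ∫ x in W, γ₂' x * dotN (G₂ x) (V x) := by
    refine integral_congr_ae ?_
    filter_upwards [h2] with x hx
    rw [hx]
  rw [← e1, ← e2]
  exact this

/-- Dilations. -/
theorem ax_scaleS {s : ℝ} (hs : 0 < s) {W : Set (X m)} {γ₁ γ₂ : X m → ℝ} (h : SameFullSymDN W γ₁ γ₂) :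
    SameFullSymDN {x | s⁻¹ • x ∈ W} (fun x => γ₁ (s⁻¹ • x)) (fun x => γ₂ (s⁻¹ • x)) := by
  have hs0 : s ≠ 0 := hs.ne'
  have hAB : ∀ x : X m, s • x ∈ {x | s⁻¹ • x ∈ W} ↔ x ∈ W := by
    intro x
    rw [mem_ofPred_eq, inv_smul_smul₀ hs0]
  intro u₁ u₂ G₁ G₂ h1 h2 h3 h4 h5 v V h6
  have k5 := axs_h10 hs0 hAB h5
  have k5' : H10N W (fun x => u₁ (s • x) - u₂ (s • x)) (fun x => s • G₁ (s • x) - s • G₂ (s • x)) := by
    have e : (fun x => s • G₁ (s • x) - s • G₂ (s • x)) = fun x => s • (G₁ (s • x) - G₂ (s • x)) := by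
      funext x
      rw [smul_sub]
    rw [e]
    exact k5
  have key := h _ _ _ _ (axs_sol hs0 hAB h1) (axs_sol hs0 hAB h2) (axs_rot hAB h3) (axs_rot hAB h4) k5' _ _
    (axs_h1 hs0 hAB h6)
  have e1 : ∀ (γ : X m → ℝ) (G : X m → X m), ∫ x in W, γ x * dotN (s • G (s • x)) (s • V (s • x)) =
      (axsK m s).toReal * (s * s * ∫ x in {x | s⁻¹ • x ∈ W}, γ (s⁻¹ • x) * dotN (G x) (V x)) := by
    intro γ G
    rw [← integral_const_mul, ← axs_int hs0 hAB]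
    congr 1
    funext x
    rw [inv_smul_smul₀ hs0, axs_dot_smul]
    ring
  rw [e1, e1] at key
  have hK : (axsK m s).toReal ≠ 0 := ENNReal.toReal_ne_zero.2 ⟨axK_ne_zero hs0, axK_ne_top s⟩
  exact mul_left_cancel₀ (mul_ne_zero hs0 hs0) (mul_left_cancel₀ hK key)

/-- The theorem in the profile, for normalised angular factors. -/
theorem axp_main (hm : 2 ≤ m) {W : Set (X m)} (hWo : IsOpen W) (hWb : Bornology.IsBounded W) {D : Set ℂ} (hDo : IsOpen D)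
    (hDn : D.Nonempty) (hpos : ∀ w ∈ D, 0 < w.re) (hD4 : D ⊆ ball 0 (1 / 4)) (hWD : ∀ x : X m, x.1 ≠ 0 → (x ∈ W ↔ prof x ∈ D))
    {c C : ℝ} (hc : 0 < c) {g₁ g₂ : ℂ → ℝ} (h1 : Cal.Cond c C g₁) (h2 : Cal.Cond c C g₂) {a₁ a₂ : E m → ℝ}
    (ha₁ : AEStronglyMeasurable a₁ (sE m)) (ha₂ : AEStronglyMeasurable a₂ (sE m))
    (ca₁ : ∃ C : ℝ, ∀ᵐ y ∂(sE m), |a₁ y| ≤ C) (ca₂ : ∃ C : ℝ, ∀ᵐ y ∂(sE m), |a₂ y| ≤ C)
    (o1 : ∫ y, a₁ y ∂(sE m) = 1) (o2 : ∫ y, a₂ y ∂(sE m) = 1)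
    (hDN : SameFullSymDN W (fun x => a₁ (om x) * g₁ (prof x)) (fun x => a₂ (om x) * g₂ (prof x))) :
    g₁ =ᵐ[volume.restrict D] g₂ ∧ a₁ =ᵐ[sE m] a₂ := by
  have hDm := hDo.measurableSet
  have cond1 : IsConductivity D g₁ := ⟨h1.meas.aestronglyMeasurable, c, C, hc, Eventually.of_forall fun z => ⟨h1.lo z, h1.hi z⟩⟩
  have cond2 : IsConductivity D g₂ := ⟨h2.meas.aestronglyMeasurable, c, C, hc, Eventually.of_forall fun z => ⟨h2.lo z, h2.hi z⟩⟩
  have hD1 : ∀ z ∈ D, ‖z‖ < 1 / 4 := fun z hz => by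
    have := hD4 hz
    rwa [mem_ball_zero_iff] at this
  have i1 : Integrable a₁ (sE m) := by
    by_contra hcon
    rw [integral_undef hcon] at o1
    exact zero_ne_one o1
  have i2 : Integrable a₂ (sE m) := by
    by_contra hcon
    rw [integral_undef hcon] at o2
    exact zero_ne_one o2
  have hE : g₁ =ᵐ[volume.restrict D] g₂ := by
    refine ax_uni hm hDo hpos hD4 hc h1 h2 (ax_TWof hm hDo hpos hD4 hc h1 h2 fun w W' M hPS => ?_)
    obtain ⟨hu, hU, aWD, hM', hwgD, eqD⟩ := ax_facts hm hDo hpos hD4 hPS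
    have hpoin : ∀ φ : ℂ → ℝ, IsTest D φ → eLpNorm φ 2 (nuD m D) ≤ ENNReal.ofReal (2 * 1) * eLpNorm (grad φ) 2 (nuD m D) :=
      fun φ hφ => ax_poin hDo hpos one_pos (fun z hz => by linarith [hD1 z hz]) hφ
    obtain ⟨z, Z, hzZ, eqZ⟩ := ax_min hDo hpos cond2 hU hpoin
    refine ⟨z, Z, hzZ, fun φ hφ => ?_⟩
    obtain ⟨ψ, δ, hδ, hψ, hψ2⟩ := ax_test_fn2 hD4 hpos hφ
    have key := ax_key hm hWo hWb hDo hpos hD4 hWD cond1 cond2 ha₁ ha₂ ca₁ ca₂ hDN hPS hzZ eqZ hδ hψ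
      (χ := fun _ => 1) contDiff_const
    simp only [mul_one] at key
    rw [o1, o2, one_mul, one_mul] at key
    have r1 : ∫ y in D, (g₁ y * y.re ^ (m - 1)) * dot (W' y) (grad φ y) =
        ∫ y in D, (g₁ y * y.re ^ (m - 1)) * dot (W' y) (grad ψ y) :=
      setIntegral_congr_fun hDm fun y hy => by simp only [hψ2 y hy]
    have r2 : ∫ y in D, (g₂ y * y.re ^ (m - 1)) * dot (W' y + Z y) (grad φ y) =
        ∫ y in D, (g₂ y * y.re ^ (m - 1)) * dot (W' y + Z y) (grad ψ y) :=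
      setIntegral_congr_fun hDm fun y hy => by simp only [hψ2 y hy]
    rw [r1, r2]
    exact key
  refine ⟨hE, ?_⟩
  obtain ⟨w, W', M, φ, hPS, hφ, hB⟩ := ax_nondeg hm hDo hDn hpos hD4 hc h1
  obtain ⟨hu, hU, aWD, hM', hwgD, eqD⟩ := ax_facts hm hDo hpos hD4 hPS
  obtain ⟨ψ, δ, hδ, hψ, hψ2⟩ := ax_test_fn2 hD4 hpos hφ
  have hz0 : ZW m D (fun _ => 0) (fun _ => 0) := by
    refine ⟨MemLp.zero, MemLp.zero, fun ε hε => ⟨fun _ => 0, ?_, ?_, ?_⟩⟩
    · exact ⟨contDiff_const, HasCompactSupport.zero, by simp [tsupport]⟩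
    · simp
    · have : (fun w : ℂ => (0 : ℂ) - grad (fun _ : ℂ => (0 : ℝ)) w) = fun _ => 0 := by
        funext w
        simp [grad]
      rw [this]
      simp
  have sw : ∀ θ : ℂ → ℝ, ∫ y in D, (g₂ y * y.re ^ (m - 1)) * dot (W' y + 0) (grad θ y) =
      ∫ y in D, (g₁ y * y.re ^ (m - 1)) * dot (W' y) (grad θ y) := by
    intro θ
    refine integral_congr_ae ?_
    filter_upwards [hE] with y hy
    rw [hy, add_zero]
  have eqZ : ∀ θ : ℂ → ℝ, IsTest D θ → ∫ y in D, (g₂ y * y.re ^ (m - 1)) * dot (W' y + (fun _ => 0 : ℂ → ℂ) y) (grad θ y) = 0 :=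
    fun θ hθ => (sw θ).trans (eqD θ hθ)
  set B := ∫ y in D, (g₁ y * y.re ^ (m - 1)) * dot (W' y) (grad ψ y) with hBdef
  have hB' : B ≠ 0 := by
    have r1 : ∫ y in D, (g₁ y * y.re ^ (m - 1)) * dot (W' y) (grad φ y) = B :=
      setIntegral_congr_fun hDm fun y hy => by simp only [hψ2 y hy]
    rwa [r1] at hB
  have key : ∀ χ : E m → ℝ, ContDiff ℝ (⊤ : ℕ∞) χ → (∫ y, a₁ y * χ y ∂(sE m)) = ∫ y, a₂ y * χ y ∂(sE m) := by
    intro χ hχ
    have := ax_key hm hWo hWb hDo hpos hD4 hWD cond1 cond2 ha₁ ha₂ ca₁ ca₂ hDN hPS hz0 eqZ hδ hψ hχ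
    rw [sw ψ] at this
    exact mul_right_cancel₀ hB' this
  have hsph : ∀ᵐ y ∂(sE m), a₁ y - a₂ y = 0 := by
    refine ae_eq_zero_of_integral_contDiff_smul_eq_zero ((i1.sub i2).locallyIntegrable) fun χ hχ hχs => ?_
    obtain ⟨K, hK⟩ := hχs.exists_bound_of_continuous hχ.continuous
    have mχ : AEStronglyMeasurable χ (sE m) := hχ.continuous.aestronglyMeasurable
    have j1 : Integrable (fun y => a₁ y * χ y) (sE m) := i1.mul_bdd mχ (Eventually.of_forall hK)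
    have j2 : Integrable (fun y => a₂ y * χ y) (sE m) := i2.mul_bdd mχ (Eventually.of_forall hK)
    have e : ∫ y, χ y • (a₁ y - a₂ y) ∂(sE m) = (∫ y, a₁ y * χ y ∂(sE m)) - ∫ y, a₂ y * χ y ∂(sE m) := by
      rw [← integral_sub j1 j2]
      refine integral_congr_ae (Eventually.of_forall fun y => ?_)
      simp only [smul_eq_mul]
      ring
    have e' : ∫ y, χ y • (a₁ - a₂) y ∂(sE m) = 0 := by
      refine Eq.trans ?_ (e.trans (by rw [key χ hχ, sub_self]))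
      rfl
    exact e'
  filter_upwards [hsph] with y hy
  linarith

/-- Normalisation of the product form. -/
theorem axp_norm (hm : 1 ≤ m) {D : Set ℂ} (hDo : IsOpen D) (hDn : D.Nonempty) (hpos : ∀ w ∈ D, 0 < w.re) {γ : X m → ℝ}
    (h : IsCondN (rev m D) γ) {a : E m → ℝ} {g : ℂ → ℝ} (hγ : ∀ x ∈ rev m D, γ x = a (om x) * g (prof x)) :
    ∃ (a' : E m → ℝ) (g' : ℂ → ℝ) (c C : ℝ), 0 < c ∧ Cal.Cond c C g' ∧ AEStronglyMeasurable a' (sE m) ∧
      (∃ K : ℝ, ∀ᵐ y ∂(sE m), |a' y| ≤ K) ∧ ∫ y, a' y ∂(sE m) = 1 ∧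
      γ =ᵐ[volume.restrict (rev m D)] fun x => a' (om x) * g' (prof x) := by
  have hDm := hDo.measurableSet
  obtain ⟨a₀, g₀, k1, k2, k3, k4⟩ := sep_norm hm hDo hDn hpos h hγ
  obtain ⟨i0, p0⟩ := axp_int_pos hm k2 k3
  obtain ⟨c, C, g₁, hc, hcC, hC, e⟩ := Cal.t_norm.1 D g₀ k1
  have q : Cal.Cond c C g₁ := hC c C hc le_rfl le_rfl
  set A := ∫ y, a₀ y ∂(sE m) with hA
  obtain ⟨c', C', hc', hb⟩ := k3
  refine ⟨fun y => A⁻¹ * a₀ y, fun w => A * g₁ w, A * c, A * C, mul_pos p0 hc, ?_, k2.const_mul _,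
    ⟨A⁻¹ * C', ?_⟩, ?_, ?_⟩
  · exact ⟨q.meas.const_mul A, fun z => mul_le_mul_of_nonneg_left (q.lo z) p0.le,
      fun z => mul_le_mul_of_nonneg_left (q.hi z) p0.le⟩
  · filter_upwards [hb] with y hy
    have h1 : 0 < A⁻¹ := inv_pos.2 p0
    rw [abs_mul, abs_of_pos h1, abs_of_pos (hc'.trans_le hy.1)]
    exact mul_le_mul_of_nonneg_left hy.2 h1.le
  · rw [integral_const_mul, ← hA, inv_mul_cancel₀ p0.ne']
  · have hq : ∀ᵐ x ∂((volume : Measure (X m)).restrict (rev m D)), g₀ (prof x) = g₁ (prof x) := (quasi hm hDm hpos).ae e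
    filter_upwards [hq, ae_restrict_mem (measurable_prof hDm : MeasurableSet (rev m D))] with x hx hxD
    rw [k4 x hxD, hx]
    have h1 : A ≠ 0 := p0.ne'
    field_simp

theorem ax_smallP (hm : 2 ≤ m) {W : Set (X m)} (hWo : IsOpen W) (hb : Bornology.IsBounded W) (hr : RotSet W)
    (hs : ∀ x ∈ W, ‖prof x‖ < 1 / 4) {γ₁ γ₂ : X m → ℝ} (h1 : IsCondN W γ₁) (h2 : IsCondN W γ₂) (r1 : IsProd W γ₁)
    (r2 : IsProd W γ₂) (h : SameFullSymDN W γ₁ γ₂) : γ₁ =ᵐ[volume.restrict W] γ₂ := by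
  have hm1 : 1 ≤ m := by omega
  set D : Set ℂ := {w | 0 < w.re ∧ w ∈ prof '' W} with hDdef
  set e : E m := EuclideanSpace.single ⟨0, hm1⟩ 1 with hedef
  have he : ‖e‖ = 1 := by rw [hedef]; simp
  have hpos : ∀ w ∈ D, 0 < w.re := fun w hw => hw.1
  have hsec : ∀ x : X m, ‖(sec e (prof x)).1‖ = ‖x.1‖ ∧ (sec e (prof x)).2 = x.2 := by
    intro x
    refine ⟨?_, prof_im x⟩
    show ‖(prof x).re • e‖ = ‖x.1‖
    rw [norm_smul, he, mul_one, prof_re, norm_norm]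
  have hDo : IsOpen D := by
    have : D = {w : ℂ | 0 < w.re} ∩ sec e ⁻¹' W := by
      apply Subset.antisymm
      · rintro _ ⟨h0, ⟨x, hx, rfl⟩⟩
        exact ⟨h0, hr x _ (hsec x).1.symm (hsec x).2.symm hx⟩
      · rintro w ⟨hw0, hw⟩
        exact ⟨hw0, ⟨sec e w, hw, prof_sec he hw0⟩⟩
    rw [this]
    exact (isOpen_lt continuous_const Complex.continuous_re).inter (hWo.preimage (sec_cont e))
  have hDm := hDo.measurableSet
  have hWD : ∀ x : X m, x.1 ≠ 0 → (x ∈ W ↔ prof x ∈ D) := by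
    intro x hx
    constructor
    · intro hxW
      refine ⟨?_, ⟨x, hxW, rfl⟩⟩
      rw [prof_re]
      exact norm_pos_iff.2 hx
    · rintro ⟨-, x', hx', he'⟩
      obtain ⟨a, b⟩ := prof_eq he'
      exact hr x' x a b hx'
  have hrevW : rev m D ⊆ W := by
    intro x hx
    have hx' : prof x ∈ D := hx
    have h0 : x.1 ≠ 0 := by
      intro h0
      have := hx'.1
      rw [prof_re, h0, norm_zero] at this
      exact lt_irrefl _ this
    exact (hWD x h0).2 hx'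
  have hD4 : D ⊆ ball 0 (1 / 4) := by
    rintro _ ⟨-, x, hx, rfl⟩
    rw [mem_ball_zero_iff]
    exact hs x hx
  have hres := ax_restrict hm hWD
  rcases D.eq_empty_or_nonempty with hD0 | hDn
  · have h0 : rev m D = ∅ := by
      rw [hD0]
      rfl
    rw [hres, h0, Measure.restrict_empty]
    simp [Filter.EventuallyEq]
  have red : ∀ γ : X m → ℝ, IsCondN W γ → IsProd W γ → ∃ (a' : E m → ℝ) (g' : ℂ → ℝ) (c C : ℝ), 0 < c ∧ Cal.Cond c C g' ∧
      AEStronglyMeasurable a' (sE m) ∧ (∃ K : ℝ, ∀ᵐ y ∂(sE m), |a' y| ≤ K) ∧ ∫ y, a' y ∂(sE m) = 1 ∧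
      γ =ᵐ[volume.restrict W] fun x => a' (om x) * g' (prof x) := by
    rintro γ hγ ⟨a, g, hg, hag⟩
    have hγ' : IsCondN (rev m D) γ := by
      unfold IsCondN at hγ ⊢
      rw [← hres]
      exact hγ
    have hprod : ∀ x ∈ rev m D, γ x = a (om x) * (fun w => g (sec e w)) (prof x) := by
      intro x hx
      have hx := hrevW hx
      have hx2 : g x = g (sec e (prof x)) :=
        hg x hx _ (hr x _ (hsec x).1.symm (hsec x).2.symm hx) (hsec x).1.symm (hsec x).2.symm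
      rw [hag x hx, hx2]
      rfl
    obtain ⟨a', g', c, C, k1, k2, k3, k4, k5, k6⟩ := axp_norm (g := fun w => g (sec e w)) hm1 hDo hDn hpos hγ' hprod
    exact ⟨a', g', c, C, k1, k2, k3, k4, k5, by rw [hres]; exact k6⟩
  obtain ⟨a₁, g₁, c₁, C₁, hc₁, k2, k3, k4, k5, k6⟩ := red γ₁ h1 r1
  obtain ⟨a₂, g₂, c₂, C₂, hc₂, l2, l3, l4, l5, l6⟩ := red γ₂ h2 r2
  have q1 : Cal.Cond (min c₁ c₂) (max C₁ C₂) g₁ :=
    ⟨k2.meas, fun z => (min_le_left _ _).trans (k2.lo z), fun z => (k2.hi z).trans (le_max_left _ _)⟩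
  have q2 : Cal.Cond (min c₁ c₂) (max C₁ C₂) g₂ :=
    ⟨l2.meas, fun z => (min_le_right _ _).trans (l2.lo z), fun z => (l2.hi z).trans (le_max_right _ _)⟩
  obtain ⟨f1, f2⟩ := axp_main hm hWo hb hDo hDn hpos hD4 hWD (lt_min hc₁ hc₂) q1 q2 k3 l3 k4 l4 k5 l5 (full_congrS k6 l6 h)
  have u1 : ∀ᵐ x ∂((volume : Measure (X m)).restrict W), g₁ (prof x) = g₂ (prof x) := by
    rw [hres]
    exact (quasi hm1 hDm hpos).ae f1
  have u2 : ∀ᵐ x ∂((volume : Measure (X m)).restrict W), a₁ (om x) = a₂ (om x) := by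
    rw [hres]
    exact (quasiO hm1 hDm hpos).ae f2
  filter_upwards [k6, l6, u1, u2] with x y1 y2 y3 y4
  rw [y1, y2, y3, y4]

/-- The theorem. -/
theorem ax_fullP (hm : 2 ≤ m) {W : Set (X m)} (hWo : IsOpen W) (hb : Bornology.IsBounded W) (hr : RotSet W)
    {γ₁ γ₂ : X m → ℝ} (h1 : IsCondN W γ₁) (h2 : IsCondN W γ₂) (r1 : IsProd W γ₁)
    (r2 : IsProd W γ₂) (h : SameFullSymDN W γ₁ γ₂) : γ₁ =ᵐ[volume.restrict W] γ₂ := by
  obtain ⟨R, hR0, hR⟩ : ∃ R : ℝ, 0 < R ∧ ∀ x ∈ W, ‖x‖ ≤ R := by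
    obtain ⟨R, hR⟩ := hb.exists_norm_le
    exact ⟨|R| + 1, by positivity, fun x hx => (hR x hx).trans ((le_abs_self R).trans (by linarith))⟩
  set s : ℝ := 1 / (16 * R) with hsdef
  have hs : 0 < s := by positivity
  have hnorm : ∀ x : X m, s⁻¹ • x ∈ W → ‖x‖ ≤ 1 / 16 := by
    intro x hx
    have h3 := hR _ hx
    rw [norm_smul, norm_inv, Real.norm_eq_abs, abs_of_pos hs, inv_mul_le_iff₀ hs] at h3
    rw [hsdef] at h3
    have : 1 / (16 * R) * R = 1 / 16 := by field_simp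
    linarith
  have hprod : ∀ γ : X m → ℝ, IsProd W γ → IsProd {x : X m | s⁻¹ • x ∈ W} (fun x => γ (s⁻¹ • x)) := by
    rintro γ ⟨a, g, hg, hag⟩
    refine ⟨a, fun x => g (s⁻¹ • x), fun x hx x' hx' e1 e2 => ?_, fun x hx => ?_⟩
    · refine hg _ hx _ hx' ?_ ?_
      · simp only [Prod.smul_fst, norm_smul, e1]
      · simp only [Prod.smul_snd, e2]
    · have e1 := hag _ hx
      have e2 : ‖(s⁻¹ • x).1‖⁻¹ • (s⁻¹ • x).1 = ‖x.1‖⁻¹ • x.1 := by
        rw [Prod.smul_fst, norm_smul, norm_inv, Real.norm_eq_abs, abs_of_pos hs, smul_smul, mul_inv, inv_inv]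
        congr 1
        field_simp
      rw [e2] at e1
      exact e1
  refine ax_scale_ae hs hWo (ax_smallP hm (hWo.preimage (continuous_const_smul _)) ?_ ?_ ?_
    (ax_scale_cond hs hWo h1) (ax_scale_cond hs hWo h2) (hprod _ r1) (hprod _ r2) (ax_scaleS hs h))
  · refine (isBounded_closedBall (x := (0 : X m)) (r := 1 / 16)).subset fun x hx => ?_
    rw [mem_closedBall_zero_iff]
    exact hnorm x hx
  · intro x x' e1 e2 hx
    refine hr (s⁻¹ • x) (s⁻¹ • x') ?_ ?_ hx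
    · simp only [Prod.smul_fst, norm_smul, e1]
    · simp only [Prod.smul_snd, e2]
  · intro x hx
    have h3 := hnorm x hx
    have h4 : ‖prof x‖ ≤ ‖x.1‖ + |x.2| := by
      unfold prof
      refine (norm_add_le _ _).trans (le_of_eq ?_)
      rw [Complex.norm_real, norm_mul, Complex.norm_I, one_mul, Complex.norm_real, norm_norm, Real.norm_eq_abs]
    have h5 : ‖x.1‖ ≤ ‖x‖ := norm_fst_le x
    have h6 : |x.2| ≤ ‖x‖ := by
      rw [← Real.norm_eq_abs]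
      exact norm_snd_le x
    linarith

end

end RotCalderon
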