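import Pool.Agent.Lib.MP_4ea4c7_an.FDefs2

/-!
# MP_70bd98_an: rotationally symmetric conductivities, definitions

The space `ℝ^(m+1)` is written as `E m × ℝ` with `E m = ℝ^m`: a point is `x = (y, t)`, `y ∈ ℝ^m`, `t ∈ ℝ`, the axis is `y = 0`.
The measure is Lebesgue measure. Only the topology and the measure of the product are used; the Euclidean inner product
of vectors is `dotN`.
-/

open MeasureTheory Complex Metric Set
open scoped ENNReal

namespace RotCalderon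

noncomputable section

/-- `ℝ^m`. -/
abbrev E (m : ℕ) := EuclideanSpace ℝ (Fin m)

/-- `ℝ^(m+1) = ℝ^m × ℝ`. -/
abbrev X (m : ℕ) := E m × ℝ

variable {m : ℕ}

/-- Real test functions: `C^∞`, with compact support contained in `W`. -/
def IsTestN (W : Set (X m)) (φ : X m → ℝ) : Prop :=
  ContDiff ℝ (⊤ : ℕ∞) φ ∧ HasCompactSupport φ ∧ tsupport φ ⊆ W

/-- The Euclidean inner product of two vectors of `ℝ^(m+1)`. -/
def dotN (a b : X m) : ℝ := inner ℝ a.1 b.1 + a.2 * b.2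

/-- The classical gradient: `dotN (gradN φ x) v` is the derivative of `φ` at `x` in the direction `v`. -/
def gradN (φ : X m → ℝ) (x : X m) : X m :=
  ((InnerProductSpace.toDual ℝ (E m)).symm ((fderiv ℝ φ x).comp (ContinuousLinearMap.inl ℝ (E m) ℝ)), fderiv ℝ φ x (0, 1))

/-- `G` is a weak gradient of `u` in `W`. -/
def WeakGradN (W : Set (X m)) (u : X m → ℝ) (G : X m → X m) : Prop :=
  ∀ φ : X m → ℝ, IsTestN W φ → ∀ v : X m, ∫ x in W, u x * dotN (gradN φ x) v = - ∫ x in W, φ x * dotN (G x) v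

/-- `u ∈ H¹(W)`, and `G = ∇u`. -/
def H1N (W : Set (X m)) (u : X m → ℝ) (G : X m → X m) : Prop :=
  MemLp u 2 (volume.restrict W) ∧ MemLp G 2 (volume.restrict W) ∧ WeakGradN W u G

/-- `u ∈ H¹₀(W)` (the closure of the test functions in `H¹(W)`), and `G = ∇u`. -/
def H10N (W : Set (X m)) (u : X m → ℝ) (G : X m → X m) : Prop :=
  H1N W u G ∧ ∀ ε : ℝ, 0 < ε → ∃ φ : X m → ℝ, IsTestN W φ ∧
    eLpNorm (fun x => u x - φ x) 2 (volume.restrict W) ≤ ENNReal.ofReal ε ∧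
    eLpNorm (fun x => G x - gradN φ x) 2 (volume.restrict W) ≤ ENNReal.ofReal ε

/-- `u ∈ H¹(W)` is a weak solution of `div (γ ∇u) = 0` in `W`, and `G = ∇u`. -/
def IsSolN (W : Set (X m)) (γ : X m → ℝ) (u : X m → ℝ) (G : X m → X m) : Prop :=
  H1N W u G ∧ ∀ φ : X m → ℝ, IsTestN W φ → ∫ x in W, γ x * dotN (G x) (gradN φ x) = 0

/-- Conductivities: `γ ∈ L^∞(W)`, `γ ≥ c > 0` almost everywhere. -/
def IsCondN (W : Set (X m)) (γ : X m → ℝ) : Prop :=
  AEStronglyMeasurable γ (volume.restrict W) ∧ ∃ c C : ℝ, 0 < c ∧ ∀ᵐ x ∂(volume.restrict W), c ≤ γ x ∧ γ x ≤ C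

/-- The set `S` is rotationally symmetric about the axis `y = 0`: whether `(y, t)` is in `S` depends only on `|y|` and `t`. -/
def RotSet (S : Set (X m)) : Prop := ∀ x x' : X m, ‖x.1‖ = ‖x'.1‖ → x.2 = x'.2 → x ∈ S → x' ∈ S

/-- On `W`, the function `f` is rotationally symmetric about the axis `y = 0`: `f (y, t)` depends only on `|y|` and `t`. -/
def RotFun (W : Set (X m)) (f : X m → ℝ) : Prop :=
  ∀ x ∈ W, ∀ x' ∈ W, ‖x.1‖ = ‖x'.1‖ → x.2 = x'.2 → f x = f x'

/-- The boundary values of `u` are supported in `Γ ⊆ ∂W`: there is a compact subset `K` of `Γ` such that the boundary values of `u` vanish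
off `K`, i.e. `η u ∈ H¹₀(W)` for every test function `η` of the whole space whose support does not meet `K`. -/
def TraceInN (W Γ : Set (X m)) (u : X m → ℝ) : Prop :=
  ∃ K : Set (X m), K ⊆ Γ ∧ IsCompact K ∧ ∀ η : X m → ℝ, IsTestN univ η → Disjoint (tsupport η) K →
    ∃ G : X m → X m, H10N W (fun x => η x * u x) G

/-- The Dirichlet-to-Neumann maps `Λ_γ₁`, `Λ_γ₂` agree for all rotationally symmetric boundary values supported in `Γ`:
if `u₁` and `u₂` are weak solutions for `γ₁` and `γ₂` with the same boundary values (`u₁ - u₂ ∈ H¹₀(W)`), rotationally symmetric and with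
boundary values supported in `Γ`, then `∫ γ₁ ∇u₁ · ∇v = ∫ γ₂ ∇u₂ · ∇v` for all rotationally symmetric `v ∈ H¹(W)` with boundary values
supported in `Γ`. (If `Λ_γ₁ = Λ_γ₂`, this holds for all solutions `u₁, u₂` with the same boundary values and all `v ∈ H¹(W)`.) -/
def SameRotDN (W Γ : Set (X m)) (γ₁ γ₂ : X m → ℝ) : Prop :=
  ∀ (u₁ u₂ : X m → ℝ) (G₁ G₂ : X m → X m), IsSolN W γ₁ u₁ G₁ → IsSolN W γ₂ u₂ G₂ → RotFun W u₁ → RotFun W u₂ →
    H10N W (fun x => u₁ x - u₂ x) (fun x => G₁ x - G₂ x) → TraceInN W Γ u₁ →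
    ∀ (v : X m → ℝ) (V : X m → X m), H1N W v V → RotFun W v → TraceInN W Γ v →
      ∫ x in W, γ₁ x * dotN (G₁ x) (V x) = ∫ x in W, γ₂ x * dotN (G₂ x) (V x)

/-- Product form: on `W`, `γ (y, t) = a (y / |y|) g (y, t)`, where `g` is rotationally symmetric, i.e. depends only on `|y|` and `t`. -/
def IsProd (W : Set (X m)) (γ : X m → ℝ) : Prop :=
  ∃ (a : E m → ℝ) (g : X m → ℝ), RotFun W g ∧ ∀ x ∈ W, γ x = a (‖x.1‖⁻¹ • x.1) * g x

/-- The Dirichlet-to-Neumann maps `Λ_γ₁`, `Λ_γ₂` agree on `Γ` for all rotationally symmetric boundary values supported in `Γ`: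
if `u₁` and `u₂` are weak solutions for `γ₁` and `γ₂` with the same boundary values (`u₁ - u₂ ∈ H¹₀(W)`), rotationally symmetric and with
boundary values supported in `Γ`, then `∫ γ₁ ∇u₁ · ∇v = ∫ γ₂ ∇u₂ · ∇v` for all `v ∈ H¹(W)` with boundary values supported in `Γ`.
(If `Λ_γ₁ = Λ_γ₂`, this holds for all solutions `u₁, u₂` with the same boundary values and all `v ∈ H¹(W)`.) -/
def SameSymDN (W Γ : Set (X m)) (γ₁ γ₂ : X m → ℝ) : Prop :=
  ∀ (u₁ u₂ : X m → ℝ) (G₁ G₂ : X m → X m), IsSolN W γ₁ u₁ G₁ → IsSolN W γ₂ u₂ G₂ → RotFun W u₁ → RotFun W u₂ →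
    H10N W (fun x => u₁ x - u₂ x) (fun x => G₁ x - G₂ x) → TraceInN W Γ u₁ →
    ∀ (v : X m → ℝ) (V : X m → X m), H1N W v V → TraceInN W Γ v →
      ∫ x in W, γ₁ x * dotN (G₁ x) (V x) = ∫ x in W, γ₂ x * dotN (G₂ x) (V x)

/-- The profile of a point: `(y, t) ↦ |y| + i t`. -/
def prof (x : X m) : ℂ := (‖x.1‖ : ℂ) + I * (x.2 : ℂ)

/-- The domain of revolution `{(y, t) : |y| + i t ∈ D}` in `ℝ^(m+1)`. -/
def rev (m : ℕ) (D : Set ℂ) : Set (X m) := {x | prof x ∈ D}

end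

end RotCalderon
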