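import Pool.Agent.Lib.MP_70bd98_an.Defs

/-!
# MP_70bd98_an: equality of the full Dirichlet-to-Neumann maps for rotationally symmetric boundary values
-/

open MeasureTheory Complex Metric Set
open scoped ENNReal

namespace RotCalderon

noncomputable section

variable {m : ℕ}

/-- The Dirichlet-to-Neumann maps `Λ_γ₁`, `Λ_γ₂` agree for all rotationally symmetric boundary values: if `u₁` and `u₂` are rotationally
symmetric weak solutions for `γ₁` and `γ₂` with the same boundary values (`u₁ - u₂ ∈ H¹₀(W)`), then `∫ γ₁ ∇u₁ · ∇v = ∫ γ₂ ∇u₂ · ∇v` for all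
`v ∈ H¹(W)`. (If `Λ_γ₁ = Λ_γ₂`, this holds for all solutions `u₁, u₂` with the same boundary values.) -/
def SameFullSymDN (W : Set (X m)) (γ₁ γ₂ : X m → ℝ) : Prop :=
  ∀ (u₁ u₂ : X m → ℝ) (G₁ G₂ : X m → X m), IsSolN W γ₁ u₁ G₁ → IsSolN W γ₂ u₂ G₂ → RotFun W u₁ → RotFun W u₂ →
    H10N W (fun x => u₁ x - u₂ x) (fun x => G₁ x - G₂ x) →
    ∀ (v : X m → ℝ) (V : X m → X m), H1N W v V →
      ∫ x in W, γ₁ x * dotN (G₁ x) (V x) = ∫ x in W, γ₂ x * dotN (G₂ x) (V x)

end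

end RotCalderon
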