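import Pool.Agent.Lib.MP_70bd98_an.Lift

/-! # Lifts of H¹ functions, of solutions, of the support condition, and the identity of the forms -/

open MeasureTheory Complex Metric Set LocalCalderon Filter
open scoped ENNReal Topology

namespace RotCalderon

noncomputable section

variable {m : ℕ}

theorem lift_H1 (hm : 1 ≤ m) {D : Set ℂ} (hDo : IsOpen D) (hb : Bornology.IsBounded D) {δ : ℝ} (hδ : 0 < δ)
    (hD : ∀ w ∈ D, δ ≤ w.re) {u : ℂ → ℝ} (hu : H1 D u) :
    H1N (rev m D) (fun x => u (prof x)) (liftG (wgrad D u)) := by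
  have hpos : ∀ w ∈ D, 0 < w.re := fun w hw => hδ.trans_le (hD w hw)
  have hDm := hDo.measurableSet
  have hW : MeasurableSet (rev m D) := measurable_prof hDm
  have hG := (Cal.t_h1.1 D u hu).1
  refine ⟨lift_mem hm hDm hb hpos hu.1, liftG_mem hm hDm hb hpos hG, fun φ hφ v => ?_⟩
  have hL : IsCompact (prof '' tsupport φ) := hφ.2.1.isCompact.image continuous_prof
  have hLD : prof '' tsupport φ ⊆ D := by
    rintro _ ⟨x, hx, rfl⟩
    exact hφ.2.2 hx
  obtain ⟨ζ, z1, z2, z3⟩ := cut hL hDo hLD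
  have zt : IsTest D ζ := ⟨z1.1, z1.2.1, z2⟩
  have h6 : H10 D (fun w => ζ w * u w) := (Cal.t_h10 D hDo).2.2.2.2.2.1 u ζ hu zt
  have h5 := Cal.t_h1.2.2.2.2.1 D u ζ hDo hu z1
  have hl := lift_H10 (m := m) hm hDo hb hδ hD h6
  have hw := hl.1.2.2 φ hφ v
  have hae : ∀ᵐ x ∂((volume : Measure (X m)).restrict (rev m D)), wgrad D (fun w => ζ w * u w) (prof x) =
      (ζ (prof x) : ℂ) * wgrad D u (prof x) + (u (prof x) : ℂ) * grad ζ (prof x) :=
    (quasi hm hDm hpos).ae h5.2
  have e1 : ∫ x in rev m D, u (prof x) * dotN (gradN φ x) v =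
      ∫ x in rev m D, (ζ (prof x) * u (prof x)) * dotN (gradN φ x) v := by
    refine integral_congr_ae (Eventually.of_forall fun x => ?_)
    by_cases hx : x ∈ tsupport φ
    · have : ζ (prof x) = 1 := (z3 _ ⟨x, hx, rfl⟩).self_of_nhds
      simp only [this, one_mul]
    · simp only [gN_zero hx]
      simp [dotN]
  have e2 : ∫ x in rev m D, φ x * dotN (liftG (wgrad D u) x) v =
      ∫ x in rev m D, φ x * dotN (liftG (wgrad D (fun w => ζ w * u w)) x) v := by
    refine integral_congr_ae ?_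
    filter_upwards [hae] with x hx
    by_cases hx2 : x ∈ tsupport φ
    · have h7 := z3 _ ⟨x, hx2, rfl⟩
      have h8 : ζ (prof x) = 1 := h7.self_of_nhds
      have h9 : grad ζ (prof x) = 0 := by
        unfold grad
        rw [h7.fderiv_eq]
        simp
      have : liftG (wgrad D (fun w => ζ w * u w)) x = liftG (wgrad D u) x := by
        unfold liftG
        rw [hx, h8, h9]
        simp
      rw [this]
    · rw [image_eq_zero_of_notMem_tsupport hx2, zero_mul, zero_mul]
  rw [e1, e2]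
  exact hw

theorem lift_sol (hm : 1 ≤ m) {D : Set ℂ} (hDo : IsOpen D) (hb : Bornology.IsBounded D) {δ : ℝ} (hδ : 0 < δ)
    (hD : ∀ w ∈ D, δ ≤ w.re) {g u : ℂ → ℝ} (hu : IsSol D (fun w => g w * w.re ^ (m - 1)) u) :
    IsSolN (rev m D) (fun x => g (prof x)) (fun x => u (prof x)) (liftG (wgrad D u)) :=
  ⟨lift_H1 hm hDo hb hδ hD hu.1, fun φ hφ => eqn hm hDo.measurableSet hδ hD g (wgrad D u) hu.2 φ hφ⟩

theorem lift_trace (hm : 1 ≤ m) {D Γ : Set ℂ} (hDo : IsOpen D) (hb : Bornology.IsBounded D) {δ : ℝ} (hδ : 0 < δ)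
    (hD : ∀ w ∈ D, δ ≤ w.re) {u : ℂ → ℝ} (hu : TraceIn D Γ u) :
    TraceInN (rev m D) (prof ⁻¹' Γ) (fun x => u (prof x)) := by
  have hW : MeasurableSet (rev m D) := measurable_prof hDo.measurableSet
  obtain ⟨K, hKΓ, hK, hh⟩ := hu
  refine ⟨prof ⁻¹' K, preimage_mono hKΓ, compact_pre hK, fun η hη hdis => ?_⟩
  have hL : IsCompact (prof '' tsupport η) := hη.2.1.isCompact.image continuous_prof
  have hLK : prof '' tsupport η ⊆ Kᶜ := by
    rintro _ ⟨x, hx, rfl⟩ hxK
    exact Set.disjoint_left.1 hdis hx hxK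
  obtain ⟨χ, c1, c2, c3⟩ := cut hL hK.isClosed.isOpen_compl hLK
  have h1 : H10 D (fun w => χ w * u w) := hh χ c1 (Set.disjoint_left.2 fun w hw hwK => c2 hw hwK)
  have h2 := h10N_mul hW (lift_H10 (m := m) hm hDo hb hδ hD h1) hη
  refine ⟨_, h10N_congr h2 (Eventually.of_forall fun x => ?_) (Eventually.of_forall fun x => rfl) hW⟩
  simp only
  by_cases hx : x ∈ tsupport η
  · have : χ (prof x) = 1 := (c3 _ ⟨x, hx, rfl⟩).self_of_nhds
    rw [this, one_mul]
  · rw [image_eq_zero_of_notMem_tsupport hx, zero_mul, zero_mul]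

theorem dot_lift {x : X m} (hx : x.1 ≠ 0) (F H : ℂ → ℂ) :
    dotN (liftG F x) (liftG H x) = dot (F (prof x)) (H (prof x)) := by
  unfold dotN liftG dot
  simp only
  rw [real_inner_smul_left, real_inner_smul_right, real_inner_self_eq_norm_sq]
  have : ‖x.1‖ ≠ 0 := norm_ne_zero_iff.2 hx
  field_simp

theorem form (hm : 1 ≤ m) {D : Set ℂ} (hDm : MeasurableSet D) (hpos : ∀ w ∈ D, 0 < w.re) {g : ℂ → ℝ} {F H : ℂ → ℂ}
    (hg : AEStronglyMeasurable g (volume.restrict D)) (hF : AEStronglyMeasurable F (volume.restrict D))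
    (hH : AEStronglyMeasurable H (volume.restrict D)) :
    ∫ x in rev m D, g (prof x) * dotN (liftG F x) (liftG H x) =
      (sig m univ).toReal * ∫ w in D, (g w * w.re ^ (m - 1)) * dot (F w) (H w) := by
  have e1 : ∫ x in rev m D, g (prof x) * dotN (liftG F x) (liftG H x) =
      ∫ x in rev m D, (fun w => g w * dot (F w) (H w)) (prof x) := by
    refine setIntegral_congr_fun (measurable_prof hDm) fun x hx => ?_
    have : x.1 ≠ 0 := by
      intro h0
      have h1 := hpos _ hx
      rw [prof_re, h0, norm_zero] at h1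
      exact lt_irrefl _ h1
    simp only [dot_lift this]
  have hdot : AEStronglyMeasurable (fun w => dot (F w) (H w)) (volume.restrict D) := by
    unfold dot
    exact ((Complex.continuous_re.comp_aestronglyMeasurable hF).mul (Complex.continuous_re.comp_aestronglyMeasurable hH)).add
      ((Complex.continuous_im.comp_aestronglyMeasurable hF).mul (Complex.continuous_im.comp_aestronglyMeasurable hH))
  rw [e1, int_rev hm hDm hpos (fun w => g w * dot (F w) (H w)) (hg.mul hdot)]
  congr 1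
  refine integral_congr_ae (Eventually.of_forall fun w => ?_)
  simp only
  ring

theorem sig_pos (hm : 1 ≤ m) : (sig m univ).toReal ≠ 0 := by
  have : Nonempty (Fin m) := ⟨⟨0, hm⟩⟩
  have h1 : sig m ≠ 0 := Measure.toSphere_ne_zero (volume : Measure (E m))
  have h2 : sig m univ ≠ 0 := fun h => h1 (Measure.measure_univ_eq_zero.1 h)
  exact (ENNReal.toReal_pos h2 (measure_ne_top _ _)).ne'

end

end RotCalderon
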