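import Pool.Agent.Lib.MP_70bd98_an.FinA

/-! # The reduction to the planar problem -/

open MeasureTheory Complex Metric Set LocalCalderon Filter
open scoped ENNReal Topology

namespace RotCalderon

noncomputable section

variable {m : ℕ}

/-- The weight `(Re w)^(m-1)` does not leave the class of conductivities. -/
theorem cond_w {D : Set ℂ} (hDm : MeasurableSet D) (hb : Bornology.IsBounded D) {δ : ℝ} (hδ : 0 < δ)
    (hD : ∀ w ∈ D, δ ≤ w.re) (j : ℕ) {g : ℂ → ℝ} (hg : IsConductivity D g) :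
    IsConductivity D (fun w => g w * w.re ^ j) := by
  obtain ⟨h1, c, C, hc, h2⟩ := hg
  obtain ⟨R, hR⟩ := hb.exists_norm_le
  refine ⟨h1.mul (Complex.continuous_re.pow j).aestronglyMeasurable, c * δ ^ j, |C| * |R| ^ j, by positivity, ?_⟩
  filter_upwards [h2, ae_restrict_mem hDm] with w hw hwD
  have a1 : δ ^ j ≤ w.re ^ j := pow_le_pow_left₀ hδ.le (hD w hwD) j
  have a2 : w.re ^ j ≤ |R| ^ j :=
    pow_le_pow_left₀ (hδ.le.trans (hD w hwD)) (((le_abs_self _).trans (Complex.abs_re_le_norm w)).trans ((hR w hwD).trans (le_abs_self _))) j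
  have a3 : 0 ≤ w.re ^ j := pow_nonneg (hδ.le.trans (hD w hwD)) j
  exact ⟨mul_le_mul hw.1 a1 (by positivity) (hc.le.trans hw.1),
    mul_le_mul (hw.2.trans (le_abs_self C)) a2 a3 (abs_nonneg C)⟩

theorem isSol_congr {D : Set ℂ} {γ γ' u : ℂ → ℝ} (h : γ =ᵐ[volume.restrict D] γ') (hu : IsSol D γ' u) : IsSol D γ u := by
  refine ⟨hu.1, fun φ hφ => ?_⟩
  rw [← hu.2 φ hφ]
  refine integral_congr_ae ?_
  filter_upwards [h] with w hw
  rw [hw]

theorem rotFun_prof (W : Set (X m)) (f : ℂ → ℝ) : RotFun W (fun x => f (prof x)) := by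
  intro x _ x' _ h1 h2
  have : prof x = prof x' := by
    apply Complex.ext
    · rw [prof_re, prof_re, h1]
    · rw [prof_im, prof_im, h2]
  simp only [this]

theorem main (hm : 1 ≤ m) {D Γ : Set ℂ} (hDo : IsOpen D) (hc : IsConnected D) (hb : Bornology.IsBounded D)
    (hΓ : OpenInBdry D Γ) (hne : (Γ ∩ closure (closure D)ᶜ).Nonempty) {δ : ℝ} (hδ : 0 < δ) (hD : ∀ w ∈ D, δ ≤ w.re)
    {g₁ g₂ : ℂ → ℝ} (h1 : IsConductivity D g₁) (h2 : IsConductivity D g₂)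
    (h : SameRotDN (rev m D) (prof ⁻¹' Γ) (fun x => g₁ (prof x)) (fun x => g₂ (prof x))) :
    g₁ =ᵐ[volume.restrict D] g₂ := by
  have hpos : ∀ w ∈ D, 0 < w.re := fun w hw => hδ.trans_le (hD w hw)
  have hDm := hDo.measurableSet
  have hW : MeasurableSet (rev m D) := measurable_prof hDm
  have k1 := cond_w hDm hb hδ hD (m - 1) h1
  have k2 := cond_w hDm hb hδ hD (m - 1) h2
  obtain ⟨c₁, C₁, γ₁, hc₁, hcC₁, hC₁, e₁⟩ := Cal.t_norm.1 D _ k1
  obtain ⟨c₂, C₂, γ₂, hc₂, hcC₂, hC₂, e₂⟩ := Cal.t_norm.1 D _ k2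
  have q1 : Cal.Cond (min c₁ c₂) (max C₁ C₂) γ₁ := hC₁ _ _ (lt_min hc₁ hc₂) (min_le_left _ _) (le_max_left _ _)
  have q2 : Cal.Cond (min c₁ c₂) (max C₁ C₂) γ₂ := hC₂ _ _ (lt_min hc₁ hc₂) (min_le_right _ _) (le_max_right _ _)
  have hcd : cauchyData D Γ γ₁ = cauchyData D Γ γ₂ := by
    refine Cal.t_back2 _ _ γ₁ γ₂ D Γ (lt_min hc₁ hc₂) q1 q2 hDo hb hΓ fun u ψ hu tu hψ tψ => ?_
    intro G₁ G₂ d1 d2
    have hGu := (Cal.t_h1.1 D u hu).1
    have hGψ := (Cal.t_h1.1 D ψ hψ).1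
    obtain ⟨⟨u₁, a1, b1, s1⟩, l1⟩ := Cal.t_lift _ _ (lt_min hc₁ hc₂) γ₁ q1 D hDo hb u hu
    obtain ⟨⟨u₂, a2, b2, s2⟩, l2⟩ := Cal.t_lift _ _ (lt_min hc₁ hc₂) γ₂ q2 D hDo hb u hu
    have f1 := (Cal.t_dnex _ _ (lt_min hc₁ hc₂) γ₁ q1 D hDo _ hGu).2 _ _ d1 (l1 u₁ b1 s1)
    have f2 := (Cal.t_dnex _ _ (lt_min hc₁ hc₂) γ₂ q2 D hDo _ hGu).2 _ _ d2 (l2 u₂ b2 s2)
    -- the solutions in space
    have S1 := lift_sol (m := m) hm hDo hb hδ hD (isSol_congr e₁ s1)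
    have S2 := lift_sol (m := m) hm hDo hb hδ hD (isSol_congr e₂ s2)
    -- the difference
    have b12 : H10 D (fun z => u₁ z + (-1) * u₂ z) := by
      have := (Cal.t_h10 D hDo).2.1 _ _ (-1) b1 b2
      have e : (fun z => u₁ z - u z + (-1) * (u₂ z - u z)) = fun z => u₁ z + (-1) * u₂ z := by
        funext z; ring
      rwa [e] at this
    have w12 := (Cal.t_h1.2.2.1 D u₁ u₂ (-1) hDo a1 a2).2
    have w12' : ∀ᵐ x ∂((volume : Measure (X m)).restrict (rev m D)), wgrad D (fun z => u₁ z + (-1) * u₂ z) (prof x) =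
        wgrad D u₁ (prof x) + (-1) * wgrad D u₂ (prof x) := by
      have := (quasi (m := m) hm hDm hpos).ae w12
      filter_upwards [this] with x hx
      rw [hx]; simp
    have B12 : H10N (rev m D) (fun x => u₁ (prof x) - u₂ (prof x))
        (fun x => liftG (wgrad D u₁) x - liftG (wgrad D u₂) x) := by
      refine h10N_congr (lift_H10 (m := m) hm hDo hb hδ hD b12) (Eventually.of_forall fun x => ?_) ?_ hW
      · simp only
        ring
      · filter_upwards [w12'] with x hx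
        rw [liftG_sub]
        unfold liftG
        rw [hx]
        simp [sub_eq_add_neg]
    -- the support conditions
    have t1 : TraceIn D Γ u₁ := by
      have := (Cal.t_trc D Γ hDo hb hΓ).2.1 u _ tu b1
      have e : (fun z => u z + (u₁ z - u z)) = u₁ := by
        funext z; ring
      rwa [e] at this
    have T1 := lift_trace (m := m) hm hDo hb hδ hD t1
    have Tψ := lift_trace (m := m) hm hDo hb hδ hD tψ
    have key := h _ _ _ _ S1 S2 (rotFun_prof _ u₁) (rotFun_prof _ u₂) B12 T1 _ _ (lift_H1 (m := m) hm hDo hb hδ hD hψ)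
      (rotFun_prof _ ψ) Tψ
    rw [form hm hDm hpos h1.1 (Cal.t_h1.1 D u₁ a1).1.1 hGψ.1, form hm hDm hpos h2.1 (Cal.t_h1.1 D u₂ a2).1.1 hGψ.1] at key
    have key2 := mul_left_cancel₀ (sig_pos (m := m) hm) key
    have r1 : ∫ z in D, γ₁ z * Cal.ip (G₁ z) (wgrad D ψ z) = ∫ w in D, (g₁ w * w.re ^ (m - 1)) * dot (wgrad D u₁ w) (wgrad D ψ w) := by
      refine integral_congr_ae ?_
      filter_upwards [f1, e₁] with z hz1 hz2
      rw [hz1, ← hz2, Cal.t_h1.2.2.2.2.2.2.2.2]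
    have r2 : ∫ z in D, γ₂ z * Cal.ip (G₂ z) (wgrad D ψ z) = ∫ w in D, (g₂ w * w.re ^ (m - 1)) * dot (wgrad D u₂ w) (wgrad D ψ w) := by
      refine integral_congr_ae ?_
      filter_upwards [f2, e₂] with z hz1 hz2
      rw [hz1, ← hz2, Cal.t_h1.2.2.2.2.2.2.2.2]
    rw [r1, r2]
    exact key2
  have hcd' : cauchyData D Γ (fun w => g₁ w * w.re ^ (m - 1)) = cauchyData D Γ (fun w => g₂ w * w.re ^ (m - 1)) := by
    rw [Cal.t_norm.2 D Γ _ _ e₁, Cal.t_norm.2 D Γ _ _ e₂, hcd]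
  have fin := Cal.t_final3 D Γ _ _ hDo hc hb hΓ hne k1 k2 hcd'
  filter_upwards [fin, ae_restrict_mem hDm] with w hw hwD
  have hne : w.re ^ (m - 1) ≠ 0 := pow_ne_zero _ (hpos w hwD).ne'
  exact mul_right_cancel₀ hne hw

end

end RotCalderon
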