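import Pool.Agent.Lib.MP_70bd98_an.Slice

/-! # General facts on `H¹₀` in `ℝ^(m+1)` -/

open MeasureTheory Complex Metric Set LocalCalderon Filter
open scoped ENNReal Topology

namespace RotCalderon

noncomputable section

variable {m : ℕ}

theorem dotN_le (a b : X m) : |dotN a b| ≤ 2 * ‖a‖ * ‖b‖ := by
  have h1 : |inner ℝ a.1 b.1| ≤ ‖a.1‖ * ‖b.1‖ := abs_real_inner_le_norm _ _
  have h2 : ‖a.1‖ ≤ ‖a‖ := norm_fst_le a
  have h3 : ‖b.1‖ ≤ ‖b‖ := norm_fst_le b
  have h4 : |a.2| ≤ ‖a‖ := norm_snd_le a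
  have h5 : |b.2| ≤ ‖b‖ := norm_snd_le b
  unfold dotN
  calc |inner ℝ a.1 b.1 + a.2 * b.2| ≤ |inner ℝ a.1 b.1| + |a.2 * b.2| := abs_add_le _ _
    _ ≤ ‖a‖ * ‖b‖ + ‖a‖ * ‖b‖ := by
        refine add_le_add (h1.trans (mul_le_mul h2 h3 (norm_nonneg _) (norm_nonneg _))) ?_
        rw [abs_mul]
        exact mul_le_mul h4 h5 (abs_nonneg _) (norm_nonneg _)
    _ = 2 * ‖a‖ * ‖b‖ := by ring

/-- `a ↦ dotN a v` as a continuous linear map. -/
def dL (v : X m) : X m →L[ℝ] ℝ :=
  ((innerSL ℝ v.1).comp (ContinuousLinearMap.fst ℝ (E m) ℝ)) + v.2 • ContinuousLinearMap.snd ℝ (E m) ℝ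

theorem dL_apply (v a : X m) : dL v a = dotN a v := by
  simp [dL, dotN, real_inner_comm, mul_comm]

theorem test_mem {W : Set (X m)} {φ : X m → ℝ} (h : IsTestN W φ) (U : Set (X m)) : MemLp φ 2 (volume.restrict U) :=
  (h.1.continuous.memLp_of_hasCompactSupport h.2.1).restrict U

theorem gN_cont {φ : X m → ℝ} (h : ContDiff ℝ (⊤ : ℕ∞) φ) : Continuous (gradN φ) := by
  have h1 : Continuous (fderiv ℝ φ) := h.continuous_fderiv (by simp)
  refine Continuous.prodMk ?_ (h1.clm_apply continuous_const)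
  exact (InnerProductSpace.toDual ℝ (E m)).symm.continuous.comp (h1.clm_comp continuous_const)

theorem gN_zero {φ : X m → ℝ} {x : X m} (hx : x ∉ tsupport φ) : gradN φ x = 0 := by
  unfold gradN
  rw [fderiv_of_notMem_tsupport (𝕜 := ℝ) hx]
  simp

theorem gN_supp {φ : X m → ℝ} (h : HasCompactSupport φ) : HasCompactSupport (gradN φ) :=
  HasCompactSupport.intro h fun _ hx => gN_zero hx

theorem grad_mem {W : Set (X m)} {φ : X m → ℝ} (h : IsTestN W φ) (U : Set (X m)) :
    MemLp (gradN φ) 2 (volume.restrict U) :=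
  ((gN_cont h.1).memLp_of_hasCompactSupport (gN_supp h.2.1)).restrict U

theorem memLp_dot {μ : Measure (X m)} {G : X m → X m} (h : MemLp G 2 μ) (v : X m) :
    MemLp (fun x => dotN (G x) v) 2 μ := by
  have := (dL v).comp_memLp' h
  simp only [Function.comp_def, dL_apply] at this
  exact this

theorem test_diff {W : Set (X m)} {φ : X m → ℝ} (h : IsTestN W φ) : Differentiable ℝ φ :=
  h.1.differentiable (by simp)

theorem gN_mul {φ ψ : X m → ℝ} {x : X m} (h1 : DifferentiableAt ℝ φ x) (h2 : DifferentiableAt ℝ ψ x) :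
    gradN (fun x => φ x * ψ x) x = φ x • gradN ψ x + ψ x • gradN φ x := by
  unfold gradN
  rw [fderiv_fun_mul h1 h2]
  refine Prod.ext ?_ ?_
  · simp only [ContinuousLinearMap.add_comp, ContinuousLinearMap.smul_comp, map_add, Prod.fst_add, Prod.smul_fst]
    rw [map_smulₛₗ, map_smulₛₗ]
    simp
  · simp

instance haarX : (volume : Measure (X m)).IsAddHaarMeasure :=
  inferInstanceAs (((volume : Measure (E m)).prod (volume : Measure ℝ)).IsAddHaarMeasure)

theorem ibpN {W : Set (X m)} (hW : MeasurableSet W) {φ ψ : X m → ℝ} (hφ : IsTestN W φ) (hψ : IsTestN univ ψ) (v : X m) :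
    ∫ x in W, φ x * dotN (gradN ψ x) v = - ∫ x in W, ψ x * dotN (gradN φ x) v := by
  have hout : ∀ x, x ∉ W → x ∉ tsupport φ := fun x hx h => hx (hφ.2.2 h)
  rw [setIntegral_eq_integral_of_forall_compl_eq_zero, setIntegral_eq_integral_of_forall_compl_eq_zero]
  · simp only [dotN_gradN]
    have c1 : Continuous fun x => fderiv ℝ φ x v := (hφ.1.continuous_fderiv (by simp)).clm_apply continuous_const
    have c2 : Continuous fun x => fderiv ℝ ψ x v := (hψ.1.continuous_fderiv (by simp)).clm_apply continuous_const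
    have := integral_mul_fderiv_eq_neg_fderiv_mul_of_integrable (μ := (volume : Measure (X m))) (f := φ) (g := ψ) (v := v)
      ((c1.mul hψ.1.continuous).integrable_of_hasCompactSupport (hψ.2.1.mul_left))
      ((hφ.1.continuous.mul c2).integrable_of_hasCompactSupport (hφ.2.1.mul_right))
      ((hφ.1.continuous.mul hψ.1.continuous).integrable_of_hasCompactSupport (hφ.2.1.mul_right))
      (fun x _ => test_diff hφ x) (fun x _ => test_diff hψ x)
    rw [this]
    congr 1
    refine integral_congr_ae (Eventually.of_forall fun x => ?_)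
    exact mul_comm _ _
  · intro x hx
    rw [gN_zero (hout x hx)]
    simp [dotN]
  · intro x hx
    rw [image_eq_zero_of_notMem_tsupport (hout x hx), zero_mul]

/-- Approximation of a pair by test functions. -/
def ApN (W : Set (X m)) (u : X m → ℝ) (G : X m → X m) : Prop :=
  ∀ ε : ℝ, 0 < ε → ∃ φ : X m → ℝ, IsTestN W φ ∧
    eLpNorm (fun x => u x - φ x) 2 (volume.restrict W) ≤ ENNReal.ofReal ε ∧
    eLpNorm (fun x => G x - gradN φ x) 2 (volume.restrict W) ≤ ENNReal.ofReal ε

theorem csN (μ : Measure (X m)) (f g : X m → ℝ) (hf : MemLp f 2 μ) (hg : MemLp g 2 μ) :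
    ‖∫ z, f z * g z ∂μ‖ₑ ≤ eLpNorm f 2 μ * eLpNorm g 2 μ := by
  calc ‖∫ z, f z * g z ∂μ‖ₑ ≤ ∫⁻ z, ‖f z * g z‖ₑ ∂μ := enorm_integral_le_lintegral_enorm _
    _ = eLpNorm (f • g) 1 μ := by
        rw [eLpNorm_one_eq_lintegral_enorm]; rfl
    _ ≤ eLpNorm f 2 μ * eLpNorm g 2 μ := eLpNorm_smul_le_mul_eLpNorm hg.1 hf.1

theorem eLp_dot {μ : Measure (X m)} (G : X m → X m) (v : X m) :
    eLpNorm (fun x => dotN (G x) v) 2 μ ≤ ENNReal.ofReal (2 * ‖v‖) * eLpNorm G 2 μ := by
  refine eLpNorm_le_mul_eLpNorm_of_ae_le_mul (Eventually.of_forall fun x => ?_) 2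
  rw [Real.norm_eq_abs]
  refine (dotN_le _ _).trans (le_of_eq (by ring))

theorem apN_weak {W : Set (X m)} (hW : MeasurableSet W) {u : X m → ℝ} {G : X m → X m}
    (hu : MemLp u 2 (volume.restrict W)) (hG : MemLp G 2 (volume.restrict W)) (h : ApN W u G) :
    ∀ ψ : X m → ℝ, IsTestN univ ψ → ∀ v : X m,
      ∫ x in W, u x * dotN (gradN ψ x) v = - ∫ x in W, ψ x * dotN (G x) v := by
  intro ψ hψ v
  have ha := memLp_dot (grad_mem hψ W) v
  have hb := test_mem hψ W
  set A := eLpNorm (fun x => dotN (gradN ψ x) v) 2 (volume.restrict W) with hA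
  set B := eLpNorm ψ 2 (volume.restrict W) with hB
  have hAt : A ≠ ⊤ := ha.2.ne
  have hBt : B ≠ ⊤ := hb.2.ne
  set K := A + B * ENNReal.ofReal (2 * ‖v‖) with hK
  have hKt : K ≠ ⊤ := ENNReal.add_ne_top.mpr ⟨hAt, ENNReal.mul_ne_top hBt ENNReal.ofReal_ne_top⟩
  have key : ∀ ε : ℝ, 0 < ε → ‖(∫ x in W, u x * dotN (gradN ψ x) v) + ∫ x in W, ψ x * dotN (G x) v‖ₑ
      ≤ ENNReal.ofReal ε * K := by
    intro ε hε
    obtain ⟨φ, t1, t2, t3⟩ := h ε hε
    have e0 := ibpN hW t1 hψ v
    have hf := test_mem t1 W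
    have hg := memLp_dot (grad_mem t1 W) v
    have i1 : Integrable (fun x => u x * dotN (gradN ψ x) v) (volume.restrict W) := hu.integrable_mul ha
    have i2 : Integrable (fun x => φ x * dotN (gradN ψ x) v) (volume.restrict W) := hf.integrable_mul ha
    have i3 : Integrable (fun x => ψ x * dotN (G x) v) (volume.restrict W) := hb.integrable_mul (memLp_dot hG v)
    have i4 : Integrable (fun x => ψ x * dotN (gradN φ x) v) (volume.restrict W) := hb.integrable_mul hg
    have hsub : ∀ x, dotN (G x) v - dotN (gradN φ x) v = dotN (G x - gradN φ x) v := fun x => by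
      rw [← dL_apply, ← dL_apply, ← dL_apply, map_sub]
    have e1 : (∫ x in W, u x * dotN (gradN ψ x) v) + ∫ x in W, ψ x * dotN (G x) v =
        (∫ x in W, (u x - φ x) * dotN (gradN ψ x) v) + ∫ x in W, ψ x * dotN (G x - gradN φ x) v := by
      simp only [← hsub, sub_mul, mul_sub]
      rw [integral_sub i1 i2, integral_sub i3 i4, e0]; ring
    rw [e1]
    refine (enorm_add_le _ _).trans ?_
    have c1 := csN (volume.restrict W) (fun x => u x - φ x) (fun x => dotN (gradN ψ x) v) (hu.sub hf) ha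
    have c2 := csN (volume.restrict W) ψ (fun x => dotN (G x - gradN φ x) v) hb (memLp_dot (hG.sub (grad_mem t1 W)) v)
    refine (add_le_add c1 c2).trans ?_
    rw [hK, mul_add]
    refine add_le_add (mul_le_mul' t2 le_rfl) ?_
    calc eLpNorm ψ 2 (volume.restrict W) * eLpNorm (fun x => dotN (G x - gradN φ x) v) 2 (volume.restrict W)
        ≤ B * (ENNReal.ofReal (2 * ‖v‖) * ENNReal.ofReal ε) :=
          mul_le_mul' le_rfl ((eLp_dot _ _).trans (mul_le_mul' le_rfl t3))
      _ = ENNReal.ofReal ε * (B * ENNReal.ofReal (2 * ‖v‖)) := by ring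
  have hz : ‖(∫ x in W, u x * dotN (gradN ψ x) v) + ∫ x in W, ψ x * dotN (G x) v‖ₑ ≤ 0 := by
    have hlim : Tendsto (fun n : ℕ => ENNReal.ofReal (1 / ((n : ℝ) + 1)) * K) atTop (𝓝 0) := by
      have t1 : Tendsto (fun n : ℕ => ENNReal.ofReal (1 / ((n : ℝ) + 1))) atTop (𝓝 0) := by
        have := ENNReal.tendsto_ofReal tendsto_one_div_add_atTop_nhds_zero_nat
        simpa using this
      have := ENNReal.Tendsto.mul_const t1 (Or.inr hKt : (0 : ℝ≥0∞) ≠ 0 ∨ K ≠ ⊤)
      simpa using this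
    exact ge_of_tendsto hlim (Eventually.of_forall fun n => key _ (by positivity))
  have hz' : (∫ x in W, u x * dotN (gradN ψ x) v) + ∫ x in W, ψ x * dotN (G x) v = 0 := by
    simpa using hz
  exact eq_neg_of_add_eq_zero_left hz'

theorem univ_test {W : Set (X m)} {φ : X m → ℝ} (h : IsTestN W φ) : IsTestN univ φ := ⟨h.1, h.2.1, subset_univ _⟩

theorem apN_H10 {W : Set (X m)} (hW : MeasurableSet W) {u : X m → ℝ} {G : X m → X m}
    (hu : MemLp u 2 (volume.restrict W)) (hG : MemLp G 2 (volume.restrict W)) (h : ApN W u G) : H10N W u G :=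
  ⟨⟨hu, hG, fun φ hφ v => apN_weak hW hu hG h φ (univ_test hφ) v⟩, h⟩

theorem h10N_mul {W : Set (X m)} (hW : MeasurableSet W) {u : X m → ℝ} {G : X m → X m} (h : H10N W u G)
    {η : X m → ℝ} (hη : IsTestN univ η) : H10N W (fun x => η x * u x) (fun x => η x • G x + u x • gradN η x) := by
  obtain ⟨C, hC⟩ := hη.2.1.exists_bound_of_continuous hη.1.continuous
  obtain ⟨C', hC'⟩ := (gN_supp hη.2.1).exists_bound_of_continuous (gN_cont hη.1)
  have hC0 : 0 ≤ C := (norm_nonneg _).trans (hC 0)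
  have hC0' : 0 ≤ C' := (norm_nonneg _).trans (hC' 0)
  have hu := h.1.1
  have hG := h.1.2.1
  have mη : AEStronglyMeasurable η (volume.restrict W) := (test_mem hη W).1
  have mη' : AEStronglyMeasurable (gradN η) (volume.restrict W) := (grad_mem hη W).1
  have b1 : ∀ (f : X m → ℝ), eLpNorm (fun x => η x * f x) 2 (volume.restrict W) ≤
      ENNReal.ofReal C * eLpNorm f 2 (volume.restrict W) := fun f => by
    refine eLpNorm_le_mul_eLpNorm_of_ae_le_mul (Eventually.of_forall fun z => ?_) 2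
    rw [norm_mul]
    exact mul_le_mul_of_nonneg_right (hC z) (norm_nonneg _)
  have b2 : ∀ (F : X m → X m), eLpNorm (fun x => η x • F x) 2 (volume.restrict W) ≤
      ENNReal.ofReal C * eLpNorm F 2 (volume.restrict W) := fun F => by
    refine eLpNorm_le_mul_eLpNorm_of_ae_le_mul (Eventually.of_forall fun z => ?_) 2
    rw [norm_smul]
    exact mul_le_mul_of_nonneg_right (hC z) (norm_nonneg _)
  have b3 : ∀ (f : X m → ℝ), eLpNorm (fun x => f x • gradN η x) 2 (volume.restrict W) ≤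
      ENNReal.ofReal C' * eLpNorm f 2 (volume.restrict W) := fun f => by
    refine eLpNorm_le_mul_eLpNorm_of_ae_le_mul (Eventually.of_forall fun z => ?_) 2
    rw [norm_smul, mul_comm]
    exact mul_le_mul_of_nonneg_right (hC' z) (norm_nonneg _)
  have m1 : MemLp (fun x => η x * u x) 2 (volume.restrict W) :=
    ⟨mη.mul hu.1, (b1 u).trans_lt (ENNReal.mul_lt_top ENNReal.ofReal_lt_top hu.2)⟩
  have m2 : MemLp (fun x => η x • G x) 2 (volume.restrict W) :=
    ⟨mη.smul hG.1, (b2 G).trans_lt (ENNReal.mul_lt_top ENNReal.ofReal_lt_top hG.2)⟩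
  have m3 : MemLp (fun x => u x • gradN η x) 2 (volume.restrict W) :=
    ⟨hu.1.smul mη', (b3 u).trans_lt (ENNReal.mul_lt_top ENNReal.ofReal_lt_top hu.2)⟩
  refine apN_H10 hW m1 (m2.add m3) fun ε hε => ?_
  obtain ⟨φ, t1, t2, t3⟩ := h.2 (ε / (C + C' + 1)) (by positivity)
  refine ⟨fun x => η x * φ x, ⟨hη.1.mul t1.1, t1.2.1.mul_left,
    (tsupport_mul_subset_right (f := η) (g := φ)).trans t1.2.2⟩, ?_, ?_⟩
  · have e : (fun x => η x * u x - η x * φ x) = fun x => η x * (u x - φ x) := by funext x; ring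
    rw [e]
    refine (b1 _).trans ((mul_le_mul' le_rfl t2).trans ?_)
    rw [← ENNReal.ofReal_mul hC0]
    refine ENNReal.ofReal_le_ofReal ?_
    rw [mul_div_assoc', div_le_iff₀ (by positivity)]
    nlinarith
  · have e : (fun x => η x • G x + u x • gradN η x - gradN (fun x => η x * φ x) x) =
        fun x => (η x • (G x - gradN φ x)) + (u x - φ x) • gradN η x := by
      funext x
      rw [gN_mul (test_diff hη x) (test_diff t1 x)]
      module
    rw [e]
    have n1 : AEStronglyMeasurable (fun x => η x • (G x - gradN φ x)) (volume.restrict W) :=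
      mη.smul (hG.1.sub (grad_mem t1 W).1)
    have n2 : AEStronglyMeasurable (fun x => (u x - φ x) • gradN η x) (volume.restrict W) :=
      (hu.1.sub (test_mem t1 W).1).smul mη'
    refine (eLpNorm_add_le n1 n2 (by norm_num)).trans ?_
    refine (add_le_add ((b2 _).trans (mul_le_mul' le_rfl t3)) ((b3 _).trans (mul_le_mul' le_rfl t2))).trans ?_
    rw [← ENNReal.ofReal_mul hC0, ← ENNReal.ofReal_mul hC0', ← ENNReal.ofReal_add (by positivity) (by positivity)]
    refine ENNReal.ofReal_le_ofReal ?_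
    rw [← add_mul, mul_div_assoc', div_le_iff₀ (by positivity)]
    nlinarith

theorem h10N_congr {W : Set (X m)} {u u' : X m → ℝ} {G G' : X m → X m} (h : H10N W u G)
    (hu : u =ᵐ[volume.restrict W] u') (hG : G =ᵐ[volume.restrict W] G') (hW : MeasurableSet W) : H10N W u' G' := by
  refine apN_H10 hW (h.1.1.ae_eq hu) (h.1.2.1.ae_eq hG) fun ε hε => ?_
  obtain ⟨φ, t1, t2, t3⟩ := h.2 ε hε
  refine ⟨φ, t1, ?_, ?_⟩
  · rw [eLpNorm_congr_ae (g := fun x => u x - φ x)]
    · exact t2
    · filter_upwards [hu] with x hx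
      rw [hx]
  · rw [eLpNorm_congr_ae (g := fun x => G x - gradN φ x)]
    · exact t3
    · filter_upwards [hG] with x hx
      rw [hx]

end

end RotCalderon
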