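import Pool.Agent.Lib.MP_70bd98_an.FinB

/-! # Rotationally symmetric domains and conductivities: passage to the profile -/

open MeasureTheory Complex Metric Set LocalCalderon Filter
open scoped ENNReal Topology

namespace RotCalderon

noncomputable section

variable {m : ℕ}

/-- A half plane section through the axis. -/
def sec (e : E m) (w : ℂ) : X m := (w.re • e, w.im)

theorem sec_cont (e : E m) : Continuous (sec e) := by
  unfold sec
  fun_prop

theorem prof_sec {e : E m} (he : ‖e‖ = 1) {w : ℂ} (hw : 0 < w.re) : prof (sec e w) = w := by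
  apply Complex.ext
  · simp [prof, sec, norm_smul, he, abs_of_pos hw]
  · simp [prof, sec]

theorem prof_eq {x x' : X m} (h : prof x = prof x') : ‖x.1‖ = ‖x'.1‖ ∧ x.2 = x'.2 := by
  refine ⟨?_, ?_⟩
  · rw [← prof_re x, ← prof_re x', h]
  · rw [← prof_im x, ← prof_im x', h]

theorem rotSet_eq {S : Set (X m)} (h : RotSet S) : prof ⁻¹' (prof '' S) = S := by
  apply Subset.antisymm
  · rintro x ⟨x', hx', he⟩
    obtain ⟨h1, h2⟩ := prof_eq he
    exact h x' x h1 h2 hx'
  · exact subset_preimage_image _ _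

theorem rotSet_pre (A : Set ℂ) : RotSet (prof ⁻¹' A : Set (X m)) := by
  intro x x' h1 h2 hx
  have : prof x = prof x' := by
    apply Complex.ext
    · rw [prof_re, prof_re, h1]
    · rw [prof_im, prof_im, h2]
  rw [mem_preimage, ← this]
  exact hx

theorem rev_closure {D : Set ℂ} {δ : ℝ} (hδ : 0 < δ) (hD : ∀ w ∈ D, δ ≤ w.re) :
    closure (rev m D) = prof ⁻¹' closure D := by
  apply Subset.antisymm
  · exact closure_minimal (fun x hx => subset_closure hx) (isClosed_closure.preimage continuous_prof)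
  · intro y hy
    have hy' : prof y ∈ closure D := hy
    have hre : δ ≤ (prof y).re := by
      have hcl : IsClosed {w : ℂ | δ ≤ w.re} := isClosed_le continuous_const Complex.continuous_re
      exact closure_minimal hD hcl hy'
    have hpos : 0 < ‖y.1‖ := by
      rw [← prof_re]
      linarith
    set s : ℂ → X m := fun w => ((w.re / ‖y.1‖) • y.1, w.im) with hsdef
    have hs : Continuous s := by
      rw [hsdef]
      fun_prop
    have h1 : s (prof y) = y := by
      simp only [hsdef]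
      rw [prof_re, prof_im, div_self hpos.ne', one_smul]
    have h2 : D ⊆ s ⁻¹' rev m D := by
      intro w hw
      have hw0 : 0 < w.re := hδ.trans_le (hD w hw)
      have : prof (s w) = w := by
        apply Complex.ext
        · rw [prof_re]
          simp only [hsdef, norm_smul, norm_div, norm_norm, Real.norm_eq_abs, abs_of_pos hw0]
          rw [abs_of_pos hpos, div_mul_cancel₀ _ hpos.ne']
        · rw [prof_im]
      show prof (s w) ∈ D
      rw [this]
      exact hw
    have h3 : closure D ⊆ s ⁻¹' closure (rev m D) :=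
      closure_minimal (h2.trans (preimage_mono subset_closure)) (isClosed_closure.preimage hs)
    have h4 := h3 hy'
    rw [mem_preimage, h1] at h4
    exact h4

theorem rev_frontier {D : Set ℂ} (hDo : IsOpen D) {δ : ℝ} (hδ : 0 < δ) (hD : ∀ w ∈ D, δ ≤ w.re) :
    frontier (rev m D) = prof ⁻¹' frontier D := by
  have hW : IsOpen (rev m D) := hDo.preimage continuous_prof
  rw [hW.frontier_eq, hDo.frontier_eq, rev_closure hδ hD]
  rfl

theorem cond_pre (hm : 1 ≤ m) {D : Set ℂ} (hDm : MeasurableSet D) (hpos : ∀ w ∈ D, 0 < w.re) {γ : X m → ℝ}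
    (h : IsCondN (rev m D) γ) (hr : RotFun (rev m D) γ) {e : E m} (he : ‖e‖ = 1) :
    IsConductivity D (fun w => γ (sec e w)) := by
  obtain ⟨h1, c, C, hc, h2⟩ := h
  rw [restrict_rev hm hDm hpos] at h1 h2
  have a1 := (h1.comp_measurable measurable_Psi).prodMk_left
  have a2 := Measure.ae_ae_of_ae_prod (ae_of_ae_map measurable_Psi.aemeasurable h2)
  have hne : NeBot (ae (sig m)) := by
    rw [ae_neBot]
    intro h0
    exact sig_pos (m := m) hm (by rw [h0]; simp)
  obtain ⟨ω, b1, b2⟩ := (a1.and a2).exists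
  have hω : ‖(ω : E m)‖ = 1 := by simpa using ω.2
  have key : ∀ w ∈ D, γ (Psi (ω, w)) = γ (sec e w) := by
    intro w hw
    have hw0 := hpos w hw
    refine hr _ ?_ _ ?_ ?_ rfl
    · show prof (Psi (ω, w)) ∈ D
      rw [prof_Psi ω hw0]
      exact hw
    · show prof (sec e w) ∈ D
      rw [prof_sec he hw0]
      exact hw
    · simp [Psi, sec, norm_smul, hω, he]
  have hac : volume.restrict D ≪ nuD m D := by
    refine withDensity_absolutelyContinuous' (by fun_prop) ?_
    filter_upwards [ae_restrict_mem hDm] with w hw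
    have : 0 < w.re ^ (m - 1) := pow_pos (hpos w hw) _
    simp [this]
  refine ⟨AEStronglyMeasurable.mono_ac hac (b1.congr ?_), c, C, hc, hac.ae_le ?_⟩
  · filter_upwards [ae_nuD hDm] with w hw
    exact key w hw
  · filter_upwards [ae_nuD hDm, b2] with w hw hw2
    rw [← key w hw]
    exact hw2

theorem sol_congr {W : Set (X m)} (hW : MeasurableSet W) {γ γ' : X m → ℝ} (h : ∀ x ∈ W, γ x = γ' x) {u : X m → ℝ}
    {G : X m → X m} (hu : IsSolN W γ' u G) : IsSolN W γ u G := by
  refine ⟨hu.1, fun φ hφ => ?_⟩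
  rw [← hu.2 φ hφ]
  exact setIntegral_congr_fun hW fun x hx => by simp only [h x hx]

theorem local_congr {W Γ : Set (X m)} (hW : MeasurableSet W) {γ₁ γ₁' γ₂ γ₂' : X m → ℝ} (h1 : ∀ x ∈ W, γ₁ x = γ₁' x)
    (h2 : ∀ x ∈ W, γ₂ x = γ₂' x) (h : SameRotDN W Γ γ₁ γ₂) : SameRotDN W Γ γ₁' γ₂' := by
  intro u₁ u₂ G₁ G₂ s1 s2 q1 q2 hd ht v V hv qv htv
  have := h u₁ u₂ G₁ G₂ (sol_congr hW h1 s1) (sol_congr hW h2 s2) q1 q2 hd ht v V hv qv htv
  have e1 : ∫ x in W, γ₁ x * dotN (G₁ x) (V x) = ∫ x in W, γ₁' x * dotN (G₁ x) (V x) :=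
    setIntegral_congr_fun hW fun x hx => by simp only [h1 x hx]
  have e2 : ∫ x in W, γ₂ x * dotN (G₂ x) (V x) = ∫ x in W, γ₂' x * dotN (G₂ x) (V x) :=
    setIntegral_congr_fun hW fun x hx => by simp only [h2 x hx]
  rw [← e1, ← e2]
  exact this

/-- The local theorem. -/
theorem thm_local (hm : 1 ≤ m) {W Γ : Set (X m)} (hWo : IsOpen W) (hc : IsConnected W) (hb : Bornology.IsBounded W)
    (hr : RotSet W) (hax : ∃ δ : ℝ, 0 < δ ∧ ∀ x ∈ W, δ ≤ ‖x.1‖) (hΓ : ∃ O : Set (X m), IsOpen O ∧ Γ = O ∩ frontier W)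
    (hΓr : RotSet Γ) (hne : (Γ ∩ closure (closure W)ᶜ).Nonempty) {γ₁ γ₂ : X m → ℝ} (h1 : IsCondN W γ₁)
    (h2 : IsCondN W γ₂) (r1 : RotFun W γ₁) (r2 : RotFun W γ₂) (h : SameRotDN W Γ γ₁ γ₂) :
    γ₁ =ᵐ[volume.restrict W] γ₂ := by
  obtain ⟨δ, hδ, hax⟩ := hax
  obtain ⟨O, hO, hΓO⟩ := hΓ
  set D : Set ℂ := prof '' W with hDdef
  have hWD : W = rev m D := (rotSet_eq hr).symm
  have hD : ∀ w ∈ D, δ ≤ w.re := by
    rintro _ ⟨x, hx, rfl⟩
    rw [prof_re]
    exact hax x hx
  have hpos : ∀ w ∈ D, 0 < w.re := fun w hw => hδ.trans_le (hD w hw)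
  set e : E m := EuclideanSpace.single ⟨0, hm⟩ 1 with hedef
  have he : ‖e‖ = 1 := by rw [hedef]; simp
  have hsec : ∀ x : X m, ‖(sec e (prof x)).1‖ = ‖x.1‖ ∧ (sec e (prof x)).2 = x.2 := by
    intro x
    refine ⟨?_, prof_im x⟩
    show ‖(prof x).re • e‖ = ‖x.1‖
    rw [norm_smul, he, mul_one, prof_re, norm_norm]
  have hDo : IsOpen D := by
    have : D = {w : ℂ | 0 < w.re} ∩ sec e ⁻¹' W := by
      apply Subset.antisymm
      · rintro _ ⟨x, hx, rfl⟩
        exact ⟨hpos _ ⟨x, hx, rfl⟩, hr x _ (hsec x).1.symm (hsec x).2.symm hx⟩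
      · rintro w ⟨hw0, hw⟩
        exact ⟨sec e w, hw, prof_sec he hw0⟩
    rw [this]
    exact (isOpen_lt continuous_const Complex.continuous_re).inter (hWo.preimage (sec_cont e))
  have hDc : IsConnected D := hc.image _ continuous_prof.continuousOn
  have hDb : Bornology.IsBounded D :=
    (hb.isCompact_closure.image continuous_prof).isBounded.subset (image_mono subset_closure)
  have hfr : frontier W = prof ⁻¹' frontier D := by
    rw [hWD]
    exact rev_frontier hDo hδ hD
  have hcl : closure W = prof ⁻¹' closure D := by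
    rw [hWD]
    exact rev_closure hδ hD
  have hΓe : prof ⁻¹' (prof '' Γ) = Γ := rotSet_eq hΓr
  have hΓ' : OpenInBdry D (prof '' Γ) := by
    refine ⟨sec e ⁻¹' O, hO.preimage (sec_cont e), ?_⟩
    apply Subset.antisymm
    · rintro _ ⟨x, hx, rfl⟩
      have hx2 : sec e (prof x) ∈ Γ := hΓr x _ (hsec x).1.symm (hsec x).2.symm hx
      rw [hΓO] at hx hx2
      refine ⟨hx2.1, ?_⟩
      have := hx.2
      rw [hfr] at this
      exact this
    · rintro w ⟨hwO, hwf⟩
      have hw0 : 0 < w.re := by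
        have hclo : IsClosed {w : ℂ | δ ≤ w.re} := isClosed_le continuous_const Complex.continuous_re
        have : δ ≤ w.re := closure_minimal hD hclo (frontier_subset_closure hwf)
        linarith
      refine ⟨sec e w, ?_, prof_sec he hw0⟩
      rw [hΓO, hfr]
      refine ⟨hwO, ?_⟩
      rw [mem_preimage, prof_sec he hw0]
      exact hwf
  have hne' : (prof '' Γ ∩ closure (closure D)ᶜ).Nonempty := by
    obtain ⟨x, hx1, hx2⟩ := hne
    refine ⟨prof x, ⟨x, hx1, rfl⟩, map_mem_closure continuous_prof hx2 ?_⟩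
    intro y hy hy2
    apply hy
    rw [hcl]
    exact hy2
  have hWm : MeasurableSet W := hWo.measurableSet
  have k1 : IsConductivity D (fun w => γ₁ (sec e w)) :=
    cond_pre hm hDo.measurableSet hpos (by rw [← hWD]; exact h1) (by rw [← hWD]; exact r1) he
  have k2 : IsConductivity D (fun w => γ₂ (sec e w)) :=
    cond_pre hm hDo.measurableSet hpos (by rw [← hWD]; exact h2) (by rw [← hWD]; exact r2) he
  have c1 : ∀ x ∈ W, γ₁ x = γ₁ (sec e (prof x)) := fun x hx =>
    r1 x hx _ (hr x _ (hsec x).1.symm (hsec x).2.symm hx) (hsec x).1.symm (hsec x).2.symm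
  have c2 : ∀ x ∈ W, γ₂ x = γ₂ (sec e (prof x)) := fun x hx =>
    r2 x hx _ (hr x _ (hsec x).1.symm (hsec x).2.symm hx) (hsec x).1.symm (hsec x).2.symm
  have hloc := local_congr (γ₁' := fun x => γ₁ (sec e (prof x))) (γ₂' := fun x => γ₂ (sec e (prof x))) hWm c1 c2 h
  have hmain : (fun w => γ₁ (sec e w)) =ᵐ[volume.restrict D] fun w => γ₂ (sec e w) := by
    refine main hm hDo hDc hDb hΓ' hne' hδ hD k1 k2 ?_
    rw [hΓe, ← hWD]
    exact hloc
  have hq : ∀ᵐ x ∂((volume : Measure (X m)).restrict (rev m D)), γ₁ (sec e (prof x)) = γ₂ (sec e (prof x)) :=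
    (quasi hm hDo.measurableSet hpos).ae hmain
  rw [← hWD] at hq
  filter_upwards [hq, ae_restrict_mem hWm] with x hx hxW
  rw [c1 x hxW, c2 x hxW]
  exact hx

/-- The topological facts for `Γ = ∂W`. -/
theorem frontier_ok {W : Set (X m)} (hWo : IsOpen W) (hc : IsConnected W) (hb : Bornology.IsBounded W)
    (hr : RotSet W) (hax : ∃ δ : ℝ, 0 < δ ∧ ∀ x ∈ W, δ ≤ ‖x.1‖) :
    (∃ O : Set (X m), IsOpen O ∧ frontier W = O ∩ frontier W) ∧ RotSet (frontier W) ∧
      (frontier W ∩ closure (closure W)ᶜ).Nonempty := by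
  obtain ⟨δ, hδ, hax'⟩ := hax
  have hfr : RotSet (frontier W) := by
    have hWD : rev m (prof '' W) = W := rotSet_eq hr
    have hD : ∀ w ∈ prof '' W, δ ≤ w.re := by
      rintro _ ⟨x, hx, rfl⟩
      rw [prof_re]
      exact hax' x hx
    have : closure W = prof ⁻¹' closure (prof '' W) := by
      conv_lhs => rw [← hWD]
      exact rev_closure hδ hD
    have h2 : frontier W = prof ⁻¹' (closure (prof '' W) \ prof '' W) := by
      rw [hWo.frontier_eq, this, preimage_diff, rotSet_eq hr]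
    rw [h2]
    exact rotSet_pre _
  have hne : (frontier W ∩ closure (closure W)ᶜ).Nonempty := by
    have hu : closure W ≠ univ := by
      intro h0
      have : Bornology.IsBounded (univ : Set (X m)) := by
        rw [← h0]
        exact hb.closure
      exact NormedSpace.unbounded_univ ℝ (X m) this
    obtain ⟨x, hx⟩ := nonempty_frontier_iff.2 ⟨hc.nonempty.closure, hu⟩
    refine ⟨x, frontier_closure_subset hx, ?_⟩
    rw [frontier_eq_closure_inter_closure] at hx
    exact hx.2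
  exact ⟨⟨univ, isOpen_univ, by rw [univ_inter]⟩, hfr, hne⟩

/-- The theorem. -/
theorem thm (hm : 1 ≤ m) {W Γ : Set (X m)} (hWo : IsOpen W) (hc : IsConnected W) (hb : Bornology.IsBounded W)
    (hr : RotSet W) (hax : ∃ δ : ℝ, 0 < δ ∧ ∀ x ∈ W, δ ≤ ‖x.1‖)
    (hΓ : Γ = frontier W ∨
      ((∃ O : Set (X m), IsOpen O ∧ Γ = O ∩ frontier W) ∧ RotSet Γ ∧ (Γ ∩ closure (closure W)ᶜ).Nonempty))
    {γ₁ γ₂ : X m → ℝ} (h1 : IsCondN W γ₁) (h2 : IsCondN W γ₂) (r1 : RotFun W γ₁) (r2 : RotFun W γ₂)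
    (h : SameRotDN W Γ γ₁ γ₂) : γ₁ =ᵐ[volume.restrict W] γ₂ := by
  have hΓ' : (∃ O : Set (X m), IsOpen O ∧ Γ = O ∩ frontier W) ∧ RotSet Γ ∧ (Γ ∩ closure (closure W)ᶜ).Nonempty := by
    rcases hΓ with rfl | hΓ
    · exact frontier_ok hWo hc hb hr hax
    · exact hΓ
  exact thm_local hm hWo hc hb hr hax hΓ'.1 hΓ'.2.1 hΓ'.2.2 h1 h2 r1 r2 h

end

end RotCalderon
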