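import Pool.Agent.Lib.MP_70bd98_an.Gen
import Pool.Agent.Lib.MP_4ea4c7_an.AsmH

/-! # Lifts of functions of the half plane to radial functions -/

open MeasureTheory Complex Metric Set LocalCalderon Filter
open scoped ENNReal Topology Manifold ContDiff

namespace RotCalderon

noncomputable section

variable {m : ℕ}

theorem cut {K O : Set ℂ} (hK : IsCompact K) (hO : IsOpen O) (hKO : K ⊆ O) :
    ∃ η : ℂ → ℝ, IsTest univ η ∧ tsupport η ⊆ O ∧ ∀ x ∈ K, η =ᶠ[𝓝 x] fun _ => 1 := by
  obtain ⟨L, hL, hKL, hLO⟩ := exists_compact_between hK hO hKO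
  obtain ⟨f, h1, h2, _⟩ := exists_contMDiffMap_one_nhds_of_subset_interior (n := ⊤) 𝓘(ℝ, ℂ)
    hK.isClosed hKL
  have hs : tsupport (fun z => f z) ⊆ L := by
    refine closure_minimal ?_ hL.isClosed
    intro z hz
    by_contra h
    exact hz (h2 z h)
  refine ⟨fun z => f z, ⟨f.contMDiff.contDiff, ?_, subset_univ _⟩, hs.trans hLO, ?_⟩
  · exact hL.of_isClosed_subset (isClosed_tsupport _) hs
  · intro x hx
    exact (eventually_nhdsSet_iff_forall.1 h1) x hx

theorem prof_re (x : X m) : (prof x).re = ‖x.1‖ := by simp [prof]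
theorem prof_im (x : X m) : (prof x).im = x.2 := by simp [prof]

theorem compact_pre {K : Set ℂ} (hK : IsCompact K) : IsCompact (prof ⁻¹' K : Set (X m)) := by
  obtain ⟨R, hR⟩ := hK.isBounded.exists_norm_le
  refine (isCompact_closedBall (0 : X m) R).of_isClosed_subset (hK.isClosed.preimage continuous_prof) ?_
  intro x hx
  rw [mem_closedBall_zero_iff, Prod.norm_def]
  have h1 := hR _ hx
  refine max_le ?_ ?_
  · rw [← prof_re x]
    exact (le_abs_self _).trans ((Complex.abs_re_le_norm _).trans h1)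
  · rw [Real.norm_eq_abs, ← prof_im x]
    exact (Complex.abs_im_le_norm _).trans h1

theorem prof_deriv {x : X m} (hx : x.1 ≠ 0) : ∃ L : X m →L[ℝ] ℂ, HasFDerivAt prof L x ∧
    ∀ v, L v = ((inner ℝ x.1 v.1 / ‖x.1‖ : ℝ) : ℂ) + I * (v.2 : ℂ) := by
  have h1 : HasFDerivAt (fun y : E m => ‖y‖ ^ 2) (2 • (innerSL ℝ x.1)) x.1 := (hasStrictFDerivAt_norm_sq x.1).hasFDerivAt
  have h2 : HasFDerivAt (fun y : X m => ‖y.1‖ ^ 2) ((2 • (innerSL ℝ x.1)).comp (ContinuousLinearMap.fst ℝ (E m) ℝ)) x :=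
    HasFDerivAt.comp x h1 (hasFDerivAt_fst)
  have hne : ‖x.1‖ ^ 2 ≠ 0 := pow_ne_zero _ (norm_ne_zero_iff.2 hx)
  have h3 := h2.sqrt hne
  have h4 : (fun y : X m => √(‖y.1‖ ^ 2)) = fun y => ‖y.1‖ := by
    funext y; exact Real.sqrt_sq (norm_nonneg _)
  rw [h4] at h3
  have h5 := (Complex.ofRealCLM.hasFDerivAt.comp x h3).add
    (((Complex.ofRealCLM.hasFDerivAt.comp x (hasFDerivAt_snd (𝕜 := ℝ) (E := E m) (F := ℝ) (p := x)))).const_mul I)
  refine ⟨_, h5, fun v => ?_⟩
  simp only [ContinuousLinearMap.add_apply, ContinuousLinearMap.comp_apply, ContinuousLinearMap.smul_apply,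
    Complex.ofRealCLM_apply, ContinuousLinearMap.coe_fst', ContinuousLinearMap.coe_snd', innerSL_apply_apply, smul_eq_mul]
  rw [Real.sqrt_sq (norm_nonneg _)]
  congr 2
  have hn : ‖x.1‖ ≠ 0 := norm_ne_zero_iff.2 hx
  simp only [nsmul_eq_mul, Nat.cast_ofNat]
  field_simp

theorem lift_test {D : Set ℂ} {δ : ℝ} (hδ : 0 < δ) (hD : ∀ w ∈ D, δ ≤ w.re) {φ : ℂ → ℝ} (hφ : IsTest D φ) :
    IsTestN (rev m D) (fun x => φ (prof x)) ∧ ∀ x, gradN (fun x : X m => φ (prof x)) x = liftG (grad φ) x := by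
  have hK := compact_pre (m := m) hφ.2.1.isCompact
  have hts : tsupport (fun x : X m => φ (prof x)) ⊆ prof ⁻¹' (tsupport φ) := by
    refine closure_minimal ?_ hK.isClosed
    intro x hx
    exact subset_tsupport _ hx
  have hzero : ∀ x : X m, x.1 = 0 → (fun x : X m => φ (prof x)) =ᶠ[𝓝 x] fun _ => 0 := by
    intro x hx
    have hU : {y : X m | ‖y.1‖ < δ} ∈ 𝓝 x :=
      (isOpen_lt (continuous_norm.comp continuous_fst) continuous_const).mem_nhds (by simpa [hx] using hδ)
    filter_upwards [hU] with y hy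
    by_contra hcon
    have h1 : prof y ∈ D := hφ.2.2 (subset_tsupport _ hcon)
    have h2 := hD _ h1
    rw [prof_re] at h2
    have hy' : ‖y.1‖ < δ := hy
    linarith
  refine ⟨⟨?_, ?_, fun x hx => hφ.2.2 (hts hx)⟩, fun x => ?_⟩
  · rw [contDiff_iff_contDiffAt]
    intro x
    by_cases hx : x.1 = 0
    · exact contDiffAt_const.congr_of_eventuallyEq (hzero x hx)
    · have h1 : ContDiffAt ℝ (⊤ : ℕ∞) (fun y : X m => ‖y.1‖) x := (contDiffAt_norm ℝ hx).comp x contDiffAt_fst
      have h2 : ContDiffAt ℝ (⊤ : ℕ∞) (prof : X m → ℂ) x :=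
        (Complex.ofRealCLM.contDiff.contDiffAt.comp x h1).add
          (contDiffAt_const.mul (Complex.ofRealCLM.contDiff.contDiffAt.comp x contDiffAt_snd))
      exact hφ.1.contDiffAt.comp x h2
  · exact hK.of_isClosed_subset (isClosed_tsupport _) hts
  · by_cases hx : x.1 = 0
    · have h1 := hzero x hx
      have h2 : fderiv ℝ (fun x : X m => φ (prof x)) x = 0 := by
        rw [h1.fderiv_eq]; simp
      have h3 : prof x ∉ tsupport φ := by
        intro hcon
        have h2 := hD _ (hφ.2.2 hcon)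
        rw [prof_re, hx, norm_zero] at h2
        linarith
      have h4 : grad φ (prof x) = 0 := by
        unfold grad
        rw [fderiv_of_notMem_tsupport (𝕜 := ℝ) h3]; simp
      unfold gradN liftG
      rw [h2, h4]
      simp
    · obtain ⟨L, hL, hLv⟩ := prof_deriv hx
      have hd : DifferentiableAt ℝ φ (prof x) := (hφ.1.differentiable (by simp)).differentiableAt
      have h2 : fderiv ℝ (fun x : X m => φ (prof x)) x = (fderiv ℝ φ (prof x)).comp L :=
        (hd.hasFDerivAt.comp x hL).fderiv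
      unfold gradN liftG
      rw [h2]
      refine Prod.ext ?_ ?_
      · refine ext_inner_right ℝ fun y => ?_
        rw [InnerProductSpace.toDual_symm_apply]
        simp only [ContinuousLinearMap.comp_apply, ContinuousLinearMap.inl_apply, hLv, Complex.ofReal_zero, mul_zero,
          add_zero]
        have e1 : ((inner ℝ x.1 y / ‖x.1‖ : ℝ) : ℂ) = (inner ℝ x.1 y / ‖x.1‖ : ℝ) • (1 : ℂ) := by simp
        rw [e1, map_smul, inner_smul_left]
        simp only [grad, Complex.add_re, Complex.ofReal_re, Complex.mul_re, Complex.I_re, Complex.I_im,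
          Complex.ofReal_im, smul_eq_mul, RCLike.conj_to_real]
        ring
      · simp only [ContinuousLinearMap.comp_apply, hLv]
        simp [grad]

theorem liftG_sub (F F' : ℂ → ℂ) (x : X m) : liftG F x - liftG F' x = liftG (fun w => F w - F' w) x := by
  unfold liftG
  refine Prod.ext ?_ ?_
  · simp only [Prod.fst_sub, Complex.sub_re]
    rw [← sub_smul, ← sub_div]
  · simp

theorem liftG_norm (F : ℂ → ℂ) (x : X m) : ‖liftG F x‖ ≤ ‖F (prof x)‖ := by
  unfold liftG
  rw [Prod.norm_def]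
  refine max_le ?_ ?_
  · rw [norm_smul, norm_div, norm_norm]
    by_cases hx : ‖x.1‖ = 0
    · rw [hx, mul_zero]; exact norm_nonneg _
    · rw [div_mul_cancel₀ _ hx]
      exact Complex.abs_re_le_norm _
  · exact Complex.abs_im_le_norm _

theorem liftG_meas (hm : 1 ≤ m) {D : Set ℂ} (hD : MeasurableSet D) (hpos : ∀ w ∈ D, 0 < w.re) {F : ℂ → ℂ}
    (hF : AEStronglyMeasurable F (volume.restrict D)) :
    AEStronglyMeasurable (liftG F) ((volume : Measure (X m)).restrict (rev m D)) := by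
  have h1 : AEStronglyMeasurable (fun x : X m => F (prof x)) ((volume : Measure (X m)).restrict (rev m D)) :=
    hF.comp_quasiMeasurePreserving (quasi hm hD hpos)
  have h2 : AEStronglyMeasurable (fun x : X m => (F (prof x)).re) ((volume : Measure (X m)).restrict (rev m D)) :=
    Complex.continuous_re.comp_aestronglyMeasurable h1
  have h3 : AEStronglyMeasurable (fun x : X m => (F (prof x)).im) ((volume : Measure (X m)).restrict (rev m D)) :=
    Complex.continuous_im.comp_aestronglyMeasurable h1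
  have h4 : AEStronglyMeasurable (fun x : X m => ‖x.1‖⁻¹) ((volume : Measure (X m)).restrict (rev m D)) :=
    (measurable_norm.comp measurable_fst).inv.aestronglyMeasurable
  have h5 : AEStronglyMeasurable (fun x : X m => x.1) ((volume : Measure (X m)).restrict (rev m D)) :=
    continuous_fst.aestronglyMeasurable
  exact AEStronglyMeasurable.prodMk ((h2.mul h4).smul h5) h3

/-- The lift of an element of `L²`. -/
theorem lift_mem {F : Type*} [NormedAddCommGroup F] (hm : 1 ≤ m) {D : Set ℂ} (hD : MeasurableSet D) (hb : Bornology.IsBounded D)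
    (hpos : ∀ w ∈ D, 0 < w.re) {f : ℂ → F} (hf : MemLp f 2 (volume.restrict D)) :
    MemLp (fun x : X m => f (prof x)) 2 ((volume : Measure (X m)).restrict (rev m D)) := by
  obtain ⟨M, hM, hle⟩ := le_meas (m := m) hm hD hb hpos
  refine ⟨hf.1.comp_quasiMeasurePreserving (quasi hm hD hpos), ?_⟩
  refine (eL hm hD hpos hle f hf.1).trans_lt (ENNReal.mul_lt_top ?_ hf.2)
  exact ENNReal.rpow_lt_top_of_nonneg (by simp) hM

theorem liftG_mem (hm : 1 ≤ m) {D : Set ℂ} (hD : MeasurableSet D) (hb : Bornology.IsBounded D)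
    (hpos : ∀ w ∈ D, 0 < w.re) {F : ℂ → ℂ} (hf : MemLp F 2 (volume.restrict D)) :
    MemLp (liftG F) 2 ((volume : Measure (X m)).restrict (rev m D)) := by
  have h1 := lift_mem (m := m) hm hD hb hpos hf
  exact h1.mono (liftG_meas hm hD hpos hf.1) (Eventually.of_forall fun x => liftG_norm F x)

theorem lift_H10 (hm : 1 ≤ m) {D : Set ℂ} (hDo : IsOpen D) (hb : Bornology.IsBounded D) {δ : ℝ} (hδ : 0 < δ)
    (hD : ∀ w ∈ D, δ ≤ w.re) {u : ℂ → ℝ} (hu : H10 D u) :
    H10N (rev m D) (fun x => u (prof x)) (liftG (wgrad D u)) := by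
  have hpos : ∀ w ∈ D, 0 < w.re := fun w hw => hδ.trans_le (hD w hw)
  have hDm := hDo.measurableSet
  have hW : MeasurableSet (rev m D) := measurable_prof hDm
  have hG := (Cal.t_h1.1 D u hu.1).1
  obtain ⟨M, hM, hle⟩ := le_meas (m := m) hm hDm hb hpos
  have hK : M ^ (1 / (2 : ℝ≥0∞)).toReal ≠ ⊤ := (ENNReal.rpow_lt_top_of_nonneg (by simp) hM).ne
  set K := M ^ (1 / (2 : ℝ≥0∞)).toReal with hKdef
  refine apN_H10 hW (lift_mem hm hDm hb hpos hu.1.1) (liftG_mem hm hDm hb hpos hG) fun ε hε => ?_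
  have hKr : K = ENNReal.ofReal K.toReal := (ENNReal.ofReal_toReal hK).symm
  obtain ⟨φ, t1, t2, t3⟩ := hu.2 (ε / (K.toReal + 1)) (by positivity)
  have hbd : K * ENNReal.ofReal (ε / (K.toReal + 1)) ≤ ENNReal.ofReal ε := by
    rw [hKr, ← ENNReal.ofReal_mul ENNReal.toReal_nonneg]
    refine ENNReal.ofReal_le_ofReal ?_
    rw [ENNReal.toReal_ofReal ENNReal.toReal_nonneg, mul_div_assoc', div_le_iff₀ (by positivity)]
    nlinarith [ENNReal.toReal_nonneg (a := K)]
  obtain ⟨l1, l2⟩ := lift_test (m := m) hδ hD t1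
  have mφ : MemLp φ 2 (volume.restrict D) := (t1.1.continuous.memLp_of_hasCompactSupport t1.2.1).restrict D
  have mg : MemLp (grad φ) 2 (volume.restrict D) := by
    have := (Cal.t_h1.2.2.2.2.2.2.1 D φ hDo ⟨t1.1, t1.2.1, subset_univ _⟩)
    exact ((Cal.t_h1.1 D φ this.1).1).ae_eq this.2
  refine ⟨_, l1, ?_, ?_⟩
  · refine (eL hm hDm hpos hle (fun w => u w - φ w) (hu.1.1.1.sub mφ.1)).trans ?_
    exact (mul_le_mul' le_rfl t2).trans hbd
  · have e1 : (fun x : X m => liftG (wgrad D u) x - gradN (fun x => φ (prof x)) x) =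
        liftG fun w => wgrad D u w - grad φ w := by
      funext x
      rw [l2 x, liftG_sub]
    rw [e1]
    have e2 : eLpNorm (liftG (m := m) fun w => wgrad D u w - grad φ w) 2 ((volume : Measure (X m)).restrict (rev m D)) ≤
        eLpNorm (fun x : X m => wgrad D u (prof x) - grad φ (prof x)) 2 ((volume : Measure (X m)).restrict (rev m D)) :=
      eLpNorm_mono fun x => liftG_norm _ x
    refine e2.trans ((eL hm hDm hpos hle (fun w => wgrad D u w - grad φ w) (hG.1.sub mg.1)).trans ?_)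
    exact (mul_le_mul' le_rfl t3).trans hbd

end

end RotCalderon
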