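import Pool.Agent.Lib.MP_70bd98_an.Defs

/-! # Polar coordinates for functions of `(y, t)` -/

open MeasureTheory Complex Metric Set
open scoped ENNReal

namespace RotCalderon

noncomputable section

variable {m : ℕ}

/-- The unit sphere of `ℝ^m`. -/
abbrev Sp (m : ℕ) := sphere (0 : E m) 1

/-- The surface measure. -/
abbrev sig (m : ℕ) : Measure (Sp m) := (volume : Measure (E m)).toSphere

/-- Polar coordinates. -/
def Psi (p : Sp m × ℂ) : X m := (p.2.re • (p.1 : E m), p.2.im)

/-- The weighted measure on the half plane. -/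
def nu (m : ℕ) : Measure ℂ :=
  (volume.restrict {w : ℂ | 0 < w.re}).withDensity fun w => ENNReal.ofReal (w.re ^ (m - 1))

theorem measurable_Psi : Measurable (Psi (m := m)) := by
  unfold Psi
  refine Measurable.prodMk ?_ ?_
  · exact (Complex.measurable_re.comp measurable_snd).smul (measurable_subtype_coe.comp measurable_fst)
  · exact Complex.measurable_im.comp measurable_snd

theorem lint_E (h : E m → ℝ≥0∞) (hm : 1 ≤ m) (hh : Measurable h) :
    ∫⁻ y, h y = ∫⁻ ω, (∫⁻ r in Ioi (0 : ℝ), ENNReal.ofReal (r ^ (m - 1)) * h (r • (ω : E m))) ∂(sig m) := by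
  have : Nonempty (Fin m) := ⟨⟨0, hm⟩⟩
  have h1 : ∫⁻ y, h y = ∫⁻ y in ({0}ᶜ : Set (E m)), h y := by
    rw [restrict_compl_singleton]
  have h2 : ∫⁻ y in ({0}ᶜ : Set (E m)), h y
      = ∫⁻ y : ({0}ᶜ : Set (E m)), h y ∂(Measure.comap Subtype.val volume) :=
    (lintegral_subtype_comap (measurableSet_singleton _).compl h).symm
  have hP := (volume : Measure (E m)).measurePreserving_homeomorphUnitSphereProd
  have h3 := hP.lintegral_comp_emb (Homeomorph.measurableEmbedding _)
    (fun p : Sp m × Ioi (0 : ℝ) => h (p.2.1 • (p.1 : E m)))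
  have h4 : ∫⁻ y : ({0}ᶜ : Set (E m)), h y ∂(Measure.comap Subtype.val volume)
      = ∫⁻ p : Sp m × Ioi (0 : ℝ), h (p.2.1 • (p.1 : E m)) ∂((sig m).prod (Measure.volumeIoiPow (m - 1))) := by
    rw [finrank_euclideanSpace_fin] at h3
    rw [← h3]
    refine lintegral_congr fun y => ?_
    congr 1
    have := congrArg Subtype.val ((homeomorphUnitSphereProd (E m)).symm_apply_apply y)
    rw [homeomorphUnitSphereProd_symm_apply_coe] at this
    exact this.symm
  have hmeas : Measurable fun p : Sp m × Ioi (0 : ℝ) => h (p.2.1 • (p.1 : E m)) :=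
    hh.comp (((measurable_subtype_coe.comp measurable_snd)).smul (measurable_subtype_coe.comp measurable_fst))
  rw [h1, h2, h4, lintegral_prod _ hmeas.aemeasurable]
  refine lintegral_congr fun ω => ?_
  have hm2 : Measurable fun r : ℝ => h (r • (ω : E m)) := hh.comp (measurable_id.smul_const _)
  have hm3 : Measurable fun r : Ioi (0 : ℝ) => h (r.1 • (ω : E m)) := hm2.comp measurable_subtype_coe
  have hm4 : Measurable fun r : Ioi (0 : ℝ) => ENNReal.ofReal (r.1 ^ (m - 1)) := by fun_prop
  show ∫⁻ y : Ioi (0 : ℝ), h (y.1 • (ω : E m)) ∂(Measure.volumeIoiPow (m - 1)) = _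
  rw [Measure.volumeIoiPow, lintegral_withDensity_eq_lintegral_mul _ hm4 hm3]
  exact lintegral_subtype_comap measurableSet_Ioi (fun r : ℝ => ENNReal.ofReal (r ^ (m - 1)) * h (r • (ω : E m)))

theorem lint (hm : 1 ≤ m) (f : X m → ℝ≥0∞) (hf : Measurable f) :
    ∫⁻ x, f x = ∫⁻ p, f (Psi p) ∂((sig m).prod (nu m)) := by
  have hR : MeasurableSet {w : ℂ | 0 < w.re} := measurableSet_lt measurable_const Complex.measurable_re
  have : SFinite (nu m) := by unfold nu; infer_instance
  have e1 : ∫⁻ x, f x = ∫⁻ t : ℝ, ∫⁻ y : E m, f (y, t) := by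
    rw [show (volume : Measure (X m)) = (volume : Measure (E m)).prod (volume : Measure ℝ) from rfl,
      lintegral_prod_symm' _ hf]
  have e2 : ∫⁻ t : ℝ, ∫⁻ y : E m, f (y, t) = ∫⁻ t : ℝ, ∫⁻ ω, (∫⁻ r in Ioi (0 : ℝ),
      ENNReal.ofReal (r ^ (m - 1)) * f (r • (ω : E m), t)) ∂(sig m) :=
    lintegral_congr fun t => lint_E (fun y => f (y, t)) hm (hf.comp (measurable_id.prodMk measurable_const))
  have hfP : Measurable fun p : Sp m × ℂ => f (Psi p) := hf.comp measurable_Psi
  rw [e1, e2, lintegral_prod _ hfP.aemeasurable]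
  have hF : Measurable fun q : (ℝ × Sp m) × ℝ => ENNReal.ofReal (q.2 ^ (m - 1)) * f (q.2 • (q.1.2 : E m), q.1.1) := by
    refine Measurable.mul (by fun_prop) (hf.comp (Measurable.prodMk ?_ ?_))
    · exact measurable_snd.smul (measurable_subtype_coe.comp (measurable_snd.comp measurable_fst))
    · exact measurable_fst.comp measurable_fst
  rw [lintegral_lintegral_swap]
  · refine lintegral_congr fun ω => ?_
    have hmω : Measurable fun w : ℂ => f (Psi (ω, w)) :=
      (hf.comp measurable_Psi).comp (measurable_const.prodMk measurable_id)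
    rw [nu, lintegral_withDensity_eq_lintegral_mul _ (by fun_prop) hmω, ← lintegral_indicator hR]
    rw [← Complex.volume_preserving_equiv_real_prod.symm.lintegral_comp_emb
      (MeasurableEquiv.measurableEmbedding _)]
    rw [show (volume : Measure (ℝ × ℝ)) = (volume : Measure ℝ).prod (volume : Measure ℝ) from rfl,
      lintegral_prod_symm']
    · refine lintegral_congr fun t => ?_
      rw [← lintegral_indicator measurableSet_Ioi]
      refine lintegral_congr fun r => ?_
      simp only [indicator, mem_Ioi, mem_setOf_eq, Pi.mul_apply, Psi]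
      rfl
    · refine (Measurable.indicator ?_ hR).comp (MeasurableEquiv.measurable _)
      exact Measurable.mul (by fun_prop) hmω
  · exact (hF.lintegral_prod_right' (ν := volume.restrict (Ioi (0 : ℝ)))).aemeasurable

theorem map_Psi (hm : 1 ≤ m) : Measure.map Psi ((sig m).prod (nu m)) = (volume : Measure (X m)) := by
  refine Measure.ext_of_lintegral _ fun f hf => ?_
  rw [lintegral_map hf measurable_Psi, lint hm f hf]

end

end RotCalderon
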