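import Pool.Agent.Lib.MP_70bd98_an.Polar

/-! # The measure on a domain of revolution -/

open MeasureTheory Complex Metric Set
open scoped ENNReal

namespace RotCalderon

noncomputable section

variable {m : ℕ}

/-- The weighted measure on `D`. -/
def nuD (m : ℕ) (D : Set ℂ) : Measure ℂ := (volume.restrict D).withDensity fun w => ENNReal.ofReal (w.re ^ (m - 1))

theorem measurable_prof : Measurable (prof (m := m)) := by
  unfold prof
  fun_prop

theorem prof_Psi (ω : Sp m) {w : ℂ} (hw : 0 < w.re) : prof (Psi (ω, w)) = w := by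
  have h1 : ‖(ω : E m)‖ = 1 := by simpa using ω.2
  apply Complex.ext
  · simp [prof, Psi, norm_smul, h1, abs_of_pos hw]
  · simp [prof, Psi]

theorem nu_restrict {D : Set ℂ} (hD : MeasurableSet D) (hpos : ∀ w ∈ D, 0 < w.re) : (nu m).restrict D = nuD m D := by
  have hR : MeasurableSet {w : ℂ | 0 < w.re} := measurableSet_lt measurable_const Complex.measurable_re
  have h1 : D ∩ {w : ℂ | 0 < w.re} = D := inter_eq_left.2 fun w hw => hpos w hw
  rw [nu, nuD, restrict_withDensity hD, Measure.restrict_restrict hD, h1]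

theorem ae_nu : ∀ᵐ w ∂(nu m), 0 < w.re := by
  have hR : MeasurableSet {w : ℂ | 0 < w.re} := measurableSet_lt measurable_const Complex.measurable_re
  have : (nu m) ≪ volume.restrict {w : ℂ | 0 < w.re} := withDensity_absolutelyContinuous _ _
  exact this.ae_le (ae_restrict_mem hR)

instance : SFinite (nu m) := by unfold nu; infer_instance
instance (D : Set ℂ) : SFinite (nuD m D) := by unfold nuD; infer_instance

theorem restrict_rev (hm : 1 ≤ m) {D : Set ℂ} (hD : MeasurableSet D) (hpos : ∀ w ∈ D, 0 < w.re) :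
    (volume : Measure (X m)).restrict (rev m D) = Measure.map Psi ((sig m).prod (nuD m D)) := by
  have hW : MeasurableSet (rev m D) := measurable_prof hD
  rw [← map_Psi hm, Measure.restrict_map measurable_Psi hW, ← nu_restrict hD hpos]
  congr 1
  have h1 : (Psi ⁻¹' (rev m D) : Set (Sp m × ℂ)) =ᵐ[(sig m).prod (nu m)] (univ ×ˢ D : Set (Sp m × ℂ)) := by
    have h2 : ∀ᵐ p ∂((sig m).prod (nu m)), 0 < p.2.re := by
      have := Measure.quasiMeasurePreserving_snd (μ := sig m) (ν := nu m)
      exact this.ae ae_nu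
    filter_upwards [h2] with p hp
    have : (p ∈ (Psi ⁻¹' (rev m D) : Set (Sp m × ℂ))) = (p ∈ (univ ×ˢ D : Set (Sp m × ℂ))) := by
      simp only [mem_preimage, rev, mem_setOf_eq, mem_prod, mem_univ, true_and]
      rw [show Psi p = Psi (p.1, p.2) from rfl, prof_Psi p.1 hp]
    exact this
  rw [Measure.restrict_congr_set h1, ← Measure.prod_restrict, Measure.restrict_univ]

theorem ae_nuD {D : Set ℂ} (hD : MeasurableSet D) : ∀ᵐ w ∂(nuD m D), w ∈ D := by
  have : (nuD m D) ≪ volume.restrict D := withDensity_absolutelyContinuous _ _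
  exact this.ae_le (ae_restrict_mem hD)

theorem map_prof (hm : 1 ≤ m) {D : Set ℂ} (hD : MeasurableSet D) (hpos : ∀ w ∈ D, 0 < w.re) :
    Measure.map prof ((volume : Measure (X m)).restrict (rev m D)) = (sig m univ) • nuD m D := by
  rw [restrict_rev hm hD hpos, Measure.map_map measurable_prof measurable_Psi]
  have h1 : (prof ∘ Psi : Sp m × ℂ → ℂ) =ᵐ[(sig m).prod (nuD m D)] Prod.snd := by
    have h2 : ∀ᵐ p ∂((sig m).prod (nuD m D)), p.2 ∈ D := by
      have := Measure.quasiMeasurePreserving_snd (μ := sig m) (ν := nuD m D)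
      exact this.ae (ae_nuD hD)
    filter_upwards [h2] with p hp
    show prof (Psi (p.1, p.2)) = p.2
    rw [prof_Psi p.1 (hpos _ hp)]
  rw [Measure.map_congr h1, Measure.map_snd_prod]

end

end RotCalderon
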