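import Pool.Agent.Lib.MP_70bd98_an.Ang

/-! # Product conductivities: reduction to the plane -/

open MeasureTheory Complex Metric Set LocalCalderon Filter
open scoped ENNReal Topology

namespace RotCalderon

noncomputable section

variable {m : ℕ}

/-- The planar local theorem in terms of solutions. -/
theorem planar_core {D Γ : Set ℂ} (hDo : IsOpen D) (hc : IsConnected D) (hb : Bornology.IsBounded D)
    (hΓ : OpenInBdry D Γ) (hne : (Γ ∩ closure (closure D)ᶜ).Nonempty) {σ₁ σ₂ : ℂ → ℝ}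
    (k1 : IsConductivity D σ₁) (k2 : IsConductivity D σ₂)
    (h : ∀ u₁ u₂ ψ : ℂ → ℝ, IsSol D σ₁ u₁ → IsSol D σ₂ u₂ → H10 D (fun z => u₁ z + (-1) * u₂ z) →
      TraceIn D Γ u₁ → H1 D ψ → TraceIn D Γ ψ →
      ∫ w in D, σ₁ w * dot (wgrad D u₁ w) (wgrad D ψ w) = ∫ w in D, σ₂ w * dot (wgrad D u₂ w) (wgrad D ψ w)) :
    σ₁ =ᵐ[volume.restrict D] σ₂ := by
  obtain ⟨c₁, C₁, γ₁, hc₁, hcC₁, hC₁, e₁⟩ := Cal.t_norm.1 D _ k1
  obtain ⟨c₂, C₂, γ₂, hc₂, hcC₂, hC₂, e₂⟩ := Cal.t_norm.1 D _ k2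
  have q1 : Cal.Cond (min c₁ c₂) (max C₁ C₂) γ₁ := hC₁ _ _ (lt_min hc₁ hc₂) (min_le_left _ _) (le_max_left _ _)
  have q2 : Cal.Cond (min c₁ c₂) (max C₁ C₂) γ₂ := hC₂ _ _ (lt_min hc₁ hc₂) (min_le_right _ _) (le_max_right _ _)
  have hcd : cauchyData D Γ γ₁ = cauchyData D Γ γ₂ := by
    refine Cal.t_back2 _ _ γ₁ γ₂ D Γ (lt_min hc₁ hc₂) q1 q2 hDo hb hΓ fun u ψ hu tu hψ tψ => ?_
    intro G₁ G₂ d1 d2
    have hGu := (Cal.t_h1.1 D u hu).1
    obtain ⟨⟨u₁, a1, b1, s1⟩, l1⟩ := Cal.t_lift _ _ (lt_min hc₁ hc₂) γ₁ q1 D hDo hb u hu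
    obtain ⟨⟨u₂, a2, b2, s2⟩, l2⟩ := Cal.t_lift _ _ (lt_min hc₁ hc₂) γ₂ q2 D hDo hb u hu
    have f1 := (Cal.t_dnex _ _ (lt_min hc₁ hc₂) γ₁ q1 D hDo _ hGu).2 _ _ d1 (l1 u₁ b1 s1)
    have f2 := (Cal.t_dnex _ _ (lt_min hc₁ hc₂) γ₂ q2 D hDo _ hGu).2 _ _ d2 (l2 u₂ b2 s2)
    have b12 : H10 D (fun z => u₁ z + (-1) * u₂ z) := by
      have := (Cal.t_h10 D hDo).2.1 _ _ (-1) b1 b2
      have e : (fun z => u₁ z - u z + (-1) * (u₂ z - u z)) = fun z => u₁ z + (-1) * u₂ z := by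
        funext z; ring
      rwa [e] at this
    have t1 : TraceIn D Γ u₁ := by
      have := (Cal.t_trc D Γ hDo hb hΓ).2.1 u _ tu b1
      have e : (fun z => u z + (u₁ z - u z)) = u₁ := by
        funext z; ring
      rwa [e] at this
    have key := h u₁ u₂ ψ (isSol_congr e₁ s1) (isSol_congr e₂ s2) b12 t1 hψ tψ
    have r1 : ∫ z in D, γ₁ z * Cal.ip (G₁ z) (wgrad D ψ z) = ∫ w in D, σ₁ w * dot (wgrad D u₁ w) (wgrad D ψ w) := by
      refine integral_congr_ae ?_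
      filter_upwards [f1, e₁] with z hz1 hz2
      rw [hz1, ← hz2, Cal.t_h1.2.2.2.2.2.2.2.2]
    have r2 : ∫ z in D, γ₂ z * Cal.ip (G₂ z) (wgrad D ψ z) = ∫ w in D, σ₂ w * dot (wgrad D u₂ w) (wgrad D ψ w) := by
      refine integral_congr_ae ?_
      filter_upwards [f2, e₂] with z hz1 hz2
      rw [hz1, ← hz2, Cal.t_h1.2.2.2.2.2.2.2.2]
    rw [r1, r2]
    exact key
  have hcd' : cauchyData D Γ σ₁ = cauchyData D Γ σ₂ := by
    rw [Cal.t_norm.2 D Γ _ _ e₁, Cal.t_norm.2 D Γ _ _ e₂, hcd]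
  exact Cal.t_final3 D Γ _ _ hDo hc hb hΓ hne k1 k2 hcd'

theorem cond_smul {D : Set ℂ} {σ : ℂ → ℝ} (k : IsConductivity D σ) {A : ℝ} (hA : 0 < A) : IsConductivity D (fun w => A * σ w) := by
  obtain ⟨h1, c, C, hc, h2⟩ := k
  refine ⟨h1.const_mul A, A * c, A * C, by positivity, ?_⟩
  filter_upwards [h2] with w hw
  exact ⟨mul_le_mul_of_nonneg_left hw.1 hA.le, mul_le_mul_of_nonneg_left hw.2 hA.le⟩

theorem sol_smul {D : Set ℂ} {σ u : ℂ → ℝ} {A : ℝ} (hA : A ≠ 0) : IsSol D (fun w => A * σ w) u ↔ IsSol D σ u := by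
  have key : ∀ φ : ℂ → ℝ, ∫ z in D, (A * σ z) * dot (wgrad D u z) (grad φ z) = A * ∫ z in D, σ z * dot (wgrad D u z) (grad φ z) := by
    intro φ
    rw [← integral_const_mul]
    refine integral_congr_ae (Eventually.of_forall fun w => ?_)
    simp only
    ring
  constructor
  · rintro ⟨h1, h2⟩
    refine ⟨h1, fun φ hφ => ?_⟩
    have := h2 φ hφ
    rw [key] at this
    exact (mul_eq_zero.1 this).resolve_left hA
  · rintro ⟨h1, h2⟩
    refine ⟨h1, fun φ hφ => ?_⟩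
    rw [key, h2 φ hφ, mul_zero]

/-- The local Dirichlet-to-Neumann form is not zero. -/
theorem nondeg {D Γ : Set ℂ} (hDo : IsOpen D) (hc : IsConnected D) (hb : Bornology.IsBounded D)
    (hΓ : OpenInBdry D Γ) (hne : (Γ ∩ closure (closure D)ᶜ).Nonempty) {σ : ℂ → ℝ} (k : IsConductivity D σ) :
    ∃ u ψ : ℂ → ℝ, IsSol D σ u ∧ TraceIn D Γ u ∧ H1 D ψ ∧ TraceIn D Γ ψ ∧
      ∫ w in D, σ w * dot (wgrad D u w) (wgrad D ψ w) ≠ 0 := by
  by_contra hcon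
  push Not at hcon
  have h2 : σ =ᵐ[volume.restrict D] fun w => 2 * σ w := by
    refine planar_core hDo hc hb hΓ hne k (cond_smul k two_pos) ?_
    intro u₁ u₂ ψ s1 s2 hd t1 hψ tψ
    have s2' : IsSol D σ u₂ := (sol_smul two_ne_zero).1 s2
    have t2 : TraceIn D Γ u₂ := by
      have hz := (Cal.t_h10 D hDo).2.1 _ _ (-1) ((Cal.t_h10 D hDo).1) hd
      have := (Cal.t_trc D Γ hDo hb hΓ).2.1 u₁ _ t1 hz
      have e : (fun z => u₁ z + (0 + (-1) * (u₁ z + (-1) * u₂ z))) = u₂ := by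
        funext z; ring
      rwa [e] at this
    rw [hcon u₁ ψ s1 t1 hψ tψ]
    have : ∫ w in D, (2 * σ w) * dot (wgrad D u₂ w) (wgrad D ψ w) =
        2 * ∫ w in D, σ w * dot (wgrad D u₂ w) (wgrad D ψ w) := by
      rw [← integral_const_mul]
      refine integral_congr_ae (Eventually.of_forall fun w => ?_)
      simp only
      ring
    rw [this, hcon u₂ ψ s2' t2 hψ tψ, mul_zero]
  obtain ⟨_, c, C, hc0, h3⟩ := k
  have h4 : ∀ᵐ w ∂(volume.restrict D), False := by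
    filter_upwards [h2, h3] with w hw hw2
    have := hw2.1
    have : σ w = 2 * σ w := hw
    linarith [hw2.1]
  have h5 : volume.restrict D = 0 := by
    rw [← ae_eq_bot]
    exact Filter.eventually_false_iff_eq_bot.1 h4
  have h6 : volume D = 0 := by
    rw [← Measure.restrict_apply_univ, h5]
    simp
  exact (hDo.measure_pos volume hc.nonempty).ne' h6

/-- The lift of a solution, with an angular factor. -/
theorem lift_solA (hm : 1 ≤ m) {D : Set ℂ} (hDo : IsOpen D) (hb : Bornology.IsBounded D) {δ : ℝ} (hδ : 0 < δ)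
    (hD : ∀ w ∈ D, δ ≤ w.re) (a : E m → ℝ) {g u : ℂ → ℝ} (hu : IsSol D (fun w => g w * w.re ^ (m - 1)) u) :
    IsSolN (rev m D) (fun x => a (om x) * g (prof x)) (fun x => u (prof x)) (liftG (wgrad D u)) :=
  ⟨lift_H1 hm hDo hb hδ hD hu.1, fun φ hφ => eqnA hm hDo.measurableSet hδ hD a g (wgrad D u) hu.2 φ hφ⟩

/-- The data in terms of the planar forms. -/
theorem lift_data (hm : 1 ≤ m) {D Γ : Set ℂ} (hDo : IsOpen D) (hb : Bornology.IsBounded D) {δ : ℝ} (hδ : 0 < δ)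
    (hD : ∀ w ∈ D, δ ≤ w.re) {g₁ g₂ : ℂ → ℝ} (h1 : IsConductivity D g₁) (h2 : IsConductivity D g₂) {a₁ a₂ : E m → ℝ}
    (ha₁ : AEStronglyMeasurable a₁ (sE m)) (ha₂ : AEStronglyMeasurable a₂ (sE m))
    (h : SameSymDN (rev m D) (prof ⁻¹' Γ) (fun x => a₁ (om x) * g₁ (prof x)) (fun x => a₂ (om x) * g₂ (prof x)))
    {u₁ u₂ ψ : ℂ → ℝ} (s1 : IsSol D (fun w => g₁ w * w.re ^ (m - 1)) u₁) (s2 : IsSol D (fun w => g₂ w * w.re ^ (m - 1)) u₂)
    (b12 : H10 D (fun z => u₁ z + (-1) * u₂ z)) (t1 : TraceIn D Γ u₁) (hψ : H1 D ψ) (tψ : TraceIn D Γ ψ)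
    {χ : E m → ℝ} (hχ : ContDiff ℝ (⊤ : ℕ∞) χ) :
    (∫ y, a₁ y * χ y ∂(sE m)) * ∫ w in D, (g₁ w * w.re ^ (m - 1)) * dot (wgrad D u₁ w) (wgrad D ψ w) =
      (∫ y, a₂ y * χ y ∂(sE m)) * ∫ w in D, (g₂ w * w.re ^ (m - 1)) * dot (wgrad D u₂ w) (wgrad D ψ w) := by
  have hpos : ∀ w ∈ D, 0 < w.re := fun w hw => hδ.trans_le (hD w hw)
  have hDm := hDo.measurableSet
  have hW : MeasurableSet (rev m D) := measurable_prof hDm
  have hGψ := (Cal.t_h1.1 D ψ hψ).1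
  have S1 := lift_solA (m := m) hm hDo hb hδ hD a₁ s1
  have S2 := lift_solA (m := m) hm hDo hb hδ hD a₂ s2
  have w12 := (Cal.t_h1.2.2.1 D u₁ u₂ (-1) hDo s1.1 s2.1).2
  have w12' : ∀ᵐ x ∂((volume : Measure (X m)).restrict (rev m D)), wgrad D (fun z => u₁ z + (-1) * u₂ z) (prof x) =
      wgrad D u₁ (prof x) + (-1) * wgrad D u₂ (prof x) := by
    have := (quasi (m := m) hm hDm hpos).ae w12
    filter_upwards [this] with x hx
    rw [hx]; simp
  have B12 : H10N (rev m D) (fun x => u₁ (prof x) - u₂ (prof x))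
      (fun x => liftG (wgrad D u₁) x - liftG (wgrad D u₂) x) := by
    refine h10N_congr (lift_H10 (m := m) hm hDo hb hδ hD b12) (Eventually.of_forall fun x => ?_) ?_ hW
    · simp only
      ring
    · filter_upwards [w12'] with x hx
      rw [liftG_sub]
      unfold liftG
      rw [hx]
      simp [sub_eq_add_neg]
  have T1 := lift_trace (m := m) hm hDo hb hδ hD t1
  have Tψ := lift_trace (m := m) hm hDo hb hδ hD tψ
  have Hψ := lift_H1 (m := m) hm hDo hb hδ hD hψ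
  have hKδ : ∀ w ∈ closure D, δ ≤ w.re := by
    have hcl : IsClosed {w : ℂ | δ ≤ w.re} := isClosed_le continuous_const Complex.continuous_re
    exact closure_minimal hD hcl
  obtain ⟨η, hη, hη2⟩ := ang_test (m := m) hb.isCompact_closure hδ hKδ hχ
  have key := h _ _ _ _ S1 S2 (rotFun_prof _ u₁) (rotFun_prof _ u₂) B12 T1 _ _ (h1N_mul Hψ hη) (trN_mul hW Tψ hη)
  have red : ∀ (a : E m → ℝ) (g u : ℂ → ℝ), ∫ x in rev m D, (a (om x) * g (prof x)) * dotN (liftG (wgrad D u) x)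
      (η x • liftG (wgrad D ψ) x + ψ (prof x) • gradN η x) =
      ∫ x in rev m D, (fun y => a y * χ y) (om x) * (g (prof x) * dotN (liftG (wgrad D u) x) (liftG (wgrad D ψ) x)) := by
    intro a g u
    refine setIntegral_congr_fun hW fun x hx => ?_
    have hx1 : x.1 ≠ 0 := by
      intro h0
      have h1 := hpos _ hx
      rw [prof_re, h0, norm_zero] at h1
      exact lt_irrefl _ h1
    have hx2 := hη2 x (subset_closure hx)
    simp only
    rw [dotN_lin, ang_deriv hx1 hη hx2, hx2.self_of_nhds]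
    ring
  rw [red a₁ g₁ u₁, red a₂ g₂ u₂] at key
  have mχ : AEStronglyMeasurable χ (sE m) := hχ.continuous.aestronglyMeasurable
  rw [formA (b := fun y => a₁ y * χ y) hm hDm hpos (ha₁.mul mχ) h1.1 (Cal.t_h1.1 D u₁ s1.1).1.1 hGψ.1,
    formA (b := fun y => a₂ y * χ y) hm hDm hpos (ha₂.mul mχ) h2.1 (Cal.t_h1.1 D u₂ s2.1).1.1 hGψ.1] at key
  exact key

end

end RotCalderon
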