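import Pool.Agent.Lib.MP_70bd98_an.SepA

/-! # Product conductivities: the main theorem for the profile -/

open MeasureTheory Complex Metric Set LocalCalderon Filter
open scoped ENNReal Topology ContDiff

namespace RotCalderon

noncomputable section

variable {m : ℕ}

instance : IsFiniteMeasure (sE m) := by
  unfold sE
  infer_instance

theorem sE_univ (hm : 1 ≤ m) : (sE m univ).toReal ≠ 0 := by
  have : sE m univ = sig m univ := by
    unfold sE
    rw [Measure.map_apply measurable_subtype_coe MeasurableSet.univ, preimage_univ]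
  rw [this]
  exact sig_pos hm

theorem int_pos (hm : 1 ≤ m) {a : E m → ℝ} (ha : AEStronglyMeasurable a (sE m))
    (hb : ∃ c C : ℝ, 0 < c ∧ ∀ᵐ y ∂(sE m), c ≤ a y ∧ a y ≤ C) : Integrable a (sE m) ∧ 0 < ∫ y, a y ∂(sE m) := by
  obtain ⟨c, C, hc, h⟩ := hb
  have hi : Integrable a (sE m) := by
    refine Integrable.of_bound ha C ?_
    filter_upwards [h] with y hy
    rw [Real.norm_eq_abs, abs_of_pos (hc.trans_le hy.1)]
    exact hy.2
  refine ⟨hi, ?_⟩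
  have h1 : ∫ _y, c ∂(sE m) ≤ ∫ y, a y ∂(sE m) := by
    refine integral_mono_ae (integrable_const c) hi ?_
    filter_upwards [h] with y hy
    exact hy.1
  have h2 : 0 < ∫ _y, c ∂(sE m) := by
    rw [integral_const, smul_eq_mul]
    refine mul_pos ?_ hc
    exact lt_of_le_of_ne ENNReal.toReal_nonneg (sE_univ hm).symm
  exact h2.trans_le h1

theorem mainSep (hm : 1 ≤ m) {D Γ : Set ℂ} (hDo : IsOpen D) (hc : IsConnected D) (hb : Bornology.IsBounded D)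
    (hΓ : OpenInBdry D Γ) (hne : (Γ ∩ closure (closure D)ᶜ).Nonempty) {δ : ℝ} (hδ : 0 < δ) (hD : ∀ w ∈ D, δ ≤ w.re)
    {g₁ g₂ : ℂ → ℝ} (h1 : IsConductivity D g₁) (h2 : IsConductivity D g₂) {a₁ a₂ : E m → ℝ}
    (ha₁ : AEStronglyMeasurable a₁ (sE m)) (ha₂ : AEStronglyMeasurable a₂ (sE m))
    (ca₁ : ∃ c C : ℝ, 0 < c ∧ ∀ᵐ y ∂(sE m), c ≤ a₁ y ∧ a₁ y ≤ C)
    (ca₂ : ∃ c C : ℝ, 0 < c ∧ ∀ᵐ y ∂(sE m), c ≤ a₂ y ∧ a₂ y ≤ C)
    (h : SameSymDN (rev m D) (prof ⁻¹' Γ) (fun x => a₁ (om x) * g₁ (prof x)) (fun x => a₂ (om x) * g₂ (prof x))) :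
    ∀ᵐ x ∂((volume : Measure (X m)).restrict (rev m D)), a₁ (om x) * g₁ (prof x) = a₂ (om x) * g₂ (prof x) := by
  have hpos : ∀ w ∈ D, 0 < w.re := fun w hw => hδ.trans_le (hD w hw)
  have hDm := hDo.measurableSet
  obtain ⟨i1, p1⟩ := int_pos hm ha₁ ca₁
  obtain ⟨i2, p2⟩ := int_pos hm ha₂ ca₂
  set A₁ := ∫ y, a₁ y ∂(sE m) with hA₁
  set A₂ := ∫ y, a₂ y ∂(sE m) with hA₂
  have k1 := cond_w hDm hb hδ hD (m - 1) h1
  have k2 := cond_w hDm hb hδ hD (m - 1) h2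
  have one1 : ∫ y, a₁ y * (fun _ : E m => (1 : ℝ)) y ∂(sE m) = A₁ := by
    rw [hA₁]
    exact integral_congr_ae (Eventually.of_forall fun y => by simp)
  have one2 : ∫ y, a₂ y * (fun _ : E m => (1 : ℝ)) y ∂(sE m) = A₂ := by
    rw [hA₂]
    exact integral_congr_ae (Eventually.of_forall fun y => by simp)
  have pull : ∀ (A : ℝ) (s F G : ℂ → ℂ) (σ : ℂ → ℝ), ∫ w in D, (A * σ w) * dot (F w) (G w) = A * ∫ w in D, σ w * dot (F w) (G w) := by
    intro A _ F G σ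
    rw [← integral_const_mul]
    refine integral_congr_ae (Eventually.of_forall fun w => ?_)
    simp only
    ring
  have hE : (fun w => A₁ * (g₁ w * w.re ^ (m - 1))) =ᵐ[volume.restrict D] fun w => A₂ * (g₂ w * w.re ^ (m - 1)) := by
    refine planar_core hDo hc hb hΓ hne (cond_smul k1 p1) (cond_smul k2 p2) ?_
    intro u₁ u₂ ψ s1 s2 hd t1 hψ tψ
    have := lift_data (m := m) hm hDo hb hδ hD h1 h2 ha₁ ha₂ h ((sol_smul p1.ne').1 s1) ((sol_smul p2.ne').1 s2) hd t1 hψ tψ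
      (χ := fun _ => 1) contDiff_const
    rw [one1, one2] at this
    rw [pull A₁ (fun _ => 0) _ _ (fun w => g₁ w * w.re ^ (m - 1)), pull A₂ (fun _ => 0) _ _ (fun w => g₂ w * w.re ^ (m - 1))]
    exact this
  obtain ⟨u, ψ, su, tu, hψ, tψ, hB⟩ := nondeg hDo hc hb hΓ hne k1
  have su2 : IsSol D (fun w => g₂ w * w.re ^ (m - 1)) u :=
    (sol_smul p2.ne').1 (isSol_congr hE.symm ((sol_smul p1.ne').2 su))
  have hz : H10 D (fun z => u z + (-1) * u z) := by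
    have e : (fun z => u z + (-1) * u z) = fun _ => 0 := by
      funext z; ring
    rw [e]
    exact (Cal.t_h10 D hDo).1
  set B₁ := ∫ w in D, (g₁ w * w.re ^ (m - 1)) * dot (wgrad D u w) (wgrad D ψ w) with hB₁
  set B₂ := ∫ w in D, (g₂ w * w.re ^ (m - 1)) * dot (wgrad D u w) (wgrad D ψ w) with hB₂
  have key : ∀ χ : E m → ℝ, ContDiff ℝ (⊤ : ℕ∞) χ →
      (∫ y, a₁ y * χ y ∂(sE m)) * B₁ = (∫ y, a₂ y * χ y ∂(sE m)) * B₂ := fun χ hχ =>
    lift_data (m := m) hm hDo hb hδ hD h1 h2 ha₁ ha₂ h su su2 hz tu hψ tψ hχ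
  have key1 : A₁ * B₁ = A₂ * B₂ := by
    have := key (fun _ => 1) contDiff_const
    rwa [one1, one2] at this
  have hsph : ∀ᵐ y ∂(sE m), A₂ * a₁ y - A₁ * a₂ y = 0 := by
    refine ae_eq_zero_of_integral_contDiff_smul_eq_zero
      (((i1.const_mul A₂).sub (i2.const_mul A₁)).locallyIntegrable) fun χ hχ hχs => ?_
    obtain ⟨C, hC⟩ := hχs.exists_bound_of_continuous hχ.continuous
    have mχ : AEStronglyMeasurable χ (sE m) := hχ.continuous.aestronglyMeasurable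
    have j1 : Integrable (fun y => a₁ y * χ y) (sE m) := i1.mul_bdd mχ (Eventually.of_forall hC)
    have j2 : Integrable (fun y => a₂ y * χ y) (sE m) := i2.mul_bdd mχ (Eventually.of_forall hC)
    have e : ∫ y, χ y • (A₂ * a₁ y - A₁ * a₂ y) ∂(sE m) =
        A₂ * (∫ y, a₁ y * χ y ∂(sE m)) - A₁ * ∫ y, a₂ y * χ y ∂(sE m) := by
      rw [← integral_const_mul, ← integral_const_mul, ← integral_sub (j1.const_mul A₂) (j2.const_mul A₁)]
      refine integral_congr_ae (Eventually.of_forall fun y => ?_)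
      simp only [smul_eq_mul]
      ring
    have hk := key χ hχ
    have : B₁ * (A₂ * (∫ y, a₁ y * χ y ∂(sE m)) - A₁ * ∫ y, a₂ y * χ y ∂(sE m)) = 0 := by
      have r1 : B₁ * (A₂ * (∫ y, a₁ y * χ y ∂(sE m)) - A₁ * ∫ y, a₂ y * χ y ∂(sE m)) =
        A₂ * ((∫ y, a₁ y * χ y ∂(sE m)) * B₁) - (A₁ * B₁) * ∫ y, a₂ y * χ y ∂(sE m) := by ring
      rw [r1, hk, key1]
      ring
    rw [e]
    exact (mul_eq_zero.1 this).resolve_left hB
  have q1 := (quasiO (m := m) hm hDm hpos).ae hsph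
  have q2 : ∀ᵐ x ∂((volume : Measure (X m)).restrict (rev m D)),
      A₁ * (g₁ (prof x) * (prof x).re ^ (m - 1)) = A₂ * (g₂ (prof x) * (prof x).re ^ (m - 1)) :=
    (quasi (m := m) hm hDm hpos).ae hE
  filter_upwards [q1, q2, ae_restrict_mem (measurable_prof hDm : MeasurableSet (rev m D))] with x hx1 hx2 hx3
  have hr : (prof x).re ^ (m - 1) ≠ 0 := pow_ne_zero _ (hpos _ hx3).ne'
  have hx2' : A₁ * g₁ (prof x) = A₂ * g₂ (prof x) := by
    refine mul_right_cancel₀ hr ?_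
    rw [mul_assoc, mul_assoc]
    exact hx2
  have hx1' : A₂ * a₁ (om x) = A₁ * a₂ (om x) := by linarith
  refine mul_left_cancel₀ (mul_ne_zero p1.ne' p2.ne') ?_
  calc A₁ * A₂ * (a₁ (om x) * g₁ (prof x)) = (A₂ * a₁ (om x)) * (A₁ * g₁ (prof x)) := by ring
    _ = (A₁ * a₂ (om x)) * (A₂ * g₂ (prof x)) := by rw [hx1', hx2']
    _ = A₁ * A₂ * (a₂ (om x) * g₂ (prof x)) := by ring

end

end RotCalderon
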