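import Pool.Agent.Lib.MP_70bd98_an.SepB
import Pool.Agent.Lib.MP_70bd98_an.SepN

/-! # Product conductivities on rotationally symmetric domains -/

open MeasureTheory Complex Metric Set LocalCalderon Filter
open scoped ENNReal Topology

namespace RotCalderon

noncomputable section

variable {m : ℕ}

theorem sym_congr {W Γ : Set (X m)} (hW : MeasurableSet W) {γ₁ γ₁' γ₂ γ₂' : X m → ℝ} (h1 : ∀ x ∈ W, γ₁ x = γ₁' x)
    (h2 : ∀ x ∈ W, γ₂ x = γ₂' x) (h : SameSymDN W Γ γ₁ γ₂) : SameSymDN W Γ γ₁' γ₂' := by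
  intro u₁ u₂ G₁ G₂ s1 s2 q1 q2 hd ht v V hv htv
  have := h u₁ u₂ G₁ G₂ (sol_congr hW h1 s1) (sol_congr hW h2 s2) q1 q2 hd ht v V hv htv
  have e1 : ∫ x in W, γ₁ x * dotN (G₁ x) (V x) = ∫ x in W, γ₁' x * dotN (G₁ x) (V x) :=
    setIntegral_congr_fun hW fun x hx => by simp only [h1 x hx]
  have e2 : ∫ x in W, γ₂ x * dotN (G₂ x) (V x) = ∫ x in W, γ₂' x * dotN (G₂ x) (V x) :=
    setIntegral_congr_fun hW fun x hx => by simp only [h2 x hx]
  rw [← e1, ← e2]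
  exact this

/-- The local theorem for product conductivities. -/
theorem sep_local (hm : 1 ≤ m) {W Γ : Set (X m)} (hWo : IsOpen W) (hc : IsConnected W) (hb : Bornology.IsBounded W)
    (hr : RotSet W) (hax : ∃ δ : ℝ, 0 < δ ∧ ∀ x ∈ W, δ ≤ ‖x.1‖) (hΓ : ∃ O : Set (X m), IsOpen O ∧ Γ = O ∩ frontier W)
    (hΓr : RotSet Γ) (hne : (Γ ∩ closure (closure W)ᶜ).Nonempty) {γ₁ γ₂ : X m → ℝ} (h1 : IsCondN W γ₁)
    (h2 : IsCondN W γ₂) (r1 : IsProd W γ₁) (r2 : IsProd W γ₂) (h : SameSymDN W Γ γ₁ γ₂) :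
    γ₁ =ᵐ[volume.restrict W] γ₂ := by
  obtain ⟨δ, hδ, hax⟩ := hax
  obtain ⟨O, hO, hΓO⟩ := hΓ
  set D : Set ℂ := prof '' W with hDdef
  have hWD : W = rev m D := (rotSet_eq hr).symm
  have hD : ∀ w ∈ D, δ ≤ w.re := by
    rintro _ ⟨x, hx, rfl⟩
    rw [prof_re]
    exact hax x hx
  have hpos : ∀ w ∈ D, 0 < w.re := fun w hw => hδ.trans_le (hD w hw)
  set e : E m := EuclideanSpace.single ⟨0, hm⟩ 1 with hedef
  have he : ‖e‖ = 1 := by rw [hedef]; simp
  have hsec : ∀ x : X m, ‖(sec e (prof x)).1‖ = ‖x.1‖ ∧ (sec e (prof x)).2 = x.2 := by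
    intro x
    refine ⟨?_, prof_im x⟩
    show ‖(prof x).re • e‖ = ‖x.1‖
    rw [norm_smul, he, mul_one, prof_re, norm_norm]
  have hDo : IsOpen D := by
    have : D = {w : ℂ | 0 < w.re} ∩ sec e ⁻¹' W := by
      apply Subset.antisymm
      · rintro _ ⟨x, hx, rfl⟩
        exact ⟨hpos _ ⟨x, hx, rfl⟩, hr x _ (hsec x).1.symm (hsec x).2.symm hx⟩
      · rintro w ⟨hw0, hw⟩
        exact ⟨sec e w, hw, prof_sec he hw0⟩
    rw [this]
    exact (isOpen_lt continuous_const Complex.continuous_re).inter (hWo.preimage (sec_cont e))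
  have hDc : IsConnected D := hc.image _ continuous_prof.continuousOn
  have hDb : Bornology.IsBounded D :=
    (hb.isCompact_closure.image continuous_prof).isBounded.subset (image_mono subset_closure)
  have hfr : frontier W = prof ⁻¹' frontier D := by
    rw [hWD]
    exact rev_frontier hDo hδ hD
  have hcl : closure W = prof ⁻¹' closure D := by
    rw [hWD]
    exact rev_closure hδ hD
  have hΓe : prof ⁻¹' (prof '' Γ) = Γ := rotSet_eq hΓr
  have hΓ' : OpenInBdry D (prof '' Γ) := by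
    refine ⟨sec e ⁻¹' O, hO.preimage (sec_cont e), ?_⟩
    apply Subset.antisymm
    · rintro _ ⟨x, hx, rfl⟩
      have hx2 : sec e (prof x) ∈ Γ := hΓr x _ (hsec x).1.symm (hsec x).2.symm hx
      rw [hΓO] at hx hx2
      refine ⟨hx2.1, ?_⟩
      have := hx.2
      rw [hfr] at this
      exact this
    · rintro w ⟨hwO, hwf⟩
      have hw0 : 0 < w.re := by
        have hclo : IsClosed {w : ℂ | δ ≤ w.re} := isClosed_le continuous_const Complex.continuous_re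
        have : δ ≤ w.re := closure_minimal hD hclo (frontier_subset_closure hwf)
        linarith
      refine ⟨sec e w, ?_, prof_sec he hw0⟩
      rw [hΓO, hfr]
      refine ⟨hwO, ?_⟩
      rw [mem_preimage, prof_sec he hw0]
      exact hwf
  have hne' : (prof '' Γ ∩ closure (closure D)ᶜ).Nonempty := by
    obtain ⟨x, hx1, hx2⟩ := hne
    refine ⟨prof x, ⟨x, hx1, rfl⟩, map_mem_closure continuous_prof hx2 ?_⟩
    intro y hy hy2
    apply hy
    rw [hcl]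
    exact hy2
  have hWm : MeasurableSet W := hWo.measurableSet
  have red : ∀ γ : X m → ℝ, IsCondN W γ → IsProd W γ → ∃ (a' : E m → ℝ) (g' : ℂ → ℝ), IsConductivity D g' ∧
      AEStronglyMeasurable a' (sE m) ∧ (∃ c C : ℝ, 0 < c ∧ ∀ᵐ ω ∂(sE m), c ≤ a' ω ∧ a' ω ≤ C) ∧
      ∀ x ∈ W, γ x = a' (om x) * g' (prof x) := by
    rintro γ hγ ⟨a, g, hg, hag⟩
    have hγ' : IsCondN (rev m D) γ := by
      rw [← hWD]
      exact hγ
    have hprod : ∀ x ∈ rev m D, γ x = a (om x) * (fun w => g (sec e w)) (prof x) := by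
      intro x hx
      rw [← hWD] at hx
      have hx2 : g x = g (sec e (prof x)) :=
        hg x hx _ (hr x _ (hsec x).1.symm (hsec x).2.symm hx) (hsec x).1.symm (hsec x).2.symm
      rw [hag x hx, hx2]
      rfl
    obtain ⟨a', g', k1, k2, k3, k4⟩ := sep_norm (g := fun w => g (sec e w)) hm hDo hDc.nonempty hpos hγ' hprod
    exact ⟨a', g', k1, k2, k3, fun x hx => k4 x (by rw [← hWD]; exact hx)⟩
  obtain ⟨a₁, g₁, k1, k2, k3, k4⟩ := red γ₁ h1 r1
  obtain ⟨a₂, g₂, l1, l2, l3, l4⟩ := red γ₂ h2 r2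
  have hloc := sym_congr (γ₁' := fun x => a₁ (om x) * g₁ (prof x)) (γ₂' := fun x => a₂ (om x) * g₂ (prof x)) hWm k4 l4 h
  have hmain := mainSep hm hDo hDc hDb hΓ' hne' hδ hD k1 l1 k2 l2 k3 l3 (by rw [hΓe, ← hWD]; exact hloc)
  rw [← hWD] at hmain
  filter_upwards [hmain, ae_restrict_mem hWm] with x hx hxW
  rw [k4 x hxW, l4 x hxW]
  exact hx

/-- The theorem for product conductivities. -/
theorem sep_thm (hm : 1 ≤ m) {W Γ : Set (X m)} (hWo : IsOpen W) (hc : IsConnected W) (hb : Bornology.IsBounded W)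
    (hr : RotSet W) (hax : ∃ δ : ℝ, 0 < δ ∧ ∀ x ∈ W, δ ≤ ‖x.1‖)
    (hΓ : Γ = frontier W ∨
      ((∃ O : Set (X m), IsOpen O ∧ Γ = O ∩ frontier W) ∧ RotSet Γ ∧ (Γ ∩ closure (closure W)ᶜ).Nonempty))
    {γ₁ γ₂ : X m → ℝ} (h1 : IsCondN W γ₁) (h2 : IsCondN W γ₂) (r1 : IsProd W γ₁) (r2 : IsProd W γ₂)
    (h : SameSymDN W Γ γ₁ γ₂) : γ₁ =ᵐ[volume.restrict W] γ₂ := by
  have hΓ' : (∃ O : Set (X m), IsOpen O ∧ Γ = O ∩ frontier W) ∧ RotSet Γ ∧ (Γ ∩ closure (closure W)ᶜ).Nonempty := by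
    rcases hΓ with rfl | hΓ
    · exact frontier_ok hWo hc hb hr hax
    · exact hΓ
  exact sep_local hm hWo hc hb hr hax hΓ'.1 hΓ'.2.1 hΓ'.2.2 h1 h2 r1 r2 h

end

end RotCalderon
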