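import Pool.Agent.Lib.MP_70bd98_an.Trans

/-! # Slices of test functions and the weak equation -/

open MeasureTheory Complex Metric Set LocalCalderon
open scoped ENNReal Topology

namespace RotCalderon

noncomputable section

variable {m : ℕ}

/-- The lift of a vector field in the half plane to a radial vector field. -/
def liftG (G : ℂ → ℂ) (x : X m) : X m := (((G (prof x)).re / ‖x.1‖) • x.1, (G (prof x)).im)

theorem dotN_gradN (φ : X m → ℝ) (x v : X m) : dotN (gradN φ x) v = fderiv ℝ φ x v := by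
  unfold dotN gradN
  rw [InnerProductSpace.toDual_symm_apply]
  have h1 : fderiv ℝ φ x (0, 1) * v.2 = fderiv ℝ φ x (0, v.2) := by
    have : ((0 : E m), v.2) = v.2 • ((0 : E m), (1 : ℝ)) := by simp
    rw [this, map_smul, smul_eq_mul, mul_comm]
  simp only [h1, ContinuousLinearMap.comp_apply, ContinuousLinearMap.inl_apply]
  rw [← map_add]
  simp

theorem dotN_comm (a b : X m) : dotN a b = dotN b a := by
  unfold dotN
  rw [real_inner_comm, mul_comm]

theorem continuous_prof : Continuous (prof (m := m)) := by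
  unfold prof
  fun_prop

/-- The linear map `w ↦ (Re w · ω, Im w)`. -/
def Lw (ω : Sp m) : ℂ →L[ℝ] X m := (Complex.reCLM.smulRight (ω : E m)).prod Complex.imCLM

theorem Lw_apply (ω : Sp m) (w : ℂ) : Lw ω w = Psi (ω, w) := rfl

theorem slice {D : Set ℂ} {δ : ℝ} (hδ : 0 < δ) (hD : ∀ w ∈ D, δ ≤ w.re) {φ : X m → ℝ}
    (hφ : IsTestN (rev m D) φ) (ω : Sp m) : ∃ ψ : ℂ → ℝ, IsTest D ψ ∧ ∀ w ∈ D, ψ w = φ (Psi (ω, w)) ∧
      grad ψ w = ((fderiv ℝ φ (Psi (ω, w)) ((ω : E m), 0) : ℝ) : ℂ) + I * ((fderiv ℝ φ (Psi (ω, w)) (0, 1) : ℝ) : ℂ) := by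
  obtain ⟨h1, h2, h3⟩ := hφ
  set ψ : ℂ → ℝ := fun w => Real.smoothTransition (2 * w.re / δ) * φ (Lw ω w) with hψ
  have hK : IsCompact (prof '' tsupport φ) := h2.isCompact.image continuous_prof
  have hsupp : Function.support ψ ⊆ prof '' tsupport φ := by
    intro w hw
    have hw' : Real.smoothTransition (2 * w.re / δ) * φ (Lw ω w) ≠ 0 := hw
    have hre : 0 < w.re := by
      by_contra hcon
      apply hw'
      rw [Real.smoothTransition.zero_of_nonpos, zero_mul]
      exact div_nonpos_of_nonpos_of_nonneg (by linarith [not_lt.1 hcon]) hδ.le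
    refine ⟨Lw ω w, subset_tsupport _ (fun hcon => hw' (by rw [hcon, mul_zero])), ?_⟩
    rw [Lw_apply, prof_Psi ω hre]
  have hts : tsupport ψ ⊆ prof '' tsupport φ := closure_minimal hsupp hK.isClosed
  have hloc : ∀ w ∈ D, ψ =ᶠ[𝓝 w] fun w => φ (Lw ω w) := by
    intro w hw
    have : {z : ℂ | δ / 2 < z.re} ∈ 𝓝 w :=
      (isOpen_lt continuous_const Complex.continuous_re).mem_nhds (by
        show δ / 2 < w.re
        linarith [hD w hw])
    filter_upwards [this] with z hz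
    have hz' : δ / 2 < z.re := hz
    have : 1 ≤ 2 * z.re / δ := by rw [le_div_iff₀ hδ]; linarith
    simp only [hψ]
    rw [Real.smoothTransition.one_of_one_le this, one_mul]
  refine ⟨ψ, ⟨?_, ?_, ?_⟩, fun w hw => ⟨(hloc w hw).self_of_nhds, ?_⟩⟩
  · refine ContDiff.mul ?_ (h1.comp (Lw ω).contDiff)
    have : ContDiff ℝ (⊤ : ℕ∞) fun w : ℂ => 2 * w.re / δ :=
      (contDiff_const.mul Complex.reCLM.contDiff).div_const _
    exact Real.smoothTransition.contDiff.comp this
  · exact HasCompactSupport.of_support_subset_isCompact hK hsupp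
  · refine hts.trans ?_
    rintro _ ⟨x, hx, rfl⟩
    exact h3 hx
  · have hd : DifferentiableAt ℝ φ (Lw ω w) := (h1.differentiable (by simp)).differentiableAt
    have hf : fderiv ℝ ψ w = (fderiv ℝ φ (Lw ω w)).comp (Lw ω) := by
      rw [(hloc w hw).fderiv_eq]
      exact (hd.hasFDerivAt.comp w (Lw ω).hasFDerivAt).fderiv
    unfold grad
    rw [hf]
    have e1 : Lw ω 1 = ((ω : E m), 0) := by
      rw [Lw_apply]; simp [Psi]
    have e2 : Lw ω I = (0, 1) := by
      rw [Lw_apply]; simp [Psi]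
    simp only [ContinuousLinearMap.comp_apply, e1, e2, Lw_apply]

theorem liftG_Psi (G : ℂ → ℂ) (ω : Sp m) {w : ℂ} (hw : 0 < w.re) :
    liftG G (Psi (ω, w)) = ((G w).re • (ω : E m), (G w).im) := by
  have h1 : ‖(ω : E m)‖ = 1 := by simpa using ω.2
  unfold liftG
  rw [prof_Psi ω hw]
  simp only [Psi, norm_smul, h1, Real.norm_eq_abs, abs_of_pos hw, mul_one, smul_smul]
  rw [div_mul_cancel₀ _ hw.ne']

theorem eqn (hm : 1 ≤ m) {D : Set ℂ} (hDm : MeasurableSet D) {δ : ℝ} (hδ : 0 < δ) (hD : ∀ w ∈ D, δ ≤ w.re)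
    (g : ℂ → ℝ) (G : ℂ → ℂ) (h : ∀ ψ : ℂ → ℝ, IsTest D ψ → ∫ w in D, (g w * w.re ^ (m - 1)) * dot (G w) (grad ψ w) = 0)
    (φ : X m → ℝ) (hφ : IsTestN (rev m D) φ) :
    ∫ x in rev m D, g (prof x) * dotN (liftG G x) (gradN φ x) = 0 := by
  have hpos : ∀ w ∈ D, 0 < w.re := fun w hw => hδ.trans_le (hD w hw)
  refine int_zero hm hDm hpos _ fun ω => ?_
  obtain ⟨ψ, hψ, hψ2⟩ := slice hδ hD hφ ω
  rw [← h ψ hψ]
  refine setIntegral_congr_fun hDm fun w hw => ?_
  have hw' := hpos w hw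
  rw [prof_Psi ω hw', liftG_Psi G ω hw', dotN_comm, dotN_gradN, (hψ2 w hw).2]
  have e1 : fderiv ℝ φ (Psi (ω, w)) ((G w).re • (ω : E m), (G w).im)
      = (G w).re * fderiv ℝ φ (Psi (ω, w)) ((ω : E m), 0) + (G w).im * fderiv ℝ φ (Psi (ω, w)) (0, 1) := by
    have : ((G w).re • (ω : E m), (G w).im) = (G w).re • ((ω : E m), (0 : ℝ)) + (G w).im • ((0 : E m), (1 : ℝ)) := by
      simp
    rw [this, map_add, map_smul, map_smul, smul_eq_mul, smul_eq_mul]
  rw [e1]
  simp only [dot, Complex.add_re, Complex.add_im, Complex.ofReal_re, Complex.ofReal_im, Complex.mul_re, Complex.mul_im,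
    Complex.I_re, Complex.I_im]
  ring

end

end RotCalderon
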