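import Pool.Agent.Lib.MP_70bd98_an.Prof

/-! # Transfer of integrals and norms -/

open MeasureTheory Complex Metric Set
open scoped ENNReal

namespace RotCalderon

noncomputable section

variable {m : ℕ}

theorem int_nuD {D : Set ℂ} (hD : MeasurableSet D) (hpos : ∀ w ∈ D, 0 < w.re) (F : ℂ → ℝ) :
    ∫ w, F w ∂(nuD m D) = ∫ w in D, w.re ^ (m - 1) * F w := by
  rw [nuD, integral_withDensity_eq_integral_toReal_smul (by fun_prop) (by simp)]
  refine integral_congr_ae ?_
  filter_upwards [ae_restrict_mem hD] with w hw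
  have : 0 ≤ w.re ^ (m - 1) := pow_nonneg (hpos w hw).le _
  rw [ENNReal.toReal_ofReal this, smul_eq_mul]

theorem quasi (hm : 1 ≤ m) {D : Set ℂ} (hD : MeasurableSet D) (hpos : ∀ w ∈ D, 0 < w.re) :
    Measure.QuasiMeasurePreserving prof ((volume : Measure (X m)).restrict (rev m D)) (volume.restrict D) := by
  refine ⟨measurable_prof, ?_⟩
  rw [map_prof hm hD hpos]
  exact Measure.smul_absolutelyContinuous.trans (withDensity_absolutelyContinuous _ _)

theorem le_meas (hm : 1 ≤ m) {D : Set ℂ} (hD : MeasurableSet D) (hb : Bornology.IsBounded D) (hpos : ∀ w ∈ D, 0 < w.re) :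
    ∃ M : ℝ≥0∞, M ≠ ∞ ∧ Measure.map prof ((volume : Measure (X m)).restrict (rev m D)) ≤ M • (volume.restrict D) := by
  obtain ⟨R, hR⟩ := hb.exists_norm_le
  refine ⟨sig m univ * ENNReal.ofReal (R ^ (m - 1)), ENNReal.mul_ne_top (measure_ne_top _ _) ENNReal.ofReal_ne_top, ?_⟩
  rw [map_prof hm hD hpos, mul_smul]
  have h1 : nuD m D ≤ ENNReal.ofReal (R ^ (m - 1)) • (volume.restrict D) := by
    rw [← withDensity_const]
    refine withDensity_mono ?_
    filter_upwards [ae_restrict_mem hD] with w hw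
    refine ENNReal.ofReal_le_ofReal (pow_le_pow_left₀ (hpos w hw).le ?_ _)
    exact (le_abs_self _).trans ((Complex.abs_re_le_norm w).trans (hR w hw))
  intro s
  rw [Measure.smul_apply, Measure.smul_apply]
  exact mul_le_mul_right (h1 s) _

theorem eL {F : Type*} [NormedAddCommGroup F] (hm : 1 ≤ m) {D : Set ℂ} (hD : MeasurableSet D) (hpos : ∀ w ∈ D, 0 < w.re)
    {M : ℝ≥0∞} (hM : Measure.map prof ((volume : Measure (X m)).restrict (rev m D)) ≤ M • (volume.restrict D))
    (f : ℂ → F) (hf : AEStronglyMeasurable f (volume.restrict D)) :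
    eLpNorm (fun x => f (prof x)) 2 ((volume : Measure (X m)).restrict (rev m D)) ≤
      M ^ (1 / (2 : ℝ≥0∞)).toReal * eLpNorm f 2 (volume.restrict D) := by
  have h1 := eLpNorm_map_measure (p := 2) (hf.mono_ac (quasi (m := m) hm hD hpos).absolutelyContinuous)
    (measurable_prof (m := m)).aemeasurable
  change eLpNorm (f ∘ prof) 2 _ ≤ _
  rw [← h1]
  refine (eLpNorm_mono_measure f hM).trans ?_
  rw [eLpNorm_smul_measure_of_ne_top (by simp)]
  exact le_of_eq (smul_eq_mul _ _)

theorem int_rev (hm : 1 ≤ m) {D : Set ℂ} (hD : MeasurableSet D) (hpos : ∀ w ∈ D, 0 < w.re) (F : ℂ → ℝ)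
    (hF : AEStronglyMeasurable F (volume.restrict D)) :
    ∫ x in rev m D, F (prof x) = (sig m univ).toReal * ∫ w in D, w.re ^ (m - 1) * F w := by
  have h1 := integral_map (measurable_prof (m := m)).aemeasurable
    (hF.mono_ac (quasi (m := m) hm hD hpos).absolutelyContinuous)
  rw [← h1, map_prof hm hD hpos, integral_smul_measure, int_nuD hD hpos, smul_eq_mul]

theorem int_zero (hm : 1 ≤ m) {D : Set ℂ} (hD : MeasurableSet D) (hpos : ∀ w ∈ D, 0 < w.re) (f : X m → ℝ)
    (h : ∀ ω : Sp m, ∫ w in D, w.re ^ (m - 1) * f (Psi (ω, w)) = 0) :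
    ∫ x in rev m D, f x = 0 := by
  by_cases hf : Integrable f ((volume : Measure (X m)).restrict (rev m D))
  · rw [restrict_rev hm hD hpos] at hf ⊢
    rw [integral_map measurable_Psi.aemeasurable hf.1]
    have h2 : Integrable (fun p : Sp m × ℂ => f (Psi p)) ((sig m).prod (nuD m D)) :=
      hf.comp_measurable measurable_Psi
    rw [integral_prod _ h2]
    have h3 : ∀ ω : Sp m, ∫ w, f (Psi (ω, w)) ∂(nuD m D) = 0 := fun ω => by
      rw [int_nuD hD hpos]; exact h ω
    simp only [h3, integral_zero]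
  · exact integral_undef hf

end

end RotCalderon
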